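import Pool.Agent.PenroseConvex.Stmts
import Pool.Agent.PenroseSph.Calc

/-!
# Transformation of the Christoffel symbols under a change of coordinates
-/

open MeasureTheory Filter Topology
open scoped ContDiff

namespace Pool.Agent.PenroseConvex

open Pool.Agent.PenroseSph

namespace COVC

/-- The value of a functional on `E3` in terms of its values on the basis. -/
theorem clm_apply (L : E3 →L[ℝ] ℝ) (v : E3) :
    L v = ∑ c, L (EuclideanSpace.single c 1) * v c := by
  have hv : v = ∑ c, v c • (EuclideanSpace.single c (1 : ℝ) : E3) := by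
    ext i
    simp [Finset.sum_apply, Pi.single_apply]
  conv_lhs => rw [hv]
  rw [map_sum]
  refine Finset.sum_congr rfl fun c _ => ?_
  rw [map_smul, smul_eq_mul, mul_comm]

/-- The components of the derivative are the partial derivatives of the components. -/
theorem fderiv_coord {Φ : E3 → E3} {x : E3} (h : DifferentiableAt ℝ Φ x) (v : E3) (c : Fin 3) :
    (fderiv ℝ Φ x v) c = fderiv ℝ (fun y => Φ y c) x v := by
  have h1 : HasFDerivAt (fun y => Φ y c)
      ((EuclideanSpace.proj c : E3 →L[ℝ] ℝ).comp (fderiv ℝ Φ x)) x :=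
    (EuclideanSpace.proj c : E3 →L[ℝ] ℝ).hasFDerivAt.comp x h.hasFDerivAt
  rw [h1.fderiv]
  rfl

/-- The chain rule. -/
theorem pd_comp {f : E3 → ℝ} {Φ : E3 → E3} {x : E3} (hf : DifferentiableAt ℝ f (Φ x))
    (hΦ : DifferentiableAt ℝ Φ x) (k : Fin 3) :
    pd k (fun y => f (Φ y)) x = ∑ c, pd c f (Φ x) * jac Φ x c k := by
  unfold pd
  have h1 : HasFDerivAt (fun y => f (Φ y)) ((fderiv ℝ f (Φ x)).comp (fderiv ℝ Φ x)) x :=
    hf.hasFDerivAt.comp x hΦ.hasFDerivAt
  rw [h1.fderiv, ContinuousLinearMap.comp_apply, clm_apply]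
  refine Finset.sum_congr rfl fun c _ => ?_
  rw [fderiv_coord hΦ]
  rfl

theorem coord_contDiffAt {Φ : E3 → E3} {x : E3} (h : ContDiffAt ℝ ∞ Φ x) (a : Fin 3) :
    ContDiffAt ℝ ∞ (fun y => Φ y a) x :=
  (EuclideanSpace.proj a : E3 →L[ℝ] ℝ).contDiff.contDiffAt.comp x h

theorem pd_contDiffAt {f : E3 → ℝ} {x : E3} (h : ContDiffAt ℝ ∞ f x) (i : Fin 3) :
    ContDiffAt ℝ ∞ (pd i f) x := by
  have h1 : ContDiffAt ℝ ∞ (fderiv ℝ f) x := h.fderiv_right (m := ∞) (by simp)
  exact h1.clm_apply contDiffAt_const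

/-- Symmetry of the second derivatives. -/
theorem pd_comm {f : E3 → ℝ} {x : E3} (h : ContDiffAt ℝ ∞ f x) (i j : Fin 3) :
    pd i (pd j f) x = pd j (pd i f) x := by
  have hs : IsSymmSndFDerivAt ℝ f x := h.isSymmSndFDerivAt (by
    rw [minSmoothness_of_isRCLikeNormedField]
    exact WithTop.coe_le_coe.2 le_top)
  have hd : DifferentiableAt ℝ (fderiv ℝ f) x :=
    (h.fderiv_right (m := ∞) (by simp)).differentiableAt (by simp)
  have key : ∀ v w : E3, fderiv ℝ (fun y => fderiv ℝ f y v) x w = fderiv ℝ (fderiv ℝ f) x w v := by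
    intro v w
    have h1 : HasFDerivAt (fun y => fderiv ℝ f y v)
        ((ContinuousLinearMap.apply ℝ ℝ v).comp (fderiv ℝ (fderiv ℝ f) x)) x :=
      (ContinuousLinearMap.apply ℝ ℝ v).hasFDerivAt.comp x hd.hasFDerivAt
    rw [h1.fderiv]
    rfl
  unfold pd
  rw [key, key]
  exact hs _ _

/-- The derivatives of the components of a pull-back. -/
theorem pd_pullback {Φ : E3 → E3} {G g : TensorField} {x : E3} (h : ChangeAt Φ G g x)
    (k i j : Fin 3) :
    pd k (fun y => g y i j) x = ∑ b, ∑ a,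
      (pd k (pd i (fun y => Φ y a)) x * G (Φ x) a b * jac Φ x b j
        + jac Φ x a i * (∑ c, pd c (fun y => G y a b) (Φ x) * jac Φ x c k) * jac Φ x b j
        + jac Φ x a i * G (Φ x) a b * pd k (pd j (fun y => Φ y b)) x) := by
  have hΦd : DifferentiableAt ℝ Φ x := h.smooth.differentiableAt (by simp)
  have hJd : ∀ a i, DifferentiableAt ℝ (pd i (fun y => Φ y a)) x := fun a i =>
    (pd_contDiffAt (coord_contDiffAt h.smooth a) i).differentiableAt (by simp)
  have hGd' : ∀ a b, DifferentiableAt ℝ (fun y => G y a b) (Φ x) := fun a b =>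
    (h.smooth_G a b).differentiableAt (by simp)
  have hGd : ∀ a b, DifferentiableAt ℝ (fun y => G (Φ y) a b) x := fun a b =>
    DifferentiableAt.comp x (f := Φ) (g := fun y => G y a b) (hGd' a b) hΦd
  have e : (fun y => g y i j) =ᶠ[𝓝 x] fun y => ∑ b, ∑ a,
      (pd i (fun y => Φ y a) y * G (Φ y) a b) * pd j (fun y => Φ y b) y := by
    filter_upwards [h.eq] with y hy
    rw [hy, pullback, Matrix.mul_apply]
    refine Finset.sum_congr rfl fun b _ => ?_
    rw [Matrix.mul_apply, Finset.sum_mul]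
    rfl
  rw [pd_congr e, pd_sum]
  · refine Finset.sum_congr rfl fun b _ => ?_
    rw [pd_sum]
    · refine Finset.sum_congr rfl fun a _ => ?_
      rw [pd_mul ((hJd a i).fun_mul (hGd a b)) (hJd b j), pd_mul (hJd a i) (hGd a b),
        pd_comp (f := fun y => G y a b) (hGd' a b) hΦd]
      simp only [jac, Matrix.of_apply]
      ring
    · intro a _
      exact ((hJd a i).fun_mul (hGd a b)).fun_mul (hJd b j)
  · intro b _
    refine DifferentiableAt.fun_sum fun a _ => ?_
    exact ((hJd a i).fun_mul (hGd a b)).fun_mul (hJd b j)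

/-- The algebraic identity. -/
theorem alg (J G : Matrix (Fin 3) (Fin 3) ℝ) (P : Fin 3 → Fin 3 → Fin 3 → ℝ)
    (D : Fin 3 → Fin 3 → Fin 3 → ℝ) (dg : Fin 3 → Fin 3 → Fin 3 → ℝ)
    (hP : ∀ a i j, P a i j = P a j i) (hG : ∀ a b, G a b = G b a)
    (hdg : ∀ k i j, dg k i j = ∑ b, ∑ a, (P a k i * G a b * J b j
      + J a i * (∑ c, D c a b * J c k) * J b j + J a i * G a b * P b k j)) (i j l : Fin 3) :
    dg i j l + dg j i l - dg l i j = ∑ m, J m l * (2 * (∑ b, G m b * P b i j)
      + ∑ b, ∑ c, (D b c m + D c b m - D m b c) * J b i * J c j) := by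
  simp only [hdg, Fin.sum_univ_three]
  rw [hP 0 l i, hP 1 l i, hP 2 l i, hP 0 l j, hP 1 l j, hP 2 l j, hP 0 j i, hP 1 j i, hP 2 j i,
    hG 1 0, hG 2 0, hG 2 1]
  ring

end COVC

open COVC in
theorem COVC : Stmt_COVC := by
  intro Φ G g x h a i j
  have hgx : g x = pullback Φ G x := h.eq.self_of_nhds
  have hGs : (G (Φ x)).IsSymm := h.symm_G.self_of_nhds
  have hJu : IsUnit (jac Φ x).det := isUnit_iff_ne_zero.2 h.det_jac
  have hJtu : IsUnit (jac Φ x).transpose.det := by rwa [Matrix.det_transpose]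
  have hGu : IsUnit (G (Φ x)).det := isUnit_iff_ne_zero.2 h.det_G
  have hinv : jac Φ x * (g x)⁻¹ * (jac Φ x).transpose = (G (Φ x))⁻¹ := by
    rw [hgx, pullback, Matrix.mul_inv_rev, Matrix.mul_inv_rev, ← Matrix.mul_assoc,
      ← Matrix.mul_assoc, Matrix.mul_nonsing_inv _ hJu, Matrix.one_mul, Matrix.mul_assoc,
      Matrix.nonsing_inv_mul _ hJtu, Matrix.mul_one]
  -- the vector `T`
  set T : Fin 3 → ℝ := fun m => 2 * (∑ b, G (Φ x) m b * pd i (pd j (fun y => Φ y b)) x)
      + ∑ b, ∑ c, (pd b (fun y => G y c m) (Φ x) + pd c (fun y => G y b m) (Φ x)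
        - pd m (fun y => G y b c) (Φ x)) * jac Φ x b i * jac Φ x c j with hT
  have hS : ∀ l, pd i (fun y => g y j l) x + pd j (fun y => g y i l) x
      - pd l (fun y => g y i j) x = ((jac Φ x).transpose.mulVec T) l := by
    intro l
    have := alg (jac Φ x) (G (Φ x)) (fun a k i => pd k (pd i (fun y => Φ y a)) x)
      (fun c a b => pd c (fun y => G y a b) (Φ x)) (fun k i j => pd k (fun y => g y i j) x)
      (fun a i j => pd_comm (coord_contDiffAt h.smooth a) i j)
      (fun a b => (hGs.apply b a).symm ▸ rfl) (fun k i j => pd_pullback h k i j) i j l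
    simpa [Matrix.mulVec, dotProduct] using this
  have hL : ∑ k, jac Φ x a k * christoffel g k i j x
      = (1 / 2) * (((jac Φ x * (g x)⁻¹ * (jac Φ x).transpose).mulVec T) a) := by
    rw [← Matrix.mulVec_mulVec, ← Matrix.mulVec_mulVec]
    simp only [christoffel, hS]
    simp only [Matrix.mulVec, dotProduct]
    rw [Finset.mul_sum]
    refine Finset.sum_congr rfl fun k _ => ?_
    ring
  have hR : ((G (Φ x))⁻¹.mulVec T) a = 2 * pd i (pd j (fun y => Φ y a)) x
      + ∑ m, (G (Φ x))⁻¹ a m * ∑ b, ∑ c, (pd b (fun y => G y c m) (Φ x)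
        + pd c (fun y => G y b m) (Φ x)
        - pd m (fun y => G y b c) (Φ x)) * jac Φ x b i * jac Φ x c j := by
    have h1 : T = (2 : ℝ) • ((G (Φ x)).mulVec fun b => pd i (pd j (fun y => Φ y b)) x)
        + fun m => ∑ b, ∑ c, (pd b (fun y => G y c m) (Φ x) + pd c (fun y => G y b m) (Φ x)
          - pd m (fun y => G y b c) (Φ x)) * jac Φ x b i * jac Φ x c j := by
      funext m
      simp [hT, Matrix.mulVec, dotProduct]
    rw [h1, Matrix.mulVec_add, Matrix.mulVec_smul, Matrix.mulVec_mulVec,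
      Matrix.nonsing_inv_mul _ hGu, Matrix.one_mulVec]
    simp [Matrix.mulVec, dotProduct]
  rw [hL, hinv, hR]
  have hC : ∑ b, ∑ c, christoffel G a b c (Φ x) * jac Φ x b i * jac Φ x c j
      = (1 / 2) * ∑ m, (G (Φ x))⁻¹ a m * ∑ b, ∑ c, (pd b (fun y => G y c m) (Φ x)
        + pd c (fun y => G y b m) (Φ x)
        - pd m (fun y => G y b c) (Φ x)) * jac Φ x b i * jac Φ x c j := by
    simp only [christoffel, Fin.sum_univ_three]
    ring
  rw [hC]
  ring

end Pool.Agent.PenroseConvex
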