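import Pool.Agent.PenroseConvex.Stmts
import Pool.Agent.PenroseSph.Calc

/-! # Change of coordinates: Christoffel symbols and scalar curvature -/

open MeasureTheory Filter Topology
open scoped ContDiff

namespace Pool.Agent.PenroseConvex

open Pool.Agent.PenroseSph

namespace CovR

/-! ### Calculus -/

theorem pd_chain (Φ : E3 → E3) (F : E3 → ℝ) (x : E3) (i : Fin 3)
    (hF : DifferentiableAt ℝ F (Φ x)) (hΦ : DifferentiableAt ℝ Φ x) :
    pd i (fun y => F (Φ y)) x = ∑ a, pd a F (Φ x) * pd i (fun y => Φ y a) x := by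
  unfold pd
  have h1 : fderiv ℝ (fun y => F (Φ y)) x = (fderiv ℝ F (Φ x)).comp (fderiv ℝ Φ x) :=
    fderiv_comp x hF hΦ
  rw [h1, ContinuousLinearMap.comp_apply]
  have h2 : ∀ a, fderiv ℝ (fun y => Φ y a) x (EuclideanSpace.single i 1) =
      (fderiv ℝ Φ x (EuclideanSpace.single i 1)) a := by
    intro a
    have h3 : (fun y => Φ y a) = fun y => (EuclideanSpace.proj a : E3 →L[ℝ] ℝ) (Φ y) := rfl
    rw [h3]
    have h4 : fderiv ℝ (fun y => (EuclideanSpace.proj a : E3 →L[ℝ] ℝ) (Φ y)) x =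
        (EuclideanSpace.proj a : E3 →L[ℝ] ℝ).comp (fderiv ℝ Φ x) :=
      ((EuclideanSpace.proj a : E3 →L[ℝ] ℝ).hasFDerivAt.comp x hΦ.hasFDerivAt).fderiv
    rw [h4]
    rfl
  simp only [h2]
  set v := fderiv ℝ Φ x (EuclideanSpace.single i 1) with hv
  have h5 : v = ∑ a, v a • EuclideanSpace.single a (1 : ℝ) := by
    ext b
    simp [Finset.sum_apply, Pi.single_apply]
  conv_lhs => rw [h5]
  rw [map_sum]
  refine Finset.sum_congr rfl fun a _ => ?_
  rw [map_smul, smul_eq_mul, mul_comm]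

theorem contDiffAt_pd {f : E3 → ℝ} {x : E3} {n m : WithTop ℕ∞} (hf : ContDiffAt ℝ m f x)
    (hnm : n + 1 ≤ m) (i : Fin 3) : ContDiffAt ℝ n (pd i f) x := by
  have h1 : ContDiffAt ℝ n (fderiv ℝ f) x := hf.fderiv_right hnm
  exact h1.clm_apply contDiffAt_const

theorem pd_comm {f : E3 → ℝ} {x : E3} (hf : ContDiffAt ℝ 2 f x) (i j : Fin 3) :
    pd i (pd j f) x = pd j (pd i f) x := by
  have h1 : DifferentiableAt ℝ (fderiv ℝ f) x :=
    (hf.fderiv_right (m := 1) (by norm_num)).differentiableAt (by norm_num)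
  have h2 : ∀ i j, pd i (pd j f) x =
      fderiv ℝ (fderiv ℝ f) x (EuclideanSpace.single i 1) (EuclideanSpace.single j 1) := by
    intro i j
    unfold pd
    rw [fderiv_clm_apply h1 (differentiableAt_const _)]
    simp
  rw [h2, h2]
  exact (hf.isSymmSndFDerivAt (by simp)) _ _

/-- Differentiability of the entries of the inverse matrix. -/
theorem differentiableAt_inv {M : E3 → Matrix (Fin 3) (Fin 3) ℝ} {x : E3}
    (hM : ∀ i j, DifferentiableAt ℝ (fun y => M y i j) x) (hdet : (M x).det ≠ 0)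
    (k l : Fin 3) : DifferentiableAt ℝ (fun y => (M y)⁻¹ k l) x := by
  have hd : DifferentiableAt ℝ (fun y => (M y).det) x := by
    simp only [Matrix.det_fin_three]
    fun_prop (disch := assumption)
  have ha : DifferentiableAt ℝ (fun y => (M y).adjugate k l) x := by
    simp only [Matrix.adjugate_fin_three]
    fin_cases k <;> fin_cases l <;>
      simp <;> fun_prop
  have h1 : (fun y => (M y)⁻¹ k l) = fun y => ((M y).det)⁻¹ * (M y).adjugate k l := by
    funext y
    rw [Matrix.inv_def, Ring.inverse_eq_inv', Matrix.smul_apply, smul_eq_mul]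
  rw [h1]
  exact (hd.inv hdet).mul ha

/-! ### Christoffel symbols -/

/-- The hypotheses needed at one point. -/
structure Chg (Φ : E3 → E3) (G g : TensorField) (x : E3) : Prop where
  smooth : ContDiffAt ℝ 2 Φ x
  smooth_G : ∀ i j, DifferentiableAt ℝ (fun y => G y i j) (Φ x)
  symm_G : ∀ᶠ y in 𝓝 (Φ x), (G y).IsSymm
  det_G : (G (Φ x)).det ≠ 0
  det_jac : (jac Φ x).det ≠ 0
  eq : ∀ᶠ y in 𝓝 x, g y = pullback Φ G y

theorem contDiffAt_comp {Φ : E3 → E3} {x : E3} {n : WithTop ℕ∞} (h : ContDiffAt ℝ n Φ x)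
    (a : Fin 3) : ContDiffAt ℝ n (fun y => Φ y a) x :=
  (contDiffAt_euclidean.1 h) a

/-- The second derivatives of `Φ`. -/
noncomputable def D2 (Φ : E3 → E3) (a i j : Fin 3) (x : E3) : ℝ := pd i (pd j (fun y => Φ y a)) x

theorem D2_symm {Φ : E3 → E3} {x : E3} (h : ContDiffAt ℝ 2 Φ x) (a i j : Fin 3) :
    D2 Φ a i j x = D2 Φ a j i x := pd_comm (contDiffAt_comp h a) i j

theorem pd_jac {Φ : E3 → E3} {x : E3} (a i j : Fin 3) :
    pd i (fun y => jac Φ y a j) x = D2 Φ a i j x := rfl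

theorem differentiableAt_jac {Φ : E3 → E3} {x : E3} (h : ContDiffAt ℝ 2 Φ x) (a j : Fin 3) :
    DifferentiableAt ℝ (fun y => jac Φ y a j) x :=
  (contDiffAt_pd (contDiffAt_comp h a) (n := 1) (by norm_num) j).differentiableAt (by norm_num)

theorem pullback_apply (Φ : E3 → E3) (G : TensorField) (y : E3) (i j : Fin 3) :
    pullback Φ G y i j = ∑ a, ∑ b, jac Φ y a i * G (Φ y) a b * jac Φ y b j := by
  rw [pullback, Matrix.mul_apply, Finset.sum_comm]
  refine Finset.sum_congr rfl fun b _ => ?_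
  rw [Matrix.mul_apply, Finset.sum_mul]
  rfl

/-- The derivative of the metric. -/
theorem pd_metric {Φ : E3 → E3} {G g : TensorField} {x : E3} (h : Chg Φ G g x) (k i j : Fin 3) :
    pd k (fun y => g y i j) x = ∑ a, ∑ b, (D2 Φ a k i x * G (Φ x) a b * jac Φ x b j
      + jac Φ x a i * (∑ c, pd c (fun z => G z a b) (Φ x) * jac Φ x c k) * jac Φ x b j
      + jac Φ x a i * G (Φ x) a b * D2 Φ b k j x) := by
  have hΦ : DifferentiableAt ℝ Φ x := h.smooth.differentiableAt (by norm_num)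
  have h1 : (fun y => g y i j) =ᶠ[𝓝 x]
      fun y => ∑ a, ∑ b, jac Φ y a i * G (Φ y) a b * jac Φ y b j := by
    filter_upwards [h.eq] with y hy
    rw [hy, pullback_apply]
  rw [pd_congr h1]
  have hJ : ∀ a i, DifferentiableAt ℝ (fun y => jac Φ y a i) x := differentiableAt_jac h.smooth
  have hG : ∀ a b, DifferentiableAt ℝ (fun y => G (Φ y) a b) x := fun a b =>
    (h.smooth_G a b).comp x hΦ
  have hT : ∀ a b, DifferentiableAt ℝ (fun y => jac Φ y a i * G (Φ y) a b * jac Φ y b j) x :=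
    fun a b => ((hJ a i).mul (hG a b)).mul (hJ b j)
  rw [pd_sum Finset.univ (fun a y => ∑ b, jac Φ y a i * G (Φ y) a b * jac Φ y b j)
    fun a _ => DifferentiableAt.fun_sum fun b _ => hT a b]
  refine Finset.sum_congr rfl fun a _ => ?_
  rw [pd_sum Finset.univ (fun b y => jac Φ y a i * G (Φ y) a b * jac Φ y b j) fun b _ => hT a b]
  refine Finset.sum_congr rfl fun b _ => ?_
  have hab : DifferentiableAt ℝ (fun y => jac Φ y a i * G (Φ y) a b) x := (hJ a i).mul (hG a b)
  rw [pd_mul hab (hJ b j), pd_mul (hJ a i) (hG a b), pd_jac, pd_jac,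
    pd_chain Φ (fun z => G z a b) x k (h.smooth_G a b) hΦ]
  have h2 : ∀ c, pd k (fun y => Φ y c) x = jac Φ x c k := fun c => rfl
  simp only [h2]
  ring

/-- The vector `R^a`. -/
noncomputable def RR (Φ : E3 → E3) (G : TensorField) (x : E3) (i j : Fin 3) : Fin 3 → ℝ := fun a =>
  (∑ b, ∑ c, christoffel G a b c (Φ x) * jac Φ x b i * jac Φ x c j) + D2 Φ a i j x

theorem inv_symm {M : Matrix (Fin 3) (Fin 3) ℝ} (h : M.IsSymm) (i j : Fin 3) :
    M⁻¹ i j = M⁻¹ j i := by
  have h1 : M⁻¹.transpose = M⁻¹ := by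
    rw [Matrix.transpose_nonsing_inv, h.eq]
  conv_lhs => rw [← h1]
  rfl

/-- Lowering the index of a Christoffel symbol. -/
theorem lower (G : TensorField) (X : E3) (hdet : (G X).det ≠ 0) (c a b : Fin 3) :
    ∑ d, G X c d * christoffel G d a b X = (1 / 2) * (pd a (fun y => G y b c) X
      + pd b (fun y => G y a c) X - pd c (fun y => G y a b) X) := by
  have h1 : ∀ c l, ∑ d, G X c d * (G X)⁻¹ d l = if c = l then 1 else 0 := by
    intro c l
    have h2 := congrFun (congrFun (Matrix.mul_nonsing_inv (G X) (Ne.isUnit hdet)) c) l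
    rw [Matrix.mul_apply, Matrix.one_apply] at h2
    exact h2
  unfold christoffel
  have h3 : ∑ d, G X c d * (1 / 2 * ∑ l, (G X)⁻¹ d l * (pd a (fun y => G y b l) X
      + pd b (fun y => G y a l) X - pd l (fun y => G y a b) X)) =
      1 / 2 * ∑ l, (∑ d, G X c d * (G X)⁻¹ d l) * (pd a (fun y => G y b l) X
      + pd b (fun y => G y a l) X - pd l (fun y => G y a b) X) := by
    simp only [Finset.mul_sum, Finset.sum_mul]
    rw [Finset.sum_comm]
    refine Finset.sum_congr rfl fun l _ => Finset.sum_congr rfl fun d _ => ?_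
    ring
  rw [h3]
  simp only [h1]
  simp

theorem alg1 (J g : Fin 3 → Fin 3 → ℝ) (dg D : Fin 3 → Fin 3 → Fin 3 → ℝ)
    (hs : ∀ a b, g a b = g b a) (hD : ∀ a i j, D a i j = D a j i)
    (hsG : ∀ c a b, dg c a b = dg c b a) (i j l : Fin 3) :
    1 / 2 * ((∑ a, ∑ b, (D a i j * g a b * J b l + J a j * (∑ c, dg c a b * J c i) * J b l
        + J a j * g a b * D b i l))
      + (∑ a, ∑ b, (D a j i * g a b * J b l + J a i * (∑ c, dg c a b * J c j) * J b l
        + J a i * g a b * D b j l))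
      - (∑ a, ∑ b, (D a l i * g a b * J b j + J a i * (∑ c, dg c a b * J c l) * J b j
        + J a i * g a b * D b l j))) =
    ∑ c, J c l * ((∑ a, ∑ b, (1 / 2) * (dg a b c + dg b a c - dg c a b) * J a i * J b j)
      + ∑ d, g c d * D d i j) := by
  have h1 : ∀ a, D a j i = D a i j := fun a => hD a j i
  have h2 : ∀ a, D a l i = D a i l := fun a => hD a l i
  have h3 : ∀ a, D a l j = D a j l := fun a => hD a l j
  simp only [Fin.sum_univ_three, h1, h2, h3]
  rw [hs 1 0, hs 2 0, hs 2 1]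
  simp only [hsG _ 1 0, hsG _ 2 0, hsG _ 2 1]
  ring

/-- The lowered Christoffel symbols of `g`. -/
theorem low_g {Φ : E3 → E3} {G g : TensorField} {x : E3} (h : Chg Φ G g x) (i j l : Fin 3) :
    1 / 2 * (pd i (fun y => g y j l) x + pd j (fun y => g y i l) x - pd l (fun y => g y i j) x) =
      ∑ c, jac Φ x c l * ∑ d, G (Φ x) c d * RR Φ G x i j d := by
  have hs : ∀ a b, G (Φ x) a b = G (Φ x) b a := fun a b => h.symm_G.self_of_nhds.apply b a
  have hD : ∀ a i j, D2 Φ a i j x = D2 Φ a j i x := fun a i j => D2_symm h.smooth a i j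
  have hsG : ∀ c a b, pd c (fun z => G z a b) (Φ x) = pd c (fun z => G z b a) (Φ x) := by
    intro c a b
    refine pd_congr ?_
    filter_upwards [h.symm_G] with z hz
    exact hz.apply b a
  have hR : ∀ c, ∑ d, G (Φ x) c d * RR Φ G x i j d =
      (∑ a, ∑ b, (1 / 2) * (pd a (fun y => G y b c) (Φ x) + pd b (fun y => G y a c) (Φ x)
        - pd c (fun y => G y a b) (Φ x)) * jac Φ x a i * jac Φ x b j)
        + ∑ d, G (Φ x) c d * D2 Φ d i j x := by
    intro c
    have h1 : ∑ d, G (Φ x) c d * RR Φ G x i j d =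
        (∑ a, ∑ b, (∑ d, G (Φ x) c d * christoffel G d a b (Φ x)) * jac Φ x a i * jac Φ x b j)
        + ∑ d, G (Φ x) c d * D2 Φ d i j x := by
      simp only [RR, mul_add, Finset.sum_add_distrib, Finset.mul_sum, Finset.sum_mul]
      congr 1
      rw [Finset.sum_comm]
      refine Finset.sum_congr rfl fun a _ => ?_
      rw [Finset.sum_comm]
      refine Finset.sum_congr rfl fun b _ => Finset.sum_congr rfl fun d _ => ?_
      ring
    rw [h1]
    simp only [lower G (Φ x) h.det_G]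
  simp only [hR]
  rw [pd_metric h, pd_metric h, pd_metric h]
  exact alg1 (fun a b => jac Φ x a b) (fun a b => G (Φ x) a b)
    (fun c a b => pd c (fun z => G z a b) (Φ x)) (fun a i j => D2 Φ a i j x) hs hD hsG i j l

/-- `J g⁻¹ Jᵀ G = 1`. -/
theorem inv_pull (J G : Matrix (Fin 3) (Fin 3) ℝ) (hJ : J.det ≠ 0) (_hG : G.det ≠ 0) :
    J * (J.transpose * G * J)⁻¹ * J.transpose = G⁻¹ := by
  have hJ' : IsUnit J.det := Ne.isUnit hJ
  have hJt : IsUnit J.transpose.det := by rw [Matrix.det_transpose]; exact hJ'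
  rw [Matrix.mul_inv_rev, Matrix.mul_inv_rev]
  calc J * (J⁻¹ * (G⁻¹ * J.transpose⁻¹)) * J.transpose
      = (J * J⁻¹) * G⁻¹ * (J.transpose⁻¹ * J.transpose) := by
        simp only [Matrix.mul_assoc]
    _ = G⁻¹ := by
        rw [Matrix.mul_nonsing_inv _ hJ', Matrix.nonsing_inv_mul _ hJt, Matrix.one_mul,
          Matrix.mul_one]

/-- The transformation of the Christoffel symbols. -/
theorem covC {Φ : E3 → E3} {G g : TensorField} {x : E3} (h : Chg Φ G g x) (a i j : Fin 3) :
    ∑ k, jac Φ x a k * christoffel g k i j x = RR Φ G x i j a := by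
  have hg : g x = (jac Φ x).transpose * G (Φ x) * jac Φ x := h.eq.self_of_nhds
  have h1 : ∀ k, christoffel g k i j x = ∑ l, (g x)⁻¹ k l *
      (1 / 2 * (pd i (fun y => g y j l) x + pd j (fun y => g y i l) x
        - pd l (fun y => g y i j) x)) := by
    intro k
    unfold christoffel
    rw [Finset.mul_sum]
    exact Finset.sum_congr rfl fun l _ => by ring
  have h2 : ∀ k, christoffel g k i j x =
      ((g x)⁻¹.mulVec ((jac Φ x).transpose.mulVec ((G (Φ x)).mulVec (RR Φ G x i j)))) k := by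
    intro k
    rw [h1]
    simp only [low_g h]
    rfl
  have h3 : ∑ k, jac Φ x a k * christoffel g k i j x =
      ((jac Φ x).mulVec ((g x)⁻¹.mulVec ((jac Φ x).transpose.mulVec
        ((G (Φ x)).mulVec (RR Φ G x i j))))) a := by
    simp only [h2]
    rfl
  rw [h3, Matrix.mulVec_mulVec, Matrix.mulVec_mulVec, hg, inv_pull _ _ h.det_jac h.det_G,
    Matrix.mulVec_mulVec, Matrix.nonsing_inv_mul _ (Ne.isUnit h.det_G), Matrix.one_mulVec]

/-! ### Curvature -/

theorem S_eq (J : Fin 3 → Fin 3 → ℝ) (Ga Gb D : Fin 3 → Fin 3 → Fin 3 → ℝ)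
    (h1 : ∀ a i j, ∑ k, J a k * Ga k i j = (∑ b, ∑ c, Gb a b c * J b i * J c j) + D a i j)
    (a l i j : Fin 3) :
    ∑ k, Ga k i j * D a l k = (∑ k, ∑ m, J a m * Ga m l k * Ga k i j)
      - (∑ b, ∑ c, Gb a b c * J b l * ∑ d, ∑ e, Gb c d e * J d i * J e j)
      - ∑ b, ∑ c, Gb a b c * J b l * D c i j := by
  have h2 : ∀ k, D a l k = (∑ m, J a m * Ga m l k) - ∑ b, ∑ c, Gb a b c * J b l * J c k := by
    intro k
    rw [h1]
    ring
  have h3 : ∑ b, ∑ c, Gb a b c * J b l * (∑ k, J c k * Ga k i j) =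
      (∑ b, ∑ c, Gb a b c * J b l * ∑ d, ∑ e, Gb c d e * J d i * J e j)
      + ∑ b, ∑ c, Gb a b c * J b l * D c i j := by
    simp only [h1, mul_add, Finset.sum_add_distrib]
  have h4 : ∑ k, Ga k i j * D a l k = (∑ k, ∑ m, J a m * Ga m l k * Ga k i j)
      - ∑ b, ∑ c, Gb a b c * J b l * (∑ k, J c k * Ga k i j) := by
    simp only [h2, Fin.sum_univ_three]
    ring
  rw [h4, h3]
  ring

theorem alg2 (J : Fin 3 → Fin 3 → ℝ) (Ga Gb D : Fin 3 → Fin 3 → Fin 3 → ℝ)
    (dGa dGb : Fin 3 → Fin 3 → Fin 3 → Fin 3 → ℝ)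
    (h1 : ∀ a i j, ∑ k, J a k * Ga k i j = (∑ b, ∑ c, Gb a b c * J b i * J c j) + D a i j)
    (hD : ∀ a i j, D a i j = D a j i) (hG : ∀ a b c, Gb a b c = Gb a c b)
    (a i l j : Fin 3) (T T' : ℝ) (hTT : T = T')
    (hT : T = (∑ k, (J a k * dGa l k i j + Ga k i j * D a l k))
      - ∑ b, ∑ c, ((∑ d, dGb d a b c * J d l) * J b i * J c j + Gb a b c * D b l i * J c j
        + Gb a b c * J b i * D c l j))
    (hT' : T' = (∑ k, (J a k * dGa j k i l + Ga k i l * D a j k))
      - ∑ b, ∑ c, ((∑ d, dGb d a b c * J d j) * J b i * J c l + Gb a b c * D b j i * J c l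
        + Gb a b c * J b i * D c j l)) :
    ∑ k, J a k * (dGa l k i j - dGa j k i l + ∑ m, (Ga k l m * Ga m i j - Ga k j m * Ga m i l)) =
      ∑ b, ∑ d, ∑ c, (dGb d a b c - dGb c a b d
        + ∑ e, (Gb a d e * Gb e b c - Gb a c e * Gb e b d)) * J b i * J d l * J c j := by
  have e1 : ∑ b, ∑ c, Gb a b c * J b i * D c l j = ∑ b, ∑ c, Gb a b c * J b i * D c j l := by
    refine Finset.sum_congr rfl fun b _ => Finset.sum_congr rfl fun c _ => ?_
    rw [hD c l j]
  have e2 : ∀ l j, ∑ b, ∑ c, Gb a b c * J b l * D c i j = ∑ b, ∑ c, Gb a b c * D b j i * J c l := by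
    intro l j
    rw [Finset.sum_comm]
    refine Finset.sum_congr rfl fun b _ => Finset.sum_congr rfl fun c _ => ?_
    rw [hG a c b, hD b i j]
    ring
  have s1 := S_eq J Ga Gb D h1 a l i j
  have s2 := S_eq J Ga Gb D h1 a j i l
  have s3 : ∑ b, ∑ d, ∑ c, (dGb d a b c - dGb c a b d
        + ∑ e, (Gb a d e * Gb e b c - Gb a c e * Gb e b d)) * J b i * J d l * J c j =
      (∑ b, ∑ c, (∑ d, dGb d a b c * J d l) * J b i * J c j)
      - (∑ b, ∑ c, (∑ d, dGb d a b c * J d j) * J b i * J c l)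
      + (∑ b, ∑ c, Gb a b c * J b l * ∑ d, ∑ e, Gb c d e * J d i * J e j)
      - (∑ b, ∑ c, Gb a b c * J b j * ∑ d, ∑ e, Gb c d e * J d i * J e l) := by
    simp only [Fin.sum_univ_three]
    ring
  have s4 : ∑ k, J a k * (dGa l k i j - dGa j k i l
        + ∑ m, (Ga k l m * Ga m i j - Ga k j m * Ga m i l)) =
      (∑ k, J a k * dGa l k i j) - (∑ k, J a k * dGa j k i l)
      + (∑ k, ∑ m, J a m * Ga m l k * Ga k i j) - (∑ k, ∑ m, J a m * Ga m j k * Ga k i l) := by
    simp only [Fin.sum_univ_three]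
    ring
  simp only [Finset.sum_add_distrib] at hT hT'
  rw [s3, s4]
  have e3 := e2 l j
  have e4 := e2 j l
  linarith

theorem le1 : (1 : WithTop ℕ∞) ≤ ∞ :=
  show ((1 : ℕ∞) : WithTop ℕ∞) ≤ ((⊤ : ℕ∞) : WithTop ℕ∞) from WithTop.coe_le_coe.2 le_top

theorem le2 : (2 : WithTop ℕ∞) ≤ ∞ :=
  show ((2 : ℕ∞) : WithTop ℕ∞) ≤ ((⊤ : ℕ∞) : WithTop ℕ∞) from WithTop.coe_le_coe.2 le_top

theorem le3 : (3 : WithTop ℕ∞) ≤ ∞ :=
  show ((3 : ℕ∞) : WithTop ℕ∞) ≤ ((⊤ : ℕ∞) : WithTop ℕ∞) from WithTop.coe_le_coe.2 le_top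

theorem continuousAt_det {M : E3 → Matrix (Fin 3) (Fin 3) ℝ} {x : E3}
    (hM : ∀ i j, ContinuousAt (fun y => M y i j) x) : ContinuousAt (fun y => (M y).det) x := by
  simp only [Matrix.det_fin_three]
  fun_prop

theorem chg_eventually {Φ : E3 → E3} {G g : TensorField} {x : E3} (h : ChangeAt Φ G g x) :
    ∀ᶠ y in 𝓝 x, Chg Φ G g y := by
  have hΦ2 : ContDiffAt ℝ 2 Φ x := h.smooth.of_le le2
  have hcont : ContinuousAt Φ x := h.smooth.continuousAt
  have h1 : ∀ᶠ y in 𝓝 x, ContDiffAt ℝ 2 Φ y := hΦ2.eventually (by simp)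
  have h2 : ∀ᶠ y in 𝓝 x, ∀ i j, DifferentiableAt ℝ (fun z => G z i j) (Φ y) := by
    refine hcont.eventually (eventually_all.2 fun i => eventually_all.2 fun j => ?_)
    have h3 : ContDiffAt ℝ 1 (fun z => G z i j) (Φ x) :=
      (h.smooth_G i j).of_le le1
    exact (h3.eventually (by simp)).mono fun z hz => hz.differentiableAt (by norm_num)
  have h3 : ∀ᶠ y in 𝓝 x, ∀ᶠ z in 𝓝 (Φ y), (G z).IsSymm :=
    hcont.eventually (eventually_eventually_nhds.2 h.symm_G)
  have hGc : ∀ i j, ContinuousAt (fun y => G (Φ y) i j) x := fun i j =>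
    ContinuousAt.comp (f := Φ) (g := fun z => G z i j) (h.smooth_G i j).continuousAt hcont
  have h4 : ∀ᶠ y in 𝓝 x, (G (Φ y)).det ≠ 0 :=
    ContinuousAt.eventually_ne (continuousAt_det (M := fun y => G (Φ y)) hGc) h.det_G
  have hJc : ∀ i j, ContinuousAt (fun y => jac Φ y i j) x := fun i j =>
    (differentiableAt_jac hΦ2 i j).continuousAt
  have h5 : ∀ᶠ y in 𝓝 x, (jac Φ y).det ≠ 0 := by
    refine ContinuousAt.eventually_ne ?_ h.det_jac
    simp only [Matrix.det_fin_three]
    fun_prop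
  filter_upwards [h1, h2, h3, h4, h5, eventually_eventually_nhds.2 h.eq] with y a1 a2 a3 a4 a5 a6
  exact ⟨a1, a2, a3, a4, a5, a6⟩

/-- Christoffel symbols are differentiable. -/
theorem differentiableAt_christoffel {G : TensorField} {X : E3}
    (hG : ∀ i j, ContDiffAt ℝ 2 (fun y => G y i j) X) (hdet : (G X).det ≠ 0) (a b c : Fin 3) :
    DifferentiableAt ℝ (christoffel G a b c) X := by
  have h1 : ∀ i j, DifferentiableAt ℝ (fun y => G y i j) X := fun i j =>
    (hG i j).differentiableAt (by norm_num)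
  have h2 : ∀ k i j, DifferentiableAt ℝ (pd k (fun y => G y i j)) X := fun k i j =>
    (contDiffAt_pd (hG i j) (n := 1) (by norm_num) k).differentiableAt (by norm_num)
  have h3 : ∀ k l, DifferentiableAt ℝ (fun y => (G y)⁻¹ k l) X := differentiableAt_inv h1 hdet
  have h4 : ∀ l, DifferentiableAt ℝ (fun y => (G y)⁻¹ a l * (pd b (fun y => G y c l) y
      + pd c (fun y => G y b l) y - pd l (fun y => G y b c) y)) X := fun l =>
    (h3 a l).mul (((h2 b c l).add (h2 c b l)).sub (h2 l b c))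
  have h5 : DifferentiableAt ℝ (fun y => ∑ l, (G y)⁻¹ a l * (pd b (fun y => G y c l) y
      + pd c (fun y => G y b l) y - pd l (fun y => G y b c) y)) X :=
    DifferentiableAt.fun_sum fun l _ => h4 l
  exact h5.const_mul (1 / 2)

theorem differentiableAt_D2 {Φ : E3 → E3} {x : E3} (h : ContDiffAt ℝ 3 Φ x) (a i j : Fin 3) :
    DifferentiableAt ℝ (D2 Φ a i j) x := by
  have h1 : ContDiffAt ℝ 2 (pd j (fun y => Φ y a)) x :=
    contDiffAt_pd (contDiffAt_comp h a) (by norm_num) j
  exact (contDiffAt_pd h1 (n := 1) (by norm_num) i).differentiableAt (by norm_num)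

theorem differentiableAt_chrisComp {Φ : E3 → E3} {G g : TensorField} {x : E3}
    (h : ChangeAt Φ G g x) (a b c : Fin 3) :
    DifferentiableAt ℝ (fun y => christoffel G a b c (Φ y)) x := by
  have h1 := differentiableAt_christoffel
    (fun i j => (h.smooth_G i j).of_le le2) h.det_G a b c
  exact DifferentiableAt.comp (f := Φ) (g := christoffel G a b c) x h1
    (h.smooth.differentiableAt (by simp))

theorem differentiableAt_RR {Φ : E3 → E3} {G g : TensorField} {x : E3}
    (h : ChangeAt Φ G g x) (a i j : Fin 3) :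
    DifferentiableAt ℝ (fun y => RR Φ G y i j a) x := by
  have hΦ2 : ContDiffAt ℝ 2 Φ x := h.smooth.of_le le2
  have hΦ3 : ContDiffAt ℝ 3 Φ x := h.smooth.of_le le3
  have h1 := differentiableAt_chrisComp h
  have h2 := differentiableAt_jac hΦ2
  have h3 := differentiableAt_D2 hΦ3 a i j
  unfold RR
  refine DifferentiableAt.add (DifferentiableAt.fun_sum fun b _ =>
    DifferentiableAt.fun_sum fun c _ => ?_) h3
  exact ((h1 a b c).mul (h2 b i)).mul (h2 c j)

/-- The Christoffel symbols of `g` are differentiable. -/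
theorem differentiableAt_chg {Φ : E3 → E3} {G g : TensorField} {x : E3}
    (h : ChangeAt Φ G g x) (k i j : Fin 3) :
    DifferentiableAt ℝ (christoffel g k i j) x := by
  have hΦ2 : ContDiffAt ℝ 2 Φ x := h.smooth.of_le le2
  have h1 : ∀ k l, DifferentiableAt ℝ (fun y => (jac Φ y)⁻¹ k l) x :=
    differentiableAt_inv (differentiableAt_jac hΦ2) h.det_jac
  have h2 : christoffel g k i j =ᶠ[𝓝 x] fun y => ∑ a, (jac Φ y)⁻¹ k a * RR Φ G y i j a := by
    filter_upwards [chg_eventually h] with y hy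
    have h3 : (jac Φ y).mulVec (fun k => christoffel g k i j y) = RR Φ G y i j := by
      funext a
      exact covC hy a i j
    have h4 : (jac Φ y)⁻¹.mulVec (RR Φ G y i j) = fun k => christoffel g k i j y := by
      rw [← h3, Matrix.mulVec_mulVec, Matrix.nonsing_inv_mul _ (Ne.isUnit hy.det_jac),
        Matrix.one_mulVec]
    exact (congrFun h4 k).symm
  refine DifferentiableAt.congr_of_eventuallyEq ?_ h2
  exact DifferentiableAt.fun_sum fun a _ => (h1 k a).mul (differentiableAt_RR h a i j)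

/-- The third derivatives of `Φ`. -/
theorem third {Φ : E3 → E3} {G g : TensorField} {x : E3}
    (h : ChangeAt Φ G g x) (a l i j : Fin 3) :
    pd l (D2 Φ a i j) x = (∑ k, (jac Φ x a k * pd l (christoffel g k i j) x
        + christoffel g k i j x * D2 Φ a l k x))
      - ∑ b, ∑ c, ((∑ d, pd d (christoffel G a b c) (Φ x) * jac Φ x d l) * jac Φ x b i * jac Φ x c j
        + christoffel G a b c (Φ x) * D2 Φ b l i x * jac Φ x c j
        + christoffel G a b c (Φ x) * jac Φ x b i * D2 Φ c l j x) := by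
  have hΦ2 : ContDiffAt ℝ 2 Φ x := h.smooth.of_le le2
  have hJ := differentiableAt_jac hΦ2
  have hg := differentiableAt_chg h
  have hG := differentiableAt_chrisComp h
  have hΦ : DifferentiableAt ℝ Φ x := h.smooth.differentiableAt (by simp)
  have hGX := differentiableAt_christoffel
    (fun i j => (h.smooth_G i j).of_le le2) h.det_G
  have h1 : D2 Φ a i j =ᶠ[𝓝 x] fun y => (∑ k, jac Φ y a k * christoffel g k i j y)
      - ∑ b, ∑ c, christoffel G a b c (Φ y) * jac Φ y b i * jac Φ y c j := by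
    filter_upwards [chg_eventually h] with y hy
    rw [covC hy a i j, RR]
    ring
  have hT1 : ∀ k, DifferentiableAt ℝ (fun y => jac Φ y a k * christoffel g k i j y) x :=
    fun k => (hJ a k).mul (hg k i j)
  have hT2 : ∀ b c, DifferentiableAt ℝ
      (fun y => christoffel G a b c (Φ y) * jac Φ y b i) x := fun b c => (hG a b c).mul (hJ b i)
  have hT3 : ∀ b c, DifferentiableAt ℝ
      (fun y => christoffel G a b c (Φ y) * jac Φ y b i * jac Φ y c j) x :=
    fun b c => (hT2 b c).mul (hJ c j)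
  rw [pd_congr h1, pd_sub (f := fun y => ∑ k, jac Φ y a k * christoffel g k i j y)
    (f' := fun y => ∑ b, ∑ c, christoffel G a b c (Φ y) * jac Φ y b i * jac Φ y c j)
    (DifferentiableAt.fun_sum fun k _ => hT1 k)
    (DifferentiableAt.fun_sum fun b _ => DifferentiableAt.fun_sum fun c _ => hT3 b c)]
  congr 1
  · rw [pd_sum Finset.univ (fun k y => jac Φ y a k * christoffel g k i j y) fun k _ => hT1 k]
    refine Finset.sum_congr rfl fun k _ => ?_
    rw [pd_mul (hJ a k) (hg k i j), pd_jac]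
  · rw [pd_sum Finset.univ (fun b y => ∑ c, christoffel G a b c (Φ y) * jac Φ y b i * jac Φ y c j)
      fun b _ => DifferentiableAt.fun_sum fun c _ => hT3 b c]
    refine Finset.sum_congr rfl fun b _ => ?_
    rw [pd_sum Finset.univ (fun c y => christoffel G a b c (Φ y) * jac Φ y b i * jac Φ y c j)
      fun c _ => hT3 b c]
    refine Finset.sum_congr rfl fun c _ => ?_
    rw [pd_mul (hT2 b c) (hJ c j), pd_mul (hG a b c) (hJ b i), pd_jac, pd_jac,
      pd_chain Φ (christoffel G a b c) x l (hGX a b c) hΦ]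
    have h2 : ∀ d, pd l (fun y => Φ y d) x = jac Φ x d l := fun d => rfl
    simp only [h2]
    ring

theorem third_comm {Φ : E3 → E3} {x : E3} (h : ContDiffAt ℝ 3 Φ x) (a l i j : Fin 3) :
    pd l (D2 Φ a i j) x = pd j (D2 Φ a i l) x := by
  set f : E3 → ℝ := fun y => Φ y a with hf
  have hf3 : ContDiffAt ℝ 3 f x := contDiffAt_comp h a
  have hf2 : ∀ k, ContDiffAt ℝ 2 (pd k f) x := fun k => contDiffAt_pd hf3 (by norm_num) k
  have hev : ∀ᶠ y in 𝓝 x, ContDiffAt ℝ 2 f y :=
    (hf3.of_le (by norm_num)).eventually (by simp)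
  change pd l (pd i (pd j f)) x = pd j (pd i (pd l f)) x
  rw [pd_comm (hf2 j) l i, ← pd_comm (hf2 l) i j]
  refine pd_congr ?_
  filter_upwards [hev] with y hy
  exact pd_comm hy l j

/-- Christoffel symbols are symmetric. -/
theorem christoffel_symm {G : TensorField} {X : E3} (h : ∀ᶠ y in 𝓝 X, (G y).IsSymm)
    (a b c : Fin 3) : christoffel G a b c X = christoffel G a c b X := by
  unfold christoffel
  congr 1
  refine Finset.sum_congr rfl fun l _ => ?_
  have h1 : pd l (fun y => G y b c) X = pd l (fun y => G y c b) X := by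
    refine pd_congr ?_
    filter_upwards [h] with y hy
    exact hy.apply c b
  rw [h1]
  ring

/-- The transformation of the curvature tensor. -/
theorem riem {Φ : E3 → E3} {G g : TensorField} {x : E3} (h : ChangeAt Φ G g x)
    (a i l j : Fin 3) :
    ∑ k, jac Φ x a k * (pd l (christoffel g k i j) x - pd j (christoffel g k i l) x
        + ∑ m, (christoffel g k l m x * christoffel g m i j x
          - christoffel g k j m x * christoffel g m i l x)) =
      ∑ b, ∑ d, ∑ c, (pd d (christoffel G a b c) (Φ x) - pd c (christoffel G a b d) (Φ x)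
        + ∑ e, (christoffel G a d e (Φ x) * christoffel G e b c (Φ x)
          - christoffel G a c e (Φ x) * christoffel G e b d (Φ x)))
        * jac Φ x b i * jac Φ x d l * jac Φ x c j := by
  have hΦ2 : ContDiffAt ℝ 2 Φ x := h.smooth.of_le le2
  have hΦ3 : ContDiffAt ℝ 3 Φ x := h.smooth.of_le le3
  have hc := (chg_eventually h).self_of_nhds
  exact alg2 (fun a k => jac Φ x a k) (fun k i j => christoffel g k i j x)
    (fun a b c => christoffel G a b c (Φ x)) (fun a i j => D2 Φ a i j x)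
    (fun l k i j => pd l (christoffel g k i j) x)
    (fun d a b c => pd d (christoffel G a b c) (Φ x))
    (fun a i j => covC hc a i j) (fun a i j => D2_symm hΦ2 a i j)
    (fun a b c => christoffel_symm h.symm_G a b c) a i l j _ _ (third_comm hΦ3 a l i j)
    (third h a l i j) (third h a j i l)

/-- The transformation of the Ricci tensor. -/
theorem ricci_change {Φ : E3 → E3} {G g : TensorField} {x : E3} (h : ChangeAt Φ G g x)
    (i j : Fin 3) :
    ricci g i j x = ∑ b, ∑ c, ricci G b c (Φ x) * jac Φ x b i * jac Φ x c j := by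
  have hJ : ∀ l k, ∑ a, (jac Φ x)⁻¹ l a * jac Φ x a k = if l = k then 1 else 0 := by
    intro l k
    have h2 := congrFun (congrFun (Matrix.nonsing_inv_mul (jac Φ x) (Ne.isUnit h.det_jac)) l) k
    rw [Matrix.mul_apply, Matrix.one_apply] at h2
    exact h2
  have hJ' : ∀ d a, ∑ l, jac Φ x d l * (jac Φ x)⁻¹ l a = if d = a then 1 else 0 := by
    intro d a
    have h2 := congrFun (congrFun (Matrix.mul_nonsing_inv (jac Φ x) (Ne.isUnit h.det_jac)) d) a
    rw [Matrix.mul_apply, Matrix.one_apply] at h2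
    exact h2
  let Rg : Fin 3 → Fin 3 → ℝ := fun k l => pd l (christoffel g k i j) x
    - pd j (christoffel g k i l) x + ∑ m, (christoffel g k l m x * christoffel g m i j x
          - christoffel g k j m x * christoffel g m i l x)
  let RG : Fin 3 → Fin 3 → Fin 3 → Fin 3 → ℝ := fun a b d c =>
    pd d (christoffel G a b c) (Φ x) - pd c (christoffel G a b d) (Φ x)
        + ∑ e, (christoffel G a d e (Φ x) * christoffel G e b c (Φ x)
          - christoffel G a c e (Φ x) * christoffel G e b d (Φ x))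
  have h1 : ∀ a l, ∑ k, jac Φ x a k * Rg k l =
      ∑ b, ∑ d, ∑ c, RG a b d c * jac Φ x b i * jac Φ x d l * jac Φ x c j :=
    fun a l => riem h a i l j
  have h2 : ricci g i j x = ∑ l, Rg l l := rfl
  have h3 : ∀ b c, ricci G b c (Φ x) = ∑ a, RG a b a c := fun b c => rfl
  have h4 : ∑ l, ∑ a, (jac Φ x)⁻¹ l a * ∑ k, jac Φ x a k * Rg k l = ∑ l, Rg l l := by
    refine Finset.sum_congr rfl fun l _ => ?_
    have h5 : ∑ a, (jac Φ x)⁻¹ l a * ∑ k, jac Φ x a k * Rg k l =
        ∑ k, (∑ a, (jac Φ x)⁻¹ l a * jac Φ x a k) * Rg k l := by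
      simp only [Finset.mul_sum, Finset.sum_mul]
      rw [Finset.sum_comm]
      exact Finset.sum_congr rfl fun k _ => Finset.sum_congr rfl fun a _ => by ring
    rw [h5]
    simp only [hJ]
    simp
  have h6 : ∑ l, ∑ a, (jac Φ x)⁻¹ l a * (∑ b, ∑ d, ∑ c, RG a b d c * jac Φ x b i
      * jac Φ x d l * jac Φ x c j) = ∑ b, ∑ c, (∑ a, RG a b a c) * jac Φ x b i * jac Φ x c j := by
    have h7 : ∑ l, ∑ a, (jac Φ x)⁻¹ l a * (∑ b, ∑ d, ∑ c, RG a b d c * jac Φ x b i
        * jac Φ x d l * jac Φ x c j) = ∑ b, ∑ c, ∑ a, ∑ d, RG a b d c * jac Φ x b i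
        * jac Φ x c j * ∑ l, jac Φ x d l * (jac Φ x)⁻¹ l a := by
      simp only [Fin.sum_univ_three]
      ring
    rw [h7]
    simp only [hJ']
    refine Finset.sum_congr rfl fun b _ => Finset.sum_congr rfl fun c _ => ?_
    rw [Finset.sum_mul, Finset.sum_mul]
    refine Finset.sum_congr rfl fun a _ => ?_
    simp
  rw [h2, ← h4]
  simp only [h3]
  rw [← h6]
  simp only [h1]

/-- The statement COVC. -/
theorem stmtCOVC : Stmt_COVC := fun _ _ _ _ h a i j =>
  covC (chg_eventually h).self_of_nhds a i j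

end CovR

theorem COVR (_hCOVC : Stmt_COVC) : Stmt_COVR := by
  intro Φ G g x h
  have hg : g x = (jac Φ x).transpose * G (Φ x) * jac Φ x := h.eq.self_of_nhds
  have h1 := CovR.inv_pull (jac Φ x) (G (Φ x)) h.det_jac h.det_G
  rw [← hg] at h1
  have h2 : ∀ b c, ∑ i, ∑ j, jac Φ x b i * (g x)⁻¹ i j * jac Φ x c j = (G (Φ x))⁻¹ b c := by
    intro b c
    rw [← h1, Matrix.mul_apply, Finset.sum_comm]
    refine Finset.sum_congr rfl fun j _ => ?_
    rw [Matrix.mul_apply, Finset.sum_mul]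
    rfl
  unfold scalarCurvature
  have h3 : ∑ i, ∑ j, (g x)⁻¹ i j * ricci g i j x =
      ∑ i, ∑ j, (g x)⁻¹ i j * ∑ b, ∑ c, ricci G b c (Φ x) * jac Φ x b i * jac Φ x c j :=
    Finset.sum_congr rfl fun i _ => Finset.sum_congr rfl fun j _ => by
      rw [CovR.ricci_change h]
  have h4 : ∑ i, ∑ j, (g x)⁻¹ i j * ∑ b, ∑ c, ricci G b c (Φ x) * jac Φ x b i * jac Φ x c j =
      ∑ b, ∑ c, (∑ i, ∑ j, jac Φ x b i * (g x)⁻¹ i j * jac Φ x c j) * ricci G b c (Φ x) := by
    simp only [Fin.sum_univ_three]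
    ring
  rw [h3, h4]
  simp only [h2]

end Pool.Agent.PenroseConvex
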