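import Pool.Agent.PenroseConvex.Stmts
import Pool.Agent.PenroseSph.Calc

/-! # The scalar curvature of `δ + (M² - 1) dd ⊗ dd` at a point (module XR3) -/

open MeasureTheory Filter Topology
open scoped ContDiff

namespace Pool.Agent.PenroseConvex

open Pool.Agent.PenroseSph

namespace XR3

/-- `f` is differentiable at `x` with `∂_l f = f'`. -/
structure HP (l : Fin 3) (f : E3 → ℝ) (f' : ℝ) (x : E3) : Prop where
  diff : DifferentiableAt ℝ f x
  val : pd l f x = f'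

variable {l : Fin 3} {f g : E3 → ℝ} {f' g' : ℝ} {x : E3}

theorem HP.add (hf : HP l f f' x) (hg : HP l g g' x) :
    HP l (fun y => f y + g y) (f' + g') x :=
  ⟨hf.diff.add hg.diff, by rw [pd_add hf.diff hg.diff, hf.val, hg.val]⟩

theorem HP.sub (hf : HP l f f' x) (hg : HP l g g' x) :
    HP l (fun y => f y - g y) (f' - g') x :=
  ⟨hf.diff.sub hg.diff, by rw [pd_sub hf.diff hg.diff, hf.val, hg.val]⟩

theorem HP.mul (hf : HP l f f' x) (hg : HP l g g' x) :
    HP l (fun y => f y * g y) (f x * g' + g x * f') x :=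
  ⟨hf.diff.mul hg.diff, by rw [pd_mul hf.diff hg.diff, hf.val, hg.val]⟩

theorem HP.const (c : ℝ) : HP l (fun _ => c) 0 x := ⟨differentiableAt_const c, pd_const c⟩

theorem HP.inv (hf : HP l f f' x) (h0 : f x ≠ 0) :
    HP l (fun y => (f y)⁻¹) (-f' * ((f x)⁻¹ * (f x)⁻¹)) x := by
  refine ⟨hf.diff.inv h0, ?_⟩
  have h1 : pd l (fun y => (f y)⁻¹) x = -(f x ^ 2)⁻¹ * pd l f x := by
    have h2 : HasFDerivAt (fun y => (f y)⁻¹) ((-(f x ^ 2)⁻¹) • fderiv ℝ f x) x :=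
      (hasDerivAt_inv h0).comp_hasFDerivAt x hf.diff.hasFDerivAt
    unfold pd
    rw [h2.fderiv]
    rfl
  rw [h1, hf.val]
  field_simp

theorem HP.sq (hf : HP l f f' x) : HP l (fun y => f y ^ 2) (2 * f x * f') x := by
  have h := hf.mul hf
  refine ⟨?_, ?_⟩
  · have : (fun y => f y ^ 2) = fun y => f y * f y := by
      funext y
      ring
    rw [this]
    exact h.diff
  · have : (fun y => f y ^ 2) = fun y => f y * f y := by
      funext y
      ring
    rw [this, h.val]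
    ring

theorem HP.of_diff (h : DifferentiableAt ℝ f x) : HP l f (pd l f x) x := ⟨h, rfl⟩

theorem contDiffAt_pd {n m : WithTop ℕ∞} (hf : ContDiffAt ℝ n f x) (hmn : m + 1 ≤ n)
    (i : Fin 3) : ContDiffAt ℝ m (pd i f) x := by
  have h1 := hf.fderiv_right hmn
  exact h1.clm_apply contDiffAt_const

theorem pd_comm (hf : ContDiffAt ℝ 2 f x) (i j : Fin 3) : pd i (pd j f) x = pd j (pd i f) x := by
  have hs : IsSymmSndFDerivAt ℝ f x := hf.isSymmSndFDerivAt (by simp)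
  have hd : DifferentiableAt ℝ (fderiv ℝ f) x :=
    (hf.fderiv_right (m := 1) (by norm_num)).differentiableAt (by norm_num)
  have h1 : ∀ i j : Fin 3, pd i (pd j f) x =
      fderiv ℝ (fderiv ℝ f) x (EuclideanSpace.single i 1) (EuclideanSpace.single j 1) := by
    intro i j
    unfold pd
    rw [fderiv_clm_apply hd (differentiableAt_const _)]
    simp
  rw [h1, h1]
  exact hs.eq _ _

/-- The explicit inverse matrix. -/
theorem inv_eq {d M : E3 → ℝ} {Y : E3} (hM : M Y ≠ 0) (he : ∑ i, pd i d Y ^ 2 = 1) :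
    (xg d M Y)⁻¹ = Matrix.of fun i j =>
      dk i j - (M Y ^ 2 - 1) * (M Y)⁻¹ ^ 2 * (pd i d Y * pd j d Y) := by
  apply Matrix.inv_eq_right_inv
  have hG : (M Y ^ 2 - 1) * (M Y)⁻¹ ^ 2 * (1 + (M Y ^ 2 - 1)) = M Y ^ 2 - 1 := by
    field_simp
    try ring
  obtain ⟨G, hG'⟩ : ∃ G, G = (M Y ^ 2 - 1) * (M Y)⁻¹ ^ 2 := ⟨_, rfl⟩
  obtain ⟨F, hF⟩ : ∃ F, F = M Y ^ 2 - 1 := ⟨_, rfl⟩
  have hx : xg d M Y = Matrix.of fun i j => dk i j + F * (pd i d Y * pd j d Y) := by
    rw [hF]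
    rfl
  rw [← hG', ← hF] at hG
  rw [← hG', hx]
  rw [Fin.sum_univ_three] at he
  obtain ⟨m, hm⟩ : ∃ m : Fin 3 → ℝ, m = fun i => pd i d Y := ⟨_, rfl⟩
  have hm' : ∀ i, pd i d Y = m i := fun i => by rw [hm]
  simp only [hm'] at he ⊢
  have key : ∀ i j, ∑ k, (dk i k + F * (m i * m k)) * (dk k j - G * (m k * m j)) = dk i j := by
    intro i j
    rw [Fin.sum_univ_three]
    fin_cases i <;> fin_cases j <;> simp [dk] <;>
      first
      | linear_combination (-(m 0 * m 0)) * hG - F * G * (m 0 * m 0) * he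
      | linear_combination (-(m 0 * m 1)) * hG - F * G * (m 0 * m 1) * he
      | linear_combination (-(m 0 * m 2)) * hG - F * G * (m 0 * m 2) * he
      | linear_combination (-(m 1 * m 1)) * hG - F * G * (m 1 * m 1) * he
      | linear_combination (-(m 1 * m 2)) * hG - F * G * (m 1 * m 2) * he
      | linear_combination (-(m 2 * m 2)) * hG - F * G * (m 2 * m 2) * he
  ext i j
  rw [Matrix.mul_apply]
  simp only [Matrix.of_apply]
  rw [key]
  rfl

/-- The Christoffel symbols near the point. -/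
noncomputable def Gf (d M : E3 → ℝ) (k i j : Fin 3) (Y : E3) : ℝ :=
  (pd i M Y * pd j d Y + pd j M Y * pd i d Y) * pd k d Y * (M Y)⁻¹
    + (M Y ^ 2 - 1) * pd i (pd j d) Y * pd k d Y * (M Y)⁻¹ ^ 2
    - (M Y * pd k M Y - (M Y ^ 2 - 1) * (M Y)⁻¹ * (pd 0 M Y * pd 0 d Y + pd 1 M Y * pd 1 d Y
        + pd 2 M Y * pd 2 d Y) * pd k d Y) * (pd i d Y * pd j d Y)

theorem pd_xg {d M : E3 → ℝ} {Y : E3} (hd : ∀ i, DifferentiableAt ℝ (pd i d) Y)
    (hM : DifferentiableAt ℝ M Y) (i j l : Fin 3) :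
    pd i (fun y => xg d M y j l) Y = 2 * M Y * pd i M Y * (pd j d Y * pd l d Y)
      + (M Y ^ 2 - 1) * (pd i (pd j d) Y * pd l d Y + pd j d Y * pd i (pd l d) Y) := by
  have h1 : HP i (fun y => dk j l + (M y ^ 2 - 1) * (pd j d y * pd l d y)) _ Y :=
    (HP.const (dk j l)).add ((((HP.of_diff hM).sq).sub (HP.const 1)).mul
      ((HP.of_diff (hd j)).mul (HP.of_diff (hd l))))
  have h2 : (fun y => xg d M y j l) =
      fun y => dk j l + (M y ^ 2 - 1) * (pd j d y * pd l d y) := rfl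
  rw [h2, h1.val]
  ring

theorem christoffel_eq {d M : E3 → ℝ} {Y : E3} (hd : ∀ i, DifferentiableAt ℝ (pd i d) Y)
    (hM : DifferentiableAt ℝ M Y) (h0 : M Y ≠ 0) (he : ∑ i, pd i d Y ^ 2 = 1)
    (hs : ∀ i j, pd i (pd j d) Y = pd j (pd i d) Y) (k i j : Fin 3) :
    christoffel (xg d M) k i j Y = Gf d M k i j Y := by
  unfold christoffel Gf
  rw [inv_eq h0 he]
  simp only [pd_xg hd hM, Matrix.of_apply]
  have hG : (M Y ^ 2 - 1) * (M Y)⁻¹ ^ 2 = 1 - (M Y)⁻¹ ^ 2 := by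
    field_simp
  have hw : M Y * (M Y)⁻¹ = 1 := mul_inv_cancel₀ h0
  obtain ⟨w, hw'⟩ : ∃ w, w = (M Y)⁻¹ := ⟨_, rfl⟩
  rw [← hw'] at hw ⊢
  have e1 : ∀ l, (2 * M Y * pd i M Y * (pd j d Y * pd l d Y) +
      (M Y ^ 2 - 1) * (pd i (pd j d) Y * pd l d Y + pd j d Y * pd i (pd l d) Y) +
      (2 * M Y * pd j M Y * (pd i d Y * pd l d Y) +
        (M Y ^ 2 - 1) * (pd j (pd i d) Y * pd l d Y + pd i d Y * pd j (pd l d) Y)) -
      (2 * M Y * pd l M Y * (pd i d Y * pd j d Y) +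
        (M Y ^ 2 - 1) * (pd l (pd i d) Y * pd j d Y + pd i d Y * pd l (pd j d) Y))) =
      (2 * M Y * (pd i M Y * pd j d Y + pd j M Y * pd i d Y)
        + 2 * (M Y ^ 2 - 1) * pd i (pd j d) Y) * pd l d Y
        - 2 * M Y * pd l M Y * (pd i d Y * pd j d Y) := by
    intro l
    rw [hs j i, hs l i, hs l j]
    ring
  simp only [e1]
  obtain ⟨P, hP⟩ : ∃ P, P = 2 * M Y * (pd i M Y * pd j d Y + pd j M Y * pd i d Y)
        + 2 * (M Y ^ 2 - 1) * pd i (pd j d) Y := ⟨_, rfl⟩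
  obtain ⟨Q, hQ⟩ : ∃ Q, Q = pd i d Y * pd j d Y := ⟨_, rfl⟩
  rw [← hP, ← hQ]
  rw [Fin.sum_univ_three] at he ⊢
  have key : ∑ l, (dk k l - (M Y ^ 2 - 1) * w ^ 2 * (pd k d Y * pd l d Y)) *
      (P * pd l d Y - 2 * M Y * pd l M Y * Q) =
      P * pd k d Y * w ^ 2 - 2 * M Y * Q * (pd k M Y - (M Y ^ 2 - 1) * w ^ 2 * pd k d Y *
        (pd 0 M Y * pd 0 d Y + pd 1 M Y * pd 1 d Y + pd 2 M Y * pd 2 d Y)) := by
    rw [← hw'] at hG
    rw [hG, Fin.sum_univ_three]
    fin_cases k <;> simp [dk] <;>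
      first
      | linear_combination (-(P * pd 0 d Y * (1 - w ^ 2))) * he
      | linear_combination (-(P * pd 1 d Y * (1 - w ^ 2))) * he
      | linear_combination (-(P * pd 2 d Y * (1 - w ^ 2))) * he
  rw [Fin.sum_univ_three] at key
  rw [key, hP, hQ]
  linear_combination ((pd i M Y * pd j d Y + pd j M Y * pd i d Y) * pd k d Y * w
    + pd i d Y * pd j d Y * (M Y ^ 2 - 1) * pd k d Y * (pd 0 M Y * pd 0 d Y
      + pd 1 M Y * pd 1 d Y + pd 2 M Y * pd 2 d Y) * w) * hw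

/-- The derivatives of the Christoffel symbols at a point. -/
theorem pd_Gf {d M : E3 → ℝ} {X : E3} (hd : ∀ i, DifferentiableAt ℝ (pd i d) X)
    (hdd : ∀ i j, DifferentiableAt ℝ (pd i (pd j d)) X)
    (hM : DifferentiableAt ℝ M X) (hMM : ∀ i, DifferentiableAt ℝ (pd i M) X) (h0 : M X ≠ 0)
    (l k i j : Fin 3) :
    pd l (Gf d M k i j) X =
      (pd l (pd i M) X * pd j d X + pd i M X * pd l (pd j d) X + (pd l (pd j M) X * pd i d X
        + pd j M X * pd l (pd i d) X)) * pd k d X * (M X)⁻¹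
      + (pd i M X * pd j d X + pd j M X * pd i d X) * pd l (pd k d) X * (M X)⁻¹
      - (pd i M X * pd j d X + pd j M X * pd i d X) * pd k d X * (pd l M X * (M X)⁻¹ ^ 2)
      + 2 * M X * pd l M X * pd i (pd j d) X * pd k d X * (M X)⁻¹ ^ 2
      + (M X ^ 2 - 1) * pd l (pd i (pd j d)) X * pd k d X * (M X)⁻¹ ^ 2
      + (M X ^ 2 - 1) * pd i (pd j d) X * pd l (pd k d) X * (M X)⁻¹ ^ 2
      - (M X ^ 2 - 1) * pd i (pd j d) X * pd k d X * (2 * pd l M X * (M X)⁻¹ ^ 3)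
      - (pd l M X * pd k M X + M X * pd l (pd k M) X
        - (2 * M X * pd l M X * (M X)⁻¹ - (M X ^ 2 - 1) * (pd l M X * (M X)⁻¹ ^ 2)) *
          (pd 0 M X * pd 0 d X + pd 1 M X * pd 1 d X + pd 2 M X * pd 2 d X) * pd k d X
        - (M X ^ 2 - 1) * (M X)⁻¹ * (pd l (pd 0 M) X * pd 0 d X + pd 0 M X * pd l (pd 0 d) X
          + (pd l (pd 1 M) X * pd 1 d X + pd 1 M X * pd l (pd 1 d) X)
          + (pd l (pd 2 M) X * pd 2 d X + pd 2 M X * pd l (pd 2 d) X)) * pd k d X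
        - (M X ^ 2 - 1) * (M X)⁻¹ * (pd 0 M X * pd 0 d X + pd 1 M X * pd 1 d X
          + pd 2 M X * pd 2 d X) * pd l (pd k d) X) * (pd i d X * pd j d X)
      - (M X * pd k M X - (M X ^ 2 - 1) * (M X)⁻¹ * (pd 0 M X * pd 0 d X + pd 1 M X * pd 1 d X
        + pd 2 M X * pd 2 d X) * pd k d X) * (pd l (pd i d) X * pd j d X
          + pd i d X * pd l (pd j d) X) := by
  have m : ∀ i, HP l (pd i d) (pd l (pd i d) X) X := fun i => HP.of_diff (hd i)
  have a : ∀ i, HP l (pd i M) (pd l (pd i M) X) X := fun i => HP.of_diff (hMM i)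
  have b : HP l (pd i (pd j d)) (pd l (pd i (pd j d)) X) X := HP.of_diff (hdd i j)
  have hm : HP l M (pd l M X) X := HP.of_diff hM
  have w := hm.inv h0
  have t1 := (((((a i).mul (m j)).add ((a j).mul (m i))).mul (m k)).mul w)
  have t2 := ((((hm.sq.sub (HP.const 1)).mul b).mul (m k)).mul w.sq)
  have t3 := ((hm.mul (a k)).sub ((((hm.sq.sub (HP.const 1)).mul w).mul
    ((((a 0).mul (m 0)).add ((a 1).mul (m 1))).add ((a 2).mul (m 2)))).mul (m k))).mul
      ((m i).mul (m j))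
  have h : HP l (Gf d M k i j) _ X := (t1.add t2).sub t3
  rw [h.val]
  ring

end XR3

open XR3 in
theorem XR3 (hXEIK : Stmt_XEIK) : Stmt_XR3 := by
  intro d M k X hX h0 h1 h2
  obtain ⟨hsym, hBm, hDB, -⟩ := hXEIK d M k X hX
  have hM0 : M X ≠ 0 := hX.pos_M.ne'
  have hd3 : ContDiffAt ℝ 3 d X := by
    exact_mod_cast contDiffAt_infty.1 hX.smooth_d 3
  have hM2 : ContDiffAt ℝ 2 M X := by
    exact_mod_cast contDiffAt_infty.1 hX.smooth_M 2
  have ed : ∀ᶠ Y in 𝓝 X, ContDiffAt ℝ 3 d Y := hd3.eventually (by simp)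
  have eM : ∀ᶠ Y in 𝓝 X, ContDiffAt ℝ 2 M Y := hM2.eventually (by simp)
  have e0 : ∀ᶠ Y in 𝓝 X, M Y ≠ 0 := hM2.continuousAt.eventually_ne hM0
  have hev : ∀ k i j, christoffel (xg d M) k i j =ᶠ[𝓝 X] Gf d M k i j := by
    intro k i j
    filter_upwards [ed, eM, e0, hX.eikonal] with Y y1 y2 y3 y4
    exact christoffel_eq (fun i => (contDiffAt_pd (m := 2) y1 (by norm_num) i).differentiableAt
      (by norm_num)) (y2.differentiableAt (by norm_num)) y3 y4
      (fun i j => pd_comm (y1.of_le (by norm_num)) i j) k i j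
  have hd1 : ∀ i, ContDiffAt ℝ 2 (pd i d) X := fun i => contDiffAt_pd hd3 (by norm_num) i
  have hdd : ∀ i j, DifferentiableAt ℝ (pd i (pd j d)) X := fun i j =>
    (contDiffAt_pd (m := 1) (hd1 j) (by norm_num) i).differentiableAt (by norm_num)
  have hMM : ∀ i, DifferentiableAt ℝ (pd i M) X := fun i =>
    (contDiffAt_pd (m := 1) hM2 (by norm_num) i).differentiableAt (by norm_num)
  have hpd : ∀ l k i j, pd l (christoffel (xg d M) k i j) X = pd l (Gf d M k i j) X :=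
    fun l k i j => pd_congr (hev k i j)
  have hval : ∀ k i j, christoffel (xg d M) k i j X = Gf d M k i j X :=
    fun k i j => (hev k i j).self_of_nhds
  have hD : ∀ i, pd i (pd i (pd 2 d)) X = pd 2 (pd i (pd i d)) X := by
    intro i
    have e1 : pd i (pd 2 d) =ᶠ[𝓝 X] pd 2 (pd i d) := by
      filter_upwards [ed] with Y y1
      exact pd_comm (y1.of_le (by norm_num)) i 2
    rw [pd_congr e1]
    exact pd_comm (hd1 i) i 2
  have hB : ∀ i, pd i (pd 2 d) X = 0 := by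
    intro i
    have := hBm i
    rw [Fin.sum_univ_three, h0, h1, h2] at this
    linarith
  have hB' : ∀ i, pd 2 (pd i d) X = 0 := fun i => by rw [hsym, hB]
  have hD2 : ∀ i j, pd 2 (pd i (pd j d)) X = -(pd i (pd 0 d) X * pd 0 (pd j d) X
      + pd i (pd 1 d) X * pd 1 (pd j d) X) := by
    intro i j
    have := hDB i j
    rw [Fin.sum_univ_three, Fin.sum_univ_three, h0, h1, h2, hB] at this
    linarith
  have he : ∑ i, pd i d X ^ 2 = 1 := hX.eikonal.self_of_nhds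
  unfold scalarCurvature ricci
  rw [inv_eq hM0 he]
  simp only [hpd, hval, pd_Gf (fun i => (hd1 i).differentiableAt (by norm_num)) hdd
    (hM2.differentiableAt (by norm_num)) hMM hM0, Matrix.of_apply, Fin.sum_univ_three, Gf, xH, xQ,
    h0, h1, h2, hD, hD2, hB, hB', dk]
  rw [hsym 1 0]
  simp
  field_simp
  ring

end Pool.Agent.PenroseConvex
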