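import Pool.Agent.PenroseConvex.Stmts
import Pool.Agent.PenroseSph.Calc
import Pool.Agent.PenroseSph.Geom

/-! # Algebra at a point -/

open MeasureTheory Filter Topology
open scoped ContDiff

namespace Pool.Agent.PenroseConvex.ALGaux

open Pool.Agent.PenroseSph

section Cof

variable {b00 b01 b02 b11 b12 b22 m0 m1 m2 : ℝ}
  (h0 : b00 * m0 + b01 * m1 + b02 * m2 = 0)
  (h1 : b01 * m0 + b11 * m1 + b12 * m2 = 0)
  (h2 : b02 * m0 + b12 * m1 + b22 * m2 = 0)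
  (hm : m0 ^ 2 + m1 ^ 2 + m2 ^ 2 = 1)

include h0 h1 h2 hm

theorem cof00 : (b11*b22-b12^2) = ((b00*b11-b01^2)+(b00*b22-b02^2)+(b11*b22-b12^2))*(m0*m0) := by
  linear_combination ((b12*(-m2) + b22*(m1)) * h1 - (b11*(-m2) + b12*(m1)) * h2) - (b11*b22-b12^2) * hm + m0 * (m0 * ((b12*(-m2) + b22*(m1)) * h1 - (b11*(-m2) + b12*(m1)) * h2) + m1 * ((b01*(-m2) + b02*(m1)) * h2 - (b12*(-m2) + b22*(m1)) * h0) + m2 * ((b11*(-m2) + b12*(m1)) * h0 - (b01*(-m2) + b02*(m1)) * h1) - ((b11*b22-b12^2)*m0 + (b02*b12-b01*b22)*m1 + (b01*b12-b02*b11)*m2) * hm + m0 * (((b00*b11-b01^2)+(b00*b22-b02^2)+(b11*b22-b12^2)) * hm - (((b12*(-m2) + b22*(m1)) * h1 - (b11*(-m2) + b12*(m1)) * h2) + ((b00*(m2) + b02*(-m0)) * h2 - (b02*(m2) + b22*(-m0)) * h0) + ((b01*(-m1) + b11*(m0)) * h0 - (b00*(-m1) + b01*(m0)) * h1))))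

theorem cof01 : (b02*b12-b01*b22) = ((b00*b11-b01^2)+(b00*b22-b02^2)+(b11*b22-b12^2))*(m0*m1) := by
  linear_combination ((b02*(m2) + b22*(-m0)) * h1 - (b01*(m2) + b12*(-m0)) * h2) - (b02*b12-b01*b22) * hm + m1 * (m0 * ((b12*(-m2) + b22*(m1)) * h1 - (b11*(-m2) + b12*(m1)) * h2) + m1 * ((b01*(-m2) + b02*(m1)) * h2 - (b12*(-m2) + b22*(m1)) * h0) + m2 * ((b11*(-m2) + b12*(m1)) * h0 - (b01*(-m2) + b02*(m1)) * h1) - ((b11*b22-b12^2)*m0 + (b02*b12-b01*b22)*m1 + (b01*b12-b02*b11)*m2) * hm + m0 * (((b00*b11-b01^2)+(b00*b22-b02^2)+(b11*b22-b12^2)) * hm - (((b12*(-m2) + b22*(m1)) * h1 - (b11*(-m2) + b12*(m1)) * h2) + ((b00*(m2) + b02*(-m0)) * h2 - (b02*(m2) + b22*(-m0)) * h0) + ((b01*(-m1) + b11*(m0)) * h0 - (b00*(-m1) + b01*(m0)) * h1))))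

theorem cof02 : (b01*b12-b02*b11) = ((b00*b11-b01^2)+(b00*b22-b02^2)+(b11*b22-b12^2))*(m0*m2) := by
  linear_combination ((b02*(-m1) + b12*(m0)) * h1 - (b01*(-m1) + b11*(m0)) * h2) - (b01*b12-b02*b11) * hm + m2 * (m0 * ((b12*(-m2) + b22*(m1)) * h1 - (b11*(-m2) + b12*(m1)) * h2) + m1 * ((b01*(-m2) + b02*(m1)) * h2 - (b12*(-m2) + b22*(m1)) * h0) + m2 * ((b11*(-m2) + b12*(m1)) * h0 - (b01*(-m2) + b02*(m1)) * h1) - ((b11*b22-b12^2)*m0 + (b02*b12-b01*b22)*m1 + (b01*b12-b02*b11)*m2) * hm + m0 * (((b00*b11-b01^2)+(b00*b22-b02^2)+(b11*b22-b12^2)) * hm - (((b12*(-m2) + b22*(m1)) * h1 - (b11*(-m2) + b12*(m1)) * h2) + ((b00*(m2) + b02*(-m0)) * h2 - (b02*(m2) + b22*(-m0)) * h0) + ((b01*(-m1) + b11*(m0)) * h0 - (b00*(-m1) + b01*(m0)) * h1))))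

theorem cof11 : (b00*b22-b02^2) = ((b00*b11-b01^2)+(b00*b22-b02^2)+(b11*b22-b12^2))*(m1*m1) := by
  linear_combination ((b00*(m2) + b02*(-m0)) * h2 - (b02*(m2) + b22*(-m0)) * h0) - (b00*b22-b02^2) * hm + m1 * (m0 * ((b02*(m2) + b22*(-m0)) * h1 - (b01*(m2) + b12*(-m0)) * h2) + m1 * ((b00*(m2) + b02*(-m0)) * h2 - (b02*(m2) + b22*(-m0)) * h0) + m2 * ((b01*(m2) + b12*(-m0)) * h0 - (b00*(m2) + b02*(-m0)) * h1) - ((b02*b12-b01*b22)*m0 + (b00*b22-b02^2)*m1 + (b01*b02-b00*b12)*m2) * hm + m1 * (((b00*b11-b01^2)+(b00*b22-b02^2)+(b11*b22-b12^2)) * hm - (((b12*(-m2) + b22*(m1)) * h1 - (b11*(-m2) + b12*(m1)) * h2) + ((b00*(m2) + b02*(-m0)) * h2 - (b02*(m2) + b22*(-m0)) * h0) + ((b01*(-m1) + b11*(m0)) * h0 - (b00*(-m1) + b01*(m0)) * h1))))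

theorem cof12 : (b01*b02-b00*b12) = ((b00*b11-b01^2)+(b00*b22-b02^2)+(b11*b22-b12^2))*(m1*m2) := by
  linear_combination ((b00*(-m1) + b01*(m0)) * h2 - (b02*(-m1) + b12*(m0)) * h0) - (b01*b02-b00*b12) * hm + m2 * (m0 * ((b02*(m2) + b22*(-m0)) * h1 - (b01*(m2) + b12*(-m0)) * h2) + m1 * ((b00*(m2) + b02*(-m0)) * h2 - (b02*(m2) + b22*(-m0)) * h0) + m2 * ((b01*(m2) + b12*(-m0)) * h0 - (b00*(m2) + b02*(-m0)) * h1) - ((b02*b12-b01*b22)*m0 + (b00*b22-b02^2)*m1 + (b01*b02-b00*b12)*m2) * hm + m1 * (((b00*b11-b01^2)+(b00*b22-b02^2)+(b11*b22-b12^2)) * hm - (((b12*(-m2) + b22*(m1)) * h1 - (b11*(-m2) + b12*(m1)) * h2) + ((b00*(m2) + b02*(-m0)) * h2 - (b02*(m2) + b22*(-m0)) * h0) + ((b01*(-m1) + b11*(m0)) * h0 - (b00*(-m1) + b01*(m0)) * h1))))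

theorem cof22 : (b00*b11-b01^2) = ((b00*b11-b01^2)+(b00*b22-b02^2)+(b11*b22-b12^2))*(m2*m2) := by
  linear_combination ((b01*(-m1) + b11*(m0)) * h0 - (b00*(-m1) + b01*(m0)) * h1) - (b00*b11-b01^2) * hm + m2 * (m0 * ((b02*(-m1) + b12*(m0)) * h1 - (b01*(-m1) + b11*(m0)) * h2) + m1 * ((b00*(-m1) + b01*(m0)) * h2 - (b02*(-m1) + b12*(m0)) * h0) + m2 * ((b01*(-m1) + b11*(m0)) * h0 - (b00*(-m1) + b01*(m0)) * h1) - ((b01*b12-b02*b11)*m0 + (b01*b02-b00*b12)*m1 + (b00*b11-b01^2)*m2) * hm + m2 * (((b00*b11-b01^2)+(b00*b22-b02^2)+(b11*b22-b12^2)) * hm - (((b12*(-m2) + b22*(m1)) * h1 - (b11*(-m2) + b12*(m1)) * h2) + ((b00*(m2) + b02*(-m0)) * h2 - (b02*(m2) + b22*(-m0)) * h0) + ((b01*(-m1) + b11*(m0)) * h0 - (b00*(-m1) + b01*(m0)) * h1))))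


end Cof

theorem quad_id (b00 b01 b02 b11 b12 b22 v0 v1 v2 w0 w1 w2 : ℝ) :
    (b00 * v0 ^ 2 + b11 * v1 ^ 2 + b22 * v2 ^ 2 + 2 * b01 * v0 * v1
      + 2 * b02 * v0 * v2 + 2 * b12 * v1 * v2) *
    (b00 * w0 ^ 2 + b11 * w1 ^ 2 + b22 * w2 ^ 2 + 2 * b01 * w0 * w1
      + 2 * b02 * w0 * w2 + 2 * b12 * w1 * w2) -
    (b00 * v0 * w0 + b11 * v1 * w1 + b22 * v2 * w2 + b01 * (v0 * w1 + v1 * w0)
      + b02 * (v0 * w2 + v2 * w0) + b12 * (v1 * w2 + v2 * w1)) ^ 2 =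
        (b11 * b22 - b12 ^ 2) * (v1 * w2 - v2 * w1) ^ 2 +
        (b00 * b22 - b02 ^ 2) * (v2 * w0 - v0 * w2) ^ 2 +
        (b00 * b11 - b01 ^ 2) * (v0 * w1 - v1 * w0) ^ 2 +
        2 * (b02 * b12 - b01 * b22) * (v1 * w2 - v2 * w1) * (v2 * w0 - v0 * w2) +
        2 * (b01 * b12 - b02 * b11) * (v1 * w2 - v2 * w1) * (v0 * w1 - v1 * w0) +
        2 * (b01 * b02 - b00 * b12) * (v2 * w0 - v0 * w2) * (v0 * w1 - v1 * w0) := by
  ring

theorem quad_z (b00 b01 b02 b11 b12 b22 v0 v1 v2 w0 w1 w2 x y : ℝ) :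
    b00 * (x * v0 - y * w0) ^ 2 + b11 * (x * v1 - y * w1) ^ 2 +
        b22 * (x * v2 - y * w2) ^ 2 + 2 * b01 * (x * v0 - y * w0) * (x * v1 - y * w1)
        + 2 * b02 * (x * v0 - y * w0) * (x * v2 - y * w2) +
        2 * b12 * (x * v1 - y * w1) * (x * v2 - y * w2) =
    x ^ 2 * (b00 * v0 ^ 2 + b11 * v1 ^ 2 + b22 * v2 ^ 2 + 2 * b01 * v0 * v1
      + 2 * b02 * v0 * v2 + 2 * b12 * v1 * v2) + y ^ 2 *
    (b00 * w0 ^ 2 + b11 * w1 ^ 2 + b22 * w2 ^ 2 + 2 * b01 * w0 * w1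
      + 2 * b02 * w0 * w2 + 2 * b12 * w1 * w2) - 2 * x * y *
    (b00 * v0 * w0 + b11 * v1 * w1 + b22 * v2 * w2 + b01 * (v0 * w1 + v1 * w0)
      + b02 * (v0 * w2 + v2 * w0) + b12 * (v1 * w2 + v2 * w1)) := by
  ring

theorem disc_pos (D al be ga n : ℝ) (hal : 0 < al) (hn : 0 < n)
    (hz : 0 < be ^ 2 * al + al ^ 2 * ga - 2 * be * al * be) (key : al * ga - be ^ 2 = D * n ^ 2) :
    0 < D := by
  have h1 : 0 < al * (al * ga - be ^ 2) := by nlinarith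
  have h2 : 0 < al * ga - be ^ 2 := (pos_iff_pos_of_mul_pos h1).mp hal
  rw [key] at h2
  exact (pos_iff_pos_of_mul_pos h2).mpr (by positivity)

/-- Abstract data at a point. -/
structure AD (b : Fin 3 → Fin 3 → ℝ) (m : Fin 3 → ℝ) : Prop where
  symm : ∀ i j, b i j = b j i
  unit : m 0 ^ 2 + m 1 ^ 2 + m 2 ^ 2 = 1
  ker : ∀ i, b i 0 * m 0 + b i 1 * m 1 + b i 2 * m 2 = 0
  pos : ∀ v : Fin 3 → ℝ, v 0 * m 0 + v 1 * m 1 + v 2 * m 2 = 0 → v ≠ 0 →
    0 < ∑ i, ∑ j, b i j * v i * v j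

/-- trace -/
noncomputable def tt (b : Fin 3 → Fin 3 → ℝ) : ℝ := ∑ i, b i i

/-- second elementary function -/
noncomputable def DD (b : Fin 3 → Fin 3 → ℝ) : ℝ := (tt b ^ 2 - ∑ i, ∑ j, b i j ^ 2) / 2

section

variable {b : Fin 3 → Fin 3 → ℝ} {m : Fin 3 → ℝ} (h : AD b m)

include h

theorem DD_eq : DD b = (b 0 0 * b 1 1 - b 0 1 ^ 2) + (b 0 0 * b 2 2 - b 0 2 ^ 2) +
    (b 1 1 * b 2 2 - b 1 2 ^ 2) := by
  unfold DD tt
  simp only [Fin.sum_univ_three]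
  rw [h.symm 1 0, h.symm 2 0, h.symm 2 1]
  ring

theorem k0 : b 0 0 * m 0 + b 0 1 * m 1 + b 0 2 * m 2 = 0 := h.ker 0

theorem k1 : b 0 1 * m 0 + b 1 1 * m 1 + b 1 2 * m 2 = 0 := by
  have := h.ker 1
  rwa [h.symm 1 0] at this

theorem k2 : b 0 2 * m 0 + b 1 2 * m 1 + b 2 2 * m 2 = 0 := by
  have := h.ker 2
  rwa [h.symm 2 0, h.symm 2 1] at this

theorem cofs : (b 1 1 * b 2 2 - b 1 2 ^ 2) = DD b * (m 0 * m 0) ∧
    (b 0 2 * b 1 2 - b 0 1 * b 2 2) = DD b * (m 0 * m 1) ∧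
    (b 0 1 * b 1 2 - b 0 2 * b 1 1) = DD b * (m 0 * m 2) ∧
    (b 0 0 * b 2 2 - b 0 2 ^ 2) = DD b * (m 1 * m 1) ∧
    (b 0 1 * b 0 2 - b 0 0 * b 1 2) = DD b * (m 1 * m 2) ∧
    (b 0 0 * b 1 1 - b 0 1 ^ 2) = DD b * (m 2 * m 2) := by
  rw [DD_eq h]
  exact ⟨cof00 (k0 h) (k1 h) (k2 h) h.unit, cof01 (k0 h) (k1 h) (k2 h) h.unit,
    cof02 (k0 h) (k1 h) (k2 h) h.unit, cof11 (k0 h) (k1 h) (k2 h) h.unit,
    cof12 (k0 h) (k1 h) (k2 h) h.unit, cof22 (k0 h) (k1 h) (k2 h) h.unit⟩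

theorem sq_eq (i j : Fin 3) :
    ∑ k, b i k * b k j = tt b * b i j - DD b * (dk i j - m i * m j) := by
  obtain ⟨c00, c01, c02, c11, c12, c22⟩ := cofs h
  have hD := DD_eq h
  have ht : tt b = b 0 0 + b 1 1 + b 2 2 := by unfold tt; rw [Fin.sum_univ_three]
  have s10 := h.symm 1 0
  have s20 := h.symm 2 0
  have s21 := h.symm 2 1
  rw [Fin.sum_univ_three]
  fin_cases i <;> fin_cases j <;>
    simp only [dk, Fin.isValue, Fin.zero_eta, Fin.mk_one, Fin.reduceFinMk, s10, s20, s21, ht,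
      if_true, one_ne_zero, zero_ne_one, if_false, Fin.reduceEq]
  · linear_combination c00 + hD
  · linear_combination c01
  · linear_combination c02
  · linear_combination c01
  · linear_combination c11 + hD
  · linear_combination c12
  · linear_combination c02
  · linear_combination c12
  · linear_combination c22 + hD

theorem pos3 (v0 v1 v2 : ℝ) (hv : v0 * m 0 + v1 * m 1 + v2 * m 2 = 0)
    (hn : v0 ^ 2 + v1 ^ 2 + v2 ^ 2 ≠ 0) :
    0 < b 0 0 * v0 ^ 2 + b 1 1 * v1 ^ 2 + b 2 2 * v2 ^ 2 + 2 * b 0 1 * v0 * v1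
      + 2 * b 0 2 * v0 * v2 + 2 * b 1 2 * v1 * v2 := by
  have := h.pos ![v0, v1, v2] (by simpa using hv) (by
    intro h0
    apply hn
    have e0 := congrFun h0 0
    have e1 := congrFun h0 1
    have e2 := congrFun h0 2
    simp at e0 e1 e2
    rw [e0, e1, e2]
    ring)
  simp only [Fin.sum_univ_three] at this
  rw [h.symm 1 0, h.symm 2 0, h.symm 2 1] at this
  simp at this
  linarith

theorem DD_pos_aux (v0 v1 v2 w0 w1 w2 : ℝ) (hv : v0 * m 0 + v1 * m 1 + v2 * m 2 = 0)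
    (hn : 0 < v0 ^ 2 + v1 ^ 2 + v2 ^ 2)
    (hw0 : w0 = m 1 * v2 - m 2 * v1) (hw1 : w1 = m 2 * v0 - m 0 * v2)
    (hw2 : w2 = m 0 * v1 - m 1 * v0) : 0 < DD b := by
  obtain ⟨c00, c01, c02, c11, c12, c22⟩ := cofs h
  have hm := h.unit
  have hwm : w0 * m 0 + w1 * m 1 + w2 * m 2 = 0 := by rw [hw0, hw1, hw2]; ring
  have hww : w0 ^ 2 + w1 ^ 2 + w2 ^ 2 = v0 ^ 2 + v1 ^ 2 + v2 ^ 2 := by
    rw [hw0, hw1, hw2]
    linear_combination (v0 ^ 2 + v1 ^ 2 + v2 ^ 2) * hm - (v0 * m 0 + v1 * m 1 + v2 * m 2) * hv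
  have hvw : v0 * w0 + v1 * w1 + v2 * w2 = 0 := by rw [hw0, hw1, hw2]; ring
  have p0 : v1 * w2 - v2 * w1 = m 0 * (v0 ^ 2 + v1 ^ 2 + v2 ^ 2) := by
    rw [hw1, hw2]; linear_combination (-v0) * hv
  have p1 : v2 * w0 - v0 * w2 = m 1 * (v0 ^ 2 + v1 ^ 2 + v2 ^ 2) := by
    rw [hw0, hw2]; linear_combination (-v1) * hv
  have p2 : v0 * w1 - v1 * w0 = m 2 * (v0 ^ 2 + v1 ^ 2 + v2 ^ 2) := by
    rw [hw0, hw1]; linear_combination (-v2) * hv
  clear hw0 hw1 hw2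
  have hal0 := pos3 h v0 v1 v2 hv hn.ne'
  have key := quad_id (b 0 0) (b 0 1) (b 0 2) (b 1 1) (b 1 2) (b 2 2) v0 v1 v2 w0 w1 w2
  have hz := fun x y => quad_z (b 0 0) (b 0 1) (b 0 2) (b 1 1) (b 1 2) (b 2 2) v0 v1 v2 w0 w1 w2
    x y
  rw [p0, p1, p2, c00, c11, c22, c01, c02, c12] at key
  have hpz := fun x y : ℝ => pos3 h (x * v0 - y * w0) (x * v1 - y * w1) (x * v2 - y * w2)
  simp only [hz] at hpz
  clear hz
  revert hal0 key hpz
  generalize b 0 0 * v0 ^ 2 + b 1 1 * v1 ^ 2 + b 2 2 * v2 ^ 2 + 2 * b 0 1 * v0 * v1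
      + 2 * b 0 2 * v0 * v2 + 2 * b 1 2 * v1 * v2 = al
  generalize b 0 0 * w0 ^ 2 + b 1 1 * w1 ^ 2 + b 2 2 * w2 ^ 2 + 2 * b 0 1 * w0 * w1
      + 2 * b 0 2 * w0 * w2 + 2 * b 1 2 * w1 * w2 = ga
  generalize b 0 0 * v0 * w0 + b 1 1 * v1 * w1 + b 2 2 * v2 * w2 + b 0 1 * (v0 * w1 + v1 * w0)
      + b 0 2 * (v0 * w2 + v2 * w0) + b 1 2 * (v1 * w2 + v2 * w1) = be
  intro hal0 key hpz
  refine disc_pos (DD b) al be ga (v0 ^ 2 + v1 ^ 2 + v2 ^ 2) hal0 hn ?_ ?_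
  · refine hpz be al ?_ ?_
    · linear_combination be * hv - al * hwm
    · have e : (be * v0 - al * w0) ^ 2 + (be * v1 - al * w1) ^ 2 + (be * v2 - al * w2) ^ 2 =
          (be ^ 2 + al ^ 2) * (v0 ^ 2 + v1 ^ 2 + v2 ^ 2) := by
        linear_combination (al ^ 2) * hww - 2 * be * al * hvw
      rw [e]
      have : 0 < be ^ 2 + al ^ 2 := by positivity
      positivity
  · rw [key]
    linear_combination (DD b * (v0 ^ 2 + v1 ^ 2 + v2 ^ 2) ^ 2) *
      (m 0 ^ 2 + m 1 ^ 2 + m 2 ^ 2 + 1) * hm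

theorem DD_pos : 0 < DD b := by
  have hm := h.unit
  obtain ⟨v0, v1, v2, hv, hn⟩ : ∃ v0 v1 v2 : ℝ, v0 * m 0 + v1 * m 1 + v2 * m 2 = 0 ∧
      0 < v0 ^ 2 + v1 ^ 2 + v2 ^ 2 := by
    by_cases h12 : m 1 ^ 2 + m 2 ^ 2 = 0
    · refine ⟨m 1, -m 0, 0, by ring, ?_⟩
      nlinarith [sq_nonneg (m 1), sq_nonneg (m 2), sq_nonneg (m 0)]
    · refine ⟨0, -m 2, m 1, by ring, ?_⟩
      have h2 : 0 ≤ m 1 ^ 2 + m 2 ^ 2 := by positivity
      have h3 := lt_of_le_of_ne h2 (Ne.symm h12)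
      linarith
  exact DD_pos_aux h v0 v1 v2 _ _ _ hv hn rfl rfl rfl

theorem diag_nonneg (i : Fin 3) : 0 ≤ b i i := by
  have hm := h.unit
  have kk : ∀ j, ∑ l, b j l * m l = 0 := fun j => by rw [Fin.sum_univ_three]; exact h.ker j
  have kk' : ∀ l, ∑ j, b j l * m j = 0 := fun l => by
    rw [← kk l]; exact Finset.sum_congr rfl fun j _ => by rw [h.symm j l]
  have e : ∑ i', ∑ j, b i' j * (dk i i' - m i * m i') * (dk i j - m i * m j) = b i i := by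
    have e1 : ∀ i' j, b i' j * (dk i i' - m i * m i') * (dk i j - m i * m j) =
        dk i i' * (b i' j * dk i j) - dk i i' * (m i * (b i' j * m j))
          - dk i j * (m i * (b i' j * m i')) + m i ^ 2 * m i' * (b i' j * m j) := by
      intro i' j; ring
    simp only [e1, Finset.sum_add_distrib, Finset.sum_sub_distrib, ← Finset.mul_sum]
    rw [Finset.sum_comm (f := fun i' j => dk i j * (m i * (b i' j * m i')))]
    simp only [← Finset.mul_sum, kk, kk']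
    simp [dk]
  by_cases hz : (fun j => dk i j - m i * m j) = (0 : Fin 3 → ℝ)
  · rw [← e]
    have hz' : ∀ j, dk i j - m i * m j = 0 := fun j => congrFun hz j
    simp [hz']
  · have hp := h.pos _ (by
      fin_cases i <;> simp [dk]
      · linear_combination (-m 0) * hm
      · linear_combination (-m 1) * hm
      · linear_combination (-m 2) * hm) hz
    rw [e] at hp
    exact hp.le

theorem tt_pos : 0 < tt b := by
  have hD := DD_pos h
  have h1 : 0 ≤ tt b := Finset.sum_nonneg fun i _ => diag_nonneg h i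
  rcases h1.lt_or_eq with h2 | h2
  · exact h2
  · exfalso
    unfold DD at hD
    rw [← h2] at hD
    have : 0 ≤ ∑ i, ∑ j, b i j ^ 2 := Finset.sum_nonneg fun i _ => Finset.sum_nonneg fun j _ => sq_nonneg _
    linarith [this]

end


/-- tangential inverse -/
noncomputable def ic (b : Fin 3 → Fin 3 → ℝ) (m : Fin 3 → ℝ) (i j : Fin 3) : ℝ :=
  (tt b * (dk i j - m i * m j) - b i j) / DD b

section

variable {b : Fin 3 → Fin 3 → ℝ} {m : Fin 3 → ℝ} (h : AD b m)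

include h

theorem sum_mm : ∑ l, m l * m l = 1 := by
  rw [Fin.sum_univ_three]
  linear_combination h.unit

theorem ker_r (i : Fin 3) : ∑ l, b i l * m l = 0 := by
  rw [Fin.sum_univ_three]; exact h.ker i

theorem ker_l (j : Fin 3) : ∑ l, m l * b l j = 0 := by
  rw [← ker_r h j]
  exact Finset.sum_congr rfl fun l _ => by rw [h.symm l j]; ring

theorem ic_symm (i j : Fin 3) : ic b m i j = ic b m j i := by
  unfold ic
  rw [h.symm i j]
  have : dk i j = dk j i := by unfold dk; simp only [eq_comm]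
  rw [this, mul_comm (m i)]

omit h in
theorem dk_sum (i : Fin 3) (F : Fin 3 → ℝ) : ∑ l, dk i l * F l = F i := by
  simp [dk]

omit h in
theorem dk_sum' (i : Fin 3) (F : Fin 3 → ℝ) : ∑ l, dk l i * F l = F i := by
  simp [dk]

theorem ic_ker (i : Fin 3) : ∑ l, ic b m i l * m l = 0 := by
  have e : ∀ l, ic b m i l * m l = (tt b / DD b) * (dk i l * m l) -
      (tt b / DD b) * m i * (m l * m l) - (1 / DD b) * (b i l * m l) := by
    intro l; unfold ic; ring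
  simp only [e, Finset.sum_sub_distrib, ← Finset.mul_sum, ker_r h, sum_mm h, dk_sum]
  ring

theorem b_ic (i j : Fin 3) : ∑ k, b i k * ic b m k j = dk i j - m i * m j := by
  have hD := (DD_pos h).ne'
  have e : ∀ l, b i l * ic b m l j = (tt b / DD b) * (dk l j * b i l) -
      (tt b / DD b) * m j * (b i l * m l) - (1 / DD b) * (b i l * b l j) := by
    intro l; unfold ic; ring
  simp only [e, Finset.sum_sub_distrib, ← Finset.mul_sum, ker_r h, dk_sum', sq_eq h]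
  field_simp
  ring

/-- matrices -/
theorem mat_facts : ∃ B Q C : Matrix (Fin 3) (Fin 3) ℝ,
    (∀ i j, B i j = b i j) ∧ (∀ i j, Q i j = m i * m j) ∧ (∀ i j, C i j = ic b m i j) ∧
    Q * Q = Q ∧ B * Q = 0 ∧ Q * B = 0 ∧ C * Q = 0 ∧ Q * C = 0 ∧ B * C = 1 - Q ∧
    C * B = 1 - Q ∧ (C * C) = (1 / DD b) • (tt b • C - (1 - Q)) := by
  have hD := (DD_pos h).ne'
  have hBC : (Matrix.of b) * (Matrix.of (ic b m)) = 1 - Matrix.of (fun i j => m i * m j) := by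
    ext i j
    rw [Matrix.mul_apply]
    simp only [Matrix.of_apply, Matrix.sub_apply, b_ic h, Matrix.one_apply]
    rfl
  have hBt : (Matrix.of b).transpose = Matrix.of b := by
    ext i j; exact h.symm j i
  have hCt : (Matrix.of (ic b m)).transpose = Matrix.of (ic b m) := by
    ext i j; exact ic_symm h j i
  have hQt : (Matrix.of (fun i j => m i * m j)).transpose = Matrix.of (fun i j => m i * m j) := by
    ext i j; simp [mul_comm]
  have hBQ : (Matrix.of b) * (Matrix.of (fun i j => m i * m j)) = 0 := by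
    ext i j
    rw [Matrix.mul_apply]
    simp only [Matrix.of_apply, ← mul_assoc, ← Finset.sum_mul, ker_r h, zero_mul,
      Matrix.zero_apply]
  have hCQ : (Matrix.of (ic b m)) * (Matrix.of (fun i j => m i * m j)) = 0 := by
    ext i j
    rw [Matrix.mul_apply]
    simp only [Matrix.of_apply, ← mul_assoc, ← Finset.sum_mul, ic_ker h, zero_mul,
      Matrix.zero_apply]
  have hQQ : (Matrix.of (fun i j => m i * m j)) * (Matrix.of (fun i j => m i * m j)) =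
      Matrix.of (fun i j => m i * m j) := by
    ext i j
    rw [Matrix.mul_apply]
    simp only [Matrix.of_apply]
    have e : ∀ k, m i * m k * (m k * m j) = m i * m j * (m k * m k) := fun k => by ring
    simp only [e, ← Finset.mul_sum, sum_mm h, mul_one]
  have hCB : (Matrix.of (ic b m)) * (Matrix.of b) = 1 - Matrix.of (fun i j => m i * m j) := by
    have := congrArg Matrix.transpose hBC
    rwa [Matrix.transpose_mul, hBt, hCt, Matrix.transpose_sub, hQt, Matrix.transpose_one] at this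
  refine ⟨Matrix.of b, Matrix.of (fun i j => m i * m j), Matrix.of (ic b m), fun _ _ => rfl,
    fun _ _ => rfl, fun _ _ => rfl, hQQ, hBQ, ?_, hCQ, ?_, hBC, hCB, ?_⟩
  · have := congrArg Matrix.transpose hBQ
    rwa [Matrix.transpose_mul, hBt, hQt, Matrix.transpose_zero] at this
  · have := congrArg Matrix.transpose hCQ
    rwa [Matrix.transpose_mul, hCt, hQt, Matrix.transpose_zero] at this
  · have hC : Matrix.of (ic b m) = (1 / DD b) • (tt b • (1 - Matrix.of (fun i j => m i * m j)) -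
      Matrix.of b) := by
      ext i j
      simp only [Matrix.of_apply, Matrix.smul_apply, Matrix.sub_apply, Matrix.one_apply,
        smul_eq_mul, ic, dk]
      ring
    nth_rw 2 [hC]
    rw [Matrix.mul_smul, mul_sub, Matrix.mul_smul, mul_sub, hCB, hCQ, mul_one, sub_zero]

theorem trace_ic : ∑ i, ic b m i i = tt b / DD b := by
  have e : ∀ i, ic b m i i = (tt b / DD b) * (1 - m i * m i) - (1 / DD b) * b i i := by
    intro i; unfold ic dk; rw [if_pos rfl]; ring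
  simp only [e, Finset.sum_sub_distrib, ← Finset.mul_sum, sum_mm h]
  have : ∑ i, b i i = tt b := rfl
  rw [this]
  simp
  ring

theorem sq_ic : ∑ i, ∑ j, ic b m i j ^ 2 = (tt b / DD b) ^ 2 - 2 / DD b := by
  obtain ⟨B, Q, C, hB, hQ, hC, _, _, _, _, _, _, _, hCC⟩ := mat_facts h
  have e : ∀ i, ∑ j, ic b m i j ^ 2 = (C * C) i i := by
    intro i
    rw [Matrix.mul_apply]
    refine Finset.sum_congr rfl fun j _ => ?_
    rw [hC, hC, ic_symm h j i]; ring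
  simp only [e, hCC]
  simp only [Matrix.smul_apply, Matrix.sub_apply, Matrix.one_apply_eq, hQ, hC, smul_eq_mul]
  simp only [← Finset.mul_sum, Finset.sum_sub_distrib, trace_ic h, sum_mm h]
  simp
  ring

theorem inv_g (N r : ℝ) (hN : N ≠ 0) (hr : r ≠ 0) (G : Matrix (Fin 3) (Fin 3) ℝ)
    (hG : ∀ i j, G i j = N ^ 2 * (m i * m j) + (∑ k, b i k * b k j) / r ^ 2) (i j : Fin 3) :
    G⁻¹ i j = m i * m j / N ^ 2 + r ^ 2 * ∑ k, ic b m i k * ic b m k j := by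
  obtain ⟨B, Q, C, hB, hQ, hC, hQQ, hBQ, hQB, hCQ, hQC, hBC, hCB, hCC⟩ := mat_facts h
  have hG' : G = N ^ 2 • Q + (1 / r ^ 2) • (B * B) := by
    ext i j
    rw [hG, Matrix.add_apply, Matrix.smul_apply, Matrix.smul_apply, Matrix.mul_apply, hQ]
    simp only [hB, smul_eq_mul]
    ring
  have hX : G * ((1 / N ^ 2) • Q + r ^ 2 • (C * C)) = 1 := by
    rw [hG', add_mul, mul_add, mul_add]
    simp only [Matrix.smul_mul, Matrix.mul_smul, smul_smul]
    have e1 : Q * (C * C) = 0 := by rw [← mul_assoc, hQC, zero_mul]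
    have e2 : B * B * Q = 0 := by rw [mul_assoc, hBQ, mul_zero]
    have e3 : B * B * (C * C) = 1 - Q := by
      rw [mul_assoc, ← mul_assoc B C C, hBC, sub_mul, one_mul, hQC, sub_zero, hBC]
    rw [e1, e2, e3, hQQ]
    have f1 : 1 / N ^ 2 * N ^ 2 = 1 := by field_simp
    have f2 : r ^ 2 * (1 / r ^ 2) = 1 := by field_simp
    rw [f1, f2]
    simp
  rw [Matrix.inv_eq_right_inv hX, Matrix.add_apply, Matrix.smul_apply, Matrix.smul_apply,
    Matrix.mul_apply, hQ]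
  simp only [hC, smul_eq_mul]
  ring

theorem det_aux (a c : ℝ) :
    (Matrix.of fun i j => a * (m i * m j) + c * b i j).det = a * c ^ 2 * DD b := by
  obtain ⟨c00, c01, c02, c11, c12, c22⟩ := cofs h
  have hm := h.unit
  have q0 := k0 h
  rw [Matrix.det_fin_three]
  simp only [Matrix.of_apply]
  rw [h.symm 1 0, h.symm 2 0, h.symm 2 1]
  linear_combination (a * c ^ 2 * m 0 ^ 2 + c ^ 3 * b 0 0) * c00 +
    (2 * a * c ^ 2 * m 0 * m 1 + c ^ 3 * b 0 1) * c01 +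
    (2 * a * c ^ 2 * m 0 * m 2 + c ^ 3 * b 0 2) * c02 +
    (a * c ^ 2 * m 1 ^ 2) * c11 + (2 * a * c ^ 2 * m 1 * m 2) * c12 +
    (a * c ^ 2 * m 2 ^ 2) * c22 + c ^ 3 * DD b * m 0 * q0 +
    a * c ^ 2 * DD b * (m 0 ^ 2 + m 1 ^ 2 + m 2 ^ 2 + 1) * hm

theorem det_g (N r : ℝ) (hr : r ≠ 0) (G : Matrix (Fin 3) (Fin 3) ℝ)
    (hG : ∀ i j, G i j = N ^ 2 * (m i * m j) + (∑ k, b i k * b k j) / r ^ 2) :
    G.det = N ^ 2 * DD b ^ 2 / r ^ 4 := by
  obtain ⟨B, Q, C, hB, hQ, hC, hQQ, hBQ, hQB, hCQ, hQC, hBC, hCB, hCC⟩ := mat_facts h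
  have hG' : G = (N • Q + (1 / r) • B) * (N • Q + (1 / r) • B) := by
    rw [add_mul, mul_add, mul_add]
    simp only [Matrix.smul_mul, Matrix.mul_smul, smul_smul]
    rw [hQQ, hBQ, hQB]
    ext i j
    simp only [Matrix.add_apply, Matrix.smul_apply, Matrix.mul_apply, hQ, hG, hB, smul_eq_mul,
      Matrix.zero_apply]
    field_simp
    ring
  have hA : (N • Q + (1 / r) • B).det = N * (1 / r) ^ 2 * DD b := by
    rw [← det_aux h N (1 / r)]
    congr 1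
    ext i j
    simp only [Matrix.add_apply, Matrix.smul_apply, hQ, hB, smul_eq_mul, Matrix.of_apply]
  rw [hG', Matrix.det_mul, hA]
  field_simp

end


section Analysis

variable {u : E3 → ℝ} (hu : ContDiffOn ℝ ∞ u {0}ᶜ)

include hu

theorem cda {x : E3} (hx : x ≠ 0) : ContDiffAt ℝ ∞ u x :=
  (hu x hx).contDiffAt (isOpen_compl_singleton.mem_nhds hx)

theorem diff_fderiv {x : E3} (hx : x ≠ 0) : DifferentiableAt ℝ (fderiv ℝ u) x := by
  have h2 : ContDiffAt ℝ 2 u x := by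
    exact_mod_cast contDiffAt_infty.1 (cda hu hx) 2
  exact (h2.fderiv_right (m := 1) (by norm_num)).differentiableAt (by norm_num)

theorem diff_pd {x : E3} (hx : x ≠ 0) (j : Fin 3) : DifferentiableAt ℝ (pd j u) x := by
  unfold pd
  exact (diff_fderiv hu hx).clm_apply (differentiableAt_const _)

theorem pd_pd {x : E3} (hx : x ≠ 0) (i j : Fin 3) : pd i (pd j u) x =
    fderiv ℝ (fderiv ℝ u) x (EuclideanSpace.single i 1) (EuclideanSpace.single j 1) := by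
  unfold pd
  rw [fderiv_clm_apply (diff_fderiv hu hx) (differentiableAt_const _)]
  simp

theorem pd_comm {x : E3} (hx : x ≠ 0) (i j : Fin 3) : pd i (pd j u) x = pd j (pd i u) x := by
  rw [pd_pd hu hx, pd_pd hu hx]
  have h2 : ContDiffAt ℝ 2 u x := by
    exact_mod_cast contDiffAt_infty.1 (cda hu hx) 2
  exact (h2.isSymmSndFDerivAt (by simp)).eq _ _

omit hu in
theorem sum_pd (y : E3) : ∑ j, y j * pd j u y = fderiv ℝ u y y := by
  have hy : y = ∑ j, y j • (EuclideanSpace.single j (1 : ℝ) : E3) := by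
    ext i
    simp [Finset.sum_apply, Pi.single_apply]
  conv_rhs => rw [show fderiv ℝ u y y = fderiv ℝ u y (∑ j, y j • (EuclideanSpace.single j (1 : ℝ) : E3)) by
    rw [← hy]]
  rw [map_sum]
  exact Finset.sum_congr rfl fun j _ => by rw [map_smul]; rfl

theorem euler (hh : ∀ x : E3, x ≠ 0 → ∀ t : ℝ, 0 < t → u (t • x) = t * u x) {y : E3}
    (hy : y ≠ 0) : ∑ j, y j * pd j u y = u y := by
  rw [sum_pd]
  have h1 : HasFDerivAt u (fderiv ℝ u y) ((1 : ℝ) • y) := by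
    rw [one_smul]
    exact ((cda hu hy).differentiableAt (by simp)).hasFDerivAt
  have h2 : HasDerivAt (fun t : ℝ => t • y) y 1 := by
    simpa using (hasDerivAt_id (1 : ℝ)).smul_const y
  have h3 : HasDerivAt (fun t : ℝ => u (t • y)) (fderiv ℝ u y y) 1 :=
    h1.comp_hasDerivAt (1 : ℝ) h2
  have h4 : HasDerivAt (fun t : ℝ => t * u y) (u y) 1 := by
    simpa using (hasDerivAt_id (1 : ℝ)).mul_const (u y)
  have h5 : (fun t : ℝ => t * u y) =ᶠ[𝓝 1] fun t : ℝ => u (t • y) := by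
    filter_upwards [eventually_gt_nhds (show (0 : ℝ) < 1 by norm_num)] with t ht
    exact (hh y hy t ht).symm
  exact (h3.congr_of_eventuallyEq h5).unique h4

theorem euler2 (hh : ∀ x : E3, x ≠ 0 → ∀ t : ℝ, 0 < t → u (t • x) = t * u x) {x : E3}
    (hx : x ≠ 0) (i : Fin 3) : ∑ j, pd i (pd j u) x * x j = 0 := by
  have h1 : (fun y : E3 => ∑ j, y j * pd j u y) =ᶠ[𝓝 x] u := by
    filter_upwards [isOpen_compl_singleton.mem_nhds hx] with y hy
    exact euler hu hh hy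
  have h2 := pd_congr (i := i) h1
  have h3 := pd_sum (i := i) (x := x) Finset.univ (fun j y => y j * pd j u y)
    (fun j _ => (differentiableAt_coord j).mul (diff_pd hu hx j))
  rw [h3] at h2
  have h4 : ∀ j, pd i (fun y => y j * pd j u y) x =
      x j * pd i (pd j u) x + pd j u x * dk i j := by
    intro j
    rw [pd_mul (differentiableAt_coord j) (diff_pd hu hx j), pd_coord]
    rfl
  have h5 : ∑ j, pd i (fun y => y j * pd j u y) x =
      ∑ j, pd i (pd j u) x * x j + pd i u x := by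
    simp only [h4, Finset.sum_add_distrib]
    congr 1
    · exact Finset.sum_congr rfl fun j _ => by ring
    · simp [dk]
  rw [h5] at h2
  linarith

end Analysis

theorem sum_nu {x : E3} (hx : x ≠ 0) : nu x 0 ^ 2 + nu x 1 ^ 2 + nu x 2 ^ 2 = 1 := by
  have h1 := norm_sq_eq x
  have h2 : ‖x‖ ^ 2 ≠ 0 := by positivity
  unfold nu
  rw [div_pow, div_pow, div_pow, ← add_div, ← add_div, ← h1, div_self h2]

theorem toAD {a : ℝ} {u : E3 → ℝ} {ρ : ℝ → ℝ} {N : E3 → ℝ} {g h : TensorField}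
    (H : ParallelData a u ρ N g h) {x : E3} (hx : a < ‖x‖) :
    AD (fun i j => radii u ρ x i j) (nu x) := by
  have hr : 0 < ‖x‖ := lt_of_le_of_lt H.radius_nonneg hx
  have hx0 : x ≠ 0 := norm_pos_iff.1 hr
  refine ⟨fun i j => ?_, sum_nu hx0, fun i => ?_, fun v hv hv0 => ?_⟩
  · unfold radii
    simp only [Matrix.of_apply]
    rw [pd_comm H.smooth_u hx0 i j]
    simp only [eq_comm (a := i) (b := j), mul_comm (nu x i) (nu x j)]
  · have h1 := euler2 H.smooth_u H.homogeneous_u hx0 i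
    have h2 := sum_nu hx0
    rw [Fin.sum_univ_three] at h1
    have e : ∀ j, radii u ρ x i j * nu x j = pd i (pd j u) x * x j
        + ρ ‖x‖ * (dk i j * nu x j) - ρ ‖x‖ * nu x i * nu x j ^ 2 := by
      intro j
      unfold radii
      simp only [Matrix.of_apply]
      have : ‖x‖ * nu x j = x j := by unfold nu; field_simp
      have hd : (if i = j then (1 : ℝ) else 0) = dk i j := rfl
      rw [hd]
      linear_combination (pd i (pd j u) x) * this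
    rw [e, e, e]
    have h3 : dk i 0 * nu x 0 + dk i 1 * nu x 1 + dk i 2 * nu x 2 = nu x i := by
      have := dk_sum i (nu x)
      rwa [Fin.sum_univ_three] at this
    linear_combination h1 + ρ ‖x‖ * h3 - ρ ‖x‖ * nu x i * h2
  · refine H.convex x hx v ?_ hv0
    rw [Fin.sum_univ_three]
    have e : ∀ j, x j = ‖x‖ * nu x j := fun j => by unfold nu; field_simp
    rw [e 0, e 1, e 2]
    linear_combination ‖x‖ * hv

end Pool.Agent.PenroseConvex.ALGaux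

namespace Pool.Agent.PenroseConvex

open Pool.Agent.PenroseSph ALGaux

theorem ALG : Stmt_ALG := by
  intro a u ρ N g h H x hx
  have A := toAD H hx
  have hr : 0 < ‖x‖ := lt_of_le_of_lt H.radius_nonneg hx
  have hN := H.N_pos x hx
  have hG : ∀ i j, g x i j = N x ^ 2 * (nu x i * nu x j) +
      (∑ k, radii u ρ x i k * radii u ρ x k j) / ‖x‖ ^ 2 := by
    intro i j
    rw [H.metric_eq x hx]
    unfold parallelMetric
    rw [Matrix.of_apply, Matrix.mul_apply]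
  exact ⟨A.symm, ker_r A, DD_pos A, tt_pos A, ic_symm A, ic_ker A, b_ic A, trace_ic A, sq_ic A,
    inv_g A (N x) ‖x‖ hN.ne' hr.ne' (g x) hG, det_g A (N x) ‖x‖ hr.ne' (g x) hG⟩

end Pool.Agent.PenroseConvex
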