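import Pool.Agent.PenroseConvex.Stmts
import Pool.Agent.PenroseSph.Calc

/-! # Module CHN: the chain rule along the bridge -/

open MeasureTheory Filter Topology
open scoped ContDiff

namespace Pool.Agent.PenroseConvex

open Pool.Agent.PenroseSph

namespace CHN

theorem sum_coord (w : E3) : w = ∑ a, w a • (EuclideanSpace.single a (1 : ℝ) : E3) := by
  ext b
  simp [Pi.single_apply]

theorem fderiv_apply_eq_sum {F : E3 → ℝ} (X w : E3) :
    fderiv ℝ F X w = ∑ a, w a * pd a F X := by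
  conv_lhs => rw [sum_coord w]
  rw [map_sum]
  refine Finset.sum_congr rfl fun a _ => ?_
  rw [map_smul, smul_eq_mul]
  rfl

theorem pd_comp {F : E3 → ℝ} {Φ : E3 → E3} {x : E3} (hF : DifferentiableAt ℝ F (Φ x))
    (hΦ : DifferentiableAt ℝ Φ x) (i : Fin 3) :
    pd i (fun y => F (Φ y)) x = ∑ a, jac Φ x a i * pd a F (Φ x) := by
  have h1 : pd i (fun y => F (Φ y)) x
      = fderiv ℝ F (Φ x) (fderiv ℝ Φ x (EuclideanSpace.single i (1 : ℝ))) := by
    unfold pd
    have := fderiv_comp x hF hΦ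
    rw [show (fun y => F (Φ y)) = F ∘ Φ from rfl, this]
    rfl
  rw [h1, fderiv_apply_eq_sum]
  refine Finset.sum_congr rfl fun a _ => ?_
  congr 1
  have h2 : fderiv ℝ (fun y => Φ y a) x = (EuclideanSpace.proj a : E3 →L[ℝ] ℝ).comp
      (fderiv ℝ Φ x) := by
    have := ((EuclideanSpace.proj a : E3 →L[ℝ] ℝ).hasFDerivAt.comp x hΦ.hasFDerivAt).fderiv
    exact this
  show _ = fderiv ℝ (fun y => Φ y a) x (EuclideanSpace.single i (1 : ℝ))
  rw [h2]
  rfl

theorem nu_sq {x : E3} (hx : 0 < ‖x‖) : nu x 0 ^ 2 + nu x 1 ^ 2 + nu x 2 ^ 2 = 1 := by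
  unfold nu
  have h := norm_sq_eq x
  rw [div_pow, div_pow, div_pow, ← add_div, ← add_div, ← h]
  exact div_self (pow_ne_zero 2 hx.ne')

end CHN

/-- MODULE CHN -/
theorem CHN (hALG : Stmt_ALG) : Stmt_CHN := by
  intro a u ρ N g h hP x hx hρ Φ d M k hB F f hF hf
  obtain ⟨hsym, hBnu, hdB, -, hCsym, hCnu, hBC, -⟩ := hALG a u ρ N g h hP x hx
  have hr : 0 < ‖x‖ := hP.radius_nonneg.trans_lt hx
  have hnu := CHN.nu_sq hr
  have hpd : ∀ i, pd i f x = ∑ b, (radii u ρ x b i / ‖x‖
      + deriv ρ ‖x‖ * (nu x b * nu x i)) * pd b F (Φ x) := by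
    intro i
    rw [← pd_congr (f := fun y => F (Φ y)) (f' := f) hf,
      CHN.pd_comp hF (hB.smooth.differentiableAt (by simp)) i]
    refine Finset.sum_congr rfl fun b _ => ?_
    rw [hB.jac_eq.self_of_nhds b i]
  set r := ‖x‖ with hrdef
  refine ⟨?_, ?_⟩
  · simp only [hpd]
    have h0 := hBnu 0
    have h1 := hBnu 1
    have h2 := hBnu 2
    simp only [Fin.sum_univ_three] at h0 h1 h2 ⊢
    field_simp
    linear_combination (pd 0 F (Φ x)) * h0 + (pd 1 F (Φ x)) * h1 + (pd 2 F (Φ x)) * h2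
      + r * deriv ρ r * (nu x 0 * pd 0 F (Φ x) + nu x 1 * pd 1 F (Φ x) + nu x 2 * pd 2 F (Φ x)) *
        hnu
  · intro z hz
    simp only [hpd]
    have key : ∀ i, r * ∑ j, cB u ρ i j x * ∑ b, (radii u ρ x b j / r
        + deriv ρ r * (nu x b * nu x j)) * pd b F (Φ x)
        = pd i F (Φ x) - nu x i * ∑ b, nu x b * pd b F (Φ x) := by
      intro i
      have e1 : r * ∑ j, cB u ρ i j x * ∑ b, (radii u ρ x b j / r
          + deriv ρ r * (nu x b * nu x j)) * pd b F (Φ x)
          = ∑ b, pd b F (Φ x) * ((∑ j, radii u ρ x b j * cB u ρ i j x)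
            + r * deriv ρ r * nu x b * ∑ j, cB u ρ i j x * nu x j) := by
        simp only [Fin.sum_univ_three]
        field_simp
        ring
      rw [e1, hCnu i]
      have e2 : ∀ b, ∑ j, radii u ρ x b j * cB u ρ i j x = dk b i - nu x b * nu x i := by
        intro b
        rw [← hBC b i]
        refine Finset.sum_congr rfl fun j _ => ?_
        rw [hCsym i j]
      simp only [e2]
      fin_cases i <;> simp [Fin.sum_univ_three, dk] <;> ring
    simp only [key]
    have hz' := hz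
    simp only [Fin.sum_univ_three] at hz' ⊢
    linear_combination (nu x 0 * pd 0 F (Φ x) + nu x 1 * pd 1 F (Φ x) + nu x 2 * pd 2 F (Φ x)) *
        hz'

end Pool.Agent.PenroseConvex
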