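import Pool.Agent.PenroseConvex.Stmts
import Pool.Agent.PenroseSph.Calc

/-! # Covariance of the trace, the square length and the momentum density -/

open MeasureTheory Filter Topology
open scoped ContDiff

namespace Pool.Agent.PenroseConvex

open Pool.Agent.PenroseSph

namespace CovJ

/-! ### Matrix algebra -/

theorem trace_form (A T : Matrix (Fin 3) (Fin 3) ℝ) :
    ∑ i, ∑ j, A i j * T i j = (A * T.transpose).trace := by
  simp only [Matrix.trace, Matrix.diag, Matrix.mul_apply, Matrix.transpose_apply]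

theorem norm_form (A T : Matrix (Fin 3) (Fin 3) ℝ) :
    ∑ i, ∑ j, ∑ k, ∑ l, A i k * A j l * T i j * T k l
      = (A.transpose * T * A * T.transpose).trace := by
  simp only [Matrix.trace, Matrix.diag, Matrix.mul_apply, Matrix.transpose_apply,
    Fin.sum_univ_three]
  ring

theorem inv_pull (J G : Matrix (Fin 3) (Fin 3) ℝ) :
    (J.transpose * G * J)⁻¹ = J⁻¹ * G⁻¹ * (J⁻¹).transpose := by
  rw [Matrix.mul_inv_rev, Matrix.mul_inv_rev, Matrix.transpose_nonsing_inv, mul_assoc]

theorem trace_pull (J G K : Matrix (Fin 3) (Fin 3) ℝ) (hJ : J.det ≠ 0) :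
    ∑ i, ∑ j, (J.transpose * G * J)⁻¹ i j * (J.transpose * K * J) i j
      = ∑ i, ∑ j, G⁻¹ i j * K i j := by
  have hu : IsUnit J.det := isUnit_iff_ne_zero.2 hJ
  have hut : IsUnit J.transpose.det := by rwa [Matrix.det_transpose]
  rw [trace_form, trace_form, inv_pull]
  have h1 : J⁻¹ * G⁻¹ * (J⁻¹).transpose * (J.transpose * K * J).transpose
      = J⁻¹ * (G⁻¹ * K.transpose * J) := by
    rw [Matrix.transpose_mul, Matrix.transpose_mul, Matrix.transpose_transpose,
      Matrix.transpose_nonsing_inv]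
    simp only [mul_assoc]
    rw [Matrix.nonsing_inv_mul_cancel_left _ _ hut]
  rw [h1, Matrix.trace_mul_comm, Matrix.mul_nonsing_inv_cancel_right _ _ hu]

theorem norm_pull (J G K : Matrix (Fin 3) (Fin 3) ℝ) (hJ : J.det ≠ 0) :
    ∑ i, ∑ j, ∑ k, ∑ l, (J.transpose * G * J)⁻¹ i k * (J.transpose * G * J)⁻¹ j l
        * (J.transpose * K * J) i j * (J.transpose * K * J) k l
      = ∑ i, ∑ j, ∑ k, ∑ l, G⁻¹ i k * G⁻¹ j l * K i j * K k l := by
  have hu : IsUnit J.det := isUnit_iff_ne_zero.2 hJ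
  have hut : IsUnit J.transpose.det := by rwa [Matrix.det_transpose]
  rw [norm_form, norm_form, inv_pull]
  have h1 : (J⁻¹ * G⁻¹ * (J⁻¹).transpose).transpose * (J.transpose * K * J)
        * (J⁻¹ * G⁻¹ * (J⁻¹).transpose) * (J.transpose * K * J).transpose
      = J⁻¹ * (G⁻¹.transpose * K * G⁻¹ * K.transpose * J) := by
    simp only [Matrix.transpose_mul, Matrix.transpose_transpose, Matrix.transpose_nonsing_inv,
      mul_assoc]
    rw [Matrix.nonsing_inv_mul_cancel_left _ _ hut, Matrix.nonsing_inv_mul_cancel_left _ _ hut,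
      Matrix.mul_nonsing_inv_cancel_left _ _ hu]
  rw [h1, Matrix.trace_mul_comm, Matrix.mul_nonsing_inv_cancel_right _ _ hu]

theorem conj_inv (J G : Matrix (Fin 3) (Fin 3) ℝ) (hJ : J.det ≠ 0) (a c : Fin 3) :
    ∑ i, ∑ k, J a i * (J.transpose * G * J)⁻¹ i k * J c k = G⁻¹ a c := by
  have hu : IsUnit J.det := isUnit_iff_ne_zero.2 hJ
  have hut : IsUnit J.transpose.det := by rwa [Matrix.det_transpose]
  have h1 : J * (J.transpose * G * J)⁻¹ * J.transpose = G⁻¹ := by
    rw [inv_pull, Matrix.transpose_nonsing_inv]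
    simp only [mul_assoc]
    rw [Matrix.mul_nonsing_inv_cancel_left _ _ hu, Matrix.nonsing_inv_mul _ hut, mul_one]
  rw [← h1]
  simp only [Matrix.mul_apply, Matrix.transpose_apply, Finset.sum_mul]
  rw [Finset.sum_comm]

/-! ### Algebra of the covariant derivative -/

theorem alg1 (J T : Fin 3 → Fin 3 → ℝ) (γ : Fin 3 → ℝ) (j : Fin 3) :
    ∑ l, γ l * (∑ a, ∑ b, J a l * T a b * J b j)
      = ∑ a, ∑ b, (∑ l, J a l * γ l) * T a b * J b j := by
  simp only [Fin.sum_univ_three]
  ring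

theorem alg2 (J T : Fin 3 → Fin 3 → ℝ) (γ : Fin 3 → ℝ) (i : Fin 3) :
    ∑ l, γ l * (∑ a, ∑ b, J a i * T a b * J b l)
      = ∑ a, ∑ b, J a i * T a b * (∑ l, J b l * γ l) := by
  simp only [Fin.sum_univ_three]
  ring

theorem alg3 (J T : Fin 3 → Fin 3 → ℝ) (Γ : Fin 3 → Fin 3 → Fin 3 → ℝ) (k i j : Fin 3) :
    ∑ a, ∑ b, (∑ c, ∑ d, Γ a c d * J c k * J d i) * T a b * J b j
      = ∑ c, ∑ a, ∑ b, (∑ l, Γ l c a * T l b) * J c k * J a i * J b j := by
  simp only [Fin.sum_univ_three]
  ring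

theorem alg4 (J T : Fin 3 → Fin 3 → ℝ) (Γ : Fin 3 → Fin 3 → Fin 3 → ℝ) (k i j : Fin 3) :
    ∑ a, ∑ b, J a i * T a b * (∑ c, ∑ d, Γ b c d * J c k * J d j)
      = ∑ c, ∑ a, ∑ b, (∑ l, Γ l c b * T a l) * J c k * J a i * J b j := by
  simp only [Fin.sum_univ_three]
  ring

theorem alg5 (J : Fin 3 → Fin 3 → ℝ) (D : Fin 3 → Fin 3 → Fin 3 → ℝ) (k i j : Fin 3) :
    ∑ a, ∑ b, J a i * (∑ c, D c a b * J c k) * J b j
      = ∑ c, ∑ a, ∑ b, D c a b * J c k * J a i * J b j := by
  simp only [Fin.sum_univ_three]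
  ring

theorem alg6 (J A M : Fin 3 → Fin 3 → ℝ) :
    ∑ i, ∑ k, A i k * (∑ c, ∑ a, M c a * J c k * J a i)
      = ∑ a, ∑ c, (∑ i, ∑ k, J a i * A i k * J c k) * M c a := by
  simp only [Fin.sum_univ_three]
  ring

theorem alg7 (J A : Fin 3 → Fin 3 → ℝ) (C : Fin 3 → Fin 3 → Fin 3 → ℝ) (j : Fin 3) :
    ∑ i, ∑ k, A i k * (∑ c, ∑ a, ∑ b, C c a b * J c k * J a i * J b j)
      = ∑ b, J b j * (∑ a, ∑ c, (∑ i, ∑ k, J a i * A i k * J c k) * C c a b) := by
  have h : ∀ b, (∑ a, ∑ c, (∑ i, ∑ k, J a i * A i k * J c k) * C c a b)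
      = ∑ i, ∑ k, A i k * (∑ c, ∑ a, C c a b * J c k * J a i) := fun b =>
    (alg6 J A (fun c a => C c a b)).symm
  simp only [h]
  have h2 : ∀ i k, ∑ c, ∑ a, ∑ b, C c a b * J c k * J a i * J b j
      = ∑ b, J b j * (∑ c, ∑ a, C c a b * J c k * J a i) := by
    intro i k
    simp only [Fin.sum_univ_three]
    ring
  simp only [h2]
  simp only [Finset.mul_sum]
  simp only [Fin.sum_univ_three]
  ring

/-! ### Calculus -/

variable {Φ : E3 → E3} {x : E3}

theorem diff_comp (hΦ : DifferentiableAt ℝ Φ x) (a : Fin 3) :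
    DifferentiableAt ℝ (fun y => Φ y a) x :=
  (differentiableAt_coord (x := Φ x) a).comp x hΦ

theorem fderiv_comp (hΦ : DifferentiableAt ℝ Φ x) (c k : Fin 3) :
    (fderiv ℝ Φ x (EuclideanSpace.single k 1)) c = jac Φ x c k := by
  have h := (EuclideanSpace.proj c : E3 →L[ℝ] ℝ).hasFDerivAt (x := Φ x) |>.comp x hΦ.hasFDerivAt
  have h2 : pd k (fun y => Φ y c) x
      = ((EuclideanSpace.proj c : E3 →L[ℝ] ℝ).comp (fderiv ℝ Φ x))
        (EuclideanSpace.single k 1) := by
    unfold pd
    congr 1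
    exact h.fderiv
  simp only [jac, Matrix.of_apply]
  rw [h2]
  rfl

theorem chain {f : E3 → ℝ} (hf : DifferentiableAt ℝ f (Φ x)) (hΦ : DifferentiableAt ℝ Φ x)
    (k : Fin 3) : pd k (fun y => f (Φ y)) x = ∑ c, pd c f (Φ x) * jac Φ x c k := by
  have h := hf.hasFDerivAt.comp x hΦ.hasFDerivAt
  have h1 : pd k (fun y => f (Φ y)) x
      = fderiv ℝ f (Φ x) (fderiv ℝ Φ x (EuclideanSpace.single k 1)) := by
    unfold pd
    have := h.fderiv
    simp only [Function.comp_def] at this
    rw [this]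
    rfl
  have h2 : fderiv ℝ Φ x (EuclideanSpace.single k 1)
      = ∑ c, jac Φ x c k • EuclideanSpace.single c (1 : ℝ) := by
    ext c
    rw [fderiv_comp hΦ]
    fin_cases c <;> simp [Fin.sum_univ_three]
  rw [h1, h2, map_sum]
  refine Finset.sum_congr rfl fun c _ => ?_
  rw [map_smul, smul_eq_mul, mul_comm]
  rfl

theorem diff_jac (hΦ : ContDiffAt ℝ ∞ Φ x) (a i : Fin 3) :
    DifferentiableAt ℝ (fun y => jac Φ y a i) x := by
  have h1 : ContDiffAt ℝ ∞ (fun y => Φ y a) x :=
    ((EuclideanSpace.proj a : E3 →L[ℝ] ℝ).contDiff.contDiffAt).comp x hΦ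
  have h2 : ContDiffAt ℝ 1 (fderiv ℝ (fun y => Φ y a)) x :=
    h1.fderiv_right (m := 1) (by norm_cast)
  have h3 : DifferentiableAt ℝ (fderiv ℝ (fun y => Φ y a)) x := h2.differentiableAt (by norm_num)
  have h4 : DifferentiableAt ℝ (fun y => fderiv ℝ (fun y => Φ y a) y (EuclideanSpace.single i 1)) x :=
    h3.clm_apply (differentiableAt_const _)
  exact h4

theorem pullback_apply (T : TensorField) (y : E3) (i j : Fin 3) :
    pullback Φ T y i j = ∑ a, ∑ b, jac Φ y a i * T (Φ y) a b * jac Φ y b j := by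
  simp only [pullback, Matrix.mul_apply, Matrix.transpose_apply, Finset.sum_mul]
  rw [Finset.sum_comm]

theorem diff_entry {T : TensorField} (hΦ : ContDiffAt ℝ ∞ Φ x)
    (hT : ∀ a b, DifferentiableAt ℝ (fun y => T y a b) (Φ x)) (a b : Fin 3) :
    DifferentiableAt ℝ (fun y => T (Φ y) a b) x :=
  (hT a b).comp x (hΦ.differentiableAt (by simp))

/-- The derivative of the pull-back. -/
theorem pd_pullback {T : TensorField} (hΦ : ContDiffAt ℝ ∞ Φ x)
    (hT : ∀ a b, DifferentiableAt ℝ (fun y => T y a b) (Φ x)) (k i j : Fin 3) :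
    pd k (fun y => pullback Φ T y i j) x
      = (∑ a, ∑ b, pd k (pd i (fun y => Φ y a)) x * T (Φ x) a b * jac Φ x b j)
        + (∑ a, ∑ b, jac Φ x a i * (∑ c, pd c (fun y => T y a b) (Φ x) * jac Φ x c k)
            * jac Φ x b j)
        + ∑ a, ∑ b, jac Φ x a i * T (Φ x) a b * pd k (pd j (fun y => Φ y b)) x := by
  have hd : DifferentiableAt ℝ Φ x := hΦ.differentiableAt (by simp)
  have hj : ∀ a i, DifferentiableAt ℝ (fun y => jac Φ y a i) x := diff_jac hΦ
  have he : ∀ a b, DifferentiableAt ℝ (fun y => T (Φ y) a b) x := diff_entry hΦ hT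
  have e1 : (fun y => pullback Φ T y i j)
      = fun y => ∑ a, ∑ b, jac Φ y a i * T (Φ y) a b * jac Φ y b j := by
    funext y; exact pullback_apply T y i j
  have e2 : ∀ a b, pd k (fun y => jac Φ y a i * T (Φ y) a b * jac Φ y b j) x
      = pd k (pd i (fun y => Φ y a)) x * T (Φ x) a b * jac Φ x b j
        + jac Φ x a i * (∑ c, pd c (fun y => T y a b) (Φ x) * jac Φ x c k) * jac Φ x b j
        + jac Φ x a i * T (Φ x) a b * pd k (pd j (fun y => Φ y b)) x := by
    intro a b
    have hjac : ∀ a i, pd k (fun y => jac Φ y a i) x = pd k (pd i (fun y => Φ y a)) x := by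
      intro a i
      rfl
    have m1 : DifferentiableAt ℝ (fun y => jac Φ y a i * T (Φ y) a b) x := (hj a i).mul (he a b)
    have q1 := pd_mul (i := k) m1 (hj b j)
    have q2 := pd_mul (i := k) (hj a i) (he a b)
    rw [q1, q2, chain (hT a b) hd, hjac, hjac]
    ring
  have m2 : ∀ a b, DifferentiableAt ℝ (fun y => jac Φ y a i * T (Φ y) a b * jac Φ y b j) x :=
    fun a b => ((hj a i).mul (he a b)).mul (hj b j)
  have m3 : ∀ a, DifferentiableAt ℝ
      (fun y => ∑ b, jac Φ y a i * T (Φ y) a b * jac Φ y b j) x :=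
    fun a => DifferentiableAt.fun_sum fun b _ => m2 a b
  have e3 : ∀ a, pd k (fun y => ∑ b, jac Φ y a i * T (Φ y) a b * jac Φ y b j) x
      = ∑ b, pd k (fun y => jac Φ y a i * T (Φ y) a b * jac Φ y b j) x := fun a =>
    pd_sum Finset.univ (fun b y => jac Φ y a i * T (Φ y) a b * jac Φ y b j) (fun b _ => m2 a b)
  have e4 : pd k (fun y => ∑ a, ∑ b, jac Φ y a i * T (Φ y) a b * jac Φ y b j) x
      = ∑ a, pd k (fun y => ∑ b, jac Φ y a i * T (Φ y) a b * jac Φ y b j) x :=
    pd_sum Finset.univ (fun a y => ∑ b, jac Φ y a i * T (Φ y) a b * jac Φ y b j)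
      (fun a _ => m3 a)
  rw [e1, e4]
  simp only [e3, e2, Finset.sum_add_distrib]

/-- The covariant derivative is a tensor. -/
theorem covDeriv_pullback (hCOVC : Stmt_COVC) {G g T : TensorField} (h : ChangeAt Φ G g x)
    (hT : ∀ a b, DifferentiableAt ℝ (fun y => T y a b) (Φ x)) (k i j : Fin 3) :
    covDeriv g (pullback Φ T) k i j x
      = ∑ c, ∑ a, ∑ b, covDeriv G T c a b (Φ x) * jac Φ x c k * jac Φ x a i * jac Φ x b j := by
  have hC := hCOVC Φ G g x h
  have a1 : ∑ l, christoffel g l k i x * pullback Φ T x l j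
      = ∑ a, ∑ b, ((∑ b', ∑ c, christoffel G a b' c (Φ x) * jac Φ x b' k * jac Φ x c i)
          + pd k (pd i (fun y => Φ y a)) x) * T (Φ x) a b * jac Φ x b j := by
    have := alg1 (jac Φ x) (T (Φ x)) (fun l => christoffel g l k i x) j
    simp only [pullback_apply]
    rw [this]
    simp only [hC]
  have a2 : ∑ l, christoffel g l k j x * pullback Φ T x i l
      = ∑ a, ∑ b, jac Φ x a i * T (Φ x) a b
          * ((∑ b', ∑ c, christoffel G b b' c (Φ x) * jac Φ x b' k * jac Φ x c j)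
          + pd k (pd j (fun y => Φ y b)) x) := by
    have := alg2 (jac Φ x) (T (Φ x)) (fun l => christoffel g l k j x) i
    simp only [pullback_apply]
    rw [this]
    simp only [hC]
  have a3 := alg3 (jac Φ x) (T (Φ x)) (fun a c d => christoffel G a c d (Φ x)) k i j
  have a4 := alg4 (jac Φ x) (T (Φ x)) (fun a c d => christoffel G a c d (Φ x)) k i j
  have a5 := alg5 (jac Φ x) (fun c a b => pd c (fun y => T y a b) (Φ x)) k i j
  unfold covDeriv
  rw [Finset.sum_add_distrib, a1, a2, pd_pullback h.smooth hT]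
  simp only [add_mul, mul_add, sub_mul, Finset.sum_add_distrib, Finset.sum_sub_distrib] at *
  rw [a3, a4, a5]
  ring

/-- The divergence is a tensor. -/
theorem divergence_pullback (hCOVC : Stmt_COVC) {G g T : TensorField} (h : ChangeAt Φ G g x)
    (hT : ∀ a b, DifferentiableAt ℝ (fun y => T y a b) (Φ x)) (j : Fin 3) :
    divergence g (pullback Φ T) j x = ∑ b, jac Φ x b j * divergence G T b (Φ x) := by
  unfold divergence
  simp only [covDeriv_pullback hCOVC h hT]
  rw [alg7 (jac Φ x) (fun i k => (g x)⁻¹ i k) (fun c a b => covDeriv G T c a b (Φ x)) j]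
  refine Finset.sum_congr rfl fun b _ => ?_
  congr 1
  refine Finset.sum_congr rfl fun a _ => Finset.sum_congr rfl fun c _ => ?_
  congr 1
  rw [h.eq.self_of_nhds]
  exact conj_inv _ _ h.det_jac a c

/-! ### Smoothness of the inverse metric -/

theorem diff_det {G : TensorField} {y : E3} (hG : ∀ i j, DifferentiableAt ℝ (fun z => G z i j) y) :
    DifferentiableAt ℝ (fun z => (G z).det) y := by
  simp only [Matrix.det_fin_three]
  have h := hG
  fun_prop

theorem diff_adj {G : TensorField} {y : E3} (hG : ∀ i j, DifferentiableAt ℝ (fun z => G z i j) y)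
    (i j : Fin 3) : DifferentiableAt ℝ (fun z => (G z).adjugate i j) y := by
  have h := hG
  simp only [Matrix.adjugate_fin_three]
  fin_cases i <;> fin_cases j <;> simp <;> fun_prop

theorem diff_inv {G : TensorField} {y : E3} (hG : ∀ i j, DifferentiableAt ℝ (fun z => G z i j) y)
    (hd : (G y).det ≠ 0) (i j : Fin 3) : DifferentiableAt ℝ (fun z => (G z)⁻¹ i j) y := by
  have e : (fun z => (G z)⁻¹ i j) = fun z => ((G z).det)⁻¹ * (G z).adjugate i j := by
    funext z
    rw [Matrix.inv_def, Matrix.smul_apply, Ring.inverse_eq_inv', smul_eq_mul]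
  rw [e]
  exact ((diff_det hG).inv hd).mul (diff_adj hG i j)

theorem diff_trace {G K : TensorField} {y : E3}
    (hG : ∀ i j, DifferentiableAt ℝ (fun z => G z i j) y)
    (hK : ∀ i j, DifferentiableAt ℝ (fun z => K z i j) y)
    (hd : (G y).det ≠ 0) : DifferentiableAt ℝ (traceWith G K) y := by
  have : traceWith G K = fun z => ∑ i, ∑ j, (G z)⁻¹ i j * K z i j := rfl
  rw [this]
  exact DifferentiableAt.fun_sum fun i _ => DifferentiableAt.fun_sum fun j _ =>
    (diff_inv hG hd i j).mul (hK i j)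

theorem momentum_congr {g T T' : TensorField} (hT : T =ᶠ[𝓝 x] T') (j : Fin 3) :
    divergence g T j x = divergence g T' j x := by
  unfold divergence covDeriv
  have h0 : T x = T' x := hT.self_of_nhds
  have h1 : ∀ k a b, pd k (fun y => T y a b) x = pd k (fun y => T' y a b) x := by
    intro k a b
    apply pd_congr
    filter_upwards [hT] with y hy
    rw [hy]
  simp only [h0, h1]

end CovJ

open CovJ in
/-- Covariance of the trace, the square length and the momentum density. -/
theorem COVJ (hCOVC : Stmt_COVC) : Stmt_COVJ := by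
  intro Φ G g K h x hc hK hh
  have hj : ∀ a i, DifferentiableAt ℝ (fun y => jac Φ y a i) x := diff_jac hc.smooth
  have hdj : ∀ᶠ y in 𝓝 x, (jac Φ y).det ≠ 0 := by
    have : ContinuousAt (fun y => (jac Φ y).det) x :=
      (diff_det (G := fun y => jac Φ y) hj).continuousAt
    exact this.eventually_ne hc.det_jac
  have hGd : ∀ i j, DifferentiableAt ℝ (fun z => G z i j) (Φ x) := fun i j =>
    (hc.smooth_G i j).differentiableAt (by simp)
  have hKd : ∀ i j, DifferentiableAt ℝ (fun z => K z i j) (Φ x) := fun i j =>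
    (hK i j).differentiableAt (by simp)
  have htr : ∀ᶠ y in 𝓝 x, traceWith g h y = traceWith G K (Φ y) := by
    filter_upwards [hdj, hc.eq, hh] with y h1 h2 h3
    unfold traceWith
    rw [h2, h3]
    exact trace_pull _ _ _ h1
  refine ⟨htr.self_of_nhds, ?_, ?_⟩
  · unfold normSqWith
    rw [hc.eq.self_of_nhds, hh.self_of_nhds]
    exact norm_pull _ _ _ hc.det_jac
  · intro i
    set T : TensorField := fun y => K y - traceWith G K y • G y with hTdef
    have hT : ∀ a b, DifferentiableAt ℝ (fun y => T y a b) (Φ x) := by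
      intro a b
      have e : (fun y => T y a b) = fun y => K y a b - traceWith G K y * G y a b := by
        funext y
        simp [hTdef, Matrix.sub_apply, Matrix.smul_apply]
      rw [e]
      exact (hKd a b).sub ((diff_trace hGd hKd hc.det_G).mul (hGd a b))
    have he : (fun y => h y - traceWith g h y • g y) =ᶠ[𝓝 x] pullback Φ T := by
      filter_upwards [htr, hc.eq, hh] with y h1 h2 h3
      rw [h1, h2, h3]
      simp only [pullback, hTdef, Matrix.mul_sub, Matrix.sub_mul, Matrix.mul_smul,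
        Matrix.smul_mul]
    unfold momentumDensity
    rw [momentum_congr he, divergence_pullback hCOVC hc hT]

end Pool.Agent.PenroseConvex
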