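import Pool.Agent.PenroseConvex.Stmts
import Pool.Agent.PenroseSph.Calc

/-! # DCY: decay of the functions at infinity -/

open MeasureTheory Filter Topology
open scoped ContDiff

namespace Pool.Agent.PenroseConvex

open Pool.Agent.PenroseSph

namespace DCYaux

/-! ### real estimates -/

/-- the bound of `ρ - s` -/
theorem est_rho {A c s r T Q F : ℝ} (hA : 0 ≤ A) (hc : 0 ≤ c) (hs : 4 * c + 2 ≤ s)
    (hT : |T| ≤ 3 * c) (hQ0 : 0 ≤ Q) (hQ : Q ≤ 9 * c ^ 2) (ht : 0 < T + 2 * r)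
    (hF : F * s ^ 2 = Q + 2 * r * T + 2 * r ^ 2) (hF2 : |F - 2| ≤ 12 * A / s) :
    |r - s| ≤ 12 * A + 14 * c ^ 2 + 3 * c := by
  have hs0 : 0 < s := by linarith
  have h1 : |F - 2| * s ^ 2 ≤ 12 * A * s := by
    calc |F - 2| * s ^ 2 ≤ 12 * A / s * s ^ 2 := by gcongr
      _ = 12 * A * s := by field_simp
  have h2 : |Q + 2 * r * T + 2 * r ^ 2 - 2 * s ^ 2| ≤ 12 * A * s := by
    have : Q + 2 * r * T + 2 * r ^ 2 - 2 * s ^ 2 = (F - 2) * s ^ 2 := by rw [sub_mul, hF]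
    rw [this, abs_mul, abs_of_nonneg (sq_nonneg s)]
    exact h1
  rw [abs_le] at hT h2
  have hr : -(3 / 2 * c) ≤ r := by linarith [hT.2]
  have hp : 1 ≤ r + s := by linarith
  have hp2 : s ≤ 2 * (r + s) := by linarith
  have hrabs : |r| ≤ r + s + 3 * c := by
    rw [abs_le]; constructor <;> linarith
  have hrT : |r * T| ≤ (r + s + 3 * c) * (3 * c) := by
    rw [abs_mul]
    exact mul_le_mul hrabs (abs_le.2 hT) (abs_nonneg _) (by linarith)
  rw [abs_le] at hrT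
  have hkey : |(r - s) * (r + s)| ≤ (12 * A + 14 * c ^ 2 + 3 * c) * (r + s) := by
    rw [abs_le]
    constructor
    · nlinarith [mul_nonneg hA (show (0 : ℝ) ≤ 2 * (r + s) - s by linarith),
        mul_nonneg (sq_nonneg c) (show (0 : ℝ) ≤ r + s - 1 by linarith)]
    · nlinarith [mul_nonneg hA (show (0 : ℝ) ≤ 2 * (r + s) - s by linarith),
        mul_nonneg (sq_nonneg c) (show (0 : ℝ) ≤ r + s - 1 by linarith)]
  rw [abs_mul, abs_of_pos (show 0 < r + s by linarith)] at hkey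
  exact le_of_mul_le_mul_right hkey (by linarith)

/-- the bound of `dB - s²` -/
theorem est_d {c s r T Q K : ℝ} (hc : 0 ≤ c) (hs : 1 ≤ s) (hK : 0 ≤ K)
    (hT : |T| ≤ 3 * c) (hQ0 : 0 ≤ Q) (hQ : Q ≤ 9 * c ^ 2) (hr : |r - s| ≤ K) :
    |(T ^ 2 - Q) / 2 + r * T + r ^ 2 - s ^ 2| ≤
      (9 * c ^ 2 + 3 * c * (1 + K) + K * (2 + K)) * s := by
  have hT2 : T ^ 2 ≤ 9 * c ^ 2 := by
    have := sq_le_sq' (abs_le.1 hT).1 (abs_le.1 hT).2
    nlinarith
  have hrabs : |r| ≤ s + K := by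
    rw [abs_le] at *; constructor <;> linarith [hr.1, hr.2]
  have h1 : |r * T| ≤ (s + K) * (3 * c) := by
    rw [abs_mul]
    exact mul_le_mul hrabs hT (abs_nonneg _) (by linarith)
  have h2 : |(r - s) * (r + s)| ≤ K * (2 * s + K) := by
    rw [abs_mul]
    refine mul_le_mul hr ?_ (abs_nonneg _) hK
    rw [abs_le] at *
    constructor <;> linarith [hr.1, hr.2]
  have h3 : (T ^ 2 - Q) / 2 + r * T + r ^ 2 - s ^ 2 =
      (T ^ 2 - Q) / 2 + r * T + (r - s) * (r + s) := by ring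
  rw [h3]
  have h4 : |(T ^ 2 - Q) / 2| ≤ 9 * c ^ 2 := by
    rw [abs_le]
    constructor <;> nlinarith [sq_nonneg T, sq_nonneg c]
  calc |(T ^ 2 - Q) / 2 + r * T + (r - s) * (r + s)|
      ≤ |(T ^ 2 - Q) / 2| + |r * T| + |(r - s) * (r + s)| := abs_add_three _ _ _
    _ ≤ 9 * c ^ 2 + (s + K) * (3 * c) + K * (2 * s + K) := by linarith
    _ ≤ _ := by
      nlinarith [mul_nonneg (sq_nonneg c) (show (0 : ℝ) ≤ s - 1 by linarith),
        mul_nonneg (mul_nonneg hc hK) (show (0 : ℝ) ≤ s - 1 by linarith),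
        mul_nonneg (mul_nonneg hK hK) (show (0 : ℝ) ≤ s - 1 by linarith)]

/-- the bound of `ρ' - 1` -/
theorem est_rho' {A s t r' F F' K : ℝ} (hA : 0 ≤ A) (hs : 1 ≤ s) (hK : 0 ≤ K) (hKs : K ≤ s)
    (ht : |t - 2 * s| ≤ K) (hF2 : |F - 2| ≤ 12 * A / s) (hF' : |F'| ≤ 36 * A / s ^ 2)
    (heq : r' * t = F' * s ^ 2 / 2 + s * F) : |r' - 1| ≤ (30 * A + K) / s := by
  have hs0 : 0 < s := by linarith
  have h1 : |F' * s ^ 2 / 2| ≤ 18 * A := by
    rw [abs_div, abs_mul, abs_of_nonneg (sq_nonneg s), abs_two]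
    calc |F'| * s ^ 2 / 2 ≤ 36 * A / s ^ 2 * s ^ 2 / 2 := by gcongr
      _ = 18 * A := by field_simp; ring
  have h2 : |s * (F - 2)| ≤ 12 * A := by
    rw [abs_mul, abs_of_pos hs0]
    calc s * |F - 2| ≤ s * (12 * A / s) := by gcongr
      _ = 12 * A := by field_simp
  have h3 : |(r' - 1) * t| ≤ 30 * A + K := by
    have : (r' - 1) * t = F' * s ^ 2 / 2 + s * (F - 2) - (t - 2 * s) := by
      rw [sub_mul, heq]; ring
    rw [this]
    calc |F' * s ^ 2 / 2 + s * (F - 2) - (t - 2 * s)|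
        ≤ |F' * s ^ 2 / 2 + s * (F - 2)| + |t - 2 * s| := abs_sub _ _
      _ ≤ |F' * s ^ 2 / 2| + |s * (F - 2)| + |t - 2 * s| := by
        gcongr
        exact abs_add_le _ _
      _ ≤ _ := by linarith
  have hts : s ≤ t := by
    rw [abs_le] at ht; linarith [ht.1]
  rw [le_div_iff₀ hs0]
  rw [abs_mul, abs_of_pos (show 0 < t by linarith)] at h3
  calc |r' - 1| * s ≤ |r' - 1| * t := by gcongr
    _ ≤ _ := h3

/-- a sum over `Fin 3 × Fin 3` of bounded terms -/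
theorem sum2_le {f : Fin 3 → Fin 3 → ℝ} {c : ℝ} (h : ∀ i j, |f i j| ≤ c) :
    |∑ i, ∑ j, f i j| ≤ 9 * c := by
  calc |∑ i, ∑ j, f i j| ≤ ∑ i, |∑ j, f i j| := Finset.abs_sum_le_sum_abs _ _
    _ ≤ ∑ i : Fin 3, ∑ j, |f i j| := Finset.sum_le_sum fun i _ => Finset.abs_sum_le_sum_abs _ _
    _ ≤ ∑ i : Fin 3, ∑ j : Fin 3, c :=
      Finset.sum_le_sum fun i _ => Finset.sum_le_sum fun j _ => h i j
    _ = 9 * c := by simp; ring

theorem sum1_le {f : Fin 3 → ℝ} {c : ℝ} (h : ∀ i, |f i| ≤ c) : |∑ i, f i| ≤ 3 * c := by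
  calc |∑ i, f i| ≤ ∑ i, |f i| := Finset.abs_sum_le_sum_abs _ _
    _ ≤ ∑ i : Fin 3, c := Finset.sum_le_sum fun i _ => h i
    _ = 3 * c := by simp

/-! ### the points of the rays -/

theorem norm_pt {s : ℝ} (hs : 0 < s) (θ : S2) : ‖s • (θ : E3)‖ = s := by
  rw [norm_smul, Real.norm_eq_abs, abs_of_pos hs]
  have : ‖(θ : E3)‖ = 1 := by simp
  rw [this, mul_one]

theorem nu_pt {s : ℝ} (hs : 0 < s) (θ : S2) (i : Fin 3) : nu (s • (θ : E3)) i = (θ : E3) i := by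
  unfold nu
  rw [norm_pt hs]
  simp only [PiLp.smul_apply, smul_eq_mul]
  field_simp

theorem sum_sq_th (θ : S2) : ∑ i, (θ : E3) i * (θ : E3) i = 1 := by
  have h1 := norm_sq_eq (θ : E3)
  have h2 : ‖(θ : E3)‖ = 1 := by simp
  rw [h2] at h1
  rw [Fin.sum_univ_three]
  linarith

theorem th_le (θ : S2) (i : Fin 3) : |(θ : E3) i| ≤ 1 := by
  have h1 := sum_sq_th θ
  have h2 : (θ : E3) i * (θ : E3) i ≤ ∑ j, (θ : E3) j * (θ : E3) j :=
    Finset.single_le_sum (f := fun j => (θ : E3) j * (θ : E3) j)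
      (fun j _ => mul_self_nonneg _) (Finset.mem_univ i)
  rw [h1] at h2
  rw [abs_le]
  constructor <;> nlinarith

theorem hasDerivAt_ray {f : E3 → ℝ} {s : ℝ} (θ : S2) (hf : DifferentiableAt ℝ f (s • (θ : E3))) :
    HasDerivAt (fun t : ℝ => f (t • (θ : E3))) (∑ k, (θ : E3) k * pd k f (s • (θ : E3))) s := by
  have h1 : HasDerivAt (fun t : ℝ => t • (θ : E3)) (θ : E3) s := by
    simpa using (hasDerivAt_id s).smul_const (θ : E3)
  have h2 := hf.hasFDerivAt.comp_hasDerivAt s h1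
  have h3 : (θ : E3) = ∑ i, ((θ : E3) i) • (EuclideanSpace.single i (1 : ℝ) : E3) := by
    ext j
    simp [Finset.sum_apply, Pi.single_apply]
  have h4 : fderiv ℝ f (s • (θ : E3)) (θ : E3) = ∑ k, (θ : E3) k * pd k f (s • (θ : E3)) := by
    conv_lhs => rw [h3]
    rw [map_sum]
    refine Finset.sum_congr rfl fun i _ => ?_
    rw [map_smul, smul_eq_mul]
    unfold pd
    rw [← h3]
  rw [← h4]
  exact h2

/-! ### the geometric identities -/

section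
variable {a : ℝ} {u : E3 → ℝ} {ρ : ℝ → ℝ} {N : E3 → ℝ} {g h : TensorField}
  (hD : ParallelData a u ρ N g h) (hALG : Stmt_ALG)

include hD

theorem g_apply {x : E3} (hx : a < ‖x‖) (i j : Fin 3) :
    g x i j = N x ^ 2 * (nu x i * nu x j) + (∑ k, radii u ρ x i k * radii u ρ x k j) / ‖x‖ ^ 2 := by
  rw [hD.metric_eq x hx]
  unfold parallelMetric
  rw [Matrix.of_apply, Matrix.mul_apply]

include hALG

theorem g_nn {s : ℝ} (hs : a < s) (θ : S2) :
    ∑ i, ∑ j, g (s • (θ : E3)) i j * ((θ : E3) i * (θ : E3) j) = N (s • (θ : E3)) ^ 2 := by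
  have hs0 : 0 < s := lt_of_le_of_lt hD.radius_nonneg hs
  have hx : a < ‖s • (θ : E3)‖ := by rw [norm_pt hs0]; exact hs
  obtain ⟨hsym, hBn, -⟩ := hALG a u ρ N g h hD _ hx
  have h1 := sum_sq_th θ
  obtain ⟨B, hB⟩ : ∃ B : Fin 3 → Fin 3 → ℝ, ∀ i j, radii u ρ (s • (θ : E3)) i j = B i j :=
    ⟨_, fun _ _ => rfl⟩
  simp only [hB, nu_pt hs0] at hsym hBn
  simp only [g_apply hD hx, nu_pt hs0, hB]
  have h2 : ∑ i, ∑ j, (N (s • (θ : E3)) ^ 2 * ((θ : E3) i * (θ : E3) j) +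
      (∑ k, B i k * B k j) / ‖s • (θ : E3)‖ ^ 2) * ((θ : E3) i * (θ : E3) j) =
      N (s • (θ : E3)) ^ 2 * (∑ i, (θ : E3) i * (θ : E3) i) ^ 2 +
      (∑ k, (∑ i, B i k * (θ : E3) i) * (∑ j, B k j * (θ : E3) j)) / ‖s • (θ : E3)‖ ^ 2 := by
    simp only [Fin.sum_univ_three]
    ring
  rw [h2, h1]
  simp only [hBn, mul_zero, Finset.sum_const_zero, zero_div, add_zero, one_pow, mul_one]

theorem g_tr {s : ℝ} (hs : a < s) (θ : S2) :
    (∑ i, g (s • (θ : E3)) i i) - ∑ i, ∑ j, g (s • (θ : E3)) i j * ((θ : E3) i * (θ : E3) j) =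
      (∑ i, ∑ j, radii u ρ (s • (θ : E3)) i j ^ 2) / s ^ 2 := by
  have hs0 : 0 < s := lt_of_le_of_lt hD.radius_nonneg hs
  have hx : a < ‖s • (θ : E3)‖ := by rw [norm_pt hs0]; exact hs
  rw [g_nn hD hALG hs]
  obtain ⟨hsym, -, -⟩ := hALG a u ρ N g h hD _ hx
  have h1 := sum_sq_th θ
  simp only [g_apply hD hx, nu_pt hs0, norm_pt hs0]
  have h2 : ∀ i k, radii u ρ (s • (θ : E3)) i k * radii u ρ (s • (θ : E3)) k i =
      radii u ρ (s • (θ : E3)) i k ^ 2 := by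
    intro i k
    rw [hsym k i]
    ring
  simp only [h2]
  rw [Finset.sum_add_distrib, ← Finset.mul_sum, h1, ← Finset.sum_div]
  ring

theorem sum_sq_radii (hRAY : Stmt_RAY) {s : ℝ} (hs : a < s) (θ : S2) :
    ∑ i, ∑ j, radii u ρ (s • (θ : E3)) i j ^ 2 =
      (∑ i, ∑ j, pd i (pd j u) (θ : E3) ^ 2) + 2 * ρ s * (∑ i, pd i (pd i u) (θ : E3)) +
        2 * ρ s ^ 2 := by
  have hs0 : 0 < s := lt_of_le_of_lt hD.radius_nonneg hs
  obtain ⟨-, h2, h3, -, -⟩ := hRAY a u ρ N g h hD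
  have h4 := h3 s θ hs0
  unfold dB at h4
  rw [h2 s θ hs0] at h4
  linarith

end

end DCYaux

open DCYaux in
/-- DCY: decay of the functions at infinity. -/
theorem DCY (hALG : Stmt_ALG) (hRAY : Stmt_RAY) (hSMO : Stmt_SMO) : Stmt_DCY := by
  intro a u ρ N g h hD
  obtain ⟨C₀, R₀, hdec⟩ := hD.decay
  obtain ⟨hU, htB, hdB, -, C₁, hC₁⟩ := hRAY a u ρ N g h hD
  obtain ⟨hsmR, -⟩ := hSMO a u ρ N g h hD
  have ha := hD.radius_nonneg
  obtain ⟨A, hA⟩ : ∃ A, A = |C₀| := ⟨_, rfl⟩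
  obtain ⟨c, hc⟩ : ∃ c, c = |C₁| := ⟨_, rfl⟩
  have hA0 : 0 ≤ A := by rw [hA]; exact abs_nonneg _
  have hc0 : 0 ≤ c := by rw [hc]; exact abs_nonneg _
  obtain ⟨K₁, hK₁⟩ : ∃ K, K = 12 * A + 14 * c ^ 2 + 3 * c := ⟨_, rfl⟩
  obtain ⟨K₂, hK₂⟩ : ∃ K, K = 3 * c + 2 * K₁ := ⟨_, rfl⟩
  obtain ⟨K₃, hK₃⟩ : ∃ K, K = 9 * c ^ 2 + 3 * c * (1 + K₁) + K₁ * (2 + K₁) := ⟨_, rfl⟩
  have hK₁0 : 0 ≤ K₁ := by rw [hK₁]; positivity
  have hK₂0 : 0 ≤ K₂ := by rw [hK₂]; positivity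
  have hK₃0 : 0 ≤ K₃ := by rw [hK₃]; positivity
  -- `Q` and `T`
  have hTb : ∀ θ : S2, |∑ i, pd i (pd i u) (θ : E3)| ≤ 3 * c := fun θ =>
    sum1_le fun i => (hC₁ θ i i).trans (by rw [hc]; exact le_abs_self _)
  have hQ0 : ∀ θ : S2, 0 ≤ ∑ i, ∑ j, pd i (pd j u) (θ : E3) ^ 2 := fun θ =>
    Finset.sum_nonneg fun i _ => Finset.sum_nonneg fun j _ => sq_nonneg _
  have hQb : ∀ θ : S2, ∑ i, ∑ j, pd i (pd j u) (θ : E3) ^ 2 ≤ 9 * c ^ 2 := fun θ => by
    have h1 : |∑ i, ∑ j, pd i (pd j u) (θ : E3) ^ 2| ≤ 9 * c ^ 2 := by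
      refine sum2_le fun i j => ?_
      rw [abs_pow]
      refine pow_le_pow_left₀ (abs_nonneg _) ?_ 2
      exact (hC₁ θ i j).trans (by rw [hc]; exact le_abs_self _)
    exact (le_abs_self _).trans h1
  -- the decay at points of rays
  have hdec' : ∀ s : ℝ, R₀ ≤ s → 0 < s → ∀ (θ : S2) (i j : Fin 3),
      |g (s • (θ : E3)) i j - (1 : Matrix (Fin 3) (Fin 3) ℝ) i j| ≤ A / s ∧
      (∀ k, |pd k (fun y => g y i j) (s • (θ : E3))| ≤ A / s ^ 2) ∧
      |h (s • (θ : E3)) i j| ≤ A / s ^ 2 := by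
    intro s hs hs0 θ i j
    have h1 := hdec (s • (θ : E3)) (by rw [norm_pt hs0]; exact hs) i j
    rw [norm_pt hs0] at h1
    have h2 : C₀ ≤ A := by rw [hA]; exact le_abs_self _
    refine ⟨h1.1.trans (by gcongr), fun k => (h1.2.1 k).trans (by gcongr),
      h1.2.2.trans (by gcongr)⟩
  obtain ⟨R, hR⟩ : ∃ R, R = max (max (a + 1) R₀) (max (4 * c + 2) (max (K₂ + 1) (2 * K₃ + 1))) :=
    ⟨_, rfl⟩
  obtain ⟨C, hC⟩ : ∃ C, C = K₁ + (30 * A + K₂) + 9 * A + 972 * A + K₂ + K₃ := ⟨_, rfl⟩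
  refine ⟨C, R, ?_, ?_, ?_⟩
  · have : a + 1 ≤ R := by rw [hR]; exact (le_max_left _ _).trans (le_max_left _ _)
    linarith
  · have : 4 * c + 2 ≤ R := by rw [hR]; exact (le_max_left _ _).trans (le_max_right _ _)
    linarith
  intro s hsR
  have hsa : a < s := by
    have : a + 1 ≤ R := by rw [hR]; exact (le_max_left _ _).trans (le_max_left _ _)
    linarith
  have hsR0 : R₀ ≤ s := by
    have : R₀ ≤ R := by rw [hR]; exact (le_max_right _ _).trans (le_max_left _ _)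
    linarith
  have hsc : 4 * c + 2 ≤ s := by
    have : 4 * c + 2 ≤ R := by rw [hR]; exact (le_max_left _ _).trans (le_max_right _ _)
    linarith
  have hsK₂ : K₂ + 1 ≤ s := by
    have : K₂ + 1 ≤ R := by
      rw [hR]; exact (le_max_left _ _).trans ((le_max_right _ _).trans (le_max_right _ _))
    linarith
  have hsK₃ : 2 * K₃ + 1 ≤ s := by
    have : 2 * K₃ + 1 ≤ R := by
      rw [hR]; exact (le_max_right _ _).trans ((le_max_right _ _).trans (le_max_right _ _))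
    linarith
  have hs0 : 0 < s := by linarith
  have hs1 : 1 ≤ s := by linarith
  -- estimates at one point
  have hN : ∀ θ : S2, |N (s • (θ : E3)) ^ 2 - 1| ≤ 9 * (A / s) := by
    intro θ
    have h1 := g_nn hD hALG hsa θ
    have h2 : N (s • (θ : E3)) ^ 2 - 1 = ∑ i, ∑ j, (g (s • (θ : E3)) i j -
        (1 : Matrix (Fin 3) (Fin 3) ℝ) i j) * ((θ : E3) i * (θ : E3) j) := by
      rw [← h1]
      have h3 : (1 : ℝ) = ∑ i, ∑ j, (1 : Matrix (Fin 3) (Fin 3) ℝ) i j *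
          ((θ : E3) i * (θ : E3) j) := by
        simp only [Matrix.one_apply, ite_mul, one_mul, zero_mul, Finset.sum_ite_eq,
          Finset.mem_univ, if_true]
        exact (sum_sq_th θ).symm
      conv_lhs => rw [h3]
      rw [← Finset.sum_sub_distrib]
      refine Finset.sum_congr rfl fun i _ => ?_
      rw [← Finset.sum_sub_distrib]
      refine Finset.sum_congr rfl fun j _ => ?_
      ring
    rw [h2]
    refine sum2_le fun i j => ?_
    rw [abs_mul, abs_mul]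
    have h3 := (hdec' s hsR0 hs0 θ i j).1
    have h4 : |(θ : E3) i| * |(θ : E3) j| ≤ 1 :=
      mul_le_one₀ (th_le θ i) (abs_nonneg _) (th_le θ j)
    calc _ ≤ A / s * 1 := mul_le_mul h3 h4 (by positivity) (by positivity)
      _ = A / s := mul_one _
  -- the trace
  have hFdef : ∀ σ : ℝ, a < σ → ∀ θ : S2,
      (∑ i, g (σ • (θ : E3)) i i) - ∑ i, ∑ j, g (σ • (θ : E3)) i j * ((θ : E3) i * (θ : E3) j) =
      ((∑ i, ∑ j, pd i (pd j u) (θ : E3) ^ 2) + 2 * ρ σ * (∑ i, pd i (pd i u) (θ : E3)) +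
        2 * ρ σ ^ 2) / σ ^ 2 := by
    intro σ hσ θ
    rw [g_tr hD hALG hσ, sum_sq_radii hD hALG hRAY hσ]
  have hF2 : ∀ θ : S2, |(∑ i, g (s • (θ : E3)) i i) -
      (∑ i, ∑ j, g (s • (θ : E3)) i j * ((θ : E3) i * (θ : E3) j)) - 2| ≤ 12 * A / s := by
    intro θ
    rw [g_nn hD hALG hsa θ]
    have h1 : |∑ i, (g (s • (θ : E3)) i i - 1)| ≤ 3 * (A / s) := by
      refine sum1_le fun i => ?_
      have := (hdec' s hsR0 hs0 θ i i).1
      rwa [Matrix.one_apply_eq] at this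
    have h2 : (∑ i, g (s • (θ : E3)) i i) - N (s • (θ : E3)) ^ 2 - 2 =
        (∑ i, (g (s • (θ : E3)) i i - 1)) - (N (s • (θ : E3)) ^ 2 - 1) := by
      simp only [Fin.sum_univ_three]
      ring
    rw [h2]
    refine (abs_sub _ _).trans ?_
    have h3 := hN θ
    have h4 : 12 * A / s = 3 * (A / s) + 9 * (A / s) := by ring
    rw [h4]
    linarith
  have hUalg := fun θ : S2 => hALG a u ρ N g h hD (s • (θ : E3)) (by rw [norm_pt hs0]; exact hsa)
  have htpos : ∀ θ : S2, 0 < (∑ i, pd i (pd i u) (θ : E3)) + 2 * ρ s := by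
    intro θ
    rw [← htB s θ hs0]
    exact (hUalg θ).2.2.2.1
  -- a point of the sphere
  have θ₀ : S2 := ⟨EuclideanSpace.single 0 1, by simp⟩
  have hrho : |ρ s - s| ≤ K₁ := by
    rw [hK₁]
    refine est_rho hA0 hc0 hsc (hTb θ₀) (hQ0 θ₀) (hQb θ₀) (htpos θ₀) ?_ (hF2 θ₀)
    rw [hFdef s hsa θ₀]
    field_simp
  have htb : ∀ θ : S2, |tB u ρ (s • (θ : E3)) - 2 * s| ≤ K₂ := by
    intro θ
    rw [htB s θ hs0, hK₂]
    have h1 : (∑ i, pd i (pd i u) (θ : E3)) + 2 * ρ s - 2 * s =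
        (∑ i, pd i (pd i u) (θ : E3)) + 2 * (ρ s - s) := by ring
    rw [h1]
    refine (abs_add_le _ _).trans ?_
    rw [abs_mul, abs_two]
    have := hTb θ
    linarith
  have hdb : ∀ θ : S2, |dB u ρ (s • (θ : E3)) - s ^ 2| ≤ K₃ * s := by
    intro θ
    rw [hdB s θ hs0, hK₃]
    exact est_d hc0 hs1 hK₁0 (hTb θ) (hQ0 θ) (hQb θ) hrho
  -- the derivative
  have hderiv : |deriv ρ s - 1| ≤ (30 * A + K₂) / s := by
    have hρd : HasDerivAt ρ (deriv ρ s) s :=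
      ((hD.smooth_rho.contDiffAt (isOpen_Ioi.mem_nhds hsa)).differentiableAt
        (by simp)).hasDerivAt
    have hopen : IsOpen {x : E3 | a < ‖x‖} := isOpen_lt continuous_const continuous_norm
    have hxa : a < ‖s • (θ₀ : E3)‖ := by rw [norm_pt hs0]; exact hsa
    have hx0 : s • (θ₀ : E3) ≠ 0 := by
      rw [← norm_pos_iff, norm_pt hs0]; exact hs0
    have hgd : ∀ i j, DifferentiableAt ℝ (fun y => g y i j) (s • (θ₀ : E3)) := by
      intro i j
      have hN' : DifferentiableAt ℝ N (s • (θ₀ : E3)) :=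
        (hD.smooth_N.contDiffAt (hopen.mem_nhds hxa)).differentiableAt (by simp)
      have hB' : ∀ i j, DifferentiableAt ℝ (fun y => radii u ρ y i j) (s • (θ₀ : E3)) :=
        fun i j => ((hsmR i j).contDiffAt (hopen.mem_nhds hxa)).differentiableAt (by simp)
      have hn : DifferentiableAt ℝ (fun y : E3 => ‖y‖) (s • (θ₀ : E3)) := differentiableAt_norm hx0
      have hne : ‖s • (θ₀ : E3)‖ ≠ 0 := by rw [norm_pt hs0]; exact hs0.ne'
      have hnu : ∀ i, DifferentiableAt ℝ (fun y => nu y i) (s • (θ₀ : E3)) := fun i => by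
        have h1 := (differentiableAt_coord (x := s • (θ₀ : E3)) i).mul (hn.inv hne)
        simp only [nu, div_eq_mul_inv]
        exact h1
      have h1 : (fun y => g y i j) =ᶠ[𝓝 (s • (θ₀ : E3))] fun y =>
          N y ^ 2 * (nu y i * nu y j) + (∑ k, radii u ρ y i k * radii u ρ y k j) / ‖y‖ ^ 2 := by
        filter_upwards [hopen.mem_nhds hxa] with y hy
        exact g_apply hD hy i j
      rw [h1.differentiableAt_iff]
      simp only [div_eq_mul_inv]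
      refine ((hN'.pow 2).mul ((hnu i).mul (hnu j))).add
        (DifferentiableAt.mul ?_ ((hn.pow 2).inv (pow_ne_zero 2 hne)))
      exact DifferentiableAt.fun_sum fun k _ => (hB' i k).mul (hB' k j)
    have hd1 : HasDerivAt (fun σ : ℝ => (∑ i, g (σ • (θ₀ : E3)) i i) -
        ∑ i, ∑ j, g (σ • (θ₀ : E3)) i j * ((θ₀ : E3) i * (θ₀ : E3) j))
        ((∑ i, ∑ k, (θ₀ : E3) k * pd k (fun y => g y i i) (s • (θ₀ : E3))) -
        ∑ i, ∑ j, (∑ k, (θ₀ : E3) k * pd k (fun y => g y i j) (s • (θ₀ : E3))) *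
          ((θ₀ : E3) i * (θ₀ : E3) j)) s := by
      refine HasDerivAt.sub ?_ ?_
      · exact HasDerivAt.fun_sum fun i _ => hasDerivAt_ray θ₀ (hgd i i)
      · exact HasDerivAt.fun_sum fun i _ => HasDerivAt.fun_sum fun j _ =>
          (hasDerivAt_ray θ₀ (hgd i j)).mul_const _
    obtain ⟨Q, hQ⟩ : ∃ Q, Q = ∑ i, ∑ j, pd i (pd j u) (θ₀ : E3) ^ 2 := ⟨_, rfl⟩
    obtain ⟨T, hT⟩ : ∃ T, T = ∑ i, pd i (pd i u) (θ₀ : E3) := ⟨_, rfl⟩
    have hd2 : HasDerivAt (fun σ : ℝ => (Q + 2 * ρ σ * T + 2 * ρ σ ^ 2) / σ ^ 2)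
        (((2 * deriv ρ s * T + 2 * (2 * ρ s ^ 1 * deriv ρ s)) * s ^ 2 -
          (Q + 2 * ρ s * T + 2 * ρ s ^ 2) * (2 * s ^ 1 * 1)) / (s ^ 2) ^ 2) s := by
      have h1 : HasDerivAt (fun σ : ℝ => Q + 2 * ρ σ * T + 2 * ρ σ ^ 2)
          (2 * deriv ρ s * T + 2 * (2 * ρ s ^ 1 * deriv ρ s)) s := by
        have h3 : HasDerivAt (fun σ : ℝ => 2 * ρ σ * T) (2 * deriv ρ s * T) s :=
          (hρd.const_mul 2).mul_const T
        have h4 : HasDerivAt (fun σ : ℝ => ρ σ ^ 2) (2 * ρ s ^ 1 * deriv ρ s) s := by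
          simpa using hρd.fun_pow 2
        exact (h3.const_add Q).fun_add (h4.const_mul 2)
      have h2 : HasDerivAt (fun σ : ℝ => σ ^ 2) (2 * s ^ 1 * 1) s := by
        simpa using hasDerivAt_pow 2 s
      exact h1.fun_div h2 (by positivity)
    have hd3 : HasDerivAt (fun σ : ℝ => (Q + 2 * ρ σ * T + 2 * ρ σ ^ 2) / σ ^ 2)
        ((∑ i, ∑ k, (θ₀ : E3) k * pd k (fun y => g y i i) (s • (θ₀ : E3))) -
        ∑ i, ∑ j, (∑ k, (θ₀ : E3) k * pd k (fun y => g y i j) (s • (θ₀ : E3))) *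
          ((θ₀ : E3) i * (θ₀ : E3) j)) s := by
      refine hd1.congr_of_eventuallyEq ?_
      filter_upwards [isOpen_Ioi.mem_nhds hsa] with σ hσ
      rw [hFdef σ hσ θ₀, ← hQ, ← hT]
    obtain ⟨F', hF'⟩ : ∃ F', F' = (∑ i, ∑ k, (θ₀ : E3) k * pd k (fun y => g y i i) (s • (θ₀ : E3))) -
        ∑ i, ∑ j, (∑ k, (θ₀ : E3) k * pd k (fun y => g y i j) (s • (θ₀ : E3))) *
          ((θ₀ : E3) i * (θ₀ : E3) j) := ⟨_, rfl⟩
    rw [← hF'] at hd3
    have huniq := hd3.unique hd2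
    have hF'b : |F'| ≤ 36 * A / s ^ 2 := by
      have hG : ∀ i j, |∑ k, (θ₀ : E3) k * pd k (fun y => g y i j) (s • (θ₀ : E3))| ≤
          3 * (A / s ^ 2) := by
        intro i j
        refine sum1_le fun k => ?_
        rw [abs_mul]
        calc _ ≤ 1 * (A / s ^ 2) := mul_le_mul (th_le θ₀ k) ((hdec' s hsR0 hs0 θ₀ i j).2.1 k)
              (abs_nonneg _) (by norm_num)
          _ = _ := one_mul _
      rw [hF']
      refine (abs_sub _ _).trans ?_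
      have h1 : |∑ i, ∑ k, (θ₀ : E3) k * pd k (fun y => g y i i) (s • (θ₀ : E3))| ≤
          3 * (3 * (A / s ^ 2)) := sum1_le fun i => hG i i
      have h2 : |∑ i, ∑ j, (∑ k, (θ₀ : E3) k * pd k (fun y => g y i j) (s • (θ₀ : E3))) *
          ((θ₀ : E3) i * (θ₀ : E3) j)| ≤ 9 * (3 * (A / s ^ 2)) := by
        refine sum2_le fun i j => ?_
        rw [abs_mul, abs_mul]
        have h4 : |(θ₀ : E3) i| * |(θ₀ : E3) j| ≤ 1 :=
          mul_le_one₀ (th_le θ₀ i) (abs_nonneg _) (th_le θ₀ j)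
        calc _ ≤ 3 * (A / s ^ 2) * 1 := mul_le_mul (hG i j) h4 (by positivity) (by positivity)
          _ = _ := mul_one _
      have h3 : 36 * A / s ^ 2 = 3 * (3 * (A / s ^ 2)) + 9 * (3 * (A / s ^ 2)) := by ring
      rw [h3]
      linarith
    refine est_rho' (t := tB u ρ (s • (θ₀ : E3))) (F := (Q + 2 * ρ s * T + 2 * ρ s ^ 2) / s ^ 2)
      (F' := F') hA0 hs1 hK₂0 (by linarith) (htb θ₀) ?_ hF'b ?_
    · have h1 := hF2 θ₀
      rw [hFdef s hsa θ₀, ← hQ, ← hT] at h1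
      exact h1
    · rw [huniq, htB s θ₀ hs0, ← hT]
      field_simp
      ring
  refine ⟨?_, ?_, fun θ => ⟨?_, ?_, ?_, ?_⟩⟩
  · refine hrho.trans ?_
    rw [hC]
    have : 0 ≤ 30 * A + K₂ + 9 * A + 972 * A + K₂ + K₃ := by positivity
    linarith
  · refine hderiv.trans ?_
    have : 30 * A + K₂ ≤ C := by
      rw [hC]
      have : 0 ≤ K₁ + 9 * A + 972 * A + K₂ + K₃ := by positivity
      linarith
    gcongr
  · refine (hN θ).trans ?_
    have : 9 * A ≤ C := by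
      rw [hC]
      have : 0 ≤ K₁ + (30 * A + K₂) + 972 * A + K₂ + K₃ := by positivity
      linarith
    calc 9 * (A / s) = 9 * A / s := by ring
      _ ≤ C / s := by gcongr
  · -- the trace of `h`
    obtain ⟨-, -, hd0, ht0, -, -, -, -, hcc, -⟩ := hUalg θ
    have ht3 : tB u ρ (s • (θ : E3)) ≤ 3 * s := by
      have := (abs_le.1 (htb θ)).2
      linarith
    have hd2 : s ^ 2 / 2 ≤ dB u ρ (s • (θ : E3)) := by
      have := (abs_le.1 (hdb θ)).1
      nlinarith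
    have hq : tB u ρ (s • (θ : E3)) / dB u ρ (s • (θ : E3)) ≤ 6 / s := by
      calc _ ≤ 3 * s / (s ^ 2 / 2) := by gcongr
        _ = 6 / s := by field_simp; norm_num
    have hq0 : 0 < tB u ρ (s • (θ : E3)) / dB u ρ (s • (θ : E3)) := div_pos ht0 hd0
    have hcb : ∀ i j, |cB u ρ i j (s • (θ : E3))| ≤ 6 / s := by
      intro i j
      have h1 : cB u ρ i j (s • (θ : E3)) ^ 2 ≤
          ∑ i, ∑ j, cB u ρ i j (s • (θ : E3)) ^ 2 :=
        (Finset.single_le_sum (f := fun j => cB u ρ i j (s • (θ : E3)) ^ 2)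
          (fun _ _ => sq_nonneg _) (Finset.mem_univ j)).trans
        (Finset.single_le_sum (f := fun i => ∑ j, cB u ρ i j (s • (θ : E3)) ^ 2)
          (fun _ _ => Finset.sum_nonneg fun _ _ => sq_nonneg _) (Finset.mem_univ i))
      rw [hcc] at h1
      have h2 : 0 < 2 / dB u ρ (s • (θ : E3)) := by positivity
      have h3 : (tB u ρ (s • (θ : E3)) / dB u ρ (s • (θ : E3))) ^ 2 ≤ (6 / s) ^ 2 := by gcongr
      exact abs_le_of_sq_le_sq (by linarith) (by positivity)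
    unfold pc
    rw [norm_pt hs0, abs_mul, abs_of_nonneg (sq_nonneg s)]
    have h1 : |∑ i, ∑ j, (∑ k, cB u ρ i k (s • (θ : E3)) * cB u ρ k j (s • (θ : E3))) *
        h (s • (θ : E3)) i j| ≤ 9 * (3 * (6 / s * (6 / s)) * (A / s ^ 2)) := by
      refine sum2_le fun i j => ?_
      rw [abs_mul]
      refine mul_le_mul ?_ (hdec' s hsR0 hs0 θ i j).2.2 (abs_nonneg _) (by positivity)
      refine sum1_le fun k => ?_
      rw [abs_mul]
      exact mul_le_mul (hcb i k) (hcb k j) (abs_nonneg _) (by positivity)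
    calc s ^ 2 * _ ≤ s ^ 2 * (9 * (3 * (6 / s * (6 / s)) * (A / s ^ 2))) := by gcongr
      _ = 972 * A / s ^ 2 := by field_simp; ring
      _ ≤ C / s ^ 2 := by
        have : 972 * A ≤ C := by
          rw [hC]
          have : 0 ≤ K₁ + (30 * A + K₂) + 9 * A + K₂ + K₃ := by positivity
          linarith
        gcongr
  · refine (htb θ).trans ?_
    rw [hC]
    have : 0 ≤ K₁ + 30 * A + K₂ + 9 * A + 972 * A + K₃ := by positivity
    linarith
  · refine (hdb θ).trans ?_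
    have : K₃ ≤ C := by
      rw [hC]
      have : 0 ≤ K₁ + (30 * A + K₂) + 9 * A + 972 * A + K₂ := by positivity
      linarith
    gcongr

end Pool.Agent.PenroseConvex
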