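import Pool.Agent.PenroseConvex.Stmts

/-! # DEC: the consequence of the dominant energy condition -/

open MeasureTheory Filter Topology
open scoped ContDiff

namespace Pool.Agent.PenroseConvex

open Pool.Agent.PenroseSph

theorem DEC.sum_inv_eq (A C : Fin 3 → Fin 3 → ℝ) (n J : Fin 3 → ℝ) (N r : ℝ)
    (hC : ∀ i j, C i j = C j i)
    (hA : ∀ i j, A i j = n i * n j / N ^ 2 + r ^ 2 * ∑ k, C i k * C k j) :
    ∑ i, ∑ j, A i j * J i * J j
      = (∑ i, n i / N * J i) ^ 2 + r ^ 2 * ∑ k, (∑ i, C k i * J i) ^ 2 := by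
  have h1 : ∀ i j, A i j * J i * J j = (n i / N * J i) * (n j / N * J j)
      + r ^ 2 * ∑ k, (C k i * J i) * (C k j * J j) := by
    intro i j
    rw [hA, Finset.mul_sum, Finset.mul_sum, add_mul, add_mul, Finset.sum_mul, Finset.sum_mul]
    congr 1
    · ring
    · refine Finset.sum_congr rfl fun k _ => ?_
      rw [hC i k]
      ring
  simp only [h1, Finset.sum_add_distrib]
  congr 1
  · rw [sq, Finset.sum_mul_sum]
  · simp only [← Finset.mul_sum]
    congr 1
    simp only [sq, Finset.sum_mul_sum]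
    rw [Finset.sum_comm]
    rw [show (∑ k, ∑ i, ∑ j, C k i * J i * (C k j * J j))
      = ∑ i, ∑ k, ∑ j, C k i * J i * (C k j * J j) from Finset.sum_comm]
    rw [Finset.sum_comm]
    exact Finset.sum_congr rfl fun i _ => Finset.sum_comm

theorem DEC (hALG : Stmt_ALG) : Stmt_DEC := by
  intro a u ρ N g h hP hD x hx φ hφ
  obtain ⟨-, -, -, -, hsym, -, -, -, -, hinv, -⟩ := hALG a u ρ N g h hP x hx
  have h1 := DEC.sum_inv_eq (fun i j => (g x)⁻¹ i j) (fun i j => cB u ρ i j x) (nu x)
    (fun i => momentumDensity g h i x) (N x) ‖x‖ hsym hinv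
  have h2 := hD x hx
  rw [h1] at h2
  have h3 : |∑ i, nu x i / N x * momentumDensity g h i x| ≤ energyDensity g h x := by
    refine le_trans ?_ h2
    rw [← Real.sqrt_sq_eq_abs]
    refine Real.sqrt_le_sqrt ?_
    have h4 : 0 ≤ ‖x‖ ^ 2 * ∑ k, (∑ i, cB u ρ k i x * momentumDensity g h i x) ^ 2 :=
      mul_nonneg (sq_nonneg _) (Finset.sum_nonneg fun k _ => sq_nonneg _)
    linarith
  have h5 : φ * ∑ i, nu x i / N x * momentumDensity g h i x ≤ energyDensity g h x := by
    refine le_trans (le_abs_self _) ?_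
    rw [abs_mul]
    refine le_trans (mul_le_of_le_one_left (abs_nonneg _) hφ) h3
  linarith

end Pool.Agent.PenroseConvex
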