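import Pool.Agent.PenroseConvex.Stmts

/-! # Differentiation under the integral over coordinate spheres -/

open MeasureTheory Filter Topology Set
open scoped ContDiff

namespace Pool.Agent.PenroseConvex

open Pool.Agent.PenroseSph

namespace DIF

theorem norm_S2 (θ : S2) : ‖(θ : E3)‖ = 1 := mem_sphere_zero_iff_norm.1 θ.2

theorem isOpen_reg (a : ℝ) : IsOpen {x : E3 | a < ‖x‖} :=
  isOpen_lt continuous_const continuous_norm

theorem mem_reg {a t : ℝ} (ha : 0 ≤ a) (ht : a < t) (θ : S2) :
    t • (θ : E3) ∈ {x : E3 | a < ‖x‖} := by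
  have h0 : 0 < t := lt_of_le_of_lt ha ht
  rw [mem_setOf_eq, norm_smul, Real.norm_eq_abs, abs_of_pos h0, norm_S2, mul_one]
  exact ht

theorem rad_eq (F : E3 → ℝ) {t : ℝ} (ht : 0 < t) (θ : S2) :
    (∑ i, nu (t • (θ : E3)) i * pd i F (t • (θ : E3))) =
      fderiv ℝ F (t • (θ : E3)) (θ : E3) := by
  have hn : ∀ i, nu (t • (θ : E3)) i = (θ : E3) i := by
    intro i
    unfold nu
    rw [norm_smul, Real.norm_eq_abs, abs_of_pos ht, norm_S2, mul_one, PiLp.smul_apply,
      smul_eq_mul, mul_div_cancel_left₀ _ ht.ne']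
  have hs : (θ : E3) = ∑ i, (θ : E3) i • EuclideanSpace.single i (1 : ℝ) := by
    ext j
    simp [PiLp.smul_apply, Fin.sum_univ_three]
    fin_cases j <;> simp
  simp only [hn]
  unfold pd
  generalize fderiv ℝ F (t • (θ : E3)) = L
  conv_rhs => rw [hs]
  rw [map_sum]
  refine Finset.sum_congr rfl fun i _ => ?_
  rw [map_smul, smul_eq_mul]

theorem main : Stmt_DIF := by
  intro a F ha hF s hs
  have hs0 : 0 < s := lt_of_le_of_lt ha hs
  set e : ℝ := (s - a) / 2 with he
  have he0 : 0 < e := by rw [he]; linarith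
  have hcF : ContinuousOn F {x : E3 | a < ‖x‖} := hF.continuousOn
  have hcF' : ContinuousOn (fderiv ℝ F) {x : E3 | a < ‖x‖} :=
    hF.continuousOn_fderiv_of_isOpen (isOpen_reg a) le_rfl
  have hc1 : ∀ t : ℝ, a < t → Continuous fun θ : S2 => F (t • (θ : E3)) := fun t ht =>
    hcF.comp_continuous (by fun_prop) fun θ => mem_reg ha ht θ
  have hc2 : ContinuousOn (fun p : ℝ × S2 => fderiv ℝ F (p.1 • (p.2 : E3)) (p.2 : E3))
      (Icc (s - e) (s + e) ×ˢ univ) := by
    have h1 : ContinuousOn (fun p : ℝ × S2 => fderiv ℝ F (p.1 • (p.2 : E3)))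
        (Icc (s - e) (s + e) ×ˢ univ) := by
      refine hcF'.comp (by fun_prop) fun p hp => mem_reg ha ?_ p.2
      have := hp.1.1
      rw [he] at this
      linarith
    exact h1.clm_apply (by fun_prop)
  obtain ⟨C, hC⟩ := (isCompact_Icc.prod isCompact_univ).exists_bound_of_continuousOn hc2
  have hc3 : Continuous fun θ : S2 => fderiv ℝ F (s • (θ : E3)) (θ : E3) := by
    have h1 : Continuous fun θ : S2 => fderiv ℝ F (s • (θ : E3)) :=
      hcF'.comp_continuous (by fun_prop) fun θ => mem_reg ha hs θ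
    exact h1.clm_apply (by fun_prop)
  have key := hasDerivAt_integral_of_dominated_loc_of_deriv_le (μ := mS)
    (F := fun (t : ℝ) (θ : S2) => F (t • (θ : E3)))
    (F' := fun (t : ℝ) (θ : S2) => fderiv ℝ F (t • (θ : E3)) (θ : E3)) (x₀ := s)
    (s := Ioo (s - e) (s + e)) (bound := fun _ => C)
    (Ioo_mem_nhds (by linarith) (by linarith)) ?_ ?_ ?_ ?_ ?_ ?_
  · have h2 := key.2
    have h3 : ∀ θ : S2, (∑ i, nu (s • (θ : E3)) i * pd i F (s • (θ : E3))) =
        fderiv ℝ F (s • (θ : E3)) (θ : E3) := fun θ => rad_eq F hs0 θ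
    simp only [h3]
    exact h2
  · filter_upwards [Ioi_mem_nhds hs] with t ht
    exact (hc1 t ht).aestronglyMeasurable
  · exact (hc1 s hs).integrable_of_hasCompactSupport (HasCompactSupport.of_compactSpace _)
  · exact hc3.aestronglyMeasurable
  · exact Eventually.of_forall fun θ t ht => hC (t, θ) ⟨⟨ht.1.le, ht.2.le⟩, mem_univ _⟩
  · exact integrable_const _
  · refine Eventually.of_forall fun θ t ht => ?_
    have hta : a < t := by
      have := ht.1
      rw [he] at this
      linarith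
    have hd : DifferentiableAt ℝ F (t • (θ : E3)) :=
      (hF.differentiableOn (by norm_num)).differentiableAt
        ((isOpen_reg a).mem_nhds (mem_reg ha hta θ))
    have h4 : HasDerivAt (fun r : ℝ => r • (θ : E3)) (θ : E3) t := by
      have := (hasDerivAt_id t).smul_const (θ : E3)
      rwa [one_smul] at this
    exact hd.hasFDerivAt.comp_hasDerivAt t h4

end DIF

theorem DIF : Stmt_DIF := DIF.main

end Pool.Agent.PenroseConvex
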