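import Pool.Agent.PenroseConvex.Stmts

/-! # Module FINAL -/

open MeasureTheory Filter Topology
open scoped ContDiff

namespace Pool.Agent.PenroseConvex

open Pool.Agent.PenroseSph

/-- A function which is continuous on `|x| > a` is integrable over the sphere `|x| = s > a`. -/
theorem integrable_on_sphere {a : ℝ} (ha : 0 ≤ a) {F : E3 → ℝ}
    (hF : ContinuousOn F {x : E3 | a < ‖x‖}) {s : ℝ} (hs : a < s) :
    Integrable (fun θ : S2 => F (s • (θ : E3))) mS := by
  have hs0 : 0 < s := lt_of_le_of_lt ha hs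
  have hc : Continuous (fun θ : S2 => F (s • (θ : E3))) := by
    refine hF.comp_continuous (by fun_prop) fun θ => ?_
    have h1 : ‖(θ : E3)‖ = 1 := by simp
    simp only [Set.mem_ofPred_eq, norm_smul, Real.norm_eq_abs, abs_of_pos hs0, h1, mul_one]
    exact hs
  haveI : CompactSpace S2 := isCompact_iff_compactSpace.1 (isCompact_sphere (0 : E3) 1)
  exact hc.integrable_of_hasCompactSupport (HasCompactSupport.of_compactSpace _)

theorem FINAL (hALG : Stmt_ALG) (hSMO : Stmt_SMO) (hRAY : Stmt_RAY) (hGEO : Stmt_GEO)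
    (hMONO : Stmt_MONO) (hMINK : Stmt_MINK) (hLIM : Stmt_LIM) (hOUT : Stmt_OUT) : Stmt_FINAL := by
  intro a u ρ N g h hP hD hF hI m hm
  obtain ⟨s₀, hs₀, hW, hU⟩ := hOUT a u ρ N g h hP hF hI
  have ha := hP.radius_nonneg
  have hs00 : 0 < s₀ := lt_of_le_of_lt ha hs₀
  obtain ⟨-, htB, -, -, -, -, -, hyc, -, -, -, -⟩ := hSMO a u ρ N g h hP
  have hnorm : ∀ (s : ℝ), 0 < s → ∀ θ : S2, ‖s • (θ : E3)‖ = s := by
    intro s hs θ
    have h1 : ‖(θ : E3)‖ = 1 := by simp
    rw [norm_smul, Real.norm_eq_abs, abs_of_pos hs, h1, mul_one]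
  have hpt : ∀ (s : ℝ), a < s → ∀ θ : S2, a < ‖s • (θ : E3)‖ := by
    intro s hs θ
    rw [hnorm s (lt_of_le_of_lt ha hs) θ]
    exact hs
  -- a point of the unit sphere
  have hex : ∃ θ : S2, True := by
    refine ⟨⟨EuclideanSpace.single 0 1, ?_⟩, trivial⟩
    simp
  obtain ⟨θ₀, -⟩ := hex
  -- the derivative of `ρ` is positive outside
  have hρpos : ∀ s, s₀ < s → 0 < deriv ρ s := by
    intro s hs
    have has : a < s := hs₀.trans hs
    have hx := hpt s has θ₀
    have hn := hnorm s (lt_of_le_of_lt ha has) θ₀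
    have h1 := (hU s hs).1 _ hn
    have h2 : 0 < meanCurvature g (s • (θ₀ : E3)) := lt_of_le_of_lt (abs_nonneg _) h1
    rw [(hGEO a u ρ N g h hP _ hx).2.1, Hc, hn] at h2
    have hN := hP.N_pos _ hx
    have hA := hALG a u ρ N g h hP _ hx
    have hd := hA.2.2.1
    have ht := hA.2.2.2.1
    by_contra hcon
    push Not at hcon
    have h3 : deriv ρ s / N (s • (θ₀ : E3)) ≤ 0 := div_nonpos_of_nonpos_of_nonneg hcon hN.le
    have h4 : 0 ≤ tB u ρ (s • (θ₀ : E3)) / dB u ρ (s • (θ₀ : E3)) := (div_pos ht hd).le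
    have := mul_nonpos_of_nonpos_of_nonneg h3 h4
    linarith
  have hρ0 : 0 ≤ deriv ρ s₀ := by
    have hcont : ContinuousAt (deriv ρ) s₀ := by
      have h1 : ContDiffAt ℝ ∞ ρ s₀ := hP.smooth_rho.contDiffAt (Ioi_mem_nhds hs₀)
      have h2 : ContDiffAt ℝ 1 (deriv ρ) s₀ := by
        have h3 : ContDiffOn ℝ 1 (deriv ρ) (Set.Ioi a) :=
          ((contDiffOn_infty_iff_deriv_of_isOpen isOpen_Ioi).1 hP.smooth_rho).2.of_le
            (by exact_mod_cast le_top)
        exact h3.contDiffAt (Ioi_mem_nhds hs₀)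
      exact h2.continuousAt
    have h1 : Tendsto (deriv ρ) (𝓝[>] s₀) (𝓝 (deriv ρ s₀)) := hcont.tendsto.mono_left inf_le_left
    refine ge_of_tendsto h1 ?_
    filter_upwards [self_mem_nhdsWithin] with s hs
    exact (hρpos s hs).le
  -- on the trapped sphere `yc ≤ 0`
  have hy0 : ∀ θ : S2, yc u ρ N h (s₀ • (θ : E3)) ≤ 0 := by
    intro θ
    have hx := hpt s₀ hs₀ θ
    have hn := hnorm s₀ hs00 θ
    have h1 := hW _ hn
    have hG := hGEO a u ρ N g h hP _ hx
    have hN := hP.N_pos _ hx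
    have hA := hALG a u ρ N g h hP _ hx
    have hq : 0 < tB u ρ (s₀ • (θ : E3)) / dB u ρ (s₀ • (θ : E3)) :=
      div_pos hA.2.2.2.1 hA.2.2.1
    rw [hG.2.1, hG.2.2.1, Hc, hn] at h1
    have h2 : 0 ≤ deriv ρ s₀ / N (s₀ • (θ : E3)) := div_nonneg hρ0 hN.le
    have h3 : deriv ρ s₀ / N (s₀ • (θ : E3)) ≤ |pc u ρ h (s₀ • (θ : E3)) /
        (tB u ρ (s₀ • (θ : E3)) / dB u ρ (s₀ • (θ : E3)))| := by
      rw [abs_div, abs_of_pos hq, le_div_iff₀ hq]
      exact h1
    have h4 := pow_le_pow_left₀ h2 h3 2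
    rw [sq_abs] at h4
    rw [yc, hn]
    linarith
  have hEn : ∫ θ : S2, tB u ρ (s₀ • (θ : E3)) ∂mS ≤ En u ρ N h s₀ := by
    have i1 : Integrable (fun θ : S2 => tB u ρ (s₀ • (θ : E3))) mS :=
      integrable_on_sphere ha htB.continuousOn hs₀
    have i2 : Integrable (fun θ : S2 => tB u ρ (s₀ • (θ : E3)) *
        (1 - yc u ρ N h (s₀ • (θ : E3)))) mS :=
      integrable_on_sphere (F := fun x => tB u ρ x * (1 - yc u ρ N h x)) ha
        (htB.continuousOn.mul (continuousOn_const.sub hyc.continuousOn)) hs₀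
    rw [En]
    refine integral_mono i1 i2 fun θ => ?_
    have h1 := (hALG a u ρ N g h hP _ (hpt s₀ hs₀ θ)).2.2.2.1
    have h2 := hy0 θ
    nlinarith
  have harea : sphereArea g s₀ = ∫ θ : S2, dB u ρ (s₀ • (θ : E3)) ∂mS := by
    rw [sphereArea]
    refine integral_congr_ae (Eventually.of_forall fun θ => ?_)
    exact (hGEO a u ρ N g h hP _ (hpt s₀ hs₀ θ)).2.2.2
  have htpos : 0 ≤ ∫ θ : S2, tB u ρ (s₀ • (θ : E3)) ∂mS :=
    integral_nonneg fun θ => (hALG a u ρ N g h hP _ (hpt s₀ hs₀ θ)).2.2.2.1.le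
  have hmink := hMINK a u ρ N g h hP s₀ hs₀
  rw [← harea] at hmink
  have hπ := Real.pi_pos
  have hlim : En u ρ N h s₀ / (16 * Real.pi) ≤ m := by
    refine ge_of_tendsto (hLIM a u ρ N g h hP m hm) ?_
    filter_upwards [eventually_ge_atTop s₀] with s hs
    exact div_le_div_of_nonneg_right (hMONO a u ρ N g h hP hD s₀ hs₀ hU s hs) (by positivity)
  refine ⟨s₀, hs₀, hW, fun t ht => (hU t ht).1, ?_⟩
  refine le_trans ?_ hlim
  refine le_trans ?_ (div_le_div_of_nonneg_right hEn (by positivity))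
  refine Real.sqrt_le_iff.2 ⟨by positivity, ?_⟩
  rw [div_pow, div_le_div_iff₀ (by positivity) (by positivity)]
  nlinarith

end Pool.Agent.PenroseConvex
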