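import Pool.Agent.PenroseConvex.Stmts
import Pool.Agent.PenroseSph.Calc
import Pool.Agent.PenroseSph.Geom

/-! # Module FLUX: the flux integral in closed form -/

open MeasureTheory Filter Topology
open scoped ContDiff

namespace Pool.Agent.PenroseConvex

open Pool.Agent.PenroseSph

theorem FLUX (hALG : Stmt_ALG) (hGEO : Stmt_GEO) : Stmt_FLUX := by
  intro a u ρ N g h hP s hs
  have hs0 : 0 < s := lt_of_le_of_lt hP.radius_nonneg hs
  unfold fluxIntegral
  refine integral_congr_ae (ae_of_all _ fun θ => ?_)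
  have hθ : ‖(θ : E3)‖ = 1 := by simp
  obtain ⟨x, hxd⟩ : ∃ x : E3, x = s • (θ : E3) := ⟨_, rfl⟩
  have hxn : ‖x‖ = s := by
    rw [hxd, norm_smul, hθ, mul_one, Real.norm_eq_abs, abs_of_pos hs0]
  have hx : a < ‖x‖ := by rw [hxn]; exact hs
  simp only [← hxd]
  have hx0 : x ≠ 0 := norm_pos_iff.1 (lt_of_le_of_lt hP.radius_nonneg hx)
  have hN := hP.N_pos x hx
  obtain ⟨hn, -, -, hA⟩ := hGEO a u ρ N g h hP x hx
  obtain ⟨-, -, -, -, hcs, hcn, -, -, -, hinv, -⟩ := hALG a u ρ N g h hP x hx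
  have hO : {y : E3 | a < ‖y‖} ∈ 𝓝 x := (isOpen_lt continuous_const continuous_norm).mem_nhds hx
  have hphi : expansionRatio g h =ᶠ[𝓝 x] phic u ρ N h := by
    filter_upwards [hO] with y hy
    obtain ⟨-, h2, h3, -⟩ := hGEO a u ρ N g h hP y hy
    unfold expansionRatio phic
    rw [h2, h3]
  have hpd : ∀ k, pd k (expansionRatio g h) x = pd k (phic u ρ N h) x := fun k => pd_congr hphi
  have s01 : h x 1 0 = h x 0 1 := (hP.symm_h x hx).apply 0 1
  have s02 : h x 2 0 = h x 0 2 := (hP.symm_h x hx).apply 0 2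
  have s12 : h x 2 1 = h x 1 2 := (hP.symm_h x hx).apply 1 2
  have c01 := hcs 1 0
  have c02 := hcs 2 0
  have c12 := hcs 2 1
  have hnn : nu x 0 * nu x 0 + nu x 1 * nu x 1 + nu x 2 * nu x 2 = 1 := by
    have := sum_nu_sq hx0
    rw [Fin.sum_univ_three] at this
    exact this
  simp only [hn, hpd, hA, hinv]
  unfold Wc Gc
  congr 1
  simp only [Fin.sum_univ_three, s01, s02, s12, c01, c02, c12]
  field_simp
  ring

end Pool.Agent.PenroseConvex
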