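import Pool.Agent.PenroseConvex.Stmts
import Pool.Agent.PenroseSph.Calc
import Pool.Agent.PenroseSph.Geom

/-! # Module GEO: the geometric quantities in closed form -/

open MeasureTheory Filter Topology
open scoped ContDiff

namespace Pool.Agent.PenroseConvex

open Pool.Agent.PenroseSph

namespace GeoAux

theorem pd_mul3 {f1 f2 f3 : E3 → ℝ} {x : E3} (k : Fin 3) (h1 : DifferentiableAt ℝ f1 x)
    (h2 : DifferentiableAt ℝ f2 x) (h3 : DifferentiableAt ℝ f3 x) :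
    pd k (fun y => f1 y * f2 y * f3 y) x
      = pd k f1 x * f2 x * f3 x + f1 x * pd k f2 x * f3 x + f1 x * f2 x * pd k f3 x := by
  rw [pd_mul (h1.fun_mul h2) h3, pd_mul h1 h2]
  ring

/-- Jacobi's formula for a 3 by 3 matrix of functions. -/
theorem jacobi (G : TensorField) (x : E3) (k : Fin 3)
    (hd : ∀ i j, DifferentiableAt ℝ (fun y => G y i j) x) (hdet : (G x).det ≠ 0) :
    ∑ i, ∑ l, (G x)⁻¹ i l * pd k (fun y => G y l i) x
      = pd k (fun y => (G y).det) x / (G x).det := by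
  have h1 : (fun y => (G y).det) = fun y => G y 0 0 * G y 1 1 * G y 2 2 - G y 0 0 * G y 1 2 * G y 2 1
      - G y 0 1 * G y 1 0 * G y 2 2 + G y 0 1 * G y 1 2 * G y 2 0
      + G y 0 2 * G y 1 0 * G y 2 1 - G y 0 2 * G y 1 1 * G y 2 0 := by
    funext y
    exact Matrix.det_fin_three (G y)
  have d3 : ∀ a b c d e f : Fin 3, DifferentiableAt ℝ (fun y => G y a b * G y c d * G y e f) x :=
    fun a b c d e f => ((hd a b).fun_mul (hd c d)).fun_mul (hd e f)
  have e1 := (d3 0 0 1 1 2 2).fun_sub (d3 0 0 1 2 2 1)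
  have e2 := e1.fun_sub (d3 0 1 1 0 2 2)
  have e3 := e2.fun_add (d3 0 1 1 2 2 0)
  have e4 := e3.fun_add (d3 0 2 1 0 2 1)
  have hdx := Matrix.det_fin_three (G x)
  obtain ⟨p, hp⟩ : ∃ p : Fin 3 → Fin 3 → ℝ, p = fun i j => pd k (fun y => G y i j) x := ⟨_, rfl⟩
  have hp' : ∀ i j, pd k (fun y => G y i j) x = p i j := fun i j => by rw [hp]
  have h3 : pd k (fun y => (G y).det) x = (p 0 0 * G x 1 1 * G x 2 2 + G x 0 0 * p 1 1 * G x 2 2 + G x 0 0 * G x 1 1 * p 2 2)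
        - (p 0 0 * G x 1 2 * G x 2 1 + G x 0 0 * p 1 2 * G x 2 1 + G x 0 0 * G x 1 2 * p 2 1)
        - (p 0 1 * G x 1 0 * G x 2 2 + G x 0 1 * p 1 0 * G x 2 2 + G x 0 1 * G x 1 0 * p 2 2)
        + (p 0 1 * G x 1 2 * G x 2 0 + G x 0 1 * p 1 2 * G x 2 0 + G x 0 1 * G x 1 2 * p 2 0)
        + (p 0 2 * G x 1 0 * G x 2 1 + G x 0 2 * p 1 0 * G x 2 1 + G x 0 2 * G x 1 0 * p 2 1)
        - (p 0 2 * G x 1 1 * G x 2 0 + G x 0 2 * p 1 1 * G x 2 0 + G x 0 2 * G x 1 1 * p 2 0) := by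
    rw [h1, pd_sub e4 (d3 0 2 1 1 2 0), pd_add e3 (d3 0 2 1 0 2 1), pd_add e2 (d3 0 1 1 2 2 0),
      pd_sub e1 (d3 0 1 1 0 2 2), pd_sub (d3 0 0 1 1 2 2) (d3 0 0 1 2 2 1),
      pd_mul3 k (hd 0 0) (hd 1 1) (hd 2 2), pd_mul3 k (hd 0 0) (hd 1 2) (hd 2 1),
      pd_mul3 k (hd 0 1) (hd 1 0) (hd 2 2), pd_mul3 k (hd 0 1) (hd 1 2) (hd 2 0),
      pd_mul3 k (hd 0 2) (hd 1 0) (hd 2 1), pd_mul3 k (hd 0 2) (hd 1 1) (hd 2 0)]
    simp only [hp']
  rw [h3, Matrix.inv_def, Ring.inverse_eq_inv', Matrix.adjugate_fin_three]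
  simp only [hp']
  rw [eq_div_iff hdet]
  simp only [Fin.sum_univ_three, Matrix.smul_apply, smul_eq_mul, Matrix.of_apply]
  simp
  field_simp
  ring

theorem pd_inv {f : E3 → ℝ} {x : E3} (k : Fin 3) (hf : DifferentiableAt ℝ f x) (h0 : f x ≠ 0) :
    pd k (fun y => (f y)⁻¹) x = - pd k f x / f x ^ 2 := by
  have h1 : HasFDerivAt (fun y => (f y)⁻¹) ((-(f x ^ 2)⁻¹) • fderiv ℝ f x) x :=
    (hasDerivAt_inv h0).comp_hasFDerivAt x hf.hasFDerivAt
  unfold pd
  rw [h1.fderiv]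
  simp only [FunLike.coe_smul, Pi.smul_apply, smul_eq_mul]
  field_simp

theorem differentiableAt_inv' {f : E3 → ℝ} {x : E3} (hf : DifferentiableAt ℝ f x) (h0 : f x ≠ 0) :
    DifferentiableAt ℝ (fun y => (f y)⁻¹) x :=
  ((hasDerivAt_inv h0).comp_hasFDerivAt x hf.hasFDerivAt).differentiableAt

/-- The contracted Christoffel symbols. -/
theorem christoffel_trace (g : TensorField) (x : E3) (k : Fin 3)
    (hd : ∀ i j, DifferentiableAt ℝ (fun y => g y i j) x) (hdet : (g x).det ≠ 0)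
    (hs : ∀ᶠ y in 𝓝 x, ∀ i j, g y i j = g y j i) (hi : ∀ i j, (g x)⁻¹ i j = (g x)⁻¹ j i) :
    ∑ i, christoffel g i i k x = pd k (fun y => (g y).det) x / (2 * (g x).det) := by
  have h1 : ∀ m i j, pd m (fun y => g y i j) x = pd m (fun y => g y j i) x := fun m i j =>
    pd_congr (hs.mono fun y hy => hy i j)
  have h2 := jacobi g x k hd hdet
  have h3 : pd k (fun y => (g y).det) x / (2 * (g x).det)
      = 1 / 2 * (pd k (fun y => (g y).det) x / (g x).det) := by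
    field_simp
  rw [h3, ← h2]
  have key : ∀ m j, pd m (fun y => g y j k) x = pd m (fun y => g y k j) x := fun m j => h1 m j k
  unfold christoffel
  simp only [Fin.sum_univ_three, key]
  rw [h1 k 1 0, h1 k 2 0, h1 k 2 1, hi 1 0, hi 2 0, hi 2 1]
  ring

/-- Differentiability of the entries of the metric. -/
theorem metric_diff {a : ℝ} {u : E3 → ℝ} {ρ : ℝ → ℝ} {N : E3 → ℝ} {g h : TensorField}
    (hSMO : Stmt_SMO) (hP : ParallelData a u ρ N g h) {x : E3} (hx : a < ‖x‖) (i j : Fin 3) :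
    DifferentiableAt ℝ (fun y => g y i j) x := by
  have hx0 : x ≠ 0 := norm_pos_iff.1 (lt_of_le_of_lt hP.radius_nonneg hx)
  have hn : ‖x‖ ≠ 0 := norm_ne_zero_iff.2 hx0
  have hO : {y : E3 | a < ‖y‖} ∈ 𝓝 x := (isOpen_lt continuous_const continuous_norm).mem_nhds hx
  have hB : ∀ i j, DifferentiableAt ℝ (fun y => radii u ρ y i j) x := fun i j =>
    (((hSMO a u ρ N g h hP).1 i j).contDiffAt hO).differentiableAt (by simp)
  have hN : DifferentiableAt ℝ N x := (hP.smooth_N.contDiffAt hO).differentiableAt (by simp)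
  have hnu : ∀ i, DifferentiableAt ℝ (fun y : E3 => nu y i) x := fun i =>
    differentiableAt_nu hx0 i
  have hr : DifferentiableAt ℝ (fun y : E3 => (‖y‖ ^ 2)⁻¹) x :=
    differentiableAt_inv' ((differentiableAt_norm hx0).pow 2) (by positivity)
  have h1 : (fun y => g y i j) =ᶠ[𝓝 x] fun y =>
      N y ^ 2 * (nu y i * nu y j) + (∑ k, radii u ρ y i k * radii u ρ y k j) * (‖y‖ ^ 2)⁻¹ := by
    filter_upwards [hO] with y hy
    rw [hP.metric_eq y hy]
    simp only [parallelMetric, Matrix.of_apply, Matrix.mul_apply]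
    rw [div_eq_mul_inv]
  refine DifferentiableAt.congr_of_eventuallyEq ?_ h1
  exact ((hN.pow 2).fun_mul ((hnu i).fun_mul (hnu j))).fun_add
    ((DifferentiableAt.fun_sum fun k _ => (hB i k).fun_mul (hB k j)).fun_mul hr)

/-- The metric is symmetric. -/
theorem metric_symm {a : ℝ} {u : E3 → ℝ} {ρ : ℝ → ℝ} {N : E3 → ℝ} {g h : TensorField}
    (hALG : Stmt_ALG) (hP : ParallelData a u ρ N g h) {x : E3} (hx : a < ‖x‖) (i j : Fin 3) :
    g x i j = g x j i := by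
  have hs := (hALG a u ρ N g h hP x hx).1
  rw [hP.metric_eq x hx]
  simp only [parallelMetric, Matrix.of_apply, Matrix.mul_apply]
  congr 1
  · ring
  · congr 1
    refine Finset.sum_congr rfl fun k _ => ?_
    rw [hs i k, hs k j]
    ring

theorem sum_nu_sq' {x : E3} (hx0 : x ≠ 0) : ∑ i, nu x i * nu x i = 1 := sum_nu_sq hx0

/-- The unit normal. -/
theorem normal_eq {a : ℝ} {u : E3 → ℝ} {ρ : ℝ → ℝ} {N : E3 → ℝ} {g h : TensorField}
    (hALG : Stmt_ALG) (hP : ParallelData a u ρ N g h) {x : E3} (hx : a < ‖x‖) :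
    (∀ i, ∑ j, (g x)⁻¹ i j * nu x j = nu x i / N x ^ 2) ∧
    ∑ i, ∑ j, (g x)⁻¹ i j * nu x i * nu x j = 1 / N x ^ 2 ∧
    ∀ i, unitNormal g i x = nu x i / N x := by
  obtain ⟨-, -, -, -, hcs, hcn, -, -, -, hinv, -⟩ := hALG a u ρ N g h hP x hx
  have hx0 : x ≠ 0 := norm_pos_iff.1 (lt_of_le_of_lt hP.radius_nonneg hx)
  have hN := hP.N_pos x hx
  have hnn := sum_nu_sq' hx0
  have h1 : ∀ i, ∑ j, (g x)⁻¹ i j * nu x j = nu x i / N x ^ 2 := by
    intro i
    simp only [hinv]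
    have e : ∀ k, ∑ j, cB u ρ k j x * nu x j = 0 := hcn
    calc ∑ j, (nu x i * nu x j / N x ^ 2 + ‖x‖ ^ 2 * ∑ k, cB u ρ i k x * cB u ρ k j x) * nu x j
        = nu x i / N x ^ 2 * (∑ j, nu x j * nu x j)
          + ‖x‖ ^ 2 * ∑ k, cB u ρ i k x * ∑ j, cB u ρ k j x * nu x j := by
          simp only [Fin.sum_univ_three]
          ring
      _ = nu x i / N x ^ 2 := by
          simp only [e, hnn]
          simp
  have h2 : ∑ i, ∑ j, (g x)⁻¹ i j * nu x i * nu x j = 1 / N x ^ 2 := by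
    calc ∑ i, ∑ j, (g x)⁻¹ i j * nu x i * nu x j
        = ∑ i, nu x i * ∑ j, (g x)⁻¹ i j * nu x j := by
          refine Finset.sum_congr rfl fun i _ => ?_
          rw [Finset.mul_sum]
          refine Finset.sum_congr rfl fun j _ => ?_
          ring
      _ = (∑ i, nu x i * nu x i) / N x ^ 2 := by
          simp only [h1]
          rw [Finset.sum_div]
          refine Finset.sum_congr rfl fun i _ => ?_
          ring
      _ = 1 / N x ^ 2 := by rw [hnn]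
  refine ⟨h1, h2, fun i => ?_⟩
  unfold unitNormal
  rw [h1, h2, Real.sqrt_div (by norm_num), Real.sqrt_one, Real.sqrt_sq hN.le]
  field_simp

/-- The radial derivative of the determinant of the matrix of radii. -/
theorem radial_dB {a : ℝ} {u : E3 → ℝ} {ρ : ℝ → ℝ} {N : E3 → ℝ} {g h : TensorField}
    (hSMO : Stmt_SMO) (hRAY : Stmt_RAY) (hP : ParallelData a u ρ N g h) {x : E3}
    (hx : a < ‖x‖) :
    ∑ k, nu x k * pd k (dB u ρ) x = deriv ρ ‖x‖ * tB u ρ x := by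
  have hn : 0 < ‖x‖ := lt_of_le_of_lt hP.radius_nonneg hx
  have hx0 : x ≠ 0 := norm_pos_iff.1 hn
  have hO : {y : E3 | a < ‖y‖} ∈ 𝓝 x := (isOpen_lt continuous_const continuous_norm).mem_nhds hx
  have hd : DifferentiableAt ℝ (dB u ρ) x :=
    ((hSMO a u ρ N g h hP).2.2.1.contDiffAt hO).differentiableAt (by simp)
  obtain ⟨-, htB, hdB, -, -⟩ := hRAY a u ρ N g h hP
  have hθn : ‖(‖x‖⁻¹ • x : E3)‖ = 1 := by
    rw [norm_smul, norm_inv, norm_norm, inv_mul_cancel₀ hn.ne']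
  let θ : S2 := ⟨‖x‖⁻¹ • x, by rw [mem_sphere_zero_iff_norm]; exact hθn⟩
  have hθ : ‖x‖ • (θ : E3) = x := by
    show ‖x‖ • (‖x‖⁻¹ • x) = x
    rw [smul_smul, mul_inv_cancel₀ hn.ne', one_smul]
  have h1 : HasDerivAt (fun s : ℝ => dB u ρ (s • (θ : E3))) (fderiv ℝ (dB u ρ) x (θ : E3)) ‖x‖ := by
    have e1 : HasDerivAt (fun s : ℝ => s • (θ : E3)) ((1 : ℝ) • (θ : E3)) ‖x‖ :=
      (hasDerivAt_id ‖x‖).smul_const (θ : E3)
    have e2 : HasFDerivAt (dB u ρ) (fderiv ℝ (dB u ρ) x) (‖x‖ • (θ : E3)) := by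
      rw [hθ]; exact hd.hasFDerivAt
    have e3 := e2.comp_hasDerivAt ‖x‖ e1
    rw [one_smul] at e3
    exact e3
  have hρ : HasDerivAt ρ (deriv ρ ‖x‖) ‖x‖ :=
    ((hP.smooth_rho.contDiffAt (Ioi_mem_nhds hx)).differentiableAt (by simp)).hasDerivAt
  have h2 : HasDerivAt (fun s : ℝ => ((∑ i, pd i (pd i u) (θ : E3)) ^ 2
        - ∑ i, ∑ j, pd i (pd j u) (θ : E3) ^ 2) / 2
        + ρ s * (∑ i, pd i (pd i u) (θ : E3)) + ρ s ^ 2)
      (deriv ρ ‖x‖ * (∑ i, pd i (pd i u) (θ : E3)) + 2 * ρ ‖x‖ * deriv ρ ‖x‖) ‖x‖ := by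
    have e1 := ((hρ.mul_const (∑ i, pd i (pd i u) (θ : E3))).const_add
      (((∑ i, pd i (pd i u) (θ : E3)) ^ 2 - ∑ i, ∑ j, pd i (pd j u) (θ : E3) ^ 2) / 2)).fun_add
      (hρ.fun_pow 2)
    simpa using e1
  have h3 : HasDerivAt (fun s : ℝ => dB u ρ (s • (θ : E3)))
      (deriv ρ ‖x‖ * (∑ i, pd i (pd i u) (θ : E3)) + 2 * ρ ‖x‖ * deriv ρ ‖x‖) ‖x‖ := by
    refine h2.congr_of_eventuallyEq ?_
    filter_upwards [Ioi_mem_nhds hn] with s hs
    exact hdB s θ hs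
  have h4 := h1.unique h3
  have h5 : fderiv ℝ (dB u ρ) x (θ : E3) = ∑ k, nu x k * pd k (dB u ρ) x := by
    have e1 : (θ : E3) = ∑ k, nu x k • (EuclideanSpace.single k (1 : ℝ) : E3) := by
      ext i
      show (‖x‖⁻¹ • x) i = _
      fin_cases i <;> simp [Fin.sum_univ_three, nu, div_eq_inv_mul]
    rw [e1, map_sum]
    refine Finset.sum_congr rfl fun k _ => ?_
    rw [map_smul, smul_eq_mul]
    rfl
  have h6 := htB ‖x‖ θ hn
  rw [hθ] at h6
  rw [← h5, h4, h6]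
  ring

/-- The logarithmic derivative of the determinant of the metric. -/
theorem log_det {a : ℝ} {u : E3 → ℝ} {ρ : ℝ → ℝ} {N : E3 → ℝ} {g h : TensorField}
    (hALG : Stmt_ALG) (hSMO : Stmt_SMO) (hP : ParallelData a u ρ N g h) {x : E3}
    (hx : a < ‖x‖) (k : Fin 3) :
    pd k (fun y => (g y).det) x / (2 * (g x).det)
      = pd k N x / N x + pd k (dB u ρ) x / dB u ρ x - 2 * nu x k / ‖x‖ := by
  have hn : 0 < ‖x‖ := lt_of_le_of_lt hP.radius_nonneg hx
  have hx0 : x ≠ 0 := norm_pos_iff.1 hn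
  have hO : {y : E3 | a < ‖y‖} ∈ 𝓝 x := (isOpen_lt continuous_const continuous_norm).mem_nhds hx
  have hd : DifferentiableAt ℝ (dB u ρ) x :=
    ((hSMO a u ρ N g h hP).2.2.1.contDiffAt hO).differentiableAt (by simp)
  have hNd : DifferentiableAt ℝ N x := (hP.smooth_N.contDiffAt hO).differentiableAt (by simp)
  have hN := hP.N_pos x hx
  have hdet : ∀ y : E3, a < ‖y‖ → (g y).det = N y ^ 2 * dB u ρ y ^ 2 / ‖y‖ ^ 4 := fun y hy =>
    (hALG a u ρ N g h hP y hy).2.2.2.2.2.2.2.2.2.2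
  have hdp : 0 < dB u ρ x := (hALG a u ρ N g h hP x hx).2.2.1
  have hF : HasDerivAt (fun r : ℝ => (r ^ 2)⁻¹) (-(2 * ‖x‖) / (‖x‖ ^ 2) ^ 2) ‖x‖ := by
    have e1 : HasDerivAt (fun r : ℝ => r ^ 2) (2 * ‖x‖) ‖x‖ := by
      simpa using hasDerivAt_pow 2 ‖x‖
    exact e1.inv (by positivity)
  have hw : DifferentiableAt ℝ (fun y : E3 => (‖y‖ ^ 2)⁻¹) x := differentiableAt_radial hx0 hF
  have hq : DifferentiableAt ℝ (fun y => N y * dB u ρ y * (‖y‖ ^ 2)⁻¹) x :=
    (hNd.fun_mul hd).fun_mul hw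
  have h1 : (fun y => (g y).det) =ᶠ[𝓝 x] fun y =>
      (N y * dB u ρ y * (‖y‖ ^ 2)⁻¹) * (N y * dB u ρ y * (‖y‖ ^ 2)⁻¹) := by
    filter_upwards [hO] with y hy
    rw [hdet y hy]
    have hy0 : (0 : ℝ) < ‖y‖ := lt_of_le_of_lt hP.radius_nonneg hy
    field_simp
  rw [pd_congr h1, pd_mul hq hq, pd_mul3 k hNd hd hw, pd_radial hx0 hF, hdet x hx]
  show _ = pd k N x / N x + pd k (dB u ρ) x / dB u ρ x - 2 * (x k / ‖x‖) / ‖x‖
  field_simp
  ring

end GeoAux

open GeoAux in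
theorem GEO (hALG : Stmt_ALG) (hSMO : Stmt_SMO) (hRAY : Stmt_RAY) : Stmt_GEO := by
  intro a u ρ N g h hP x hx
  have hn : 0 < ‖x‖ := lt_of_le_of_lt hP.radius_nonneg hx
  have hx0 : x ≠ 0 := norm_pos_iff.1 hn
  have hO : {y : E3 | a < ‖y‖} ∈ 𝓝 x := (isOpen_lt continuous_const continuous_norm).mem_nhds hx
  have hN := hP.N_pos x hx
  obtain ⟨hn1, hn2, hn3⟩ := normal_eq hALG hP hx
  obtain ⟨-, -, hdp, htp, hcs, hcn, -, htr, -, hinv, hdet⟩ := hALG a u ρ N g h hP x hx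
  have hNd : DifferentiableAt ℝ N x := (hP.smooth_N.contDiffAt hO).differentiableAt (by simp)
  refine ⟨hn3, ?_, ?_, ?_⟩
  · have h1 : ∀ i, unitNormal g i =ᶠ[𝓝 x] fun y => nu y i * (N y)⁻¹ := fun i => by
      filter_upwards [hO] with y hy
      rw [(normal_eq hALG hP hy).2.2 i, div_eq_mul_inv]
    have hNi := differentiableAt_inv' hNd hN.ne'
    have h2 : ∀ i, pd i (unitNormal g i) x
        = nu x i * (- pd i N x / N x ^ 2) + (N x)⁻¹ * ((1 - nu x i * nu x i) / ‖x‖) := by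
      intro i
      have e1 : pd i (fun y : E3 => nu y i) x = (1 - nu x i * nu x i) / ‖x‖ := by
        have e2 := pd_nu hx0 i i
        unfold dl at e2
        simp only [if_true] at e2
        exact e2
      have e4 : DifferentiableAt ℝ (fun y : E3 => nu y i) x := differentiableAt_nu hx0 i
      rw [pd_congr (h1 i), pd_mul e4 hNi, pd_inv i hNd hN.ne', e1]
    have hdet0 : (g x).det ≠ 0 := by
      rw [hdet]; positivity
    have hsym : ∀ᶠ y in 𝓝 x, ∀ i j, g y i j = g y j i := by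
      filter_upwards [hO] with y hy
      exact fun i j => metric_symm hALG hP hy i j
    have hisym : ∀ i j, (g x)⁻¹ i j = (g x)⁻¹ j i := by
      intro i j
      rw [hinv, hinv]
      congr 1
      · ring
      · congr 1
        refine Finset.sum_congr rfl fun k _ => ?_
        rw [hcs i k, hcs k j]
        ring
    have h3 : ∀ k, ∑ i, christoffel g i i k x
        = pd k N x / N x + pd k (dB u ρ) x / dB u ρ x - 2 * nu x k / ‖x‖ := fun k => by
      rw [christoffel_trace g x k (fun i j => metric_diff hSMO hP hx i j) hdet0 hsym hisym,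
        log_det hALG hSMO hP hx k]
    have h4 : meanCurvature g x = (∑ i, pd i (unitNormal g i) x)
        + ∑ k, (∑ i, christoffel g i i k x) * unitNormal g k x := by
      unfold meanCurvature
      simp only [Fin.sum_univ_three]
      ring
    rw [h4]
    simp only [h2, h3, hn3]
    have h5 := radial_dB hSMO hRAY hP hx
    have h6 := sum_nu_sq' hx0
    unfold Hc
    simp only [Fin.sum_univ_three] at h5 h6 ⊢
    have h7 : pd 2 (dB u ρ) x * nu x 2 = deriv ρ ‖x‖ * tB u ρ x - nu x 0 * pd 0 (dB u ρ) x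
        - nu x 1 * pd 1 (dB u ρ) x := by linarith
    field_simp
    linear_combination (‖x‖ * N x) * h5 + (-3 * N x * dB u ρ x) * h6
  · unfold sphereTrace traceWith pc
    simp only [hn3, hinv, Fin.sum_univ_three]
    field_simp
    ring
  · unfold areaDensity
    rw [hn2, hdet]
    have e : N x ^ 2 * dB u ρ x ^ 2 / ‖x‖ ^ 4 * (1 / N x ^ 2) = (dB u ρ x / ‖x‖ ^ 2) ^ 2 := by
      field_simp
    rw [e, Real.sqrt_sq (by positivity)]
    field_simp

end Pool.Agent.PenroseConvex
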