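import Pool.Agent.PenroseConvex.Stmts

/-!
# LIM: the energy tends to the mass
-/

open MeasureTheory Filter Topology
open scoped ContDiff

namespace Pool.Agent.PenroseConvex

open Pool.Agent.PenroseSph

namespace LIM

theorem ident {s τ n σ δ p : ℝ} (hs : s ≠ 0) (hM : 1 + n / s ≠ 0) (ht : 2 * s + τ ≠ 0) :
    (2 * s + τ) * (1 - ((1 + σ / s) ^ 2 / (1 + n / s)
        - (p * ((2 * s + τ) ^ 2 / 4 + δ) / (2 * s + τ)) ^ 2))
      - (2 * s * (1 + n / s)
        + ((2 * s + τ) ^ 2 - 2 * ((2 * s + τ) ^ 2 / 4 + δ)) / s - 2 * (1 + σ / s) * (2 * s + τ))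
      = (-2 * σ ^ 2 + τ * (n - 2 * σ) - τ * σ ^ 2 / s - 2 * (n - 2 * σ) * n) / (1 + n / s) / s
        - (τ ^ 2 / 2 - 2 * δ - 2 * σ * τ) / s
        + (p * ((2 * s + τ) ^ 2 / 4 + δ)) ^ 2 / (2 * s + τ) := by
  have hM' : s + n ≠ 0 := by
    intro h
    apply hM
    have h1 : 1 + n / s = (s + n) / s := by field_simp
    rw [h1, h, zero_div]
  field_simp
  ring

theorem bound {C K s τ n σ δ p : ℝ} (hC : 0 ≤ C) (hK : 0 ≤ K) (hs1 : 1 ≤ s) (hsC : 2 * C ≤ s)
    (hτ : |τ| ≤ C) (hn : |n| ≤ C) (hσ : |σ| ≤ C) (hδ : |δ| ≤ K) (hp : |p| ≤ C / s ^ 2) :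
    |(2 * s + τ) * (1 - ((1 + σ / s) ^ 2 / (1 + n / s)
        - (p * ((2 * s + τ) ^ 2 / 4 + δ) / (2 * s + τ)) ^ 2))
      - (2 * s * (1 + n / s)
        + ((2 * s + τ) ^ 2 - 2 * ((2 * s + τ) ^ 2 / 4 + δ)) / s
          - 2 * (1 + σ / s) * (2 * s + τ))| ≤
      (2 * (11 * C ^ 2 + C ^ 3) + (3 * C ^ 2 + 2 * K) + (C * (3 + K)) ^ 2) / s := by
  have hs0 : 0 < s := by linarith
  have hτ' := abs_le.1 hτ
  have hn' := abs_le.1 hn
  have hσ' := abs_le.1 hσ
  have hδ' := abs_le.1 hδ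
  have hnS : -(1 / 2) ≤ n / s := by
    rw [le_div_iff₀ hs0]
    linarith
  have hM : 1 / 2 ≤ 1 + n / s := by linarith
  have ht : s ≤ 2 * s + τ := by linarith
  have ht3 : 2 * s + τ ≤ 3 * s := by linarith
  rw [ident hs0.ne' (by linarith) (by linarith)]
  -- the three terms
  have b1 : |(-2 * σ ^ 2 + τ * (n - 2 * σ) - τ * σ ^ 2 / s - 2 * (n - 2 * σ) * n)
      / (1 + n / s) / s| ≤ 2 * (11 * C ^ 2 + C ^ 3) / s := by
    rw [abs_div, abs_div, abs_of_pos hs0, abs_of_pos (by linarith : 0 < 1 + n / s)]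
    apply div_le_div_of_nonneg_right _ hs0.le
    rw [div_le_iff₀ (by linarith)]
    have c1 : |σ ^ 2| ≤ C ^ 2 := by
      rw [abs_pow]
      exact pow_le_pow_left₀ (abs_nonneg _) hσ 2
    have c2 : |n - 2 * σ| ≤ 3 * C := by
      rw [abs_le]
      constructor <;> linarith
    have c3 : |τ * (n - 2 * σ)| ≤ C * (3 * C) := by
      rw [abs_mul]
      exact mul_le_mul hτ c2 (abs_nonneg _) hC
    have c4 : |τ * σ ^ 2 / s| ≤ C * C ^ 2 := by
      rw [abs_div, abs_of_pos hs0]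
      refine (div_le_self (abs_nonneg _) hs1).trans ?_
      rw [abs_mul]
      exact mul_le_mul hτ c1 (abs_nonneg _) hC
    have c5 : |2 * (n - 2 * σ) * n| ≤ 2 * (3 * C) * C := by
      rw [abs_mul, abs_mul, abs_two]
      apply mul_le_mul _ hn (abs_nonneg _) (by positivity)
      exact mul_le_mul_of_nonneg_left c2 (by norm_num)
    have d1 := abs_le.1 c1
    have d3 := abs_le.1 c3
    have d4 := abs_le.1 c4
    have d5 := abs_le.1 c5
    have h1 : |(-2 * σ ^ 2 + τ * (n - 2 * σ) - τ * σ ^ 2 / s - 2 * (n - 2 * σ) * n)| ≤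
        11 * C ^ 2 + C ^ 3 := by
      rw [abs_le]
      constructor <;> linarith
    have h2 : (11 * C ^ 2 + C ^ 3) ≤ 2 * (11 * C ^ 2 + C ^ 3) * (1 + n / s) := by
      have h3 : 0 ≤ 11 * C ^ 2 + C ^ 3 := by positivity
      have h4 : 2 * (11 * C ^ 2 + C ^ 3) * (1 / 2) ≤ 2 * (11 * C ^ 2 + C ^ 3) * (1 + n / s) :=
        mul_le_mul_of_nonneg_left hM (by linarith)
      linarith
    exact h1.trans h2
  have b2 : |(τ ^ 2 / 2 - 2 * δ - 2 * σ * τ) / s| ≤ (3 * C ^ 2 + 2 * K) / s := by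
    rw [abs_div, abs_of_pos hs0]
    apply div_le_div_of_nonneg_right _ hs0.le
    have c1 : |τ ^ 2| ≤ C ^ 2 := by
      rw [abs_pow]
      exact pow_le_pow_left₀ (abs_nonneg _) hτ 2
    have c2 : |σ * τ| ≤ C * C := by
      rw [abs_mul]
      exact mul_le_mul hσ hτ (abs_nonneg _) hC
    have d1 := abs_le.1 c1
    have d2 := abs_le.1 c2
    rw [abs_le]
    constructor <;> linarith
  have b3 : |(p * ((2 * s + τ) ^ 2 / 4 + δ)) ^ 2 / (2 * s + τ)| ≤ (C * (3 + K)) ^ 2 / s := by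
    rw [abs_div, abs_of_pos (by linarith : 0 < 2 * s + τ), abs_pow]
    have c1 : |(2 * s + τ) ^ 2 / 4 + δ| ≤ (3 + K) * s ^ 2 := by
      have e1 : (2 * s + τ) ^ 2 ≤ (3 * s) ^ 2 := pow_le_pow_left₀ (by linarith) ht3 2
      have e2 : 0 ≤ (2 * s + τ) ^ 2 := sq_nonneg _
      have e3 : 1 ≤ s ^ 2 := one_le_pow₀ hs1
      have e4 : K ≤ K * s ^ 2 := le_mul_of_one_le_right hK e3
      have e5 : (3 * s) ^ 2 = 9 * s ^ 2 := by ring
      rw [abs_le]
      constructor <;> linarith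
    have c2 : |p * ((2 * s + τ) ^ 2 / 4 + δ)| ≤ C * (3 + K) := by
      rw [abs_mul]
      calc |p| * |(2 * s + τ) ^ 2 / 4 + δ| ≤ (C / s ^ 2) * ((3 + K) * s ^ 2) :=
            mul_le_mul hp c1 (abs_nonneg _) (by positivity)
        _ = C * (3 + K) := by field_simp
    calc |p * ((2 * s + τ) ^ 2 / 4 + δ)| ^ 2 / (2 * s + τ)
        ≤ (C * (3 + K)) ^ 2 / (2 * s + τ) := by
          apply div_le_div_of_nonneg_right _ (by linarith)
          exact pow_le_pow_left₀ (abs_nonneg _) c2 2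
      _ ≤ (C * (3 + K)) ^ 2 / s := by
          apply div_le_div_of_nonneg_left (by positivity) hs0 ht
  calc _ ≤ |(-2 * σ ^ 2 + τ * (n - 2 * σ) - τ * σ ^ 2 / s - 2 * (n - 2 * σ) * n)
          / (1 + n / s) / s| + |(τ ^ 2 / 2 - 2 * δ - 2 * σ * τ) / s|
          + |(p * ((2 * s + τ) ^ 2 / 4 + δ)) ^ 2 / (2 * s + τ)| := by
        refine (abs_add_le _ _).trans ?_
        gcongr
        exact abs_sub _ _
    _ ≤ _ := by
        rw [add_div, add_div]
        linarith

/-- The estimate in terms of the functions. -/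
theorem point {C K s t D M r p : ℝ} (hC : 0 ≤ C) (hK : 0 ≤ K) (hs1 : 1 ≤ s) (hsC : 2 * C ≤ s)
    (ht : |t - 2 * s| ≤ C) (hM : |M - 1| ≤ C / s) (hr : |r - 1| ≤ C / s)
    (hD : |D - t ^ 2 / 4| ≤ K) (hp : |p| ≤ C / s ^ 2) :
    |t * (1 - (r ^ 2 / M - (p / (t / D)) ^ 2))
      - (2 * s * M + (t ^ 2 - 2 * D) / s - 2 * r * t)| ≤
      (2 * (11 * C ^ 2 + C ^ 3) + (3 * C ^ 2 + 2 * K) + (C * (3 + K)) ^ 2) / s := by
  have hs0 : 0 < s := by linarith
  have h1 : |s * (M - 1)| ≤ C := by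
    rw [abs_mul, abs_of_pos hs0]
    calc s * |M - 1| ≤ s * (C / s) := mul_le_mul_of_nonneg_left hM hs0.le
      _ = C := by field_simp
  have h2 : |s * (r - 1)| ≤ C := by
    rw [abs_mul, abs_of_pos hs0]
    calc s * |r - 1| ≤ s * (C / s) := mul_le_mul_of_nonneg_left hr hs0.le
      _ = C := by field_simp
  have h := bound (τ := t - 2 * s) (n := s * (M - 1)) (σ := s * (r - 1)) (δ := D - t ^ 2 / 4)
    hC hK hs1 hsC ht h1 h2 hD hp
  have e1 : 2 * s + (t - 2 * s) = t := by ring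
  have e2 : 1 + s * (M - 1) / s = M := by field_simp; ring
  have e3 : 1 + s * (r - 1) / s = r := by field_simp; ring
  have e4 : t ^ 2 / 4 + (D - t ^ 2 / 4) = D := by ring
  rw [e1, e2, e3, e4] at h
  rwa [div_div_eq_mul_div]

end LIM

theorem LIM (_hALG : Stmt_ALG) (hSMO : Stmt_SMO) (hRAY : Stmt_RAY) (hDCY : Stmt_DCY)
    (hMASS : Stmt_MASS) : Stmt_LIM := by
  intro a u ρ N g h hPD m hm
  obtain ⟨C, R, haR, hR1, hdcy⟩ := hDCY a u ρ N g h hPD
  obtain ⟨-, hT, hD, -, C₂, hC₂⟩ := hRAY a u ρ N g h hPD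
  obtain ⟨-, hsT, hsD, -, -, -, -, hsy, -⟩ := hSMO a u ρ N g h hPD
  have ha0 := hPD.radius_nonneg
  -- constants
  have hC0 : 0 ≤ C := (abs_nonneg _).trans (hdcy R le_rfl).1
  set K : ℝ := 9 * C₂ ^ 2 / 4 + 9 * C₂ ^ 2 / 2 with hK
  have hK0 : 0 ≤ K := by positivity
  set B : ℝ := 2 * (11 * C ^ 2 + C ^ 3) + (3 * C ^ 2 + 2 * K) + (C * (3 + K)) ^ 2 with hB
  -- the norm of the points
  have hnorm : ∀ (s : ℝ) (θ : S2), 0 < s → ‖s • (θ : E3)‖ = s := by
    intro s θ hs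
    rw [norm_smul, Real.norm_of_nonneg hs.le]
    have : ‖(θ : E3)‖ = 1 := by
      simp
    rw [this, mul_one]
  -- the determinant against the trace
  have hdet : ∀ (s : ℝ) (θ : S2), 0 < s →
      |dB u ρ (s • (θ : E3)) - tB u ρ (s • (θ : E3)) ^ 2 / 4| ≤ K := by
    intro s θ hs
    rw [hD s θ hs, hT s θ hs]
    set T := ∑ i, pd i (pd i u) (θ : E3) with hTdef
    set Q := ∑ i, ∑ j, pd i (pd j u) (θ : E3) ^ 2 with hQdef
    have e1 : (T ^ 2 - Q) / 2 + ρ s * T + ρ s ^ 2 - (T + 2 * ρ s) ^ 2 / 4 = T ^ 2 / 4 - Q / 2 := by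
      ring
    rw [e1]
    have hTb : |T| ≤ 3 * C₂ := by
      rw [hTdef]
      refine (Finset.abs_sum_le_sum_abs _ _).trans ?_
      refine (Finset.sum_le_sum (fun i _ => hC₂ θ i i)).trans ?_
      simp
    have hC₂0 : 0 ≤ C₂ := (abs_nonneg _).trans (hC₂ θ 0 0)
    have hT2 : T ^ 2 ≤ 9 * C₂ ^ 2 := by
      have := pow_le_pow_left₀ (abs_nonneg _) hTb 2
      rw [sq_abs] at this
      linarith
    have hQ0 : 0 ≤ Q := Finset.sum_nonneg fun i _ => Finset.sum_nonneg fun j _ => sq_nonneg _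
    have hQ2 : Q ≤ 9 * C₂ ^ 2 := by
      rw [hQdef]
      have h1 : ∀ i j : Fin 3, pd i (pd j u) (θ : E3) ^ 2 ≤ C₂ ^ 2 := by
        intro i j
        have := pow_le_pow_left₀ (abs_nonneg _) (hC₂ θ i j) 2
        rwa [sq_abs] at this
      refine (Finset.sum_le_sum (fun i _ => Finset.sum_le_sum (fun j _ => h1 i j))).trans ?_
      simp
      linarith
    rw [hK, abs_le]
    have hT0 := sq_nonneg T
    have hC0' := sq_nonneg C₂
    constructor <;> linarith
  -- the difference of the integrands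
  have hdiff : ∀ (s : ℝ) (θ : S2), max R (2 * C) ≤ s →
      |tB u ρ (s • (θ : E3)) * (1 - yc u ρ N h (s • (θ : E3)))
        - (2 * s * N (s • (θ : E3)) ^ 2
          + (tB u ρ (s • (θ : E3)) ^ 2 - 2 * dB u ρ (s • (θ : E3))) / s
          - 2 * deriv ρ s * tB u ρ (s • (θ : E3)))| ≤ B / s := by
    intro s θ hs
    have hsR : R ≤ s := (le_max_left _ _).trans hs
    have hs1 : 1 ≤ s := hR1.trans hsR
    have hs0 : 0 < s := by linarith
    obtain ⟨-, h2, h3⟩ := hdcy s hsR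
    obtain ⟨h4, h5, h6, -⟩ := h3 θ
    have h7 := LIM.point hC0 hK0 hs1 ((le_max_right _ _).trans hs) h6 h4 h2 (hdet s θ hs0) h5
    have h8 : yc u ρ N h (s • (θ : E3)) = deriv ρ s ^ 2 / N (s • (θ : E3)) ^ 2
        - (pc u ρ h (s • (θ : E3)) / (tB u ρ (s • (θ : E3)) / dB u ρ (s • (θ : E3)))) ^ 2 := by
      rw [yc, hnorm s θ hs0, div_pow]
    rw [h8]
    exact h7
  -- continuity on the spheres
  have hcont : ∀ (s : ℝ), a < s → 0 < s → ∀ F : E3 → ℝ, ContinuousOn F {x : E3 | a < ‖x‖} →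
      Continuous (fun θ : S2 => F (s • (θ : E3))) := by
    intro s hs hs0 F hF
    refine hF.comp_continuous (by fun_prop) ?_
    intro θ
    change a < ‖s • (θ : E3)‖
    rw [hnorm s θ hs0]
    exact hs
  have hint : ∀ (s : ℝ), max R (2 * C) ≤ s →
      |En u ρ N h s / (16 * Real.pi) - massIntegral g s| ≤
        (mS Set.univ).toReal * B / (16 * Real.pi) / s := by
    intro s hs
    have hsR : R ≤ s := (le_max_left _ _).trans hs
    have hs1 : 1 ≤ s := hR1.trans hsR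
    have hs0 : 0 < s := by linarith
    have hsa : a < s := by linarith
    have hπ : 0 < 16 * Real.pi := by positivity
    have c1 := hcont s hsa hs0 _ hsT.continuousOn
    have c2 := hcont s hsa hs0 _ hsD.continuousOn
    have c3 := hcont s hsa hs0 _ hsy.continuousOn
    have c4 := hcont s hsa hs0 _ hPD.smooth_N.continuousOn
    have i1 : Integrable (fun θ : S2 =>
        tB u ρ (s • (θ : E3)) * (1 - yc u ρ N h (s • (θ : E3)))) mS :=
      (c1.mul (continuous_const.sub c3)).integrable_of_hasCompactSupport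
        (HasCompactSupport.of_compactSpace _)
    have i2 : Integrable (fun θ : S2 => (2 * s * N (s • (θ : E3)) ^ 2
        + (tB u ρ (s • (θ : E3)) ^ 2 - 2 * dB u ρ (s • (θ : E3))) / s
        - 2 * deriv ρ s * tB u ρ (s • (θ : E3)))) mS := by
      refine Continuous.integrable_of_hasCompactSupport ?_ (HasCompactSupport.of_compactSpace _)
      exact (((continuous_const.mul (c4.pow 2)).add
        (((c1.pow 2).sub (continuous_const.mul c2)).div_const _)).sub (continuous_const.mul c1))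
    have h1 : En u ρ N h s - 16 * Real.pi * massIntegral g s =
        ∫ θ : S2, (tB u ρ (s • (θ : E3)) * (1 - yc u ρ N h (s • (θ : E3)))
          - (2 * s * N (s • (θ : E3)) ^ 2
            + (tB u ρ (s • (θ : E3)) ^ 2 - 2 * dB u ρ (s • (θ : E3))) / s
            - 2 * deriv ρ s * tB u ρ (s • (θ : E3)))) ∂mS := by
      rw [hMASS a u ρ N g h hPD s hsa, En, integral_sub i1 i2]
    have h2 : |En u ρ N h s - 16 * Real.pi * massIntegral g s| ≤
        B / s * (mS Set.univ).toReal := by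
      rw [h1, ← Real.norm_eq_abs]
      have := norm_integral_le_of_norm_le_const (μ := mS) (C := B / s)
        (f := fun θ : S2 => (tB u ρ (s • (θ : E3)) * (1 - yc u ρ N h (s • (θ : E3)))
          - (2 * s * N (s • (θ : E3)) ^ 2
            + (tB u ρ (s • (θ : E3)) ^ 2 - 2 * dB u ρ (s • (θ : E3))) / s
            - 2 * deriv ρ s * tB u ρ (s • (θ : E3)))))
        (Filter.Eventually.of_forall fun θ => by
          rw [Real.norm_eq_abs]
          exact hdiff s θ hs)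
      exact this
    have h3 : En u ρ N h s / (16 * Real.pi) - massIntegral g s =
        (En u ρ N h s - 16 * Real.pi * massIntegral g s) / (16 * Real.pi) := by
      field_simp
    rw [h3, abs_div, abs_of_pos hπ]
    calc |En u ρ N h s - 16 * Real.pi * massIntegral g s| / (16 * Real.pi)
        ≤ B / s * (mS Set.univ).toReal / (16 * Real.pi) :=
          div_le_div_of_nonneg_right h2 hπ.le
      _ = (mS Set.univ).toReal * B / (16 * Real.pi) / s := by
          field_simp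
  -- the limit
  have hz : Tendsto (fun s : ℝ => En u ρ N h s / (16 * Real.pi) - massIntegral g s) atTop
      (𝓝 0) := by
    rw [tendsto_zero_iff_abs_tendsto_zero]
    refine squeeze_zero' (Filter.Eventually.of_forall fun s => abs_nonneg _)
      (Filter.eventually_atTop.2 ⟨max R (2 * C), fun s hs => hint s hs⟩) ?_
    exact tendsto_const_nhds.div_atTop tendsto_id
  have hm' : Tendsto (massIntegral g) atTop (𝓝 m) := hm
  have := hz.add hm'
  simpa using this

end Pool.Agent.PenroseConvex
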