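import Pool.Agent.PenroseConvex.Stmts
import Pool.Agent.PenroseSph.Calc
import Pool.Agent.PenroseSph.Geom

/-! # LOC: existence of the local bridge to X-space (inverse function theorem) -/

open MeasureTheory Filter Topology
open scoped ContDiff

namespace Pool.Agent.PenroseConvex

open Pool.Agent.PenroseSph

namespace LOC

/-! ### Linear algebra -/

theorem JK {B C : Fin 3 → Fin 3 → ℝ} {n : Fin 3 → ℝ} {r p : ℝ} (hr : r ≠ 0) (hp : p ≠ 0)
    (hCs : ∀ i j, C i j = C j i) (hBn : ∀ i, ∑ j, B i j * n j = 0)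
    (hCn : ∀ i, ∑ j, C i j * n j = 0)
    (hBC : ∀ i j, ∑ k, B i k * C k j = dk i j - n i * n j) (hn : ∑ i, n i * n i = 1)
    (i j : Fin 3) :
    ∑ k, (B i k / r + p * (n i * n k)) * (r * C k j + n k * n j / p) = dk i j := by
  have e : ∀ k, (B i k / r + p * (n i * n k)) * (r * C k j + n k * n j / p) =
      B i k * C k j + (n j / (r * p)) * (B i k * n k) + (p * r * n i) * (C j k * n k)
        + (n i * n j) * (n k * n k) := by
    intro k
    rw [hCs k j]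
    field_simp
    ring
  simp only [e, Finset.sum_add_distrib, ← Finset.mul_sum]
  rw [hBC, hBn, hCn, hn]
  ring

theorem JJ {B : Fin 3 → Fin 3 → ℝ} {n : Fin 3 → ℝ} {r p : ℝ}
    (hBs : ∀ i j, B i j = B j i) (hBn : ∀ i, ∑ j, B i j * n j = 0) (hn : ∑ i, n i * n i = 1)
    (i j : Fin 3) :
    ∑ k, (B k i / r + p * (n k * n i)) * (B k j / r + p * (n k * n j)) =
      (∑ k, B i k * B k j) / r ^ 2 + p ^ 2 * (n i * n j) := by
  have e : ∀ k, (B k i / r + p * (n k * n i)) * (B k j / r + p * (n k * n j)) =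
      (B i k * B k j) / r ^ 2 + (p * n j / r) * (B i k * n k) + (p * n i / r) * (B j k * n k)
        + (p ^ 2 * (n i * n j)) * (n k * n k) := by
    intro k
    rw [hBs k i, hBs k j]
    by_cases hr : r = 0
    · subst hr
      simp
      ring
    · field_simp
      ring
  simp only [e, Finset.sum_add_distrib, ← Finset.mul_sum, ← Finset.sum_div]
  rw [hBn, hBn, hn]
  ring

theorem Jn {B : Fin 3 → Fin 3 → ℝ} {n : Fin 3 → ℝ} {r p : ℝ}
    (hBs : ∀ i j, B i j = B j i) (hBn : ∀ i, ∑ j, B i j * n j = 0) (hn : ∑ i, n i * n i = 1)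
    (i : Fin 3) :
    ∑ k, (B k i / r + p * (n k * n i)) * n k = p * n i := by
  have e : ∀ k, (B k i / r + p * (n k * n i)) * n k =
      (1 / r) * (B i k * n k) + (p * n i) * (n k * n k) := by
    intro k
    rw [hBs k i]
    ring
  simp only [e, Finset.sum_add_distrib, ← Finset.mul_sum]
  rw [hBn, hn]
  ring

/-! ### Calculus -/

theorem vec_expand (v : E3) : v = ∑ a, v a • EuclideanSpace.single a (1 : ℝ) := by
  ext i
  simp [Finset.sum_apply, Pi.single_apply]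

theorem fderiv_expand (L : E3 →L[ℝ] ℝ) (v : E3) :
    L v = ∑ a, v a * L (EuclideanSpace.single a (1 : ℝ)) := by
  conv_lhs => rw [vec_expand v]
  rw [map_sum]
  refine Finset.sum_congr rfl fun a _ => ?_
  rw [map_smul, smul_eq_mul]

theorem fderiv_coord {Φ : E3 → E3} {x : E3} (hΦ : DifferentiableAt ℝ Φ x) (v : E3) (a : Fin 3) :
    (fderiv ℝ Φ x v) a = ∑ i, v i * jac Φ x a i := by
  have h1 : HasFDerivAt (fun y => Φ y a)
      ((EuclideanSpace.proj a : E3 →L[ℝ] ℝ).comp (fderiv ℝ Φ x)) x :=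
    (EuclideanSpace.proj a : E3 →L[ℝ] ℝ).hasFDerivAt.comp x hΦ.hasFDerivAt
  have h2 : (fderiv ℝ Φ x v) a = fderiv ℝ (fun y => Φ y a) x v := by
    rw [h1.fderiv]
    rfl
  rw [h2, fderiv_expand]
  rfl

theorem chain {Φ : E3 → E3} {F : E3 → ℝ} {x : E3} (hF : DifferentiableAt ℝ F (Φ x))
    (hΦ : DifferentiableAt ℝ Φ x) (i : Fin 3) :
    pd i (fun y => F (Φ y)) x = ∑ a, pd a F (Φ x) * jac Φ x a i := by
  have h1 : fderiv ℝ (fun y => F (Φ y)) x = (fderiv ℝ F (Φ x)).comp (fderiv ℝ Φ x) :=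
    fderiv_comp x hF hΦ
  unfold pd
  rw [h1, ContinuousLinearMap.comp_apply, fderiv_expand]
  refine Finset.sum_congr rfl fun a _ => ?_
  rw [fderiv_coord hΦ, mul_comm]
  congr 1
  simp [PiLp.single_apply]

theorem contDiffAt_pd {f : E3 → ℝ} {x : E3} {m n : WithTop ℕ∞} (hf : ContDiffAt ℝ n f x)
    (hmn : m + 1 ≤ n) (i : Fin 3) : ContDiffAt ℝ m (pd i f) x := by
  have h1 := hf.fderiv_right hmn
  exact h1.clm_apply contDiffAt_const

theorem contDiffAt_norm' {x : E3} (hx : x ≠ 0) : ContDiffAt ℝ ∞ (fun y : E3 => ‖y‖) x :=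
  contDiffAt_id.norm ℝ hx

theorem contDiffAt_nu {x : E3} (hx : x ≠ 0) (i : Fin 3) :
    ContDiffAt ℝ ∞ (fun y : E3 => nu y i) x := by
  unfold nu
  exact ContDiffAt.div (by fun_prop) (contDiffAt_norm' hx) (norm_pos_iff.2 hx).ne'

theorem sum_nu {x : E3} (hx : x ≠ 0) : ∑ i, nu x i * nu x i = 1 := sum_nu_sq hx

theorem pd_nu' {x : E3} (hx : x ≠ 0) (i j : Fin 3) :
    pd i (fun y => nu y j) x = (dk i j - nu x i * nu x j) / ‖x‖ := by
  have := pd_nu hx i j
  simpa [nu, dk, dl] using this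

/-! ### The map -/

/-- the map `∇u + ρ ν` -/
noncomputable def Ph (u : E3 → ℝ) (ρ : ℝ → ℝ) (y : E3) : E3 :=
  WithLp.toLp 2 (fun a => pd a u y + ρ ‖y‖ * nu y a)

theorem Ph_apply (u : E3 → ℝ) (ρ : ℝ → ℝ) (y : E3) (a : Fin 3) :
    Ph u ρ y a = pd a u y + ρ ‖y‖ * nu y a := rfl

/-- the inverse of the Jacobian -/
noncomputable def Kx (u : E3 → ℝ) (ρ : ℝ → ℝ) (y : E3) : Matrix (Fin 3) (Fin 3) ℝ :=
  Matrix.of fun i j => ‖y‖ * cB u ρ i j y + nu y i * nu y j / deriv ρ ‖y‖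

theorem Kx_apply (u : E3 → ℝ) (ρ : ℝ → ℝ) (y : E3) (i j : Fin 3) :
    Kx u ρ y i j = ‖y‖ * cB u ρ i j y + nu y i * nu y j / deriv ρ ‖y‖ := rfl

variable {a : ℝ} {u : E3 → ℝ} {ρ : ℝ → ℝ} {N : E3 → ℝ} {g h : TensorField}

theorem ne0 (hD : ParallelData a u ρ N g h) {y : E3} (hy : a < ‖y‖) : y ≠ 0 :=
  norm_pos_iff.1 (lt_of_le_of_lt hD.radius_nonneg hy)

theorem smooth_rho_at (hD : ParallelData a u ρ N g h) {y : E3} (hy : a < ‖y‖) :
    ContDiffAt ℝ ∞ ρ ‖y‖ := hD.smooth_rho.contDiffAt (Ioi_mem_nhds hy)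

theorem smooth_Ph (hD : ParallelData a u ρ N g h) {y : E3} (hy : a < ‖y‖) :
    ContDiffAt ℝ ∞ (Ph u ρ) y := by
  have hy0 := ne0 hD hy
  have hu : ContDiffAt ℝ ∞ u y := hD.smooth_u.contDiffAt (isOpen_compl_singleton.mem_nhds hy0)
  have h1 : ∀ b : Fin 3, ContDiffAt ℝ ∞ (fun z => pd b u z + ρ ‖z‖ * nu z b) y := by
    intro b
    have h2 := contDiffAt_pd (m := ∞) hu (by simp) b
    have h3 : ContDiffAt ℝ ∞ (fun z : E3 => ρ ‖z‖) y :=
      (smooth_rho_at hD hy).comp y (contDiffAt_norm' hy0)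
    exact h2.add (h3.mul (contDiffAt_nu hy0 b))
  rw [contDiffAt_euclidean]
  exact h1

theorem jac_Ph (hALG : Stmt_ALG) (hD : ParallelData a u ρ N g h) {y : E3} (hy : a < ‖y‖)
    (b i : Fin 3) :
    jac (Ph u ρ) y b i = radii u ρ y b i / ‖y‖ + deriv ρ ‖y‖ * (nu y b * nu y i) := by
  have hy0 := ne0 hD hy
  have hr : ‖y‖ ≠ 0 := (norm_pos_iff.2 hy0).ne'
  have hu : ContDiffAt ℝ ∞ u y := hD.smooth_u.contDiffAt (isOpen_compl_singleton.mem_nhds hy0)
  have h2 : DifferentiableAt ℝ (pd b u) y :=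
    (contDiffAt_pd (m := ∞) hu (by simp) b).differentiableAt (by simp)
  have h4 : HasDerivAt ρ (deriv ρ ‖y‖) ‖y‖ :=
    ((smooth_rho_at hD hy).differentiableAt (by simp)).hasDerivAt
  have h3 : DifferentiableAt ℝ (fun z : E3 => ρ ‖z‖) y := differentiableAt_radial hy0 h4
  have h5 : DifferentiableAt ℝ (fun z : E3 => nu z b) y :=
    (contDiffAt_nu hy0 b).differentiableAt (by simp)
  have hs := (hALG a u ρ N g h hD y hy).1
  rw [hs b i]
  change pd i (fun z => pd b u z + ρ ‖z‖ * nu z b) y = _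
  have h6 : DifferentiableAt ℝ (fun z : E3 => ρ ‖z‖ * nu z b) y := h3.mul h5
  rw [pd_add h2 h6, pd_mul h3 h5, pd_nu' hy0, pd_radial hy0 h4]
  change _ = (‖y‖ * pd i (pd b u) y + ρ ‖y‖ * ((if i = b then 1 else 0) - nu y i * nu y b)) / ‖y‖
    + _
  unfold dk nu
  field_simp
  ring

/-- the data at a point -/
structure Pt (u : E3 → ℝ) (ρ : ℝ → ℝ) (y : E3) : Prop where
  ne : y ≠ 0
  pos : 0 < deriv ρ ‖y‖
  Bs : ∀ i j, radii u ρ y i j = radii u ρ y j i
  Bn : ∀ i, ∑ j, radii u ρ y i j * nu y j = 0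
  Cs : ∀ i j, cB u ρ i j y = cB u ρ j i y
  Cn : ∀ i, ∑ j, cB u ρ i j y * nu y j = 0
  BC : ∀ i j, ∑ k, radii u ρ y i k * cB u ρ k j y = dk i j - nu y i * nu y j
  jac : ∀ b i, jac (Ph u ρ) y b i =
    radii u ρ y b i / ‖y‖ + deriv ρ ‖y‖ * (nu y b * nu y i)

theorem pt (hALG : Stmt_ALG) (hD : ParallelData a u ρ N g h) {y : E3} (hy : a < ‖y‖)
    (hp : 0 < deriv ρ ‖y‖) : Pt u ρ y := by
  obtain ⟨h1, h2, _, _, h3, h4, h5, _⟩ := hALG a u ρ N g h hD y hy
  exact ⟨ne0 hD hy, hp, h1, h2, h3, h4, h5, jac_Ph hALG hD hy⟩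

theorem Pt.norm {y : E3} (P : Pt u ρ y) : ‖y‖ ≠ 0 := (norm_pos_iff.2 P.ne).ne'

theorem Pt.jac_mul {y : E3} (P : Pt u ρ y) :
    PenroseConvex.jac (Ph u ρ) y * Kx u ρ y = 1 := by
  ext i j
  rw [Matrix.mul_apply, Matrix.one_apply]
  have := JK (B := fun i j => radii u ρ y i j) (C := fun i j => cB u ρ i j y)
    (n := fun i => nu y i) (r := ‖y‖) (p := deriv ρ ‖y‖) P.norm P.pos.ne' P.Cs P.Bn P.Cn P.BC
    (sum_nu P.ne) i j
  simp only [P.jac, Kx_apply]
  exact this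

theorem Pt.mul_jac {y : E3} (P : Pt u ρ y) :
    Kx u ρ y * PenroseConvex.jac (Ph u ρ) y = 1 :=
  mul_eq_one_comm.1 P.jac_mul

/-- solving for the gradient -/
theorem Pt.solve {y : E3} (P : Pt u ρ y) (w f : Fin 3 → ℝ)
    (hw : ∀ i, ∑ b, w b * PenroseConvex.jac (Ph u ρ) y b i = f i) (c : Fin 3) :
    w c = ∑ i, f i * Kx u ρ y i c := by
  have h1 : ∑ i, f i * Kx u ρ y i c =
      ∑ b, w b * ∑ i, PenroseConvex.jac (Ph u ρ) y b i * Kx u ρ y i c := by
    simp only [← hw, Finset.sum_mul, Finset.mul_sum]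
    rw [Finset.sum_comm]
    refine Finset.sum_congr rfl fun b _ => Finset.sum_congr rfl fun i _ => ?_
    ring
  rw [h1]
  have h2 : ∀ b, ∑ i, PenroseConvex.jac (Ph u ρ) y b i * Kx u ρ y i c =
      (1 : Matrix (Fin 3) (Fin 3) ℝ) b c := by
    intro b
    rw [← P.jac_mul, Matrix.mul_apply]
  simp only [h2, Matrix.one_apply]
  simp

theorem Pt.nuK {y : E3} (P : Pt u ρ y) (c : Fin 3) :
    ∑ i, (deriv ρ ‖y‖ * nu y i) * Kx u ρ y i c = nu y c := by
  have hp := P.pos.ne'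
  have e : ∀ i, (deriv ρ ‖y‖ * nu y i) * Kx u ρ y i c =
      (deriv ρ ‖y‖ * ‖y‖) * (cB u ρ c i y * nu y i) + nu y c * (nu y i * nu y i) := by
    intro i
    rw [Kx_apply, P.Cs i c]
    field_simp
  simp only [e, Finset.sum_add_distrib, ← Finset.mul_sum]
  rw [P.Cn, sum_nu P.ne]
  ring

theorem Pt.PK {y : E3} (P : Pt u ρ y) (j c : Fin 3) :
    ∑ i, (dk i j - nu y i * nu y j) / ‖y‖ * Kx u ρ y i c = cB u ρ c j y := by
  have hp := P.pos.ne'
  have hr := P.norm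
  have e : ∀ i, (dk i j - nu y i * nu y j) / ‖y‖ * Kx u ρ y i c =
      dk i j * (cB u ρ i c y + nu y i * nu y c / (deriv ρ ‖y‖ * ‖y‖))
        - nu y j * (cB u ρ c i y * nu y i)
        - (nu y j * nu y c / (deriv ρ ‖y‖ * ‖y‖)) * (nu y i * nu y i) := by
    intro i
    rw [Kx_apply, P.Cs i c]
    field_simp
    ring
  simp only [e, Finset.sum_sub_distrib, ← Finset.mul_sum]
  rw [P.Cn, sum_nu P.ne]
  have e2 : ∑ i, dk i j * (cB u ρ i c y + nu y i * nu y c / (deriv ρ ‖y‖ * ‖y‖)) =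
      cB u ρ j c y + nu y j * nu y c / (deriv ρ ‖y‖ * ‖y‖) := by
    unfold dk
    simp
  rw [e2, P.Cs j c]
  ring

/-- the derivative at a point as an equivalence -/
theorem Pt.exists_equiv {y : E3} (P : Pt u ρ y) (hs : DifferentiableAt ℝ (Ph u ρ) y) :
    ∃ e : E3 ≃L[ℝ] E3, HasFDerivAt (Ph u ρ) (e : E3 →L[ℝ] E3) y := by
  have hinj : Function.Injective (fderiv ℝ (Ph u ρ) y : E3 →ₗ[ℝ] E3) := by
    rw [← LinearMap.ker_eq_bot, LinearMap.ker_eq_bot']
    intro v hv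
    have hv' : ∀ b, ∑ i, v i * PenroseConvex.jac (Ph u ρ) y b i = 0 := by
      intro b
      rw [← fderiv_coord hs]
      have : fderiv ℝ (Ph u ρ) y v = 0 := hv
      rw [this]
      rfl
    ext c
    have h1 : ∑ b, Kx u ρ y c b * ∑ i, v i * PenroseConvex.jac (Ph u ρ) y b i = v c := by
      have h2 : ∑ b, Kx u ρ y c b * ∑ i, v i * PenroseConvex.jac (Ph u ρ) y b i =
          ∑ i, v i * ∑ b, Kx u ρ y c b * PenroseConvex.jac (Ph u ρ) y b i := by
        simp only [Finset.mul_sum]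
        rw [Finset.sum_comm]
        refine Finset.sum_congr rfl fun b _ => Finset.sum_congr rfl fun i _ => ?_
        ring
      rw [h2]
      have h3 : ∀ i, ∑ b, Kx u ρ y c b * PenroseConvex.jac (Ph u ρ) y b i =
          (1 : Matrix (Fin 3) (Fin 3) ℝ) c i := by
        intro i
        rw [← P.mul_jac, Matrix.mul_apply]
      simp only [h3, Matrix.one_apply]
      simp
    rw [← h1]
    simp only [hv']
    simp
  refine ⟨(LinearEquiv.ofInjectiveEndo _ hinj).toContinuousLinearEquiv, ?_⟩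
  have : ((LinearEquiv.ofInjectiveEndo _ hinj).toContinuousLinearEquiv : E3 →L[ℝ] E3) =
      fderiv ℝ (Ph u ρ) y := by
    ext v
    rfl
  rw [this]
  exact hs.hasFDerivAt

/-- the metric and the tensor -/
theorem Pt.metric {y : E3} (P : Pt u ρ y) {d M : E3 → ℝ}
    (hd : ∀ i, pd i d (Ph u ρ y) = nu y i) (hM : M (Ph u ρ y) = N y / deriv ρ ‖y‖) :
    parallelMetric u ρ N y = pullback (Ph u ρ) (xg d M) y := by
  have hp := P.pos.ne'
  ext i j
  have h1 : pullback (Ph u ρ) (xg d M) y i j =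
      ∑ l, (∑ k, PenroseConvex.jac (Ph u ρ) y k i * xg d M (Ph u ρ y) k l) *
        PenroseConvex.jac (Ph u ρ) y l j := by
    unfold pullback
    rw [Matrix.mul_apply]
    refine Finset.sum_congr rfl fun l _ => ?_
    rw [Matrix.mul_apply]
    rfl
  have h2 : ∀ k l, xg d M (Ph u ρ y) k l =
      dk k l + ((N y / deriv ρ ‖y‖) ^ 2 - 1) * (nu y k * nu y l) := by
    intro k l
    unfold xg
    rw [Matrix.of_apply, hd, hd, hM]
  set B : Fin 3 → Fin 3 → ℝ := fun i j => radii u ρ y i j with hB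
  set n : Fin 3 → ℝ := fun i => nu y i with hn
  set r : ℝ := ‖y‖ with hr
  set p : ℝ := deriv ρ r with hpp
  have hJ : ∀ b i, PenroseConvex.jac (Ph u ρ) y b i = B b i / r + p * (n b * n i) := P.jac
  have hJJ := JJ (B := B) (n := n) (r := r) (p := p) P.Bs P.Bn (sum_nu P.ne) i j
  have hJn := Jn (B := B) (n := n) (r := r) (p := p) P.Bs P.Bn (sum_nu P.ne)
  rw [h1]
  simp only [h2, hJ]
  have e1 : ∀ l, (∑ k, (B k i / r + p * (n k * n i)) *
      (dk k l + ((N y / p) ^ 2 - 1) * (n k * n l))) =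
      (B l i / r + p * (n l * n i)) + ((N y / p) ^ 2 - 1) * n l * (p * n i) := by
    intro l
    rw [← hJn i]
    have e2 : ∀ k, (B k i / r + p * (n k * n i)) *
        (dk k l + ((N y / p) ^ 2 - 1) * (n k * n l)) =
        dk k l * (B k i / r + p * (n k * n i)) +
          (((N y / p) ^ 2 - 1) * n l) * ((B k i / r + p * (n k * n i)) * n k) := by
      intro k
      ring
    simp only [e2, Finset.sum_add_distrib, ← Finset.mul_sum]
    congr 1
    unfold dk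
    simp
  change N y ^ 2 * (n i * n j) + (radii u ρ y * radii u ρ y) i j / r ^ 2 = _
  have e3 : (radii u ρ y * radii u ρ y) i j = ∑ k, B i k * B k j := Matrix.mul_apply
  rw [e3]
  have e4 : ∀ l, (∑ k, (B k i / r + p * (n k * n i)) *
      (dk k l + ((N y / p) ^ 2 - 1) * (n k * n l))) * (B l j / r + p * (n l * n j)) =
      (B l i / r + p * (n l * n i)) * (B l j / r + p * (n l * n j)) +
        (((N y / p) ^ 2 - 1) * (p * n i)) * ((B l j / r + p * (n l * n j)) * n l) := by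
    intro l
    rw [e1]
    ring
  rw [Finset.sum_congr rfl fun l _ => e4 l]
  simp only [Finset.sum_add_distrib, ← Finset.mul_sum]
  rw [hJJ, hJn]
  field_simp
  ring

theorem Pt.tensor {y : E3} (P : Pt u ρ y) {k : TensorField}
    (hk : k (Ph u ρ y) = (Kx u ρ y).transpose * h y * Kx u ρ y) :
    h y = pullback (Ph u ρ) k y := by
  unfold pullback
  rw [hk]
  have h1 : (PenroseConvex.jac (Ph u ρ) y).transpose * ((Kx u ρ y).transpose * h y * Kx u ρ y) *
      PenroseConvex.jac (Ph u ρ) y =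
      (Kx u ρ y * PenroseConvex.jac (Ph u ρ) y).transpose * h y *
        (Kx u ρ y * PenroseConvex.jac (Ph u ρ) y) := by
    rw [Matrix.transpose_mul]
    simp only [Matrix.mul_assoc]
  rw [h1, P.mul_jac, Matrix.transpose_one, Matrix.one_mul, Matrix.mul_one]

end LOC

theorem LOC (hALG : Stmt_ALG) (hSMO : Stmt_SMO) : Stmt_LOC := by
  intro a u ρ N g h hD x hx hpos
  obtain ⟨hBsm, _, _, hCsm, hρsm, _⟩ := hSMO a u ρ N g h hD
  have hx0 := LOC.ne0 hD hx
  have P := LOC.pt hALG hD hx hpos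
  have hΦ : ContDiffAt ℝ ∞ (LOC.Ph u ρ) x := LOC.smooth_Ph hD hx
  obtain ⟨e, he⟩ := P.exists_equiv (hΦ.differentiableAt (by simp))
  have hopen : IsOpen {y : E3 | a < ‖y‖} := isOpen_lt continuous_const continuous_norm
  -- the inverse
  set Q := hΦ.toOpenPartialHomeomorph (LOC.Ph u ρ) he (by simp) with hQ
  have hQc : (Q : E3 → E3) = LOC.Ph u ρ := rfl
  set Ψ : E3 → E3 := hΦ.localInverse he (by simp) with hΨ
  have hΨQ : Ψ = Q.symm := rfl
  have hΨx : Ψ (LOC.Ph u ρ x) = x := hΦ.localInverse_apply_image he (by simp)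
  have hΨs : ContDiffAt ℝ ∞ Ψ (LOC.Ph u ρ x) := hΦ.to_localInverse he (by simp)
  have hsrc : Q.source ∈ 𝓝 x := Q.open_source.mem_nhds
    (hΦ.mem_toOpenPartialHomeomorph_source he (by simp))
  have htgt : Q.target ∈ 𝓝 (LOC.Ph u ρ x) := Q.open_target.mem_nhds
    (hΦ.image_mem_toOpenPartialHomeomorph_target he (by simp))
  have hleft : ∀ᶠ y in 𝓝 x, Ψ (LOC.Ph u ρ y) = y := by
    filter_upwards [hsrc] with y hy
    exact Q.left_inv hy
  have hright : ∀ᶠ Y in 𝓝 (LOC.Ph u ρ x), LOC.Ph u ρ (Ψ Y) = Y := by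
    filter_upwards [htgt] with Y hY
    exact Q.right_inv hY
  have hΨt : Tendsto Ψ (𝓝 (LOC.Ph u ρ x)) (𝓝 x) := by
    have := hΨs.continuousAt.tendsto
    rwa [hΨx] at this
  have hΦt : Tendsto (LOC.Ph u ρ) (𝓝 x) (𝓝 (LOC.Ph u ρ x)) := hΦ.continuousAt.tendsto
  have hdc : ContinuousAt (fun y : E3 => deriv ρ ‖y‖) x :=
    (hρsm.contDiffAt (hopen.mem_nhds hx)).continuousAt
  have hreg : ∀ᶠ y in 𝓝 x, a < ‖y‖ ∧ 0 < deriv ρ ‖y‖ := by
    have h0 : ∀ᶠ y in 𝓝 x, a < ‖y‖ := hopen.mem_nhds hx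
    exact h0.and (hdc.eventually (lt_mem_nhds hpos))
  have hΨ2 : ∀ᶠ Y in 𝓝 (LOC.Ph u ρ x), ContDiffAt ℝ 2 Ψ Y :=
    (hΨs.of_le (m := 2) (by norm_cast)).eventually (by norm_cast)
  -- the functions
  set d : E3 → ℝ := fun X => ρ ‖Ψ X‖ with hd
  set M : E3 → ℝ := fun X => N (Ψ X) / deriv ρ ‖Ψ X‖ with hM
  set k : TensorField := fun X =>
    (LOC.Kx u ρ (Ψ X)).transpose * h (Ψ X) * LOC.Kx u ρ (Ψ X) with hk
  have hd2 : ∀ᶠ y in 𝓝 x, ContDiffAt ℝ 2 d (LOC.Ph u ρ y) := by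
    filter_upwards [hreg, hleft, hΦt.eventually hΨ2] with y hy1 hy2 hy3
    have h1 : ContDiffAt ℝ 2 (fun z : E3 => ρ ‖z‖) (Ψ (LOC.Ph u ρ y)) := by
      rw [hy2]
      exact ((LOC.smooth_rho_at hD hy1.1).comp y
        (LOC.contDiffAt_norm' (LOC.ne0 hD hy1.1))).of_le (by norm_cast)
    exact h1.comp _ hy3
  -- the gradient
  have hgrad : ∀ᶠ y in 𝓝 x, ∀ i, pd i d (LOC.Ph u ρ y) = nu y i := by
    filter_upwards [hreg, hleft.eventually_nhds, hd2] with y hy1 hy2 hy3 c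
    have Py := LOC.pt hALG hD hy1.1 hy1.2
    have hΦy : DifferentiableAt ℝ (LOC.Ph u ρ) y :=
      (LOC.smooth_Ph hD hy1.1).differentiableAt (by simp)
    have h4 : HasDerivAt ρ (deriv ρ ‖y‖) ‖y‖ :=
      ((LOC.smooth_rho_at hD hy1.1).differentiableAt (by simp)).hasDerivAt
    have h1 : ∀ i, ∑ b, pd b d (LOC.Ph u ρ y) * jac (LOC.Ph u ρ) y b i =
        deriv ρ ‖y‖ * nu y i := by
      intro i
      rw [← LOC.chain (hy3.differentiableAt (by norm_num)) hΦy i]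
      have h2 : (fun z => d (LOC.Ph u ρ z)) =ᶠ[𝓝 y] fun z => ρ ‖z‖ := by
        filter_upwards [hy2] with z hz
        simp only [hd, hz]
      rw [pd_congr h2, pd_radial Py.ne h4]
      rfl
    have h3 := Py.solve (fun b => pd b d (LOC.Ph u ρ y)) (fun i => deriv ρ ‖y‖ * nu y i) h1 c
    rw [Py.nuK] at h3
    exact h3
  have hlapse : ∀ᶠ y in 𝓝 x, M (LOC.Ph u ρ y) = N y / deriv ρ ‖y‖ := by
    filter_upwards [hleft] with y hy
    simp only [hM, hy]
  have hten : ∀ᶠ y in 𝓝 x, k (LOC.Ph u ρ y) =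
      (LOC.Kx u ρ y).transpose * h y * LOC.Kx u ρ y := by
    filter_upwards [hleft] with y hy
    simp only [hk, hy]
  refine ⟨LOC.Ph u ρ, d, M, k, ?_⟩
  refine ⟨hΦ, ?_, ?_, hgrad, hlapse, ?_, ?_, ?_⟩
  · -- data
    have hN : ContDiffAt ℝ ∞ N x := hD.smooth_N.contDiffAt (hopen.mem_nhds hx)
    have hρ' : ContDiffAt ℝ ∞ (fun y : E3 => deriv ρ ‖y‖) x :=
      hρsm.contDiffAt (hopen.mem_nhds hx)
    have cmp : ∀ f : E3 → ℝ, ContDiffAt ℝ ∞ f x →
        ContDiffAt ℝ ∞ (fun X => f (Ψ X)) (LOC.Ph u ρ x) := by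
      intro f hf
      rw [← hΨx] at hf
      exact hf.comp _ hΨs
    have hρx : ContDiffAt ℝ ∞ (fun y : E3 => ρ ‖y‖) x :=
      (LOC.smooth_rho_at hD hx).comp x (LOC.contDiffAt_norm' hx0)
    have hKs : ∀ i j, ContDiffAt ℝ ∞ (fun y => LOC.Kx u ρ y i j) x := by
      intro i j
      simp only [LOC.Kx_apply]
      exact ((LOC.contDiffAt_norm' hx0).mul
        ((hCsm i j).contDiffAt (hopen.mem_nhds hx))).add
        (((LOC.contDiffAt_nu hx0 i).mul (LOC.contDiffAt_nu hx0 j)).div hρ' hpos.ne')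
    refine ⟨cmp _ hρx, cmp (fun y => N y / deriv ρ ‖y‖) (hN.div hρ' hpos.ne'), ?_, ?_, ?_, ?_⟩
    · intro i j
      have e1 : (fun Y => k Y i j) = fun Y => (fun y => ∑ l, (∑ m, LOC.Kx u ρ y m i * h y m l) *
          LOC.Kx u ρ y l j) (Ψ Y) := by
        funext Y
        simp only [hk, Matrix.mul_apply, Matrix.transpose_apply]
      rw [e1]
      refine cmp (fun y => ∑ l, (∑ m, LOC.Kx u ρ y m i * h y m l) * LOC.Kx u ρ y l j) ?_
      refine ContDiffAt.sum fun l _ => ContDiffAt.mul (ContDiffAt.sum fun m _ => ?_) (hKs l j)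
      exact (hKs m i).mul ((hD.smooth_h m l).contDiffAt (hopen.mem_nhds hx))
    · filter_upwards [hΨt.eventually hreg] with Y hY
      have hs := hD.symm_h _ hY.1
      unfold Matrix.IsSymm at hs ⊢
      simp only [hk, Matrix.transpose_mul, Matrix.transpose_transpose, hs, Matrix.mul_assoc]
    · change 0 < N (Ψ (LOC.Ph u ρ x)) / deriv ρ ‖Ψ (LOC.Ph u ρ x)‖
      rw [hΨx]
      exact div_pos (hD.N_pos x hx) hpos
    · filter_upwards [hΨt.eventually hgrad, hΨt.eventually hreg, hright] with Y h1 h2 h3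
      rw [h3] at h1
      simp only [h1]
      have := LOC.sum_nu (LOC.ne0 hD h2.1)
      simpa [sq] using this
  · filter_upwards [hreg] with y hy b i
    exact (LOC.pt hALG hD hy.1 hy.2).jac b i
  · -- the Hessian
    filter_upwards [hreg, hgrad.eventually_nhds, hd2] with y hy1 hy2 hy3 c j
    have Py := LOC.pt hALG hD hy1.1 hy1.2
    have hΦy : DifferentiableAt ℝ (LOC.Ph u ρ) y :=
      (LOC.smooth_Ph hD hy1.1).differentiableAt (by simp)
    have hF : DifferentiableAt ℝ (pd j d) (LOC.Ph u ρ y) :=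
      (LOC.contDiffAt_pd (m := 1) hy3 (by norm_num) j).differentiableAt (by norm_num)
    have h1 : ∀ i, ∑ b, pd b (pd j d) (LOC.Ph u ρ y) * jac (LOC.Ph u ρ) y b i =
        (dk i j - nu y i * nu y j) / ‖y‖ := by
      intro i
      rw [← LOC.chain hF hΦy i, ← LOC.pd_nu' Py.ne]
      apply pd_congr
      filter_upwards [hy2] with z hz
      exact hz j
    have h3 := Py.solve (fun b => pd b (pd j d) (LOC.Ph u ρ y)) _ h1 c
    rw [Py.PK] at h3
    exact h3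
  · filter_upwards [hreg, hgrad, hlapse] with y hy1 hy2 hy3
    rw [hD.metric_eq y hy1.1]
    exact (LOC.pt hALG hD hy1.1 hy1.2).metric hy2 hy3
  · filter_upwards [hreg, hten] with y hy1 hy2
    exact (LOC.pt hALG hD hy1.1 hy1.2).tensor hy2

end Pool.Agent.PenroseConvex
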