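import Pool.Agent.PenroseConvex.Stmts
import Pool.Agent.PenroseSph.Calc
import Pool.Agent.PenroseSph.Geom

/-! # The mass integral in closed form -/

open MeasureTheory Filter Topology
open scoped ContDiff

namespace Pool.Agent.PenroseConvex

open Pool.Agent.PenroseSph

namespace MASS

variable {x : E3}

theorem differentiableAt_nu' (hx : x ≠ 0) (i : Fin 3) :
    DifferentiableAt ℝ (fun y : E3 => nu y i) x := differentiableAt_nu hx i

theorem pd_nu' (hx : x ≠ 0) (i j : Fin 3) : pd i (fun y => nu y j) x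
    = (dk i j - nu x i * nu x j) / ‖x‖ := pd_nu hx i j

theorem sum_nu_sq' (hx : x ≠ 0) : ∑ i, nu x i * nu x i = 1 := sum_nu_sq hx

theorem contDiffAt_pd {f : E3 → ℝ} (hf : ContDiffAt ℝ ∞ f x) (i : Fin 3) :
    ContDiffAt ℝ ∞ (pd i f) x := by
  have h1 : ContDiffAt ℝ ∞ (fderiv ℝ f) x := hf.fderiv_right (m := ∞) (by simp)
  have h2 : pd i f = fun y => (fderiv ℝ f y) (EuclideanSpace.single i 1) := rfl
  rw [h2]
  exact h1.clm_apply contDiffAt_const

theorem differentiableAt_radii {a : ℝ} {u : E3 → ℝ} {ρ : ℝ → ℝ} {N : E3 → ℝ}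
    {g h : TensorField} (hd : ParallelData a u ρ N g h) (hx : a < ‖x‖) (i j : Fin 3) :
    DifferentiableAt ℝ (fun y => radii u ρ y i j) x := by
  have hx0 : x ≠ 0 := norm_pos_iff.1 (lt_of_le_of_lt hd.radius_nonneg hx)
  have hu : ContDiffAt ℝ ∞ u x := hd.smooth_u.contDiffAt (isOpen_compl_singleton.mem_nhds hx0)
  have h1 : DifferentiableAt ℝ (pd i (pd j u)) x :=
    (contDiffAt_pd (contDiffAt_pd hu j) i).differentiableAt (by simp)
  have hρ : DifferentiableAt ℝ ρ ‖x‖ :=
    (hd.smooth_rho.contDiffAt (Ioi_mem_nhds hx)).differentiableAt (by simp)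
  have h2 : DifferentiableAt ℝ (fun y : E3 => ρ ‖y‖) x :=
    differentiableAt_radial hx0 hρ.hasDerivAt
  have h3 : (fun y => radii u ρ y i j) = fun y => ‖y‖ * pd i (pd j u) y +
      ρ ‖y‖ * ((if i = j then 1 else 0) - nu y i * nu y j) := rfl
  rw [h3]
  exact ((differentiableAt_norm hx0).mul h1).add
    (h2.mul ((differentiableAt_const _).sub
      ((differentiableAt_nu' hx0 i).mul (differentiableAt_nu' hx0 j))))

theorem hasDerivAt_ray {F : E3 → ℝ} {s : ℝ} {θ : E3} (hF : DifferentiableAt ℝ F (s • θ)) :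
    HasDerivAt (fun t : ℝ => F (t • θ)) (∑ j, θ j * pd j F (s • θ)) s := by
  have h0 : HasDerivAt (fun t : ℝ => t • θ) ((1 : ℝ) • θ) s := (hasDerivAt_id s).smul_const θ
  have h1 := hF.hasFDerivAt.comp_hasDerivAt s h0
  refine h1.congr_deriv ?_
  have h2 : θ = ∑ i, (θ i) • (EuclideanSpace.single i (1 : ℝ) : E3) := by
    ext j
    simp [Finset.sum_apply, Pi.single_apply]
  rw [one_smul]
  conv_lhs => rw [h2]
  rw [map_sum]
  refine Finset.sum_congr rfl fun i _ => ?_
  rw [← h2, map_smul, smul_eq_mul]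
  rfl

/-- The squared length of the matrix of radii. -/
noncomputable def QB (u : E3 → ℝ) (ρ : ℝ → ℝ) (y : E3) : ℝ := ∑ i, ∑ j, radii u ρ y i j ^ 2

theorem QB_eq (u : E3 → ℝ) (ρ : ℝ → ℝ) (y : E3) : QB u ρ y = tB u ρ y ^ 2 - 2 * dB u ρ y := by
  unfold QB dB
  ring

section point

variable {a : ℝ} {u : E3 → ℝ} {ρ : ℝ → ℝ} {N : E3 → ℝ} {g h : TensorField}

/-- The radial derivative of the squared length. -/
theorem radial_QB (hRAY : Stmt_RAY) (hd : ParallelData a u ρ N g h) {s : ℝ} (hs : a < s)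
    (θ : S2) : ∑ j, (θ : E3) j * pd j (QB u ρ) (s • (θ : E3)) =
      2 * deriv ρ s * tB u ρ (s • (θ : E3)) := by
  have hs0 : 0 < s := lt_of_le_of_lt hd.radius_nonneg hs
  have hθ : ‖(θ : E3)‖ = 1 := by simp
  have hn : ‖s • (θ : E3)‖ = s := by rw [norm_smul, hθ, mul_one, Real.norm_of_nonneg hs0.le]
  have hx : a < ‖s • (θ : E3)‖ := by rw [hn]; exact hs
  obtain ⟨r1, r2, r3, _, _⟩ := hRAY a u ρ N g h hd
  have hρ : HasDerivAt ρ (deriv ρ s) s :=
    ((hd.smooth_rho.contDiffAt (Ioi_mem_nhds hs)).differentiableAt (by simp)).hasDerivAt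
  set τ : ℝ := ∑ i, pd i (pd i u) (θ : E3) with hτ
  set κ : ℝ := ∑ i, ∑ j, pd i (pd j u) (θ : E3) ^ 2 with hκ
  have e1 : ∀ t : ℝ, 0 < t → QB u ρ (t • (θ : E3)) = κ + 2 * ρ t * τ + 2 * ρ t ^ 2 := by
    intro t ht
    rw [QB_eq, r2 t θ ht, r3 t θ ht]
    ring
  have hdiff : DifferentiableAt ℝ (QB u ρ) (s • (θ : E3)) := by
    unfold QB
    refine DifferentiableAt.fun_sum fun i _ => DifferentiableAt.fun_sum fun j _ => ?_
    exact (differentiableAt_radii hd hx i j).pow 2
  have h1 := hasDerivAt_ray hdiff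
  have h2 : HasDerivAt (fun t : ℝ => κ + 2 * ρ t * τ + 2 * ρ t ^ 2)
      (2 * deriv ρ s * (τ + 2 * ρ s)) s := by
    have h3 := (((hρ.const_mul 2).mul_const τ).const_add κ).add ((hρ.pow 2).const_mul 2)
    refine h3.congr_deriv ?_
    push_cast
    ring
  have h3 : HasDerivAt (fun t : ℝ => QB u ρ (t • (θ : E3)))
      (2 * deriv ρ s * (τ + 2 * ρ s)) s := by
    refine h2.congr_of_eventuallyEq ?_
    filter_upwards [Ioi_mem_nhds hs0] with t ht
    exact e1 t ht
  rw [h1.unique h3, r2 s θ hs0]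

theorem pointwise (hALG : Stmt_ALG) (hd : ParallelData a u ρ N g h) (hx : a < ‖x‖) :
    (∑ i, ∑ j, (pd i (fun y => g y i j) x - pd j (fun y => g y i i) x) * nu x j) =
      2 * N x ^ 2 / ‖x‖ + QB u ρ x / ‖x‖ ^ 3 - (∑ j, nu x j * pd j (QB u ρ) x) / ‖x‖ ^ 2 := by
  have hx0 : x ≠ 0 := norm_pos_iff.1 (lt_of_le_of_lt hd.radius_nonneg hx)
  have hr : 0 < ‖x‖ := norm_pos_iff.2 hx0
  have hnear : ∀ᶠ y in 𝓝 x, a < ‖y‖ :=
    (continuous_norm.continuousAt (x := x)).eventually (Ioi_mem_nhds hx)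
  have hN : DifferentiableAt ℝ N x := by
    refine (hd.smooth_N.contDiffAt ?_).differentiableAt (by simp)
    exact hnear
  have hN2 : DifferentiableAt ℝ (fun y => N y ^ 2) x := hN.pow 2
  have hr2 : DifferentiableAt ℝ (fun y : E3 => (‖y‖ ^ 2)⁻¹) x :=
    ((differentiableAt_norm hx0).pow 2).inv (pow_ne_zero 2 hr.ne')
  -- the components
  have hg : ∀ (y : E3), a < ‖y‖ → ∀ i j, g y i j =
      N y ^ 2 * (nu y i * nu y j) + (∑ k, radii u ρ y i k * radii u ρ y k j) * (‖y‖ ^ 2)⁻¹ := by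
    intro y hy i j
    rw [hd.metric_eq y hy]
    unfold parallelMetric
    rw [Matrix.of_apply, Matrix.mul_apply, div_eq_mul_inv]
  have hG : ∀ i j, DifferentiableAt ℝ (fun y => g y i j) x := by
    intro i j
    have h1 : (fun y => g y i j) =ᶠ[𝓝 x] fun y =>
        N y ^ 2 * (nu y i * nu y j) + (∑ k, radii u ρ y i k * radii u ρ y k j) * (‖y‖ ^ 2)⁻¹ := by
      filter_upwards [hnear] with y hy
      exact hg y hy i j
    refine DifferentiableAt.congr_of_eventuallyEq ?_ h1
    refine (hN2.mul ((differentiableAt_nu' hx0 i).mul (differentiableAt_nu' hx0 j))).add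
      (DifferentiableAt.mul (DifferentiableAt.fun_sum fun k _ => ?_) hr2)
    exact (differentiableAt_radii hd hx i k).mul (differentiableAt_radii hd hx k j)
  have hQ : DifferentiableAt ℝ (QB u ρ) x := by
    unfold QB
    refine DifferentiableAt.fun_sum fun i _ => DifferentiableAt.fun_sum fun j _ => ?_
    exact (differentiableAt_radii hd hx i j).pow 2
  -- first sum
  have s1 : ∀ i, ∑ j, pd i (fun y => g y i j) x * nu x j =
      pd i (fun y => ∑ j, g y i j * nu y j) x - ∑ j, g x i j * pd i (fun y => nu y j) x := by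
    intro i
    rw [pd_sum Finset.univ (fun j y => g y i j * nu y j)
        (fun j _ => (hG i j).fun_mul (differentiableAt_nu' hx0 j)),
      ← Finset.sum_sub_distrib]
    refine Finset.sum_congr rfl fun j _ => ?_
    rw [pd_mul (hG i j) (differentiableAt_nu' hx0 j)]
    ring
  have s2 : ∀ i, pd i (fun y => ∑ j, g y i j * nu y j) x =
      N x ^ 2 * pd i (fun y => nu y i) x + nu x i * pd i (fun y => N y ^ 2) x := by
    intro i
    rw [← pd_mul hN2 (differentiableAt_nu' hx0 i)]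
    apply pd_congr
    filter_upwards [hnear] with y hy
    have hy0 : y ≠ 0 := norm_pos_iff.1 (lt_of_le_of_lt hd.radius_nonneg hy)
    have hB := (hALG a u ρ N g h hd y hy).2.1
    have e1 : ∀ j, g y i j * nu y j = N y ^ 2 * nu y i * (nu y j * nu y j) +
        (∑ k, radii u ρ y i k * (radii u ρ y k j * nu y j)) * (‖y‖ ^ 2)⁻¹ := by
      intro j
      rw [hg y hy i j, add_mul, Finset.sum_mul, Finset.sum_mul, Finset.sum_mul]
      congr 1
      · ring
      · refine Finset.sum_congr rfl fun k _ => ?_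
        ring
    rw [Finset.sum_congr rfl fun j _ => e1 j, Finset.sum_add_distrib, ← Finset.mul_sum,
      ← Finset.sum_mul, sum_nu_sq' hy0, Finset.sum_comm]
    simp only [← Finset.mul_sum, hB]
    simp
  -- trace
  have hsym := (hALG a u ρ N g h hd x hx).1
  have htr : ∀ y : E3, a < ‖y‖ → ∑ i, g y i i = N y ^ 2 + QB u ρ y * (‖y‖ ^ 2)⁻¹ := by
    intro y hy
    have hy0 : y ≠ 0 := norm_pos_iff.1 (lt_of_le_of_lt hd.radius_nonneg hy)
    have hsy := (hALG a u ρ N g h hd y hy).1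
    rw [Finset.sum_congr rfl fun i _ => hg y hy i i, Finset.sum_add_distrib, ← Finset.mul_sum,
      sum_nu_sq' hy0, mul_one, ← Finset.sum_mul]
    congr 2
    unfold QB
    refine Finset.sum_congr rfl fun i _ => Finset.sum_congr rfl fun k _ => ?_
    rw [hsy k i, pow_two]
  have s3 : ∀ j, ∑ i, pd j (fun y => g y i i) x =
      pd j (fun y => N y ^ 2) x + ((‖x‖ ^ 2)⁻¹ * pd j (QB u ρ) x +
        QB u ρ x * (-(2 * nu x j) / ‖x‖ ^ 3)) := by
    intro j
    rw [← pd_sum _ _ (fun i _ => hG i i)]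
    have e1 : (fun y => ∑ i, g y i i) =ᶠ[𝓝 x] fun y => N y ^ 2 + QB u ρ y * (‖y‖ ^ 2)⁻¹ := by
      filter_upwards [hnear] with y hy
      exact htr y hy
    rw [pd_congr e1, pd_add hN2 (hQ.fun_mul hr2), pd_mul hQ hr2]
    have e2 : pd j (fun y : E3 => (‖y‖ ^ 2)⁻¹) x = -(2 * nu x j) / ‖x‖ ^ 3 := by
      have h1 : HasDerivAt (fun t : ℝ => (t ^ 2)⁻¹) (-(2 * ‖x‖) / (‖x‖ ^ 2) ^ 2) ‖x‖ := by
        have h2 := (hasDerivAt_pow 2 ‖x‖).inv (by positivity : ‖x‖ ^ 2 ≠ 0)
        refine h2.congr_deriv ?_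
        simp
      rw [pd_radial hx0 h1]
      unfold nu
      field_simp
    rw [e2]
    ring
  -- the contraction of g with the derivative of nu
  have s4 : ∑ i, ∑ j, g x i j * pd i (fun y => nu y j) x = QB u ρ x / ‖x‖ ^ 3 := by
    have e1 : ∀ i j, g x i j * pd i (fun y => nu y j) x =
        (g x i j * dk i j - g x i j * nu x j * nu x i) / ‖x‖ := by
      intro i j
      rw [pd_nu' hx0]
      ring
    have e2 : ∀ i, ∑ j, g x i j * nu x j = N x ^ 2 * nu x i := by
      intro i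
      have hB := (hALG a u ρ N g h hd x hx).2.1
      have e1 : ∀ j, g x i j * nu x j = N x ^ 2 * nu x i * (nu x j * nu x j) +
          (∑ k, radii u ρ x i k * (radii u ρ x k j * nu x j)) * (‖x‖ ^ 2)⁻¹ := by
        intro j
        rw [hg x hx i j, add_mul, Finset.sum_mul, Finset.sum_mul, Finset.sum_mul]
        congr 1
        · ring
        · refine Finset.sum_congr rfl fun k _ => ?_
          ring
      rw [Finset.sum_congr rfl fun j _ => e1 j, Finset.sum_add_distrib, ← Finset.mul_sum,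
        ← Finset.sum_mul, sum_nu_sq' hx0, Finset.sum_comm]
      simp only [← Finset.mul_sum, hB]
      simp
    simp only [e1]
    simp only [← Finset.sum_div, Finset.sum_sub_distrib, ← Finset.sum_mul, e2]
    have e3 : ∑ i, ∑ j, g x i j * dk i j = ∑ i, g x i i := by
      refine Finset.sum_congr rfl fun i _ => ?_
      unfold dk
      simp
    rw [e3, htr x hx]
    have e4 : ∑ i, N x ^ 2 * nu x i * nu x i = N x ^ 2 := by
      simp only [mul_assoc]
      rw [← Finset.mul_sum, sum_nu_sq' hx0, mul_one]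
    rw [e4]
    field_simp
    ring
  have s5 : ∑ i, pd i (fun y => nu y i) x = 2 / ‖x‖ := by
    simp only [pd_nu' hx0]
    rw [← Finset.sum_div, Finset.sum_sub_distrib, sum_nu_sq' hx0]
    congr 1
    unfold dk
    simp
    norm_num
  -- assembly
  have t1 : (∑ i, ∑ j, (pd i (fun y => g y i j) x - pd j (fun y => g y i i) x) * nu x j) =
      (∑ i, ∑ j, pd i (fun y => g y i j) x * nu x j) -
        ∑ j, (∑ i, pd j (fun y => g y i i) x) * nu x j := by
    simp only [sub_mul, Finset.sum_sub_distrib, Finset.sum_mul]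
    congr 1
    exact Finset.sum_comm
  rw [t1, Finset.sum_congr rfl fun i _ => s1 i, Finset.sum_sub_distrib, s4,
    Finset.sum_congr rfl fun i _ => s2 i, Finset.sum_add_distrib, ← Finset.mul_sum, s5]
  have t2 : ∑ j, (∑ i, pd j (fun y => g y i i) x) * nu x j =
      (∑ i, nu x i * pd i (fun y => N y ^ 2) x) +
        ((∑ j, nu x j * pd j (QB u ρ) x) / ‖x‖ ^ 2 - 2 * QB u ρ x / ‖x‖ ^ 3) := by
    have e1 : ∀ j, (∑ i, pd j (fun y => g y i i) x) * nu x j =
        nu x j * pd j (fun y => N y ^ 2) x + (nu x j * pd j (QB u ρ) x / ‖x‖ ^ 2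
          - 2 * QB u ρ x / ‖x‖ ^ 3 * (nu x j * nu x j)) := by
      intro j
      rw [s3 j]
      field_simp
      ring
    rw [Finset.sum_congr rfl fun j _ => e1 j, Finset.sum_add_distrib, Finset.sum_sub_distrib,
      ← Finset.mul_sum, sum_nu_sq' hx0, mul_one, Finset.sum_div]
  rw [t2]
  field_simp
  ring

end point

end MASS

open MASS in
/-- The mass integral in closed form. -/
theorem MASS (hALG : Stmt_ALG) (hRAY : Stmt_RAY) : Stmt_MASS := by
  intro a u ρ N g h hd s hs
  have hs0 : 0 < s := lt_of_le_of_lt hd.radius_nonneg hs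
  unfold massIntegral
  rw [← mul_assoc, mul_one_div_cancel (by positivity), one_mul]
  refine integral_congr_ae (Filter.Eventually.of_forall fun θ => ?_)
  have hθ : ‖(θ : E3)‖ = 1 := by simp
  have hn : ‖s • (θ : E3)‖ = s := by rw [norm_smul, hθ, mul_one, Real.norm_of_nonneg hs0.le]
  have hx : a < ‖s • (θ : E3)‖ := by rw [hn]; exact hs
  have hnu : ∀ j, nu (s • (θ : E3)) j = (θ : E3) j := by
    intro j
    unfold nu
    rw [hn]
    have : (s • (θ : E3)) j = s * (θ : E3) j := rfl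
    rw [this]
    field_simp
  have h1 := pointwise hALG hd hx
  have h2 := radial_QB hRAY hd hs θ
  simp only [hnu] at h1
  rw [h2, hn, QB_eq] at h1
  simp only
  rw [h1]
  field_simp

end Pool.Agent.PenroseConvex
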