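import Pool.Agent.PenroseConvex.Stmts
import Pool.Agent.PenroseSph.Calc

/-!
# MI: the master inequality in the coordinates of the problem
-/

open MeasureTheory Filter Topology
open scoped ContDiff

namespace Pool.Agent.PenroseConvex

open Pool.Agent.PenroseSph

namespace MIaux

/-- partial derivatives of smooth functions are smooth -/
lemma cd_pd {f : E3 → ℝ} {X : E3} (i : Fin 3) (hf : ContDiffAt ℝ ∞ f X) :
    ContDiffAt ℝ ∞ (pd i f) X := by
  have h : ContDiffAt ℝ ∞ (fderiv ℝ f) X := hf.fderiv_right (by simp)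
  exact h.clm_apply contDiffAt_const

section
variable {d M : E3 → ℝ} {k : TensorField} {X : E3}

lemma cd_log (hx : XData d M k X) : ContDiffAt ℝ ∞ (fun Y => Real.log (M Y)) X :=
  hx.smooth_M.log hx.pos_M.ne'

lemma cd_V (hx : XData d M k X) (i : Fin 3) : ContDiffAt ℝ ∞ (xV d M i) X := by
  unfold xV
  refine (cd_pd i (cd_log hx)).sub ((cd_pd i hx.smooth_d).mul ?_)
  exact ContDiffAt.sum fun j _ => (cd_pd j hx.smooth_d).mul (cd_pd j (cd_log hx))

lemma cd_km (hx : XData d M k X) (i : Fin 3) : ContDiffAt ℝ ∞ (xkm d k i) X := by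
  unfold xkm
  refine (ContDiffAt.sum fun j _ => (hx.smooth_k i j).mul (cd_pd j hx.smooth_d)).sub
    ((cd_pd i hx.smooth_d).mul ?_)
  exact ContDiffAt.sum fun j _ => ContDiffAt.sum fun l _ =>
    ((hx.smooth_k j l).mul (cd_pd j hx.smooth_d)).mul (cd_pd l hx.smooth_d)

lemma cd_W (hx : XData d M k X) (i : Fin 3) : ContDiffAt ℝ ∞ (xW d M k i) X := by
  unfold xW
  exact (cd_km hx i).div hx.smooth_M hx.pos_M.ne'

lemma cd_p (hx : XData d M k X) : ContDiffAt ℝ ∞ (xp d k) X := by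
  unfold xp
  refine (ContDiffAt.sum fun i _ => hx.smooth_k i i).sub ?_
  exact ContDiffAt.sum fun i _ => ContDiffAt.sum fun j _ =>
    ((hx.smooth_k i j).mul (cd_pd i hx.smooth_d)).mul (cd_pd j hx.smooth_d)

lemma cd_H (hx : XData d M k X) : ContDiffAt ℝ ∞ (xH d) X := by
  unfold xH
  exact ContDiffAt.sum fun i _ => cd_pd i (cd_pd i hx.smooth_d)

lemma cd_phi (hx : XData d M k X) (hH : xH d X ≠ 0) : ContDiffAt ℝ ∞ (xphi d M k) X := by
  unfold xphi
  exact ((cd_p hx).mul hx.smooth_M).div (cd_H hx) hH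

lemma cd_y (hx : XData d M k X) (hH : xH d X ≠ 0) : ContDiffAt ℝ ∞ (xy d M k) X := by
  unfold xy
  refine (contDiffAt_const.div (hx.smooth_M.pow 2) (pow_ne_zero 2 hx.pos_M.ne')).sub ?_
  exact ((cd_p hx).div (cd_H hx) hH).pow 2

lemma cd_xg (hx : XData d M k X) (i j : Fin 3) : ContDiffAt ℝ ∞ (fun Y => xg d M Y i j) X := by
  unfold xg
  simp only [Matrix.of_apply]
  exact contDiffAt_const.add (((hx.smooth_M.pow 2).sub contDiffAt_const).mul
    ((cd_pd i hx.smooth_d).mul (cd_pd j hx.smooth_d)))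

lemma symm_xg (d M : E3 → ℝ) (Y : E3) : (xg d M Y).IsSymm := by
  ext i j
  simp only [xg, Matrix.transpose_apply, Matrix.of_apply, dk]
  rw [mul_comm (pd j d Y)]
  congr 1
  simp only [eq_comm]

end

lemma nu_sq {x : E3} (hx : x ≠ 0) : ∑ i, nu x i * nu x i = 1 := by
  unfold nu
  rw [Fin.sum_univ_three]
  have h := norm_sq_eq x
  have h0 : ‖x‖ ≠ 0 := norm_ne_zero_iff.2 hx
  field_simp
  rw [h]

end MIaux

open MIaux in
theorem MI (hALG : Stmt_ALG) (hSMO : Stmt_SMO) (hRAY : Stmt_RAY) (hCOVR : Stmt_COVR)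
    (hCOVJ : Stmt_COVJ) (hXMI : Stmt_XMI) (hLOC : Stmt_LOC) (hTRX : Stmt_TRX)
    (hCHN : Stmt_CHN) (hPIO : Stmt_PIO) : Stmt_MI := by
  intro a u ρ N g h hP x hx hρ
  have hr0 : 0 < ‖x‖ := lt_of_le_of_lt hP.radius_nonneg hx
  have hx0 : x ≠ 0 := norm_pos_iff.1 hr0
  obtain ⟨Φ, d, M, k, hB⟩ := hLOC a u ρ N g h hP x hx hρ
  have hX := hB.xdata
  have hT := hTRX a u ρ N g h hP x hx hρ Φ d M k hB
  obtain ⟨-, hBnu, hd, ht, hCs, hCn, -, -, -, -, hdet⟩ := hALG a u ρ N g h hP x hx
  obtain ⟨hTH, hTQ, hTp, hTphi, hTy, hTV, hTW⟩ := hT.self_of_nhds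
  have hN : 0 < N x := hP.N_pos x hx
  have hH : xH d (Φ x) ≠ 0 := by
    rw [hTH]
    exact (div_pos ht hd).ne'
  -- the change of coordinates
  have hxopen : ∀ᶠ y in 𝓝 x, a < ‖y‖ :=
    (isOpen_lt continuous_const continuous_norm).mem_nhds hx
  have hgx : g x = pullback Φ (xg d M) x := hB.metric_eq.self_of_nhds
  have hdetg : (g x).det ≠ 0 := by
    rw [hdet]
    have : 0 < N x ^ 2 * dB u ρ x ^ 2 / ‖x‖ ^ 4 := by positivity
    exact this.ne'
  have hdets : (jac Φ x).det ≠ 0 ∧ (xg d M (Φ x)).det ≠ 0 := by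
    rw [hgx] at hdetg
    unfold pullback at hdetg
    rw [Matrix.det_mul, Matrix.det_mul, Matrix.det_transpose] at hdetg
    constructor
    · intro h0
      exact hdetg (by rw [h0]; simp)
    · intro h0
      exact hdetg (by rw [h0]; simp)
  have hCA : ChangeAt Φ (xg d M) g x :=
    { smooth := hB.smooth
      smooth_G := fun i j => cd_xg hX i j
      symm_G := Filter.Eventually.of_forall fun y => symm_xg d M y
      det_G := hdets.2
      det_jac := hdets.1
      eq := hB.metric_eq }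
  have hR := hCOVR Φ (xg d M) g x hCA
  obtain ⟨hJt, hJn, hJm⟩ := hCOVJ Φ (xg d M) g k h x hCA (fun i j => hX.smooth_k i j)
    hB.tensor_eq
  have hE : energyDensity g h x = energyDensity (xg d M) k (Φ x) := by
    unfold energyDensity
    rw [hR, hJt, hJn]
  have hjac := hB.jac_eq.self_of_nhds
  have hgrad := hB.grad_eq.self_of_nhds
  have hMx : M (Φ x) = N x / deriv ρ ‖x‖ := hB.lapse_eq.self_of_nhds
  have hmom : ∑ i, nu x i / N x * momentumDensity g h i x =
      ∑ i, pd i d (Φ x) / M (Φ x) * momentumDensity (xg d M) k i (Φ x) := by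
    have h1 : ∀ b, ∑ i, nu x i * jac Φ x b i = deriv ρ ‖x‖ * nu x b := by
      intro b
      have h2 : ∑ i, nu x i * jac Φ x b i =
          (∑ i, radii u ρ x b i * nu x i) / ‖x‖ + deriv ρ ‖x‖ * nu x b * ∑ i, nu x i * nu x i := by
        rw [Finset.sum_div, Finset.mul_sum, ← Finset.sum_add_distrib]
        refine Finset.sum_congr rfl fun i _ => ?_
        rw [hjac b i]
        ring
      rw [h2, hBnu b, nu_sq hx0]
      ring
    calc ∑ i, nu x i / N x * momentumDensity g h i x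
        = ∑ i, ∑ b, nu x i / N x * (jac Φ x b i * momentumDensity (xg d M) k b (Φ x)) := by
          refine Finset.sum_congr rfl fun i _ => ?_
          rw [hJm i, Finset.mul_sum]
      _ = ∑ b, ∑ i, nu x i / N x * (jac Φ x b i * momentumDensity (xg d M) k b (Φ x)) :=
          Finset.sum_comm
      _ = ∑ b, pd b d (Φ x) / M (Φ x) * momentumDensity (xg d M) k b (Φ x) := by
          refine Finset.sum_congr rfl fun b _ => ?_
          have h3 : ∑ i, nu x i / N x * (jac Φ x b i * momentumDensity (xg d M) k b (Φ x)) =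
              (∑ i, nu x i * jac Φ x b i) * (momentumDensity (xg d M) k b (Φ x) / N x) := by
            rw [Finset.sum_mul]
            refine Finset.sum_congr rfl fun i _ => ?_
            ring
          rw [h3, h1 b, hgrad b, hMx]
          have := hρ.ne'
          have := hN.ne'
          field_simp
  -- the master inequality in X-space
  have key := hXMI d M k (Φ x) hX hH
  -- chain rule for y
  have hyd : DifferentiableAt ℝ (xy d M k) (Φ x) := (cd_y hX hH).differentiableAt (by simp)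
  have hyeq : ∀ᶠ y in 𝓝 x, xy d M k (Φ y) = yc u ρ N h y := hT.mono fun y hy => hy.2.2.2.2.1
  have hch1 := (hCHN a u ρ N g h hP x hx hρ Φ d M k hB (xy d M k) (yc u ρ N h) hyd hyeq).1
  -- chain rule for phi
  have hpd : DifferentiableAt ℝ (xphi d M k) (Φ x) := (cd_phi hX hH).differentiableAt (by simp)
  have hpeq : ∀ᶠ y in 𝓝 x, xphi d M k (Φ y) = phic u ρ N h y := hT.mono fun y hy => hy.2.2.2.1
  have htanW : ∀ y : E3, a < ‖y‖ → ∑ i, nu y i * Wc u ρ N h i y = 0 := by
    intro y hy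
    obtain ⟨-, -, -, -, hCs', hCn', -⟩ := hALG a u ρ N g h hP y hy
    have e : ∑ i, nu y i * Wc u ρ N h i y = ‖y‖ / N y * ∑ j, (∑ i, cB u ρ j i y * nu y i) *
        ∑ l, h y j l * nu y l := by
      unfold Wc
      rw [Finset.mul_sum]
      have e1 : ∀ i, nu y i * (‖y‖ / N y * ∑ j, ∑ l, cB u ρ i j y * h y j l * nu y l) =
          ∑ j, ‖y‖ / N y * ((cB u ρ j i y * nu y i) * ∑ l, h y j l * nu y l) := by
        intro i
        rw [Finset.mul_sum, Finset.mul_sum]
        refine Finset.sum_congr rfl fun j _ => ?_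
        rw [hCs' i j, Finset.mul_sum, Finset.mul_sum, Finset.mul_sum, Finset.mul_sum]
        refine Finset.sum_congr rfl fun l _ => ?_
        ring
      rw [Finset.sum_congr rfl fun i _ => e1 i, Finset.sum_comm]
      refine Finset.sum_congr rfl fun j _ => ?_
      rw [Finset.sum_mul, Finset.mul_sum]
    rw [e]
    have : ∀ j, (∑ i, cB u ρ j i y * nu y i) * ∑ l, h y j l * nu y l = 0 := by
      intro j; rw [hCn' j, zero_mul]
    rw [Finset.sum_congr rfl fun j _ => this j]
    simp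
  have htanV : ∀ y : E3, a < ‖y‖ → ∑ i, nu y i * Vc u ρ N i y = 0 := by
    intro y hy
    obtain ⟨-, -, -, -, hCs', hCn', -⟩ := hALG a u ρ N g h hP y hy
    have e : ∑ i, nu y i * Vc u ρ N i y = ‖y‖ * ∑ j, (∑ i, cB u ρ j i y * nu y i) *
        pd j (fun z => Real.log (N z)) y := by
      unfold Vc
      rw [Finset.mul_sum]
      have e1 : ∀ i, nu y i * (‖y‖ * ∑ j, cB u ρ i j y * pd j (fun z => Real.log (N z)) y) =
          ∑ j, ‖y‖ * ((cB u ρ j i y * nu y i) * pd j (fun z => Real.log (N z)) y) := by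
        intro i
        rw [Finset.mul_sum, Finset.mul_sum]
        refine Finset.sum_congr rfl fun j _ => ?_
        rw [hCs' i j]
        ring
      rw [Finset.sum_congr rfl fun i _ => e1 i, Finset.sum_comm]
      refine Finset.sum_congr rfl fun j _ => ?_
      rw [Finset.sum_mul, Finset.mul_sum]
    rw [e]
    have : ∀ j, (∑ i, cB u ρ j i y * nu y i) * pd j (fun z => Real.log (N z)) y = 0 := by
      intro j; rw [hCn' j, zero_mul]
    rw [Finset.sum_congr rfl fun j _ => this j]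
    simp
  have hch2 := (hCHN a u ρ N g h hP x hx hρ Φ d M k hB (xphi d M k) (phic u ρ N h) hpd hpeq).2
    (fun i => Wc u ρ N h i x) (htanW x hx)
  have hWG : ∑ i, xW d M k i (Φ x) * pd i (xphi d M k) (Φ x) =
      ∑ i, Wc u ρ N h i x * Gc u ρ N h i x := by
    have e1 : ∑ i, xW d M k i (Φ x) * pd i (xphi d M k) (Φ x) =
        ∑ i, Wc u ρ N h i x * pd i (xphi d M k) (Φ x) :=
      Finset.sum_congr rfl fun i _ => by rw [hTW i]
    rw [e1, hch2]
    rfl
  -- Piola identity
  have hpio := hPIO a u ρ N g h hP x hx hρ Φ d M k hB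
    (fun i Y => xV d M i Y + xphi d M k Y * xW d M k i Y)
    (fun i y => Vc u ρ N i y + phic u ρ N h y * Wc u ρ N h i y)
    (fun i => ((cd_V hX i).differentiableAt (by simp)).add
      (hpd.mul ((cd_W hX i).differentiableAt (by simp))))
    (hT.mono fun y hy i => by rw [hy.2.2.2.2.2.1 i, hy.2.2.2.2.2.2 i, hy.2.2.2.1])
    (hxopen.mono fun y hy => by
      have e : ∑ i, nu y i * (Vc u ρ N i y + phic u ρ N h y * Wc u ρ N h i y) =
          (∑ i, nu y i * Vc u ρ N i y) + phic u ρ N h y * ∑ i, nu y i * Wc u ρ N h i y := by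
        rw [Finset.mul_sum, ← Finset.sum_add_distrib]
        refine Finset.sum_congr rfl fun i _ => ?_
        ring
      rw [e, htanW y hy, htanV y hy]
      ring)
  have hbc : (∑ i, pd i (fun Y => xV d M i Y + xphi d M k Y * xW d M k i Y) (Φ x)) *
      (deriv ρ ‖x‖ * dB u ρ x / ‖x‖ ^ 2) = ∑ i, pd i (bc u ρ N h i) x := hpio
  -- the left side
  have hmem : {y : E3 | a < ‖y‖} ∈ 𝓝 x := hxopen
  have htd : DifferentiableAt ℝ (tB u ρ) x :=
    ((hSMO a u ρ N g h hP).2.1.contDiffAt hmem).differentiableAt (by simp)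
  have hycd : DifferentiableAt ℝ (yc u ρ N h) x :=
    ((hSMO a u ρ N g h hP).2.2.2.2.2.2.2.1.contDiffAt hmem).differentiableAt (by simp)
  have hray := (hRAY a u ρ N g h hP).2.2.2.1 x hx
  have hleft : ∑ i, nu x i * pd i (fun y => tB u ρ y * yc u ρ N h y) x =
      tB u ρ x * (∑ i, nu x i * pd i (yc u ρ N h) x) + 2 * deriv ρ ‖x‖ * yc u ρ N h x := by
    have e : ∑ i, nu x i * pd i (fun y => tB u ρ y * yc u ρ N h y) x =
        tB u ρ x * (∑ i, nu x i * pd i (yc u ρ N h) x) +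
          yc u ρ N h x * ∑ i, nu x i * pd i (tB u ρ) x := by
      rw [Finset.mul_sum, Finset.mul_sum, ← Finset.sum_add_distrib]
      refine Finset.sum_congr rfl fun i _ => ?_
      rw [pd_mul htd hycd]
      ring
    rw [e, hray]
    ring
  have hgradsum : ∑ i, pd i d (Φ x) * pd i (xy d M k) (Φ x) =
      ∑ i, nu x i * pd i (xy d M k) (Φ x) :=
    Finset.sum_congr rfl fun i _ => by rw [hgrad i]
  have hVV : ∑ i, xV d M i (Φ x) ^ 2 = ∑ i, Vc u ρ N i x ^ 2 :=
    Finset.sum_congr rfl fun i _ => by rw [hTV i]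
  have hWW : ∑ i, xW d M k i (Φ x) ^ 2 = ∑ i, Wc u ρ N h i x ^ 2 :=
    Finset.sum_congr rfl fun i _ => by rw [hTW i]
  have hVW : ∑ i, xV d M i (Φ x) * xW d M k i (Φ x) = ∑ i, Vc u ρ N i x * Wc u ρ N h i x :=
    Finset.sum_congr rfl fun i _ => by rw [hTV i, hTW i]
  rw [hgradsum, hVV, hWW, hVW, hWG, hTH, hTQ, hTy, hTphi, ← hE] at key
  rw [← hmom] at key
  rw [hleft, ← hbc]
  rw [hch1]
  -- abbreviations
  set r := ‖x‖ with hr
  set rp := deriv ρ r with hrp
  set t := tB u ρ x with htt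
  set D := dB u ρ x with hDD
  set A := ∑ i, nu x i * pd i (xy d M k) (Φ x) with hA
  set Z := ∑ i, pd i (fun Y => xV d M i Y + xphi d M k Y * xW d M k i Y) (Φ x) with hZ
  set VV := ∑ i, Vc u ρ N i x ^ 2 with hVV'
  set WW := ∑ i, Wc u ρ N h i x ^ 2 with hWW'
  set VW := ∑ i, Vc u ρ N i x * Wc u ρ N h i x with hVW'
  set WG := ∑ i, Wc u ρ N h i x * Gc u ρ N h i x with hWG'
  set mu := energyDensity g h x with hmu
  set JJ := ∑ i, nu x i / N x * momentumDensity g h i x with hJJ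
  set Y := yc u ρ N h x with hY
  set F := phic u ρ N h x with hF
  have hmul := mul_le_mul_of_nonneg_left key (mul_pos hρ hd).le
  have e1 : rp * D * (t / D * A + ((t / D) ^ 2 - ((t / D) ^ 2 - 2 / D)) * Y) =
      t * (rp * A) + 2 * rp * Y := by
    field_simp
    ring
  have e2 : rp * D * ((t / D) ^ 2 - ((t / D) ^ 2 - 2 / D) - 2 * Z -
        2 * (VV + WW + 2 * F * VW - WG) - 2 * (mu - F * JJ)) =
      2 * rp - 2 * r ^ 2 * (Z * (rp * D / r ^ 2)) - 2 * rp * D * (VV + WW + 2 * F * VW - WG)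
        - 2 * rp * D * (mu - F * JJ) := by
    field_simp
    ring
  rw [e1, e2] at hmul
  exact hmul

end Pool.Agent.PenroseConvex
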