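import Pool.Agent.PenroseConvex.Stmts
import Pool.Agent.PenroseSph.Geom
import Pool.Agent.NullShell.Ineq
import Pool.Agent.NullShell.Master
import Pool.Agent.NullShell.Bochner
import Pool.Agent.NullShell.Approx

/-! # Minkowski's inequality for the mean curvature -/

open MeasureTheory Filter Topology
open scoped ContDiff

namespace Pool.Agent.PenroseConvex

open Pool.Agent.PenroseSph
open Pool.Agent.NullShell (Sm sint Lop lap hess xcr Umat detU rot SS)

namespace MK

theorem fderiv_eq_sum (L : E3 →L[ℝ] ℝ) (v : E3) :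
    L v = ∑ i, v i * L (EuclideanSpace.single i 1) := by
  have h : v = ∑ i, v i • EuclideanSpace.single i (1 : ℝ) := by
    ext j
    fin_cases j <;> simp [Fin.sum_univ_three]
  conv_lhs => rw [h]
  rw [map_sum]
  refine Finset.sum_congr rfl fun i _ => ?_
  rw [map_smul, smul_eq_mul]

theorem pd_pd_eq {f : E3 → ℝ} (hf : Sm f) {x : E3} (hx : x ∈ SS) (k l : Fin 3) :
    pd k (pd l f) x = fderiv ℝ (fderiv ℝ f) x (EuclideanSpace.single k 1)
      (EuclideanSpace.single l 1) := by
  have h1 : ContDiffAt ℝ ∞ (fderiv ℝ f) x := (hf x hx).fderiv_right (by simp)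
  have h2 : DifferentiableAt ℝ (fderiv ℝ f) x := h1.differentiableAt (by simp)
  have h4 := h2.hasFDerivAt.clm_apply (hasFDerivAt_const (EuclideanSpace.single l (1 : ℝ)) x)
  have h5 : fderiv ℝ (pd l f) x = _ := h4.fderiv
  have h6 : pd k (pd l f) x = fderiv ℝ (pd l f) x (EuclideanSpace.single k 1) := rfl
  rw [h6, h5]
  simp

/-- The Umat of a one-homogeneous function. -/
theorem umat_eq {f : E3 → ℝ} (hf : Sm f) {x : E3} (hx : x ∈ SS)
    (hE : x 0 * pd 0 f x + x 1 * pd 1 f x + x 2 * pd 2 f x = f x) (i j : Fin 3) :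
    Umat f f i j x = ∑ k, (∑ l, rot j x l * (rot i x k * pd k (pd l f) x)) := by
  have hn := NullShell.sq_sum_eq_one hx
  have hL : ∀ i, Lop i f x = ∑ k, rot i x k * pd k f x := fun i => fderiv_eq_sum _ _
  have hLL : Lop i (Lop j f) x = (∑ k, (∑ l, rot j x l * (rot i x k * pd k (pd l f) x)))
      + ∑ k, rot j (rot i x) k * pd k f x := by
    rw [NullShell.Lop_Lop_eq hf hx]
    congr 1
    · have h1 := fderiv_eq_sum (((fderiv ℝ (fderiv ℝ f) x).flip) (rot j x)) (rot i x)
      simp only [ContinuousLinearMap.flip_apply] at h1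
      rw [h1]
      refine Finset.sum_congr rfl fun k _ => ?_
      rw [fderiv_eq_sum ((fderiv ℝ (fderiv ℝ f) x) (EuclideanSpace.single k 1)) (rot j x),
        Finset.mul_sum]
      refine Finset.sum_congr rfl fun l _ => ?_
      rw [pd_pd_eq hf hx]
      ring
    · exact fderiv_eq_sum _ _
  unfold Umat hess
  rw [hLL]
  have hrest : (∑ k, rot j (rot i x) k * pd k f x) + x j * xcr f i x
      + f x * ((if i = j then 1 else 0) - x i * x j) = 0 := by
    unfold xcr
    rw [hL, hL, hL]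
    fin_cases i <;> fin_cases j <;> simp [Fin.sum_univ_three]
    · linear_combination (-(x 0) * pd 0 f x) * hn + (x 0 * x 0 - 1) * hE
    · linear_combination (-(x 1) * pd 0 f x) * hn + (x 0 * x 1) * hE
    · linear_combination (-(x 2) * pd 0 f x) * hn + (x 0 * x 2) * hE
    · linear_combination (-(x 0) * pd 1 f x) * hn + (x 1 * x 0) * hE
    · linear_combination (-(x 1) * pd 1 f x) * hn + (x 1 * x 1 - 1) * hE
    · linear_combination (-(x 2) * pd 1 f x) * hn + (x 1 * x 2) * hE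
    · linear_combination (-(x 0) * pd 2 f x) * hn + (x 2 * x 0) * hE
    · linear_combination (-(x 1) * pd 2 f x) * hn + (x 2 * x 1) * hE
    · linear_combination (-(x 2) * pd 2 f x) * hn + (x 2 * x 2 - 1) * hE
  linarith

/-- The rotation by a quarter turn is an isometry of the tangent plane. -/
theorem rot_sq {x : E3} (hn : x 0 ^ 2 + x 1 ^ 2 + x 2 ^ 2 = 1) (m : Fin 3 → ℝ)
    (hm : m 0 * x 0 + m 1 * x 1 + m 2 * x 2 = 0) :
    ∑ j, (∑ l, rot j x l * m l) ^ 2 = ∑ l, m l ^ 2 := by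
  simp [Fin.sum_univ_three]
  linear_combination (m 0 ^ 2 + m 1 ^ 2 + m 2 ^ 2) * hn - (m 0 * x 0 + m 1 * x 1 + m 2 * x 2) * hm

/-- The square length of `A D Aᵀ`. -/
theorem sq_conj {x : E3} (hn : x 0 ^ 2 + x 1 ^ 2 + x 2 ^ 2 = 1) (D : Fin 3 → Fin 3 → ℝ)
    (hs : ∀ i j, D i j = D j i) (hD : ∀ i, ∑ j, D i j * x j = 0) :
    ∑ i, ∑ j, (∑ k, (∑ l, rot j x l * (rot i x k * D k l))) ^ 2 = ∑ i, ∑ j, D i j ^ 2 := by
  have hD3 : ∀ i, D i 0 * x 0 + D i 1 * x 1 + D i 2 * x 2 = 0 := by
    intro i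
    have h := hD i
    rwa [Fin.sum_univ_three] at h
  have h1 : ∀ i, ∑ j, (∑ k, (∑ l, rot j x l * (rot i x k * D k l))) ^ 2
      = ∑ l, (∑ k, rot i x k * D k l) ^ 2 := by
    intro i
    rw [← rot_sq hn (fun l => ∑ k, rot i x k * D k l)]
    · refine Finset.sum_congr rfl fun j _ => ?_
      congr 1
      rw [Finset.sum_comm]
      refine Finset.sum_congr rfl fun l _ => ?_
      rw [Finset.mul_sum]
    · simp only [Fin.sum_univ_three]
      linear_combination rot i x 0 * hD3 0 + rot i x 1 * hD3 1 + rot i x 2 * hD3 2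
  rw [Finset.sum_congr rfl fun i _ => h1 i, Finset.sum_comm]
  rw [Finset.sum_congr rfl fun l _ => rot_sq hn (fun k => D k l) (by
    have h := hD3 l
    rw [hs l 0, hs l 1, hs l 2] at h
    exact h)]
  exact Finset.sum_comm

theorem trace_conj {x : E3} (hn : x 0 ^ 2 + x 1 ^ 2 + x 2 ^ 2 = 1) (D : Fin 3 → Fin 3 → ℝ)
    (hD : ∀ i, ∑ j, D i j * x j = 0) :
    ∑ i, (∑ k, (∑ l, rot i x l * (rot i x k * D k l))) = ∑ i, D i i := by
  have h0 := hD 0
  have h1 := hD 1
  have h2 := hD 2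
  simp [Fin.sum_univ_three] at h0 h1 h2 ⊢
  linear_combination (D 0 0 + D 1 1 + D 2 2) * hn - x 0 * h0 - x 1 * h1 - x 2 * h2

/-- The facts about `f = u + ρ(s) |x|` on the sphere. -/
theorem facts (hRAY : Stmt_RAY) {a : ℝ} {u : E3 → ℝ} {ρ : ℝ → ℝ} {N : E3 → ℝ}
    {g h : TensorField} (hP : ParallelData a u ρ N g h) {s : ℝ} (hs : a < s) :
    Sm (fun x => u x + ρ s * ‖x‖) ∧
    (∀ x ∈ SS, ∀ i j, Umat (fun x => u x + ρ s * ‖x‖) (fun x => u x + ρ s * ‖x‖) i j x
      = ∑ k, (∑ l, rot j x l * (rot i x k * radii u ρ (s • x) k l))) := by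
  have hs0 : 0 < s := lt_of_le_of_lt hP.radius_nonneg hs
  have hne : ∀ x ∈ SS, x ≠ 0 := by
    intro x hx h0
    rw [h0] at hx
    simp at hx
  have hu : ∀ x : E3, x ≠ 0 → ContDiffAt ℝ ∞ u x := fun x hx =>
    (hP.smooth_u x hx).contDiffAt (isOpen_compl_singleton.mem_nhds hx)
  have hf : ∀ x : E3, x ≠ 0 → ContDiffAt ℝ ∞ (fun x => u x + ρ s * ‖x‖) x := fun x hx =>
    (hu x hx).add (contDiffAt_const.mul (contDiffAt_norm ℝ hx))
  have hSm : Sm (fun x => u x + ρ s * ‖x‖) := fun x hx => hf x (hne x hx)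
  refine ⟨hSm, fun x hx i j => ?_⟩
  have hx1 : ‖x‖ = 1 := by simpa using hx
  have hx0 := hne x hx
  have hdf : DifferentiableAt ℝ (fun x => u x + ρ s * ‖x‖) x := (hf x hx0).differentiableAt (by simp)
  -- Euler's relation
  have hE : x 0 * pd 0 (fun x => u x + ρ s * ‖x‖) x + x 1 * pd 1 (fun x => u x + ρ s * ‖x‖) x
      + x 2 * pd 2 (fun x => u x + ρ s * ‖x‖) x = (fun x => u x + ρ s * ‖x‖) x := by
    have h1 := fderiv_eq_sum (fderiv ℝ (fun x => u x + ρ s * ‖x‖) x) x
    rw [Fin.sum_univ_three] at h1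
    have h2 : HasDerivAt (fun t : ℝ => t • x) x 1 := by
      have := (hasDerivAt_id (1 : ℝ)).smul_const x
      simpa using this
    have hdf' : DifferentiableAt ℝ (fun x => u x + ρ s * ‖x‖) ((1 : ℝ) • x) := by
      rw [one_smul]; exact hdf
    have h3 := hdf'.hasFDerivAt.comp_hasDerivAt (1 : ℝ) h2
    rw [one_smul] at h3
    have h4 : HasDerivAt (fun t : ℝ => t * (u x + ρ s * ‖x‖)) (u x + ρ s * ‖x‖) 1 := by
      have := (hasDerivAt_id (1 : ℝ)).mul_const (u x + ρ s * ‖x‖)
      simpa using this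
    have h5 : ((fun x => u x + ρ s * ‖x‖) ∘ fun t : ℝ => t • x)
        =ᶠ[𝓝 1] fun t : ℝ => t * (u x + ρ s * ‖x‖) := by
      filter_upwards [eventually_gt_nhds (zero_lt_one : (0 : ℝ) < 1)] with t ht
      simp only [Function.comp_apply]
      rw [hP.homogeneous_u x hx0 t ht, norm_smul, Real.norm_eq_abs, abs_of_pos ht]
      ring
    have h6 := (h4.congr_of_eventuallyEq h5).unique h3
    exact (h6.trans h1).symm
  rw [umat_eq hSm hx hE]
  -- second derivatives
  have hpd : ∀ k l, pd k (pd l (fun x => u x + ρ s * ‖x‖)) x = radii u ρ (s • x) k l := by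
    intro k l
    have h1 := (hRAY a u ρ N g h hP).1 s ⟨x, hx⟩ hs0 k l
    simp only at h1
    rw [h1]
    have h2 : pd l (fun x => u x + ρ s * ‖x‖) =ᶠ[𝓝 x] fun y => pd l u y + ρ s * (y l / ‖y‖) := by
      filter_upwards [isOpen_compl_singleton.mem_nhds hx0] with y hy
      have hy0 : y ≠ 0 := hy
      rw [pd_add ((hu y hy0).differentiableAt (by simp)) ((differentiableAt_norm hy0).const_mul _),
        pd_const_mul _ (differentiableAt_norm hy0),
        pd_radial (F := fun t => t) hy0 (hasDerivAt_id _), one_mul]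
    rw [pd_congr h2]
    have h3 : ContDiffAt ℝ ∞ (fderiv ℝ u) x := (hu x hx0).fderiv_right (by simp)
    have h4 : DifferentiableAt ℝ (pd l u) x :=
      (h3.differentiableAt (by simp)).clm_apply (differentiableAt_const _)
    rw [pd_add h4 ((differentiableAt_nu hx0 l).const_mul _), pd_const_mul _ (differentiableAt_nu hx0 l),
      pd_nu hx0]
    unfold dl dk
    rw [hx1]
    simp
  refine Finset.sum_congr rfl fun k _ => Finset.sum_congr rfl fun l _ => ?_
  rw [hpd]

end MK

/-- Minkowski's inequality. -/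
theorem MINK (hALG : Stmt_ALG) (hRAY : Stmt_RAY) : Stmt_MINK := by
  intro a u ρ N g h hP s hs
  have hs0 : 0 < s := lt_of_le_of_lt hP.radius_nonneg hs
  obtain ⟨hSm, hU⟩ := MK.facts hRAY hP hs
  set f : E3 → ℝ := fun x => u x + ρ s * ‖x‖ with hfdef
  -- algebra of the radii
  have hnrm : ∀ x ∈ SS, ‖s • x‖ = s := by
    intro x hx
    have hx1 : ‖x‖ = 1 := by simpa using hx
    rw [norm_smul, hx1, Real.norm_eq_abs, abs_of_pos hs0, mul_one]
  have hnu : ∀ x ∈ SS, ∀ j, nu (s • x) j = x j := by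
    intro x hx j
    unfold nu
    rw [hnrm x hx, PiLp.smul_apply, smul_eq_mul]
    field_simp
  have hA : ∀ x ∈ SS, (∀ i j, radii u ρ (s • x) i j = radii u ρ (s • x) j i) ∧
      (∀ i, ∑ j, radii u ρ (s • x) i j * x j = 0) := by
    intro x hx
    have h1 := hALG a u ρ N g h hP (s • x) (by rw [hnrm x hx]; exact hs)
    refine ⟨h1.1, fun i => ?_⟩
    have h2 := h1.2.1 i
    simp only [hnu x hx] at h2
    exact h2
  have hpos : ∀ x ∈ SS, ∀ v : Fin 3 → ℝ, ∑ i, v i * x i = 0 → v ≠ 0 →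
      0 < ∑ i, ∑ j, Umat f f i j x * v i * v j := by
    intro x hx v hv hv0
    have hn := NullShell.sq_sum_eq_one hx
    have hc := hP.convex (s • x) (by rw [hnrm x hx]; exact hs)
      (fun k => ∑ i, rot i x k * v i) (by
        simp only [PiLp.smul_apply, smul_eq_mul]
        simp [Fin.sum_univ_three]
        ring) (by
        intro h0
        have h00 := congrFun h0 0
        have h01 := congrFun h0 1
        have h02 := congrFun h0 2
        simp [Fin.sum_univ_three] at h00 h01 h02 hv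
        have e : v 0 ^ 2 + v 1 ^ 2 + v 2 ^ 2 = 0 := by
          linear_combination (-(v 0 ^ 2 + v 1 ^ 2 + v 2 ^ 2)) * hn
            + (v 0 * x 0 + v 1 * x 1 + v 2 * x 2) * hv
            + (x 2 * v 1 - x 1 * v 2) * h00 + (x 0 * v 2 - x 2 * v 0) * h01
            + (x 1 * v 0 - x 0 * v 1) * h02
        apply hv0
        funext k
        have e0 : v 0 = 0 := by nlinarith [sq_nonneg (v 0), sq_nonneg (v 1), sq_nonneg (v 2)]
        have e1 : v 1 = 0 := by nlinarith [sq_nonneg (v 0), sq_nonneg (v 1), sq_nonneg (v 2)]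
        have e2 : v 2 = 0 := by nlinarith [sq_nonneg (v 0), sq_nonneg (v 1), sq_nonneg (v 2)]
        fin_cases k
        · exact e0
        · exact e1
        · exact e2)
    refine lt_of_lt_of_eq hc ?_
    simp only [hU x hx, Fin.sum_univ_three]
    ring
  have hI := NullShell.Ineq (NullShell.Core (NullShell.Master NullShell.Bochner
    NullShell.HessContract)) NullShell.Approx NullShell.Bochner f f (fun _ _ => 0) hSm hSm
    (fun _ => NullShell.sm_const 0) hpos (fun x _ => by simp) (fun x _ i => by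
      simp [NullShell.Lop])
  have htr : ∀ x ∈ SS, lap f x + 2 * f x = tB u ρ (s • x) := by
    intro x hx
    rw [← NullShell.Umat_trace hSm hx]
    simp only [hU x hx]
    rw [MK.trace_conj (NullShell.sq_sum_eq_one hx) _ (hA x hx).2]
    rfl
  have hdet : ∀ x ∈ SS, detU f f x = dB u ρ (s • x) := by
    intro x hx
    unfold detU dB
    rw [htr x hx]
    simp only [hU x hx]
    rw [MK.sq_conj (NullShell.sq_sum_eq_one hx) _ (hA x hx).1 (hA x hx).2]
    ring
  have h1 : sint (detU f f) = ∫ θ : S2, dB u ρ (s • (θ : E3)) ∂mS :=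
    NullShell.sint_congr (g := fun x => dB u ρ (s • x)) hdet
  have h2 : sint (fun x => lap f x + 2 * f x) = ∫ θ : S2, tB u ρ (s • (θ : E3)) ∂mS :=
    NullShell.sint_congr (g := fun x => tB u ρ (s • x)) htr
  rw [NullShell.sint_add hSm.lap (hSm.const_mul 2), NullShell.sint_lap hSm,
    NullShell.sint_const_mul] at h2
  rw [← h1, ← h2]
  have h3 : sint (fun x => (lap f x + 2 * f x) * ∑ i : Fin 3, ((fun (_ : Fin 3) (_ : E3) => (0 : ℝ)) i x) ^ 2) = 0 := by
    rw [NullShell.sint_congr (g := fun _ => (0 : ℝ)) (fun x _ => by simp), NullShell.sint_const]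
    ring
  rw [h3] at hI
  nlinarith [hI]

end Pool.Agent.PenroseConvex
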