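import Pool.Agent.PenroseConvex.Stmts
import Pool.Agent.PenroseSph.Average

/-! # MONO: monotonicity of the energy -/

open MeasureTheory Filter Topology
open scoped ContDiff

namespace Pool.Agent.PenroseConvex

open Pool.Agent.PenroseSph

namespace MONO

theorem integrable_S2 {f : S2 → ℝ} (hf : Continuous f) : Integrable f mS :=
  hf.integrable_of_hasCompactSupport (HasCompactSupport.of_compactSpace f)

theorem norm_smul_S2 {s : ℝ} (hs : 0 ≤ s) (θ : S2) : ‖s • (θ : E3)‖ = s := by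
  rw [norm_smul, norm_eq_of_mem_sphere θ, mul_one, Real.norm_eq_abs, abs_of_nonneg hs]

theorem continuous_smul_comp {f : E3 → ℝ} {b s : ℝ} (hb : 0 ≤ b)
    (hf : ContinuousOn f {x : E3 | b < ‖x‖}) (hs : b < s) :
    Continuous fun θ : S2 => f (s • (θ : E3)) := by
  refine hf.comp_continuous (by fun_prop) fun θ => ?_
  show b < ‖s • (θ : E3)‖
  rw [norm_smul_S2 (hb.trans hs.le)]
  exact hs

theorem quad_nonneg (V W : Fin 3 → ℝ) {φ : ℝ} (hφ : |φ| ≤ 1) :
    0 ≤ (∑ i, V i ^ 2) + (∑ i, W i ^ 2) + 2 * φ * ∑ i, V i * W i := by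
  rw [Finset.mul_sum, ← Finset.sum_add_distrib, ← Finset.sum_add_distrib]
  refine Finset.sum_nonneg fun i _ => ?_
  have h1 := abs_le.1 hφ
  nlinarith [mul_nonneg (by linarith [h1.1] : 0 ≤ 1 + φ) (sq_nonneg (V i + W i)),
    mul_nonneg (by linarith [h1.2] : 0 ≤ 1 - φ) (sq_nonneg (V i - W i))]

end MONO

open MONO in
theorem MONO (hALG : Stmt_ALG) (hSMO : Stmt_SMO) (hRAY : Stmt_RAY) (hGEO : Stmt_GEO)
    (hFLUX : Stmt_FLUX) (hDEC : Stmt_DEC) (hMI : Stmt_MI) (hDIF : Stmt_DIF) : Stmt_MONO := by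
  intro a u ρ N g h hP hD s₀ hs₀ hU
  have ha : 0 ≤ a := hP.radius_nonneg
  have hs₀' : 0 ≤ s₀ := ha.trans hs₀.le
  obtain ⟨-, stB, sdB, scB, sdr, sH, sp, sy, sphi, sV, sW, sb⟩ := hSMO a u ρ N g h hP
  obtain ⟨-, -, -, hray, -⟩ := hRAY a u ρ N g h hP
  have hopen : IsOpen {x : E3 | a < ‖x‖} := isOpen_lt continuous_const continuous_norm
  have hopen₀ : IsOpen {x : E3 | s₀ < ‖x‖} := isOpen_lt continuous_const continuous_norm
  have hsub : {x : E3 | s₀ < ‖x‖} ⊆ {x : E3 | a < ‖x‖} := fun x hx => hs₀.trans hx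
  -- the sign conditions
  have key1 : ∀ x : E3, s₀ < ‖x‖ → 0 < deriv ρ ‖x‖ ∧ |phic u ρ N h x| ≤ 1 := by
    intro x hx
    have hxa : a < ‖x‖ := hs₀.trans hx
    obtain ⟨-, hH, hS, -⟩ := hGEO a u ρ N g h hP x hxa
    obtain ⟨-, -, hdB, htB, -⟩ := hALG a u ρ N g h hP x hxa
    have h1 := (hU ‖x‖ hx).1 x rfl
    rw [hH, hS] at h1
    have hH0 : 0 < Hc u ρ N x := (abs_nonneg _).trans_lt h1
    refine ⟨?_, ?_⟩
    · by_contra hneg
      have h2 : deriv ρ ‖x‖ / N x ≤ 0 :=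
        div_nonpos_of_nonpos_of_nonneg (not_lt.1 hneg) (hP.N_pos x hxa).le
      have h3 : Hc u ρ N x ≤ 0 := mul_nonpos_of_nonpos_of_nonneg h2 (div_pos htB hdB).le
      linarith
    · unfold phic
      rw [abs_div, abs_of_pos hH0, div_le_one hH0]
      exact h1.le
  -- the integrand
  set F : E3 → ℝ := fun x => tB u ρ x * (1 - yc u ρ N h x) with hF
  have sF : ContDiffOn ℝ 1 F {x : E3 | a < ‖x‖} :=
    (stB.of_le (by exact_mod_cast le_top)).mul
      (contDiffOn_const.sub (sy.of_le (by exact_mod_cast le_top)))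
  have hEn : ∀ s : ℝ, En u ρ N h s = ∫ θ : S2, F (s • (θ : E3)) ∂mS := fun s => rfl
  have hder : ∀ s : ℝ, a < s → HasDerivAt (En u ρ N h)
      (∫ θ : S2, (∑ i, nu (s • (θ : E3)) i * pd i F (s • (θ : E3))) ∂mS) s :=
    fun s hs => hDIF a F ha sF s hs
  -- the pointwise inequality
  have key2 : ∀ x : E3, s₀ < ‖x‖ →
      2 * ‖x‖ ^ 2 * (∑ i, pd i (bc u ρ N h i) x)
        - 2 * deriv ρ ‖x‖ * ((∑ i, Wc u ρ N h i x * Gc u ρ N h i x) * dB u ρ x)
      ≤ ∑ i, nu x i * pd i F x := by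
    intro x hx
    have hxa : a < ‖x‖ := hs₀.trans hx
    obtain ⟨hρ, hφ⟩ := key1 x hx
    obtain ⟨-, -, hdB, htB, -⟩ := hALG a u ρ N g h hP x hxa
    have h1 := hMI a u ρ N g h hP x hxa hρ
    have h2 := hDEC a u ρ N g h hP hD x hxa _ hφ
    have h3 := quad_nonneg (fun i => Vc u ρ N i x) (fun i => Wc u ρ N h i x) hφ
    have h4 := hray x hxa
    have dt : DifferentiableAt ℝ (tB u ρ) x :=
      (stB.contDiffAt (hopen.mem_nhds hxa)).differentiableAt (by simp)
    have dy : DifferentiableAt ℝ (yc u ρ N h) x :=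
      (sy.contDiffAt (hopen.mem_nhds hxa)).differentiableAt (by simp)
    have h5 : ∀ i, pd i F x = pd i (tB u ρ) x - pd i (fun y => tB u ρ y * yc u ρ N h y) x := by
      intro i
      have h6 : F = fun y => tB u ρ y - (tB u ρ y * yc u ρ N h y) := by
        funext y
        rw [hF]
        ring
      have dty : DifferentiableAt ℝ (fun y => tB u ρ y * yc u ρ N h y) x := dt.mul dy
      rw [h6]
      exact pd_sub dt dty
    have h7 : ∑ i, nu x i * pd i F x = 2 * deriv ρ ‖x‖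
        - ∑ i, nu x i * pd i (fun y => tB u ρ y * yc u ρ N h y) x := by
      rw [← h4, ← Finset.sum_sub_distrib]
      exact Finset.sum_congr rfl fun i _ => by rw [h5]; ring
    rw [h7]
    have h8 : 0 ≤ 2 * deriv ρ ‖x‖ * dB u ρ x * ((∑ i, Vc u ρ N i x ^ 2)
        + (∑ i, Wc u ρ N h i x ^ 2) + 2 * phic u ρ N h x * ∑ i, Vc u ρ N i x * Wc u ρ N h i x) :=
      mul_nonneg (mul_nonneg (by linarith) hdB.le) h3
    have h9 : 0 ≤ 2 * deriv ρ ‖x‖ * dB u ρ x * (energyDensity g h x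
        - phic u ρ N h x * ∑ i, nu x i / N x * momentumDensity g h i x) :=
      mul_nonneg (mul_nonneg (by linarith) hdB.le) h2
    linarith
  -- smoothness of the terms
  have sb1 : ∀ i, ContDiffOn ℝ 1 (bc u ρ N h i) {x : E3 | s₀ < ‖x‖} := fun i x hx =>
    ((sb i x (hs₀.trans hx) (key1 x hx).1).of_le (by exact_mod_cast le_top)).contDiffWithinAt
  have cb : ContinuousOn (fun x => ∑ i, pd i (bc u ρ N h i) x) {x : E3 | s₀ < ‖x‖} :=
    continuousOn_finsetSum _ fun i _ => continuousOn_pd (sb1 i) i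
  have cnu : ∀ i, ContinuousOn (fun x : E3 => nu x i) {x : E3 | a < ‖x‖} := fun i =>
    (contDiffOn_nu ha i).continuousOn
  have cF : ContinuousOn (fun x => ∑ i, nu x i * pd i F x) {x : E3 | a < ‖x‖} :=
    continuousOn_finsetSum _ fun i _ => (cnu i).mul (continuousOn_pd sF i)
  have sphi1 : ContDiffOn ℝ 1 (phic u ρ N h) {x : E3 | s₀ < ‖x‖} := fun x hx =>
    ((sphi x (hs₀.trans hx) (key1 x hx).1).of_le (by exact_mod_cast le_top)).contDiffWithinAt
  have cG : ∀ i, ContinuousOn (Gc u ρ N h i) {x : E3 | s₀ < ‖x‖} := fun i =>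
    continuous_norm.continuousOn.mul (continuousOn_finsetSum _ fun j _ =>
      ((scB i j).continuousOn.mono hsub).mul (continuousOn_pd sphi1 j))
  have cW : ∀ i, ContinuousOn (Wc u ρ N h i) {x : E3 | s₀ < ‖x‖} := fun i x hx =>
    (sW i x (hs₀.trans hx)).continuousAt.continuousWithinAt
  have cWG : ContinuousOn (fun x => (∑ i, Wc u ρ N h i x * Gc u ρ N h i x) * dB u ρ x)
      {x : E3 | s₀ < ‖x‖} :=
    (continuousOn_finsetSum _ fun i _ => (cW i).mul (cG i)).mul (sdB.continuousOn.mono hsub)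
  -- tangential
  have htan : ∀ x : E3, s₀ < ‖x‖ → ∑ i, (x i / ‖x‖) * bc u ρ N h i x = 0 := by
    intro x hx
    obtain ⟨-, -, -, -, hsym, hCn, -⟩ := hALG a u ρ N g h hP x (hs₀.trans hx)
    have h1 : ∀ i, (x i / ‖x‖) * bc u ρ N h i x = deriv ρ ‖x‖ / ‖x‖ * dB u ρ x *
        ∑ j, (cB u ρ j i x * nu x i) * (Vc u ρ N j x + phic u ρ N h x * Wc u ρ N h j x) := by
      intro i
      unfold bc
      rw [Finset.mul_sum, Finset.mul_sum, Finset.mul_sum]
      refine Finset.sum_congr rfl fun j _ => ?_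
      rw [hsym i j]
      show nu x i * _ = _
      ring
    rw [Finset.sum_congr rfl fun i _ => h1 i, ← Finset.mul_sum, Finset.sum_comm]
    have h2 : ∀ j, ∑ i, (cB u ρ j i x * nu x i) *
        (Vc u ρ N j x + phic u ρ N h x * Wc u ρ N h j x) = 0 := by
      intro j
      rw [← Finset.sum_mul, hCn j, zero_mul]
    rw [Finset.sum_congr rfl fun j _ => h2 j, Finset.sum_const_zero, mul_zero]
  -- the derivative is nonnegative
  have key3 : ∀ s : ℝ, s₀ < s →
      0 ≤ ∫ θ : S2, (∑ i, nu (s • (θ : E3)) i * pd i F (s • (θ : E3))) ∂mS := by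
    intro s hs
    have hs0 : 0 ≤ s := hs₀'.trans hs.le
    have hflux := (hU s hs).2
    rw [hFLUX a u ρ N g h hP s (hs₀.trans hs)] at hflux
    have hdiv : ∫ θ : S2, (∑ i, pd i (bc u ρ N h i) (s • (θ : E3))) ∂mS = 0 :=
      integral_sphere_div_eq_zero hs₀' sb1 htan hs
    have hρ : 0 ≤ deriv ρ s := by
      have θ₀ : S2 := ⟨EuclideanSpace.single 0 1, by simp⟩
      have h1 := (key1 (s • (θ₀ : E3)) (by rw [norm_smul_S2 hs0]; exact hs)).1
      rw [norm_smul_S2 hs0] at h1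
      exact h1.le
    have i1 : Integrable (fun θ : S2 => ∑ i, pd i (bc u ρ N h i) (s • (θ : E3))) mS :=
      integrable_S2 (continuous_smul_comp hs₀' cb hs)
    have i2 : Integrable (fun θ : S2 => (∑ i, Wc u ρ N h i (s • (θ : E3))
        * Gc u ρ N h i (s • (θ : E3))) * dB u ρ (s • (θ : E3))) mS :=
      integrable_S2 (continuous_smul_comp hs₀' cWG hs)
    have i3 : Integrable (fun θ : S2 => ∑ i, nu (s • (θ : E3)) i * pd i F (s • (θ : E3))) mS :=
      integrable_S2 (continuous_smul_comp ha cF (hs₀.trans hs))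
    have h1 : ∫ θ : S2, (2 * s ^ 2 * (∑ i, pd i (bc u ρ N h i) (s • (θ : E3)))
        - 2 * deriv ρ s * ((∑ i, Wc u ρ N h i (s • (θ : E3))
        * Gc u ρ N h i (s • (θ : E3))) * dB u ρ (s • (θ : E3)))) ∂mS
        ≤ ∫ θ : S2, (∑ i, nu (s • (θ : E3)) i * pd i F (s • (θ : E3))) ∂mS := by
      refine integral_mono ((i1.const_mul _).sub (i2.const_mul _)) i3 fun θ => ?_
      have h2 := key2 (s • (θ : E3)) (by rw [norm_smul_S2 hs0]; exact hs)
      rw [norm_smul_S2 hs0] at h2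
      exact h2
    rw [integral_sub (i1.const_mul _) (i2.const_mul _), integral_const_mul, integral_const_mul,
      hdiv, mul_zero, zero_sub] at h1
    refine le_trans ?_ h1
    have h3 : 2 * deriv ρ s * ∫ θ : S2, ((∑ i, Wc u ρ N h i (s • (θ : E3))
        * Gc u ρ N h i (s • (θ : E3))) * dB u ρ (s • (θ : E3))) ∂mS ≤ 0 :=
      mul_nonpos_of_nonneg_of_nonpos (by linarith) hflux
    linarith
  -- conclusion
  have hmono : MonotoneOn (En u ρ N h) (Set.Ici s₀) := by
    refine monotoneOn_of_deriv_nonneg (convex_Ici s₀) ?_ ?_ ?_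
    · intro s hs
      exact (hder s (hs₀.trans_le hs)).continuousAt.continuousWithinAt
    · intro s hs
      rw [interior_Ici] at hs
      exact (hder s (hs₀.trans hs)).differentiableAt.differentiableWithinAt
    · intro s hs
      rw [interior_Ici] at hs
      rw [(hder s (hs₀.trans hs)).deriv]
      exact key3 s hs
  intro s hs
  exact hmono Set.self_mem_Ici hs hs

end Pool.Agent.PenroseConvex
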