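import Pool.Agent.PenroseConvex.Stmts

/-!
# The outermost weakly trapped sphere
-/

open MeasureTheory Filter Topology
open scoped ContDiff

namespace Pool.Agent.PenroseConvex

open Pool.Agent.PenroseSph

namespace OUTM

theorem norm_smul_sphere {s : ℝ} (hs : 0 ≤ s) (θ : S2) : ‖s • (θ : E3)‖ = s := by
  have h : ‖(θ : E3)‖ = 1 := by
    have := θ.2
    rwa [mem_sphere_zero_iff_norm] at this
  rw [norm_smul, h, mul_one, Real.norm_eq_abs, abs_of_nonneg hs]

theorem exists_norm_eq {s : ℝ} (hs : 0 ≤ s) : ∃ x : E3, ‖x‖ = s :=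
  ⟨EuclideanSpace.single 0 s, by
    rw [PiLp.norm_single, Real.norm_eq_abs, abs_of_nonneg hs]⟩

theorem not_both {g h : TensorField} {s : ℝ} (hs : 0 ≤ s) (h1 : Untrapped g h s)
    (h2 : WeaklyTrapped g h s) : False := by
  obtain ⟨x, hx⟩ := exists_norm_eq hs
  exact absurd (h1 x hx) (not_lt.mpr (h2 x hx))

theorem isOpen_ext (a : ℝ) : IsOpen {x : E3 | a < ‖x‖} := isOpen_lt continuous_const continuous_norm

/-- Integrability over the sphere of a function continuous near a coordinate sphere. -/
theorem integrable_sphere {a s : ℝ} (h0 : 0 ≤ a) (hs : a < s) {F : E3 → ℝ}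
    (hF : ContinuousOn F {x : E3 | a < ‖x‖}) : Integrable (fun θ : S2 => F (s • (θ : E3))) mS := by
  have hc : Continuous (fun θ : S2 => F (s • (θ : E3))) := by
    rw [continuous_iff_continuousAt]
    intro θ
    have h1 : ContinuousAt F (s • (θ : E3)) := hF.continuousAt ((isOpen_ext a).mem_nhds (by
      change a < ‖s • (θ : E3)‖
      rw [norm_smul_sphere (h0.trans hs.le)]
      exact hs))
    exact ContinuousAt.comp (f := fun θ : S2 => s • (θ : E3)) h1
      ((continuous_subtype_val.const_smul s).continuousAt)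
  exact hc.integrable_of_hasCompactSupport (HasCompactSupport.of_compactSpace _)

end OUTM

open OUTM in
theorem OUT (hALG : Stmt_ALG) (hSMO : Stmt_SMO) (hRAY : Stmt_RAY) (hGEO : Stmt_GEO)
    (hFAR : Stmt_FAR) (_ : Stmt_DIF) : Stmt_OUT := by
  intro a u ρ N g h hd hfol hin
  have ha := hd.radius_nonneg
  obtain ⟨R, hR, hfar⟩ := hFAR a u ρ N g h hd
  obtain ⟨-, hct, hcd, -, -, hcH, hcp, -⟩ := hSMO a u ρ N g h hd
  -- the set of weakly trapped radii
  set T : Set ℝ := {s | a < s ∧ WeaklyTrapped g h s} with hT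
  have hne : T.Nonempty := by
    rcases hin with ⟨ha0, hlim⟩ | ⟨s, hs, hw⟩
    · by_contra hemp
      rw [Set.not_nonempty_iff_eq_empty] at hemp
      have hun : ∀ s : ℝ, a < s → Untrapped g h s := by
        intro s hs
        rcases hfol s hs with h1 | h1
        · exact absurd (show s ∈ T from ⟨hs, h1⟩) (by rw [hemp]; exact Set.notMem_empty s)
        · exact h1.1
      have hder : ∀ s : ℝ, a < s → 0 < deriv ρ s := by
        intro s hs
        obtain ⟨x, hx⟩ := exists_norm_eq (ha.trans hs.le)
        have hax : a < ‖x‖ := by rw [hx]; exact hs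
        have h1 : 0 < meanCurvature g x := (abs_nonneg _).trans_lt (hun s hs x hx)
        obtain ⟨-, -, hdB, htB, -⟩ := hALG a u ρ N g h hd x hax
        rw [(hGEO a u ρ N g h hd x hax).2.1, Hc, hx] at h1
        have h2 : 0 < tB u ρ x / dB u ρ x := div_pos htB hdB
        have h3 : 0 < deriv ρ s / N x := by
          by_contra hcon
          exact absurd h1 (not_lt.mpr (mul_nonpos_of_nonpos_of_nonneg (not_lt.mp hcon) h2.le))
        have h4 := mul_pos h3 (hd.N_pos x hax)
        rwa [div_mul_cancel₀ _ (hd.N_pos x hax).ne'] at h4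
      have hmono : StrictMonoOn ρ (Set.Ioi a) := by
        refine strictMonoOn_of_deriv_pos (convex_Ioi a) hd.smooth_rho.continuousOn ?_
        intro s hs
        rw [interior_Ioi] at hs
        exact hder s hs
      obtain ⟨-, hrt, hrd, -, -⟩ := hRAY a u ρ N g h hd
      have hdBmono : ∀ s t : ℝ, a < s → s ≤ t → ∀ θ : S2,
          dB u ρ (s • (θ : E3)) ≤ dB u ρ (t • (θ : E3)) := by
        intro s t hs hst θ
        have hs0 : 0 < s := ha.trans_lt hs
        have ht0 : 0 < t := hs0.trans_le hst
        have e1 := hrd s θ hs0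
        have e2 := hrd t θ ht0
        have f1 := hrt s θ hs0
        have f2 := hrt t θ ht0
        have p1 : 0 < tB u ρ (s • (θ : E3)) := (hALG a u ρ N g h hd _ (by
          rw [norm_smul_sphere hs0.le]; exact hs)).2.2.2.1
        have p2 : 0 < tB u ρ (t • (θ : E3)) := (hALG a u ρ N g h hd _ (by
          rw [norm_smul_sphere ht0.le]; exact hs.trans_le hst)).2.2.2.1
        have hρ : ρ s ≤ ρ t := hmono.monotoneOn hs (Set.mem_Ioi.mpr (hs.trans_le hst)) hst
        rw [e1, e2]
        rw [f1] at p1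
        rw [f2] at p2
        nlinarith [mul_nonneg (sub_nonneg.mpr hρ) (add_pos p1 p2).le]
      have harea : ∀ s : ℝ, a < s → s ≤ a + 1 → sphereArea g s ≤ sphereArea g (a + 1) := by
        intro s hs hs1
        have e : ∀ t : ℝ, a < t → sphereArea g t = ∫ θ : S2, dB u ρ (t • (θ : E3)) ∂mS := by
          intro t ht
          unfold sphereArea
          refine integral_congr_ae (Eventually.of_forall (fun θ => ?_))
          exact (hGEO a u ρ N g h hd _ (by
            rw [norm_smul_sphere (ha.trans ht.le)]; exact ht)).2.2.2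
        rw [e s hs, e (a + 1) (lt_add_one a)]
        exact integral_mono (integrable_sphere ha hs hcd.continuousOn)
          (integrable_sphere ha (lt_add_one a) hcd.continuousOn)
          (fun θ => hdBmono s (a + 1) hs hs1 θ)
      have h1 := (hlim.eventually (eventually_gt_atTop (sphereArea g (a + 1)))).and
        (Ioc_mem_nhdsGT (show (0 : ℝ) < 1 by norm_num))
      obtain ⟨s, hs1, hs2⟩ := h1.exists
      subst ha0
      exact absurd (harea s hs2.1 (by rw [zero_add]; exact hs2.2)) (not_le.mpr hs1)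
    · exact ⟨s, hs, hw⟩
  have hbdd : BddAbove T := by
    refine ⟨R, fun s hs => ?_⟩
    by_contra hcon
    exact not_both (ha.trans hs.1.le) (hfar s (not_le.mp hcon).le) hs.2
  set s₀ := sSup T with hs₀
  have hcl : s₀ ∈ closure T := csSup_mem_closure hne hbdd
  obtain ⟨s₁, hs₁⟩ := hne
  have has₀ : a < s₀ := hs₁.1.trans_le (le_csSup hbdd hs₁)
  refine ⟨s₀, has₀, ?_, ?_⟩
  · intro x hx
    have hax : a < ‖x‖ := by rw [hx]; exact has₀
    have hpos : 0 < s₀ := ha.trans_lt has₀
    rw [(hGEO a u ρ N g h hd x hax).2.1, (hGEO a u ρ N g h hd x hax).2.2.1]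
    by_contra hcon
    rw [not_le] at hcon
    -- the function along the ray
    have hray : ContinuousAt (fun t : ℝ => (t / s₀) • x) s₀ :=
      ((continuous_id.div_const s₀).smul continuous_const).continuousAt
    have hx0 : (s₀ / s₀) • x = x := by rw [div_self hpos.ne', one_smul]
    have hH : ContinuousAt (Hc u ρ N) ((s₀ / s₀) • x) := by
      rw [hx0]
      exact hcH.continuousOn.continuousAt ((isOpen_ext a).mem_nhds hax)
    have hp : ContinuousAt (pc u ρ h) ((s₀ / s₀) • x) := by
      rw [hx0]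
      exact hcp.continuousOn.continuousAt ((isOpen_ext a).mem_nhds hax)
    have hH' : ContinuousAt (fun t : ℝ => Hc u ρ N ((t / s₀) • x)) s₀ :=
      ContinuousAt.comp (f := fun t : ℝ => (t / s₀) • x) hH hray
    have hp' : ContinuousAt (fun t : ℝ => |pc u ρ h ((t / s₀) • x)|) s₀ :=
      (ContinuousAt.comp (f := fun t : ℝ => (t / s₀) • x) hp hray).abs
    have hev : ∀ᶠ t in 𝓝 s₀, |pc u ρ h ((t / s₀) • x)| < Hc u ρ N ((t / s₀) • x) :=
      hp'.eventually_lt hH' (by
        change |pc u ρ h ((s₀ / s₀) • x)| < Hc u ρ N ((s₀ / s₀) • x)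
        rw [hx0]
        exact hcon)
    rw [mem_closure_iff_frequently] at hcl
    obtain ⟨t, ht, ht2⟩ := (hcl.and_eventually hev).exists
    have ht0 : 0 < t := ha.trans_lt ht.1
    have hnt : ‖(t / s₀) • x‖ = t := by
      rw [norm_smul, Real.norm_eq_abs, abs_of_pos (div_pos ht0 hpos), hx,
        div_mul_cancel₀ _ hpos.ne']
    have hw := ht.2 _ hnt
    have hat : a < ‖(t / s₀) • x‖ := by rw [hnt]; exact ht.1
    rw [(hGEO a u ρ N g h hd _ hat).2.1, (hGEO a u ρ N g h hd _ hat).2.2.1] at hw
    exact absurd ht2 (not_lt.mpr hw)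
  · intro s hs
    have has : a < s := has₀.trans hs
    rcases hfol s has with h1 | h1
    · exact absurd (le_csSup hbdd (show s ∈ T from ⟨has, h1⟩)) (not_le.mpr hs)
    · exact h1

end Pool.Agent.PenroseConvex
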