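import Pool.Agent.PenroseConvex.Stmts
import Pool.Agent.PenroseSph.Calc

/-! # The Piola identity for tangential fields -/

open MeasureTheory Filter Topology
open scoped ContDiff

namespace Pool.Agent.PenroseConvex

open Pool.Agent.PenroseSph

namespace PIO

theorem pd_contDiffAt {f : E3 → ℝ} {x : E3} (hf : ContDiffAt ℝ ∞ f x) (i : Fin 3) :
    ContDiffAt ℝ ∞ (pd i f) x := by
  have h1 : ContDiffAt ℝ ∞ (fderiv ℝ f) x := hf.fderiv_right (m := ∞) (by norm_cast)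
  exact h1.clm_apply contDiffAt_const

theorem pd_differentiableAt {f : E3 → ℝ} {x : E3} (hf : ContDiffAt ℝ ∞ f x) (i : Fin 3) :
    DifferentiableAt ℝ (pd i f) x := (pd_contDiffAt hf i).differentiableAt (by simp)

theorem pd_comm {f : E3 → ℝ} {x : E3} (hf : ContDiffAt ℝ ∞ f x) (i j : Fin 3) :
    pd i (pd j f) x = pd j (pd i f) x := by
  have h1 : DifferentiableAt ℝ (fderiv ℝ f) x :=
    (hf.fderiv_right (m := ∞) (by norm_cast)).differentiableAt (by simp)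
  have h2 : ∀ i j : Fin 3, pd i (pd j f) x =
      fderiv ℝ (fderiv ℝ f) x (EuclideanSpace.single i 1) (EuclideanSpace.single j 1) := by
    intro i j
    unfold pd
    rw [fderiv_clm_apply h1 (differentiableAt_const _)]
    simp
  have h3 : IsSymmSndFDerivAt ℝ f x := by
    refine hf.isSymmSndFDerivAt ?_
    simp [minSmoothness_of_isRCLikeNormedField]
    norm_cast
  rw [h2, h2]
  exact h3 _ _

theorem fderiv_eq_sum {F : E3 → ℝ} {X : E3} (v : E3) :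
    fderiv ℝ F X v = ∑ b, pd b F X * v b := by
  unfold pd
  conv_lhs => rw [← (EuclideanSpace.basisFun (Fin 3) ℝ).sum_repr v]
  rw [map_sum]
  refine Finset.sum_congr rfl fun b _ => ?_
  rw [map_smul, smul_eq_mul, mul_comm]
  simp

theorem pd_comp {F : E3 → ℝ} {Φ : E3 → E3} {x : E3} (hF : DifferentiableAt ℝ F (Φ x))
    (hΦ : DifferentiableAt ℝ Φ x) (i : Fin 3) :
    pd i (fun y => F (Φ y)) x = ∑ b, pd b F (Φ x) * pd i (fun y => Φ y b) x := by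
  have h1 : fderiv ℝ (fun y => F (Φ y)) x = (fderiv ℝ F (Φ x)).comp (fderiv ℝ Φ x) :=
    fderiv_comp x hF hΦ
  have h2 : pd i (fun y => F (Φ y)) x =
      fderiv ℝ F (Φ x) (fderiv ℝ Φ x (EuclideanSpace.single i 1)) := by
    unfold pd
    rw [h1]
    rfl
  rw [h2, fderiv_eq_sum]
  refine Finset.sum_congr rfl fun b _ => ?_
  congr 1
  have h3 : HasFDerivAt (fun y => Φ y b)
      ((EuclideanSpace.proj b : E3 →L[ℝ] ℝ).comp (fderiv ℝ Φ x)) x :=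
    (EuclideanSpace.proj b : E3 →L[ℝ] ℝ).hasFDerivAt.comp x hΦ.hasFDerivAt
  unfold pd
  rw [h3.fderiv]
  rfl

/-- The cross product of the gradients of `f` and `g`. -/
noncomputable def crs (f g : E3 → ℝ) : Fin 3 → E3 → ℝ :=
  ![fun y => pd 1 f y * pd 2 g y - pd 2 f y * pd 1 g y,
    fun y => pd 2 f y * pd 0 g y - pd 0 f y * pd 2 g y,
    fun y => pd 0 f y * pd 1 g y - pd 1 f y * pd 0 g y]

theorem crs_diff {f g : E3 → ℝ} {x : E3} (hf : ContDiffAt ℝ ∞ f x) (hg : ContDiffAt ℝ ∞ g x)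
    (i : Fin 3) : DifferentiableAt ℝ (crs f g i) x := by
  have df := pd_differentiableAt hf
  have dg := pd_differentiableAt hg
  fin_cases i
  · exact ((df 1).fun_mul (dg 2)).sub ((df 2).fun_mul (dg 1))
  · exact ((df 2).fun_mul (dg 0)).sub ((df 0).fun_mul (dg 2))
  · exact ((df 0).fun_mul (dg 1)).sub ((df 1).fun_mul (dg 0))

theorem div_crs {f g w : E3 → ℝ} {x : E3} (hf : ContDiffAt ℝ ∞ f x) (hg : ContDiffAt ℝ ∞ g x)
    (hw : DifferentiableAt ℝ w x) :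
    ∑ i, pd i (fun y => crs f g i y * w y) x = ∑ i, crs f g i x * pd i w x := by
  have df := pd_differentiableAt hf
  have dg := pd_differentiableAt hg
  have h1 : ∀ i, pd i (fun y => crs f g i y * w y) x =
      crs f g i x * pd i w x + w x * pd i (crs f g i) x := fun i => pd_mul (crs_diff hf hg i) hw
  have e0 : pd 0 (crs f g 0) x = (pd 1 f x * pd 0 (pd 2 g) x + pd 2 g x * pd 0 (pd 1 f) x) -
      (pd 2 f x * pd 0 (pd 1 g) x + pd 1 g x * pd 0 (pd 2 f) x) := by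
    have h : crs f g 0 = fun y => pd 1 f y * pd 2 g y - pd 2 f y * pd 1 g y := rfl
    rw [h, pd_sub ((df 1).fun_mul (dg 2)) ((df 2).fun_mul (dg 1)), pd_mul (df 1) (dg 2),
      pd_mul (df 2) (dg 1)]
  have e1 : pd 1 (crs f g 1) x = (pd 2 f x * pd 1 (pd 0 g) x + pd 0 g x * pd 1 (pd 2 f) x) -
      (pd 0 f x * pd 1 (pd 2 g) x + pd 2 g x * pd 1 (pd 0 f) x) := by
    have h : crs f g 1 = fun y => pd 2 f y * pd 0 g y - pd 0 f y * pd 2 g y := rfl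
    rw [h, pd_sub ((df 2).fun_mul (dg 0)) ((df 0).fun_mul (dg 2)), pd_mul (df 2) (dg 0),
      pd_mul (df 0) (dg 2)]
  have e2 : pd 2 (crs f g 2) x = (pd 0 f x * pd 2 (pd 1 g) x + pd 1 g x * pd 2 (pd 0 f) x) -
      (pd 1 f x * pd 2 (pd 0 g) x + pd 0 g x * pd 2 (pd 1 f) x) := by
    have h : crs f g 2 = fun y => pd 0 f y * pd 1 g y - pd 1 f y * pd 0 g y := rfl
    rw [h, pd_sub ((df 0).fun_mul (dg 1)) ((df 1).fun_mul (dg 0)), pd_mul (df 0) (dg 1),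
      pd_mul (df 1) (dg 0)]
  have f01 := pd_comm hf 0 1
  have f02 := pd_comm hf 0 2
  have f12 := pd_comm hf 1 2
  have g01 := pd_comm hg 0 1
  have g02 := pd_comm hg 0 2
  have g12 := pd_comm hg 1 2
  simp only [h1, Fin.sum_univ_three]
  rw [e0, e1, e2, f01, f02, f12, g01, g02, g12]
  ring

/-- Cross product of rows. -/
def cx (p q : Fin 3 → ℝ) : Fin 3 → ℝ :=
  ![p 1 * q 2 - p 2 * q 1, p 2 * q 0 - p 0 * q 2, p 0 * q 1 - p 1 * q 0]

theorem crs_eq (f g : E3 → ℝ) (i : Fin 3) (y : E3) :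
    crs f g i y = cx (fun j => pd j f y) (fun j => pd j g y) i := by
  fin_cases i <;> rfl

/-- The algebraic identity: for a symmetric matrix `J` with inverse `K` and `z`, the cofactors of
`J` applied to `z` give `det J K z`. -/
theorem cof_alg (J K : Fin 3 → Fin 3 → ℝ) (D : ℝ) (z : Fin 3 → ℝ)
    (hJK : ∀ a i, ∑ j, J a j * K j i = if a = i then 1 else 0)
    (hD : D = J 0 0 * (J 1 1 * J 2 2 - J 1 2 * J 2 1) - J 0 1 * (J 1 0 * J 2 2 - J 1 2 * J 2 0) +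
      J 0 2 * (J 1 0 * J 2 1 - J 1 1 * J 2 0)) (i : Fin 3) :
    cx (J 1) (J 2) i * z 0 + cx (J 2) (J 0) i * z 1 + cx (J 0) (J 1) i * z 2 =
      D * ∑ j, K i j * z j := by
  simp only [Fin.sum_univ_three] at hJK ⊢
  have h00 := hJK 0 0
  have h01 := hJK 0 1
  have h02 := hJK 0 2
  have h10 := hJK 1 0
  have h11 := hJK 1 1
  have h12 := hJK 1 2
  have h20 := hJK 2 0
  have h21 := hJK 2 1
  have h22 := hJK 2 2
  simp at h00 h01 h02 h10 h11 h12 h20 h21 h22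
  fin_cases i
  · simp [cx]
    rw [hD]
    linear_combination (-((J 1 1 * J 2 2 - J 1 2 * J 2 1) * z 0)) * h00 -
      ((J 1 1 * J 2 2 - J 1 2 * J 2 1) * z 1) * h01 -
      ((J 1 1 * J 2 2 - J 1 2 * J 2 1) * z 2) * h02 -
      ((J 2 1 * J 0 2 - J 2 2 * J 0 1) * z 0) * h10 -
      ((J 2 1 * J 0 2 - J 2 2 * J 0 1) * z 1) * h11 -
      ((J 2 1 * J 0 2 - J 2 2 * J 0 1) * z 2) * h12 -
      ((J 0 1 * J 1 2 - J 0 2 * J 1 1) * z 0) * h20 -
      ((J 0 1 * J 1 2 - J 0 2 * J 1 1) * z 1) * h21 -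
      ((J 0 1 * J 1 2 - J 0 2 * J 1 1) * z 2) * h22
  · simp [cx]
    rw [hD]
    linear_combination (-((J 1 2 * J 2 0 - J 1 0 * J 2 2) * z 0)) * h00 -
      ((J 1 2 * J 2 0 - J 1 0 * J 2 2) * z 1) * h01 -
      ((J 1 2 * J 2 0 - J 1 0 * J 2 2) * z 2) * h02 -
      ((J 2 2 * J 0 0 - J 2 0 * J 0 2) * z 0) * h10 -
      ((J 2 2 * J 0 0 - J 2 0 * J 0 2) * z 1) * h11 -
      ((J 2 2 * J 0 0 - J 2 0 * J 0 2) * z 2) * h12 -
      ((J 0 2 * J 1 0 - J 0 0 * J 1 2) * z 0) * h20 -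
      ((J 0 2 * J 1 0 - J 0 0 * J 1 2) * z 1) * h21 -
      ((J 0 2 * J 1 0 - J 0 0 * J 1 2) * z 2) * h22
  · simp [cx]
    rw [hD]
    linear_combination (-((J 1 0 * J 2 1 - J 1 1 * J 2 0) * z 0)) * h00 -
      ((J 1 0 * J 2 1 - J 1 1 * J 2 0) * z 1) * h01 -
      ((J 1 0 * J 2 1 - J 1 1 * J 2 0) * z 2) * h02 -
      ((J 2 0 * J 0 1 - J 2 1 * J 0 0) * z 0) * h10 -
      ((J 2 0 * J 0 1 - J 2 1 * J 0 0) * z 1) * h11 -
      ((J 2 0 * J 0 1 - J 2 1 * J 0 0) * z 2) * h12 -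
      ((J 0 0 * J 1 1 - J 0 1 * J 1 0) * z 0) * h20 -
      ((J 0 0 * J 1 1 - J 0 1 * J 1 0) * z 1) * h21 -
      ((J 0 0 * J 1 1 - J 0 1 * J 1 0) * z 2) * h22

/-- The determinant of `t B + s ν ν^T` for a symmetric `B` with `B ν = 0`. -/
theorem det_alg (b00 b01 b02 b11 b12 b22 n0 n1 n2 t s : ℝ) (hn : n0 ^ 2 + n1 ^ 2 + n2 ^ 2 = 1)
    (E0 : b00 * n0 + b01 * n1 + b02 * n2 = 0) (E1 : b01 * n0 + b11 * n1 + b12 * n2 = 0)
    (E2 : b02 * n0 + b12 * n1 + b22 * n2 = 0) :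
    (t * b00 + s * (n0 * n0)) * ((t * b11 + s * (n1 * n1)) * (t * b22 + s * (n2 * n2)) -
        (t * b12 + s * (n1 * n2)) * (t * b12 + s * (n1 * n2))) -
      (t * b01 + s * (n0 * n1)) * ((t * b01 + s * (n0 * n1)) * (t * b22 + s * (n2 * n2)) -
        (t * b12 + s * (n1 * n2)) * (t * b02 + s * (n0 * n2))) +
      (t * b02 + s * (n0 * n2)) * ((t * b01 + s * (n0 * n1)) * (t * b12 + s * (n1 * n2)) -
        (t * b11 + s * (n1 * n1)) * (t * b02 + s * (n0 * n2))) =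
      t ^ 2 * s * (((b00 + b11 + b22) ^ 2 -
        (b00 ^ 2 + b11 ^ 2 + b22 ^ 2 + 2 * b01 ^ 2 + 2 * b02 ^ 2 + 2 * b12 ^ 2)) / 2) := by
  linear_combination
    (-t ^ 3 * (b00 * (b11 * b22 - b12 ^ 2) + b01 * (b02 * b12 - b01 * b22) +
        b02 * (b01 * b12 - b02 * b11)) +
      t ^ 2 * s * (((b00 + b11 + b22) ^ 2 -
        (b00 ^ 2 + b11 ^ 2 + b22 ^ 2 + 2 * b01 ^ 2 + 2 * b02 ^ 2 + 2 * b12 ^ 2)) / 2)) * hn +
    (t ^ 3 * (n0 * (b11 * b22 - b12 ^ 2) + n1 * (b02 * b12 - b01 * b22) +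
        n2 * (b01 * b12 - b02 * b11)) +
      t ^ 2 * s * ((b00 * n0 + b01 * n1 + b02 * n2) - (b00 + b11 + b22) * n0)) * E0 +
    (t ^ 3 * (n0 * (b02 * b12 - b01 * b22) + n1 * (b00 * b22 - b02 ^ 2) +
        n2 * (b01 * b02 - b00 * b12)) +
      t ^ 2 * s * ((b01 * n0 + b11 * n1 + b12 * n2) - (b00 + b11 + b22) * n1)) * E1 +
    (t ^ 3 * (n0 * (b01 * b12 - b02 * b11) + n1 * (b01 * b02 - b00 * b12) +
        n2 * (b00 * b11 - b01 ^ 2)) +
      t ^ 2 * s * ((b02 * n0 + b12 * n1 + b22 * n2) - (b00 + b11 + b22) * n2)) * E2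

theorem sum_nu_sq {y : E3} (hy : y ≠ 0) : nu y 0 ^ 2 + nu y 1 ^ 2 + nu y 2 ^ 2 = 1 := by
  have h1 := norm_sq_eq y
  have h2 : ‖y‖ ≠ 0 := norm_ne_zero_iff.2 hy
  unfold nu
  field_simp
  exact h1.symm

/-- The determinant in terms of entries. -/
def dt (J : Fin 3 → Fin 3 → ℝ) : ℝ :=
  J 0 0 * (J 1 1 * J 2 2 - J 1 2 * J 2 1) - J 0 1 * (J 1 0 * J 2 2 - J 1 2 * J 2 0) +
      J 0 2 * (J 1 0 * J 2 1 - J 1 1 * J 2 0)

/-- Contraction of the cofactors with the rows. -/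
theorem cx_sum (J : Fin 3 → Fin 3 → ℝ) (P Q R : Fin 3 → ℝ) :
    ∑ i, (cx (J 1) (J 2) i * (∑ b, P b * J b i) + cx (J 2) (J 0) i * (∑ b, Q b * J b i) +
      cx (J 0) (J 1) i * (∑ b, R b * J b i)) = dt J * (P 0 + Q 1 + R 2) := by
  simp only [Fin.sum_univ_three, cx, dt, Matrix.cons_val_zero, Matrix.cons_val_one,
    Matrix.cons_val]
  ring

end PIO

theorem PIO (hALG : Stmt_ALG) (hSMO : Stmt_SMO) : Stmt_PIO := by
  intro a u ρ N g h hp x hx hρ Φ d M k hB Z z hZ hZz hz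
  have ha : 0 ≤ a := hp.radius_nonneg
  have hsub : ∀ y : E3, a < ‖y‖ → y ≠ 0 := by
    rintro y hy rfl
    rw [norm_zero] at hy
    linarith
  have hopen : ∀ᶠ y in 𝓝 x, a < ‖y‖ := by
    have : IsOpen {y : E3 | a < ‖y‖} := isOpen_lt continuous_const continuous_norm
    exact this.mem_nhds hx
  have hρe : ∀ᶠ y in 𝓝 x, 0 < deriv ρ ‖y‖ := by
    have h1 := (hSMO a u ρ N g h hp).2.2.2.2.1
    have : IsOpen {y : E3 | a < ‖y‖} := isOpen_lt continuous_const continuous_norm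
    have h2 : ContinuousAt (fun y : E3 => deriv ρ ‖y‖) x :=
      (h1.contDiffAt (this.mem_nhds hx)).continuousAt
    exact h2.eventually (lt_mem_nhds hρ)
  -- the Jacobian matrix, its inverse and determinant near `x`
  have hdet : ∀ᶠ y in 𝓝 x, PIO.dt (jac Φ y) = deriv ρ ‖y‖ * dB u ρ y / ‖y‖ ^ 2 := by
    filter_upwards [hopen, hB.jac_eq] with y hy hJ
    obtain ⟨s1, s2, -⟩ := hALG a u ρ N g h hp y hy
    have hy0 := hsub y hy
    have hr : ‖y‖ ≠ 0 := norm_ne_zero_iff.2 hy0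
    have hn := PIO.sum_nu_sq hy0
    have E0 := s2 0
    have E1 := s2 1
    have E2 := s2 2
    rw [Fin.sum_univ_three] at E0 E1 E2
    rw [s1 1 0] at E1
    rw [s1 2 0, s1 2 1] at E2
    have h1 := PIO.det_alg _ _ _ _ _ _ _ _ _ (1 / ‖y‖) (deriv ρ ‖y‖) hn E0 E1 E2
    have h2 : dB u ρ y = ((radii u ρ y 0 0 + radii u ρ y 1 1 + radii u ρ y 2 2) ^ 2 -
        (radii u ρ y 0 0 ^ 2 + radii u ρ y 1 1 ^ 2 + radii u ρ y 2 2 ^ 2 +
          2 * radii u ρ y 0 1 ^ 2 + 2 * radii u ρ y 0 2 ^ 2 + 2 * radii u ρ y 1 2 ^ 2)) / 2 := by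
      unfold dB tB
      simp only [Fin.sum_univ_three]
      rw [s1 1 0, s1 2 0, s1 2 1]
      ring
    rw [← h2] at h1
    unfold PIO.dt
    simp only [hJ]
    rw [s1 1 0, s1 2 0, s1 2 1]
    calc _ = (1 / ‖y‖) ^ 2 * deriv ρ ‖y‖ * dB u ρ y := by
          rw [← h1]
          ring
      _ = _ := by
          field_simp
  have hcof : ∀ᶠ y in 𝓝 x, ∀ i, PIO.cx (jac Φ y 1) (jac Φ y 2) i * z 0 y +
      PIO.cx (jac Φ y 2) (jac Φ y 0) i * z 1 y + PIO.cx (jac Φ y 0) (jac Φ y 1) i * z 2 y =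
      deriv ρ ‖y‖ / ‖y‖ * dB u ρ y * ∑ j, cB u ρ i j y * z j y := by
    filter_upwards [hopen, hB.jac_eq, hρe, hdet, hz] with y hy hJ hρy hD hzy i
    obtain ⟨s1, s2, -, -, s5, s6, s7, -⟩ := hALG a u ρ N g h hp y hy
    have hy0 := hsub y hy
    have hr : ‖y‖ ≠ 0 := norm_ne_zero_iff.2 hy0
    have hρ0 : deriv ρ ‖y‖ ≠ 0 := hρy.ne'
    have hn := PIO.sum_nu_sq hy0
    have h1 := PIO.cof_alg (jac Φ y)
      (fun i j => ‖y‖ * cB u ρ i j y + nu y i * nu y j / deriv ρ ‖y‖) (PIO.dt (jac Φ y))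
      (fun j => z j y) (by
        intro b c
        have t1 := s7 b c
        have t2 := s2 b
        have t3 : ∑ j, cB u ρ j c y * nu y j = 0 := by
          rw [← s6 c]
          exact Finset.sum_congr rfl fun j _ => by rw [s5]
        have hdk : (if b = c then (1 : ℝ) else 0) = dk b c := rfl
        rw [hdk]
        simp only [hJ]
        rw [Fin.sum_univ_three] at t1 t2 t3 ⊢
        have e1 : (radii u ρ y b 0 / ‖y‖ + deriv ρ ‖y‖ * (nu y b * nu y 0)) *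
              (‖y‖ * cB u ρ 0 c y + nu y 0 * nu y c / deriv ρ ‖y‖) +
            (radii u ρ y b 1 / ‖y‖ + deriv ρ ‖y‖ * (nu y b * nu y 1)) *
              (‖y‖ * cB u ρ 1 c y + nu y 1 * nu y c / deriv ρ ‖y‖) +
            (radii u ρ y b 2 / ‖y‖ + deriv ρ ‖y‖ * (nu y b * nu y 2)) *
              (‖y‖ * cB u ρ 2 c y + nu y 2 * nu y c / deriv ρ ‖y‖) =
            (radii u ρ y b 0 * cB u ρ 0 c y + radii u ρ y b 1 * cB u ρ 1 c y +
              radii u ρ y b 2 * cB u ρ 2 c y) +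
            nu y c / (‖y‖ * deriv ρ ‖y‖) * (radii u ρ y b 0 * nu y 0 + radii u ρ y b 1 * nu y 1 +
              radii u ρ y b 2 * nu y 2) +
            deriv ρ ‖y‖ * ‖y‖ * nu y b * (cB u ρ 0 c y * nu y 0 + cB u ρ 1 c y * nu y 1 +
              cB u ρ 2 c y * nu y 2) +
            nu y b * nu y c * (nu y 0 ^ 2 + nu y 1 ^ 2 + nu y 2 ^ 2) := by
          field_simp
          ring
        rw [e1, t1, t2, t3, hn]
        ring) rfl i
    rw [h1, hD]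
    have h2 : ∑ j, (‖y‖ * cB u ρ i j y + nu y i * nu y j / deriv ρ ‖y‖) * z j y =
        ‖y‖ * ∑ j, cB u ρ i j y * z j y + nu y i / deriv ρ ‖y‖ * ∑ j, nu y j * z j y := by
      rw [Finset.mul_sum, Finset.mul_sum, ← Finset.sum_add_distrib]
      exact Finset.sum_congr rfl fun j _ => by ring
    rw [h2, hzy, mul_zero, add_zero]
    field_simp
  -- the calculus
  have hf : ∀ b : Fin 3, ContDiffAt ℝ ∞ (fun y => Φ y b) x := by
    intro b
    exact (EuclideanSpace.proj b : E3 →L[ℝ] ℝ).contDiff.contDiffAt.comp x hB.smooth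
  have hΦ : DifferentiableAt ℝ Φ x := hB.smooth.differentiableAt (by simp)
  have hw : ∀ b : Fin 3, DifferentiableAt ℝ (fun y => Z b (Φ y)) x := fun b =>
    (hZ b).comp x hΦ
  have hEq : ∀ i, (fun y => deriv ρ ‖y‖ / ‖y‖ * dB u ρ y * ∑ j, cB u ρ i j y * z j y) =ᶠ[𝓝 x]
      fun y => PIO.crs (fun y => Φ y 1) (fun y => Φ y 2) i y * Z 0 (Φ y) +
        PIO.crs (fun y => Φ y 2) (fun y => Φ y 0) i y * Z 1 (Φ y) +
        PIO.crs (fun y => Φ y 0) (fun y => Φ y 1) i y * Z 2 (Φ y) := by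
    intro i
    filter_upwards [hcof, hZz] with y h1 h2
    rw [← h1 i, h2, h2, h2, PIO.crs_eq, PIO.crs_eq, PIO.crs_eq]
    rfl
  have hdiv : ∀ i, pd i (fun y => deriv ρ ‖y‖ / ‖y‖ * dB u ρ y * ∑ j, cB u ρ i j y * z j y) x =
      pd i (fun y => PIO.crs (fun y => Φ y 1) (fun y => Φ y 2) i y * Z 0 (Φ y)) x +
      pd i (fun y => PIO.crs (fun y => Φ y 2) (fun y => Φ y 0) i y * Z 1 (Φ y)) x +
      pd i (fun y => PIO.crs (fun y => Φ y 0) (fun y => Φ y 1) i y * Z 2 (Φ y)) x := by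
    intro i
    have d1 := (PIO.crs_diff (hf 1) (hf 2) i).fun_mul (hw 0)
    have d2 := (PIO.crs_diff (hf 2) (hf 0) i).fun_mul (hw 1)
    have d3 := (PIO.crs_diff (hf 0) (hf 1) i).fun_mul (hw 2)
    rw [pd_congr (hEq i), pd_add (d1.fun_add d2) d3, pd_add d1 d2]
  simp only [hdiv]
  rw [Finset.sum_add_distrib, Finset.sum_add_distrib, PIO.div_crs (hf 1) (hf 2) (hw 0),
    PIO.div_crs (hf 2) (hf 0) (hw 1), PIO.div_crs (hf 0) (hf 1) (hw 2),
    ← Finset.sum_add_distrib, ← Finset.sum_add_distrib]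
  simp only [PIO.pd_comp (hZ _) hΦ]
  have h3 := PIO.cx_sum (jac Φ x) (fun b => pd b (Z 0) (Φ x)) (fun b => pd b (Z 1) (Φ x))
    (fun b => pd b (Z 2) (Φ x))
  rw [hdet.self_of_nhds] at h3
  rw [Fin.sum_univ_three (fun i => pd i (Z i) (Φ x))]
  have h4 : (pd 0 (Z 0) (Φ x) + pd 1 (Z 1) (Φ x) + pd 2 (Z 2) (Φ x)) *
      (deriv ρ ‖x‖ * dB u ρ x / ‖x‖ ^ 2) = deriv ρ ‖x‖ * dB u ρ x / ‖x‖ ^ 2 *
      (pd 0 (Z 0) (Φ x) + pd 1 (Z 1) (Φ x) + pd 2 (Z 2) (Φ x)) := by ring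
  rw [h4, ← h3]
  refine Finset.sum_congr rfl fun i _ => ?_
  rw [PIO.crs_eq, PIO.crs_eq, PIO.crs_eq]
  rfl

end Pool.Agent.PenroseConvex
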