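import Pool.Agent.PenroseConvex.Stmts
import Pool.Agent.PenroseSph.Calc

/-! # Module RAY: homogeneity, closed forms along rays -/

open MeasureTheory Filter Topology
open scoped ContDiff

namespace Pool.Agent.PenroseConvex

open Pool.Agent.PenroseSph

namespace RAYM

theorem contDiffAt_pd {f : E3 → ℝ} {x : E3} (hf : ContDiffAt ℝ ∞ f x) (i : Fin 3) :
    ContDiffAt ℝ ∞ (pd i f) x := by
  have h1 : ContDiffAt ℝ ∞ (fderiv ℝ f) x := hf.fderiv_right (by norm_cast)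
  exact h1.clm_apply contDiffAt_const

theorem diff_of {f : E3 → ℝ} {x : E3} (hf : ContDiffAt ℝ ∞ f x) : DifferentiableAt ℝ f x :=
  hf.differentiableAt (by norm_cast)

theorem pd_smul {f : E3 → ℝ} {x : E3} {t : ℝ} (hf : DifferentiableAt ℝ f (t • x)) (i : Fin 3) :
    pd i (fun y => f (t • y)) x = t * pd i f (t • x) := by
  unfold pd
  have h1 : HasFDerivAt (fun y : E3 => t • y) (t • ContinuousLinearMap.id ℝ E3) x :=
    (hasFDerivAt_id x).const_smul t
  have h2 := hf.hasFDerivAt.comp x h1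
  have h3 : fderiv ℝ (fun y => f (t • y)) x =
      (fderiv ℝ f (t • x)).comp (t • ContinuousLinearMap.id ℝ E3) := h2.fderiv
  rw [h3]
  simp

variable {a : ℝ} {u : E3 → ℝ} {ρ : ℝ → ℝ} {N : E3 → ℝ} {g h : TensorField}

theorem smooth_u (H : ParallelData a u ρ N g h) {x : E3} (hx : x ≠ 0) : ContDiffAt ℝ ∞ u x :=
  (H.smooth_u x hx).contDiffAt (isOpen_compl_singleton.mem_nhds hx)

theorem hom1 (H : ParallelData a u ρ N g h) {x : E3} (hx : x ≠ 0) {t : ℝ} (ht : 0 < t)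
    (j : Fin 3) : pd j u (t • x) = pd j u x := by
  have htx : t • x ≠ 0 := smul_ne_zero ht.ne' hx
  have h1 : pd j (fun y => u (t • y)) x = t * pd j u (t • x) :=
    pd_smul (diff_of (smooth_u H htx)) j
  have h2 : pd j (fun y => u (t • y)) x = pd j (fun y => t * u y) x := by
    apply pd_congr
    filter_upwards [isOpen_compl_singleton.mem_nhds hx] with y hy
    exact H.homogeneous_u y hy t ht
  rw [pd_const_mul t (diff_of (smooth_u H hx)), h1] at h2
  exact mul_left_cancel₀ ht.ne' h2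

theorem hom2 (H : ParallelData a u ρ N g h) {x : E3} (hx : x ≠ 0) {t : ℝ} (ht : 0 < t)
    (i j : Fin 3) : t * pd i (pd j u) (t • x) = pd i (pd j u) x := by
  have htx : t • x ≠ 0 := smul_ne_zero ht.ne' hx
  have h1 : pd i (fun y => pd j u (t • y)) x = t * pd i (pd j u) (t • x) :=
    pd_smul (diff_of (contDiffAt_pd (smooth_u H htx) j)) i
  rw [← h1]
  apply pd_congr
  filter_upwards [isOpen_compl_singleton.mem_nhds hx] with y hy
  exact hom1 H hy ht j

/-- The derivative along a ray. -/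
theorem ray_deriv {F : E3 → ℝ} {x : E3} (hF : DifferentiableAt ℝ F x) (hx : x ≠ 0) :
    HasDerivAt (fun t : ℝ => F (t • (‖x‖⁻¹ • x))) (∑ i, nu x i * pd i F x) ‖x‖ := by
  have hn : ‖x‖ ≠ 0 := norm_ne_zero_iff.mpr hx
  have h0 : ‖x‖ • (‖x‖⁻¹ • x) = x := by rw [smul_smul, mul_inv_cancel₀ hn, one_smul]
  have h1 : HasDerivAt (fun t : ℝ => t • (‖x‖⁻¹ • x)) (‖x‖⁻¹ • x) ‖x‖ := by
    simpa using (hasDerivAt_id ‖x‖).smul_const (‖x‖⁻¹ • x)
  have hF' : HasFDerivAt F (fderiv ℝ F x) (‖x‖ • (‖x‖⁻¹ • x)) := by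
    rw [h0]
    exact hF.hasFDerivAt
  have h2 := hF'.comp_hasDerivAt ‖x‖ h1
  have h3 : (∑ i, nu x i * pd i F x) = fderiv ℝ F x (‖x‖⁻¹ • x) := by
    have h4 : (‖x‖⁻¹ • x : E3) = ∑ i, nu x i • EuclideanSpace.single i (1 : ℝ) := by
      ext j
      simp [nu, Fin.sum_univ_three]
      fin_cases j <;> simp <;> ring
    rw [h4, map_sum]
    refine Finset.sum_congr rfl fun i _ => ?_
    rw [map_smul, smul_eq_mul]
    rfl
  rw [h3]
  exact h2

theorem norm_theta (θ : S2) : ‖(θ : E3)‖ = 1 := by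
  have := θ.2
  rwa [mem_sphere_zero_iff_norm] at this

theorem theta_ne (θ : S2) : (θ : E3) ≠ 0 := by
  rw [← norm_ne_zero_iff, norm_theta]
  exact one_ne_zero

theorem theta_sq (θ : S2) : (θ : E3) 0 ^ 2 + (θ : E3) 1 ^ 2 + (θ : E3) 2 ^ 2 = 1 := by
  rw [← norm_sq_eq, norm_theta, one_pow]

/-- `∑_i θ_i ∂_i ∂_j u = 0`. -/
theorem euler (H : ParallelData a u ρ N g h) (θ : S2) (j : Fin 3) :
    ∑ i, (θ : E3) i * pd i (pd j u) (θ : E3) = 0 := by
  have hx := theta_ne θ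
  have h1 := ray_deriv (diff_of (contDiffAt_pd (smooth_u H hx) j)) hx
  rw [norm_theta, inv_one, one_smul] at h1
  have h2 : HasDerivAt (fun t : ℝ => pd j u (t • (θ : E3))) 0 1 := by
    refine (hasDerivAt_const (1 : ℝ) (pd j u (θ : E3))).congr_of_eventuallyEq ?_
    filter_upwards [lt_mem_nhds (show (0 : ℝ) < 1 by norm_num)] with t ht
    exact hom1 H hx ht j
  have h3 := h1.unique h2
  rw [← h3]
  refine Finset.sum_congr rfl fun i _ => ?_
  unfold nu
  rw [norm_theta, div_one]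

theorem norm_s (s : ℝ) (hs : 0 < s) (θ : S2) : ‖s • (θ : E3)‖ = s := by
  rw [norm_smul, norm_theta, mul_one, Real.norm_of_nonneg hs.le]

theorem nu_s (s : ℝ) (hs : 0 < s) (θ : S2) (i : Fin 3) : nu (s • (θ : E3)) i = (θ : E3) i := by
  unfold nu
  rw [norm_s s hs θ]
  simp only [PiLp.smul_apply, smul_eq_mul]
  field_simp

theorem radii_ray (H : ParallelData a u ρ N g h) (s : ℝ) (θ : S2) (hs : 0 < s) (i j : Fin 3) :
    radii u ρ (s • (θ : E3)) i j
      = pd i (pd j u) (θ : E3) + ρ s * (dk i j - (θ : E3) i * (θ : E3) j) := by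
  unfold radii dk
  rw [Matrix.of_apply, norm_s s hs θ, nu_s s hs θ, nu_s s hs θ, hom2 H (theta_ne θ) hs]

theorem tB_ray (H : ParallelData a u ρ N g h) (s : ℝ) (θ : S2) (hs : 0 < s) :
    tB u ρ (s • (θ : E3)) = (∑ i, pd i (pd i u) (θ : E3)) + 2 * ρ s := by
  unfold tB
  simp only [radii_ray H s θ hs, Fin.sum_univ_three, dk, if_true]
  linear_combination (-ρ s) * theta_sq θ

theorem dB_ray (H : ParallelData a u ρ N g h) (s : ℝ) (θ : S2) (hs : 0 < s) :
    dB u ρ (s • (θ : E3))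
      = ((∑ i, pd i (pd i u) (θ : E3)) ^ 2 - ∑ i, ∑ j, pd i (pd j u) (θ : E3) ^ 2) / 2
        + ρ s * (∑ i, pd i (pd i u) (θ : E3)) + ρ s ^ 2 := by
  unfold dB
  rw [tB_ray H s θ hs]
  simp only [radii_ray H s θ hs]
  have e0 := euler H θ 0
  have e1 := euler H θ 1
  have e2 := euler H θ 2
  have en := theta_sq θ
  simp only [Fin.sum_univ_three] at e0 e1 e2 ⊢
  simp only [dk]
  simp only [if_true, Fin.isValue, Fin.reduceEq, if_false]
  generalize (θ : E3) 0 = x at *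
  generalize (θ : E3) 1 = y at *
  generalize (θ : E3) 2 = z at *
  linear_combination (ρ s * x) * e0 + (ρ s * y) * e1 + (ρ s * z) * e2 +
    (-(ρ s ^ 2 / 2) * (x ^ 2 + y ^ 2 + z ^ 2 - 1)) * en

theorem tB_eq (x : E3) (hx : x ≠ 0) :
    tB u ρ x = ‖x‖ * (∑ i, pd i (pd i u) x) + 2 * ρ ‖x‖ := by
  have hn : ‖x‖ ≠ 0 := norm_ne_zero_iff.mpr hx
  have h1 : nu x 0 ^ 2 + nu x 1 ^ 2 + nu x 2 ^ 2 = 1 := by
    unfold nu
    have := norm_sq_eq x
    field_simp
    linarith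
  unfold tB radii
  simp only [Matrix.of_apply, if_true, Fin.sum_univ_three]
  linear_combination (-ρ ‖x‖) * h1

theorem tB_diff (H : ParallelData a u ρ N g h) (x : E3) (hx : a < ‖x‖) :
    DifferentiableAt ℝ (tB u ρ) x := by
  have hpos : 0 < ‖x‖ := lt_of_le_of_lt H.radius_nonneg hx
  have hx0 : x ≠ 0 := norm_pos_iff.mp hpos
  have h1 : DifferentiableAt ℝ (fun y : E3 => ‖y‖ * (∑ i, pd i (pd i u) y) + 2 * ρ ‖y‖) x := by
    have h2 : ∀ i, DifferentiableAt ℝ (pd i (pd i u)) x := fun i =>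
      diff_of (contDiffAt_pd (contDiffAt_pd (smooth_u H hx0) i) i)
    have h3 : DifferentiableAt ℝ (fun y : E3 => ∑ i, pd i (pd i u) y) x := by
      apply DifferentiableAt.fun_sum
      intro i _
      exact h2 i
    have h4 : ContDiffAt ℝ ∞ ρ ‖x‖ :=
      (H.smooth_rho ‖x‖ hx).contDiffAt (isOpen_Ioi.mem_nhds hx)
    have h5 : HasDerivAt ρ (deriv ρ ‖x‖) ‖x‖ :=
      (h4.differentiableAt (by norm_cast)).hasDerivAt
    exact ((differentiableAt_norm hx0).mul h3).add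
      ((differentiableAt_radial hx0 h5).const_mul 2)
  refine h1.congr_of_eventuallyEq ?_
  filter_upwards [isOpen_compl_singleton.mem_nhds hx0] with y hy
  exact tB_eq y hy

theorem tB_radial (H : ParallelData a u ρ N g h) (x : E3) (hx : a < ‖x‖) :
    ∑ i, nu x i * pd i (tB u ρ) x = 2 * deriv ρ ‖x‖ := by
  have hpos : 0 < ‖x‖ := lt_of_le_of_lt H.radius_nonneg hx
  have hx0 : x ≠ 0 := norm_pos_iff.mp hpos
  have h1 := ray_deriv (tB_diff H x hx) hx0
  have hθ : ‖x‖⁻¹ • x ∈ Metric.sphere (0 : E3) 1 := by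
    rw [mem_sphere_zero_iff_norm, norm_smul, norm_inv, norm_norm, inv_mul_cancel₀ hpos.ne']
  let θ : S2 := ⟨‖x‖⁻¹ • x, hθ⟩
  have h4 : ContDiffAt ℝ ∞ ρ ‖x‖ :=
    (H.smooth_rho ‖x‖ hx).contDiffAt (isOpen_Ioi.mem_nhds hx)
  have h5 : HasDerivAt ρ (deriv ρ ‖x‖) ‖x‖ :=
    (h4.differentiableAt (by norm_cast)).hasDerivAt
  have h2 : HasDerivAt (fun t : ℝ => tB u ρ (t • (‖x‖⁻¹ • x))) (2 * deriv ρ ‖x‖) ‖x‖ := by
    have h6 : HasDerivAt (fun t : ℝ => (∑ i, pd i (pd i u) (θ : E3)) + 2 * ρ t)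
        (2 * deriv ρ ‖x‖) ‖x‖ := (h5.const_mul 2).const_add _
    refine h6.congr_of_eventuallyEq ?_
    filter_upwards [lt_mem_nhds hpos] with t ht
    exact tB_ray H t θ ht
  exact h1.unique h2

theorem bound (H : ParallelData a u ρ N g h) :
    ∃ C : ℝ, ∀ (θ : S2) (i j : Fin 3), |pd i (pd j u) (θ : E3)| ≤ C := by
  have hc : ContinuousOn (fun x : E3 => ∑ i : Fin 3, ∑ j : Fin 3, |pd i (pd j u) x|)
      (Metric.sphere (0 : E3) 1) := by
    intro x hx
    have hx0 : x ≠ 0 := by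
      rintro rfl
      simp at hx
    apply ContinuousAt.continuousWithinAt
    refine tendsto_finsetSum _ fun i _ => tendsto_finsetSum _ fun j _ => ?_
    exact ((contDiffAt_pd (contDiffAt_pd (smooth_u H hx0) j) i).continuousAt).abs
  obtain ⟨C, hC⟩ := (isCompact_sphere (0 : E3) 1).exists_bound_of_continuousOn hc
  refine ⟨C, fun θ i j => ?_⟩
  have h1 := hC θ θ.2
  rw [Real.norm_of_nonneg (Finset.sum_nonneg fun i _ =>
    Finset.sum_nonneg fun j _ => abs_nonneg _)] at h1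
  refine le_trans ?_ h1
  refine le_trans ?_ (Finset.single_le_sum (f := fun i : Fin 3 =>
    ∑ j : Fin 3, |pd i (pd j u) (θ : E3)|)
    (fun i _ => Finset.sum_nonneg fun j _ => abs_nonneg _) (Finset.mem_univ i))
  exact Finset.single_le_sum (f := fun j : Fin 3 => |pd i (pd j u) (θ : E3)|)
    (fun j _ => abs_nonneg _) (Finset.mem_univ j)

end RAYM

theorem RAY : Stmt_RAY := fun _ _ _ _ _ _ H =>
  ⟨fun s θ hs i j => RAYM.radii_ray H s θ hs i j, fun s θ hs => RAYM.tB_ray H s θ hs,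
    fun s θ hs => RAYM.dB_ray H s θ hs, fun x hx => RAYM.tB_radial H x hx, RAYM.bound H⟩

end Pool.Agent.PenroseConvex
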