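import Pool.Agent.PenroseConvex.Stmts

/-! # SMO: smoothness of the closed forms -/

open MeasureTheory Filter Topology
open scoped ContDiff

namespace Pool.Agent.PenroseConvex

open Pool.Agent.PenroseSph

namespace SMOaux

lemma coord_cd (i : Fin 3) (x : E3) : ContDiffAt ℝ ∞ (fun y : E3 => y i) x :=
  (contDiff_euclidean.mp contDiff_id i).contDiffAt

lemma norm_cd {x : E3} (hx : x ≠ 0) : ContDiffAt ℝ ∞ (fun y : E3 => ‖y‖) x :=
  contDiffAt_norm ℝ hx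

lemma nu_cd (i : Fin 3) {x : E3} (hx : x ≠ 0) : ContDiffAt ℝ ∞ (fun y : E3 => nu y i) x := by
  unfold nu
  exact (coord_cd i x).div (norm_cd hx) (norm_ne_zero_iff.mpr hx)

lemma pd_cd (i : Fin 3) {f : E3 → ℝ} {x : E3} (hf : ContDiffAt ℝ ∞ f x) :
    ContDiffAt ℝ ∞ (pd i f) x := by
  unfold pd
  exact (hf.fderiv_right (m := ∞) le_rfl).clm_apply contDiffAt_const

lemma sum_cd {f : Fin 3 → E3 → ℝ} {x : E3} (hf : ∀ i, ContDiffAt ℝ ∞ (f i) x) :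
    ContDiffAt ℝ ∞ (fun y => ∑ i, f i y) x :=
  ContDiffAt.sum fun i _ => hf i

lemma deriv_cd {ρ : ℝ → ℝ} {r : ℝ} (hf : ContDiffAt ℝ ∞ ρ r) : ContDiffAt ℝ ∞ (deriv ρ) r := by
  have h1 : ContDiffAt ℝ ∞ (fun s => fderiv ℝ ρ s (1 : ℝ)) r :=
    (hf.fderiv_right (m := ∞) le_rfl).clm_apply contDiffAt_const
  have h2 : (fun s => fderiv ℝ ρ s (1 : ℝ)) = deriv ρ := by
    funext s
    exact fderiv_apply_one_eq_deriv
  rwa [h2] at h1

section
variable {a : ℝ} {u : E3 → ℝ} {ρ : ℝ → ℝ} {N : E3 → ℝ} {g h : TensorField}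

lemma ne_zero_of (hD : ParallelData a u ρ N g h) {x : E3} (hx : a < ‖x‖) : x ≠ 0 := by
  have h1 : 0 < ‖x‖ := lt_of_le_of_lt hD.radius_nonneg hx
  exact norm_pos_iff.mp h1

lemma isOpen_dom (a : ℝ) : IsOpen {x : E3 | a < ‖x‖} := isOpen_lt continuous_const continuous_norm

lemma u_cd (hD : ParallelData a u ρ N g h) {x : E3} (hx : a < ‖x‖) : ContDiffAt ℝ ∞ u x :=
  hD.smooth_u.contDiffAt (isOpen_compl_singleton.mem_nhds (ne_zero_of hD hx))

lemma rho_cd0 (hD : ParallelData a u ρ N g h) {x : E3} (hx : a < ‖x‖) :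
    ContDiffAt ℝ ∞ ρ ‖x‖ :=
  hD.smooth_rho.contDiffAt (Ioi_mem_nhds hx)

lemma rho_cd (hD : ParallelData a u ρ N g h) {x : E3} (hx : a < ‖x‖) :
    ContDiffAt ℝ ∞ (fun y : E3 => ρ ‖y‖) x :=
  ContDiffAt.comp (g := ρ) (f := fun y : E3 => ‖y‖) x (rho_cd0 hD hx) (norm_cd (ne_zero_of hD hx))

lemma drho_cd (hD : ParallelData a u ρ N g h) {x : E3} (hx : a < ‖x‖) :
    ContDiffAt ℝ ∞ (fun y : E3 => deriv ρ ‖y‖) x :=
  ContDiffAt.comp (g := deriv ρ) (f := fun y : E3 => ‖y‖) x (deriv_cd (rho_cd0 hD hx))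
    (norm_cd (ne_zero_of hD hx))

lemma N_cd (hD : ParallelData a u ρ N g h) {x : E3} (hx : a < ‖x‖) : ContDiffAt ℝ ∞ N x :=
  hD.smooth_N.contDiffAt ((isOpen_dom a).mem_nhds hx)

lemma h_cd (hD : ParallelData a u ρ N g h) {x : E3} (hx : a < ‖x‖) (i j : Fin 3) :
    ContDiffAt ℝ ∞ (fun y => h y i j) x :=
  (hD.smooth_h i j).contDiffAt ((isOpen_dom a).mem_nhds hx)

lemma radii_cd (hD : ParallelData a u ρ N g h) {x : E3} (hx : a < ‖x‖) (i j : Fin 3) :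
    ContDiffAt ℝ ∞ (fun y => radii u ρ y i j) x := by
  have hx0 := ne_zero_of hD hx
  have h1 : (fun y : E3 => radii u ρ y i j) = fun y : E3 =>
      ‖y‖ * pd i (pd j u) y + ρ ‖y‖ * ((if i = j then 1 else 0) - nu y i * nu y j) := by
    funext y
    rfl
  rw [h1]
  exact ((norm_cd hx0).mul (pd_cd i (pd_cd j (u_cd hD hx)))).add
    ((rho_cd hD hx).mul (contDiffAt_const.sub ((nu_cd i hx0).mul (nu_cd j hx0))))

lemma tB_cd (hD : ParallelData a u ρ N g h) {x : E3} (hx : a < ‖x‖) :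
    ContDiffAt ℝ ∞ (tB u ρ) x := by
  unfold tB
  exact sum_cd fun i => radii_cd hD hx i i

lemma dB_cd (hD : ParallelData a u ρ N g h) {x : E3} (hx : a < ‖x‖) :
    ContDiffAt ℝ ∞ (dB u ρ) x := by
  unfold dB
  exact (((tB_cd hD hx).pow 2).sub
    (sum_cd fun i => sum_cd fun j => (radii_cd hD hx i j).pow 2)).div_const 2

lemma cB_cd (hD : ParallelData a u ρ N g h) {x : E3} (hx : a < ‖x‖) (hd : 0 < dB u ρ x)
    (i j : Fin 3) : ContDiffAt ℝ ∞ (cB u ρ i j) x := by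
  have hx0 := ne_zero_of hD hx
  unfold cB
  exact (((tB_cd hD hx).mul (contDiffAt_const.sub ((nu_cd i hx0).mul (nu_cd j hx0)))).sub
    (radii_cd hD hx i j)).div (dB_cd hD hx) hd.ne'

lemma Hc_cd (hD : ParallelData a u ρ N g h) {x : E3} (hx : a < ‖x‖) (hd : 0 < dB u ρ x) :
    ContDiffAt ℝ ∞ (Hc u ρ N) x := by
  unfold Hc
  exact ((drho_cd hD hx).div (N_cd hD hx) (hD.N_pos x hx).ne').mul
    ((tB_cd hD hx).div (dB_cd hD hx) hd.ne')

lemma pc_cd (hD : ParallelData a u ρ N g h) {x : E3} (hx : a < ‖x‖) (hd : 0 < dB u ρ x) :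
    ContDiffAt ℝ ∞ (pc u ρ h) x := by
  have hx0 := ne_zero_of hD hx
  unfold pc
  exact ((norm_cd hx0).pow 2).mul (sum_cd fun i => sum_cd fun j =>
    (sum_cd fun k => (cB_cd hD hx hd i k).mul (cB_cd hD hx hd k j)).mul (h_cd hD hx i j))

lemma yc_cd (hD : ParallelData a u ρ N g h) {x : E3} (hx : a < ‖x‖) (hd : 0 < dB u ρ x)
    (ht : 0 < tB u ρ x) : ContDiffAt ℝ ∞ (yc u ρ N h) x := by
  unfold yc
  exact (((drho_cd hD hx).div (N_cd hD hx) (hD.N_pos x hx).ne').pow 2).sub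
    (((pc_cd hD hx hd).div ((tB_cd hD hx).div (dB_cd hD hx) hd.ne') (div_pos ht hd).ne').pow 2)

lemma phic_cd (hD : ParallelData a u ρ N g h) {x : E3} (hx : a < ‖x‖) (hd : 0 < dB u ρ x)
    (ht : 0 < tB u ρ x) (hr : 0 < deriv ρ ‖x‖) : ContDiffAt ℝ ∞ (phic u ρ N h) x := by
  unfold phic
  have hH : 0 < Hc u ρ N x := mul_pos (div_pos hr (hD.N_pos x hx)) (div_pos ht hd)
  exact (pc_cd hD hx hd).div (Hc_cd hD hx hd) hH.ne'

lemma Vc_cd (hD : ParallelData a u ρ N g h) {x : E3} (hx : a < ‖x‖) (hd : 0 < dB u ρ x)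
    (i : Fin 3) : ContDiffAt ℝ ∞ (Vc u ρ N i) x := by
  have hx0 := ne_zero_of hD hx
  unfold Vc
  exact (norm_cd hx0).mul (sum_cd fun j => (cB_cd hD hx hd i j).mul
    (pd_cd j ((N_cd hD hx).log (hD.N_pos x hx).ne')))

lemma Wc_cd (hD : ParallelData a u ρ N g h) {x : E3} (hx : a < ‖x‖) (hd : 0 < dB u ρ x)
    (i : Fin 3) : ContDiffAt ℝ ∞ (Wc u ρ N h i) x := by
  have hx0 := ne_zero_of hD hx
  unfold Wc
  exact ((norm_cd hx0).div (N_cd hD hx) (hD.N_pos x hx).ne').mul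
    (sum_cd fun j => sum_cd fun k => ((cB_cd hD hx hd i j).mul (h_cd hD hx j k)).mul
      (nu_cd k hx0))

lemma bc_cd (hD : ParallelData a u ρ N g h) {x : E3} (hx : a < ‖x‖) (hd : 0 < dB u ρ x)
    (ht : 0 < tB u ρ x) (hr : 0 < deriv ρ ‖x‖) (i : Fin 3) :
    ContDiffAt ℝ ∞ (bc u ρ N h i) x := by
  have hx0 := ne_zero_of hD hx
  unfold bc
  exact (((drho_cd hD hx).div (norm_cd hx0) (norm_ne_zero_iff.mpr hx0)).mul (dB_cd hD hx)).mul
    (sum_cd fun j => (cB_cd hD hx hd i j).mul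
      ((Vc_cd hD hx hd j).add ((phic_cd hD hx hd ht hr).mul (Wc_cd hD hx hd j))))

end

end SMOaux

open SMOaux in
/-- Smoothness of the closed forms. -/
theorem SMO (hALG : Stmt_ALG) : Stmt_SMO := by
  intro a u ρ N g h hD
  have hd : ∀ x : E3, a < ‖x‖ → 0 < dB u ρ x := fun x hx => (hALG a u ρ N g h hD x hx).2.2.1
  have ht : ∀ x : E3, a < ‖x‖ → 0 < tB u ρ x := fun x hx => (hALG a u ρ N g h hD x hx).2.2.2.1
  refine ⟨fun i j x hx => ?_, fun x hx => ?_, fun x hx => ?_, fun i j x hx => ?_, fun x hx => ?_,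
    fun x hx => ?_, fun x hx => ?_, fun x hx => ?_, fun x hx hr => ?_, fun i x hx => ?_,
    fun i x hx => ?_, fun i x hx hr => ?_⟩
  · exact (radii_cd hD hx i j).contDiffWithinAt
  · exact (tB_cd hD hx).contDiffWithinAt
  · exact (dB_cd hD hx).contDiffWithinAt
  · exact (cB_cd hD hx (hd x hx) i j).contDiffWithinAt
  · exact (drho_cd hD hx).contDiffWithinAt
  · exact (Hc_cd hD hx (hd x hx)).contDiffWithinAt
  · exact (pc_cd hD hx (hd x hx)).contDiffWithinAt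
  · exact (yc_cd hD hx (hd x hx) (ht x hx)).contDiffWithinAt
  · exact phic_cd hD hx (hd x hx) (ht x hx) hr
  · exact Vc_cd hD hx (hd x hx) i
  · exact Wc_cd hD hx (hd x hx) i
  · exact bc_cd hD hx (hd x hx) (ht x hx) hr i

end Pool.Agent.PenroseConvex
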