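import Pool.Agent.PenroseConvex.Stmts
import Pool.Agent.PenroseSph.Calc

/-! # Module TRX: the quantities of X-space in the coordinates of the problem -/

open MeasureTheory Filter Topology
open scoped ContDiff

namespace Pool.Agent.PenroseConvex

open Pool.Agent.PenroseSph

namespace TRX

section algebra

variable {B C J K : Matrix (Fin 3) (Fin 3) ℝ} {n : Fin 3 → ℝ} {r q : ℝ}

/-- The projection. -/
noncomputable def PP (n : Fin 3 → ℝ) : Matrix (Fin 3) (Fin 3) ℝ := 1 - Matrix.vecMulVec n n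

theorem PP_symm (n : Fin 3 → ℝ) : (PP n).transpose = PP n := by
  ext i j
  simp only [PP, Matrix.transpose_apply, Matrix.sub_apply, Matrix.one_apply,
    Matrix.vecMulVec_apply, mul_comm (n j) (n i), eq_comm]

theorem PP_mulVec (n w : Fin 3 → ℝ) (i : Fin 3) :
    (PP n).mulVec w i = w i - n i * ∑ j, n j * w j := by
  simp only [PP, Matrix.sub_mulVec, Matrix.one_mulVec, Pi.sub_apply]
  congr 1
  simp only [Matrix.mulVec, dotProduct, Matrix.vecMulVec_apply, Finset.mul_sum]
  exact Finset.sum_congr rfl fun j _ => by ring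

theorem JC (hJ : J = (1 / r) • B + q • Matrix.vecMulVec n n) (hCs : C.transpose = C)
    (hCn : C.mulVec n = 0) (hBC : B * C = PP n) : J * C = (1 / r) • PP n := by
  have h1 : Matrix.vecMulVec n n * C = 0 := by
    rw [Matrix.vecMulVec_mul]
    have h2 : Matrix.vecMul n C = 0 := by
      rw [← Matrix.mulVec_transpose, hCs, hCn]
    rw [h2]
    ext i j
    simp [Matrix.vecMulVec_apply]
  rw [hJ, Matrix.add_mul, Matrix.smul_mul, Matrix.smul_mul, h1, hBC, smul_zero, add_zero]

theorem J_symm (hJ : J = (1 / r) • B + q • Matrix.vecMulVec n n) (hBs : B.transpose = B) :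
    J.transpose = J := by
  rw [hJ, Matrix.transpose_add, Matrix.transpose_smul, Matrix.transpose_smul, hBs,
    Matrix.transpose_vecMulVec]

theorem CJ (hJ : J = (1 / r) • B + q • Matrix.vecMulVec n n) (hBs : B.transpose = B)
    (hCs : C.transpose = C)
    (hCn : C.mulVec n = 0) (hBC : B * C = PP n) : C * J = (1 / r) • PP n := by
  have h1 := congrArg Matrix.transpose (JC hJ hCs hCn hBC)
  rw [Matrix.transpose_mul, hCs, J_symm hJ hBs, Matrix.transpose_smul, PP_symm] at h1
  exact h1

theorem J_n (hJ : J = (1 / r) • B + q • Matrix.vecMulVec n n) (hBn : B.mulVec n = 0)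
    (hn : ∑ i, n i * n i = 1) : J.mulVec n = q • n := by
  rw [hJ, Matrix.add_mulVec, Matrix.smul_mulVec, Matrix.smul_mulVec, hBn, smul_zero,
    zero_add]
  congr 1
  ext i
  simp only [Matrix.mulVec, dotProduct, Matrix.vecMulVec_apply]
  rw [show ∑ x, n i * n x * n x = n i * ∑ x, n x * n x by
    rw [Finset.mul_sum]; exact Finset.sum_congr rfl fun j _ => by ring, hn, mul_one]

theorem PP_sq (hn : ∑ i, n i * n i = 1) : PP n * PP n = PP n := by
  have h1 : Matrix.vecMulVec n n * Matrix.vecMulVec n n = Matrix.vecMulVec n n := by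
    ext i j
    simp only [Matrix.mul_apply, Matrix.vecMulVec_apply]
    rw [show ∑ x, n i * n x * (n x * n j) = n i * n j * ∑ x, n x * n x by
      rw [Finset.mul_sum]; exact Finset.sum_congr rfl fun j _ => by ring, hn, mul_one]
  unfold PP
  rw [Matrix.sub_mul, Matrix.mul_sub, Matrix.mul_sub, h1]
  simp

/-- The tangential part of a gradient. -/
theorem grad_part (hr : r ≠ 0) (hJ : J = (1 / r) • B + q • Matrix.vecMulVec n n)
    (hBs : B.transpose = B) (hCs : C.transpose = C)
    (hCn : C.mulVec n = 0) (hBC : B * C = PP n) {w v : Fin 3 → ℝ} {c : ℝ}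
    (h : J.transpose.mulVec w = v + c • n) : (PP n).mulVec w = r • C.mulVec v := by
  have h1 := congrArg C.mulVec h
  rw [Matrix.mulVec_add, Matrix.mulVec_smul, hCn, smul_zero, add_zero, J_symm hJ hBs,
    Matrix.mulVec_mulVec, CJ hJ hBs hCs hCn hBC, Matrix.smul_mulVec] at h1
  rw [← h1, smul_smul, mul_one_div_cancel hr, one_smul]

/-- The tangential part of the tensor. -/
theorem tensor_part (hr : r ≠ 0) (hJ : J = (1 / r) • B + q • Matrix.vecMulVec n n)
    (hBs : B.transpose = B) (hCs : C.transpose = C) (hBn : B.mulVec n = 0)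
    (hCn : C.mulVec n = 0) (hBC : B * C = PP n) (hn : ∑ i, n i * n i = 1) :
    r • C.mulVec ((J.transpose * K * J).mulVec n) = q • (PP n).mulVec (K.mulVec n) := by
  rw [J_symm hJ hBs, ← Matrix.mulVec_mulVec, J_n hJ hBn hn, Matrix.mulVec_smul,
    ← Matrix.mulVec_mulVec, Matrix.mulVec_smul, Matrix.mulVec_mulVec, CJ hJ hBs hCs hCn hBC,
    Matrix.smul_mulVec, smul_smul, smul_smul]
  congr 1
  field_simp

/-- The tangential trace. -/
theorem trace_part (hr : r ≠ 0) (hJ : J = (1 / r) • B + q • Matrix.vecMulVec n n)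
    (hBs : B.transpose = B) (hCs : C.transpose = C)
    (hCn : C.mulVec n = 0) (hBC : B * C = PP n) (hn : ∑ i, n i * n i = 1) :
    r ^ 2 * (C * C * (J.transpose * K * J)).trace = (PP n * K).trace := by
  have h1 : (C * C * (J.transpose * K * J)).trace = ((J * C) * (C * J) * K).trace := by
    rw [J_symm hJ hBs, ← Matrix.mul_assoc, Matrix.trace_mul_comm]
    congr 1
    simp only [Matrix.mul_assoc]
  rw [h1, JC hJ hCs hCn hBC, CJ hJ hBs hCs hCn hBC, Matrix.smul_mul, Matrix.mul_smul, PP_sq hn,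
    smul_smul, Matrix.smul_mul, Matrix.trace_smul, smul_eq_mul, ← mul_assoc]
  rw [show r ^ 2 * (1 / r * (1 / r)) = 1 by field_simp, one_mul]

end algebra

section calculus

theorem sum_nu (y : E3) (hy : y ≠ 0) : ∑ i, nu y i * nu y i = 1 := by
  have h1 : ‖y‖ ≠ 0 := norm_ne_zero_iff.2 hy
  have h2 := norm_sq_eq y
  simp only [nu, Fin.sum_univ_three]
  field_simp
  rw [h2]

theorem decomp (v : E3) : v = ∑ i, v i • EuclideanSpace.single i (1 : ℝ) := by
  ext j
  fin_cases j <;> simp [Fin.sum_univ_three]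

/-- The chain rule. -/
theorem chain {F : E3 → ℝ} {Φ : E3 → E3} {y : E3} (hF : DifferentiableAt ℝ F (Φ y))
    (hΦ : DifferentiableAt ℝ Φ y) (i : Fin 3) :
    pd i (fun z => F (Φ z)) y = ∑ a, jac Φ y a i * pd a F (Φ y) := by
  have h1 : fderiv ℝ (fun z => F (Φ z)) y = (fderiv ℝ F (Φ y)).comp (fderiv ℝ Φ y) :=
    fderiv_comp y hF hΦ
  unfold pd
  rw [h1, ContinuousLinearMap.comp_apply]
  conv_lhs => rw [decomp (fderiv ℝ Φ y (EuclideanSpace.single i 1)), map_sum]
  refine Finset.sum_congr rfl fun a _ => ?_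
  rw [map_smul, smul_eq_mul]
  congr 1
  have h2 : fderiv ℝ (fun z => Φ z a) y = (EuclideanSpace.proj a : E3 →L[ℝ] ℝ).comp
      (fderiv ℝ Φ y) := by
    have h3 : HasFDerivAt (fun z => Φ z a) ((EuclideanSpace.proj a : E3 →L[ℝ] ℝ).comp
        (fderiv ℝ Φ y)) y :=
      (EuclideanSpace.proj a : E3 →L[ℝ] ℝ).hasFDerivAt.comp y hΦ.hasFDerivAt
    exact h3.fderiv
  show _ = pd i (fun z => Φ z a) y
  unfold pd
  rw [h2]
  rfl

theorem two_le : (2 : WithTop ℕ∞) ≤ ∞ := by
  have h : ((2 : ℕ∞) : WithTop ℕ∞) ≤ ((⊤ : ℕ∞) : WithTop ℕ∞) := WithTop.coe_le_coe.2 le_top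
  exact h

/-- Smoothness of the derivative of `ρ`. -/
theorem diff_deriv {a : ℝ} {ρ : ℝ → ℝ} (hρ : ContDiffOn ℝ ∞ ρ (Set.Ioi a)) {s : ℝ} (hs : a < s) :
    DifferentiableAt ℝ (deriv ρ) s := by
  have h1 : ContDiffAt ℝ ∞ ρ s := hρ.contDiffAt (Ioi_mem_nhds hs)
  have h2 : ContDiffAt ℝ 2 ρ s := h1.of_le two_le
  have h3 : ContDiffOn ℝ 1 (deriv ρ) (Set.Ioi a) := by
    refine ContDiffOn.deriv_of_isOpen (hρ.of_le (m := 2) two_le) isOpen_Ioi ?_
    norm_num
  exact (h3.contDiffAt (Ioi_mem_nhds hs)).differentiableAt (by norm_num)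

end calculus

end TRX

open TRX in
theorem TRX (hALG : Stmt_ALG) : Stmt_TRX := by
  intro a u ρ N g h hP x hx hρx Φ d M k hB
  have hx0 : x ≠ 0 := norm_pos_iff.1 (lt_of_le_of_lt hP.radius_nonneg hx)
  have e1 : ∀ᶠ y in 𝓝 x, a < ‖y‖ := continuous_norm.continuousAt.eventually_const_lt hx
  have e2 : ∀ᶠ y in 𝓝 x, 0 < deriv ρ ‖y‖ := by
    have h1 : ContinuousAt (fun y : E3 => deriv ρ ‖y‖) x :=
      ContinuousAt.comp (f := fun y : E3 => ‖y‖) (g := deriv ρ)
        (diff_deriv hP.smooth_rho hx).continuousAt continuous_norm.continuousAt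
    exact h1.eventually_const_lt hρx
  have e3 : ∀ᶠ y in 𝓝 x, DifferentiableAt ℝ Φ y := by
    have h1 : ContDiffAt ℝ 1 Φ x := hB.smooth.of_le (by exact_mod_cast le_top)
    filter_upwards [h1.eventually (by norm_num)] with y hy
    exact hy.differentiableAt (by norm_num)
  have e4 : ∀ᶠ y in 𝓝 x, DifferentiableAt ℝ M (Φ y) := by
    have h1 : ContDiffAt ℝ 1 M (Φ x) := hB.xdata.smooth_M.of_le (by exact_mod_cast le_top)
    have h2 : ∀ᶠ Y in 𝓝 (Φ x), DifferentiableAt ℝ M Y := by
      filter_upwards [h1.eventually (by norm_num)] with Y hY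
      exact hY.differentiableAt (by norm_num)
    exact hB.smooth.continuousAt.eventually h2
  filter_upwards [e1, e2, e3, e4, hB.jac_eq, hB.grad_eq, hB.lapse_eq,
    hB.lapse_eq.eventually_nhds, hB.hess_eq, hB.tensor_eq] with y hy hρ hΦ hM hjac hgrad hlapse
    hlapse' hhess hten
  have hy0 : y ≠ 0 := norm_pos_iff.1 (lt_of_le_of_lt hP.radius_nonneg hy)
  have hr : ‖y‖ ≠ 0 := norm_ne_zero_iff.2 hy0
  have hN : 0 < N y := hP.N_pos y hy
  obtain ⟨aB, aBn, aD, aT, aC, aCn, aBC, aTr, aSq, -, -⟩ := hALG a u ρ N g h hP y hy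
  set B : Matrix (Fin 3) (Fin 3) ℝ := radii u ρ y with hBdef
  set C : Matrix (Fin 3) (Fin 3) ℝ := Matrix.of fun i j => cB u ρ i j y with hC
  set n : Fin 3 → ℝ := nu y with hn
  set J : Matrix (Fin 3) (Fin 3) ℝ := jac Φ y with hJdef
  have hn1 : ∑ i, n i * n i = 1 := sum_nu y hy0
  have hJ : J = (1 / ‖y‖) • B + deriv ρ ‖y‖ • Matrix.vecMulVec n n := by
    ext i j
    rw [hjac i j, Matrix.add_apply, Matrix.smul_apply, Matrix.smul_apply, Matrix.vecMulVec_apply,
      smul_eq_mul, smul_eq_mul]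
    ring
  have hBs : B.transpose = B := by
    ext i j
    exact aB j i
  have hCs : C.transpose = C := by
    ext i j
    exact aC j i
  have hBn : B.mulVec n = 0 := by
    ext i
    exact aBn i
  have hCn : C.mulVec n = 0 := by
    ext i
    exact aCn i
  have hBC : B * C = PP n := by
    ext i j
    rw [Matrix.mul_apply]
    simp only [PP, Matrix.sub_apply, Matrix.one_apply, Matrix.vecMulVec_apply]
    exact aBC i j
  have tH : xH d (Φ y) = tB u ρ y / dB u ρ y := by
    rw [← aTr]
    unfold xH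
    exact Finset.sum_congr rfl fun i _ => hhess i i
  have tQ : xQ d (Φ y) = (tB u ρ y / dB u ρ y) ^ 2 - 2 / dB u ρ y := by
    rw [← aSq]
    unfold xQ
    exact Finset.sum_congr rfl fun i _ => Finset.sum_congr rfl fun j _ => by rw [hhess i j]
  have tp : xp d k (Φ y) = pc u ρ h y := by
    have h1 := trace_part (K := k (Φ y)) hr hJ hBs hCs hCn hBC hn1
    have h2 : J.transpose * k (Φ y) * J = h y := hten.symm
    rw [h2] at h1
    have h3 : (C * C * h y).trace = ∑ i, ∑ j, (∑ l, cB u ρ i l y * cB u ρ l j y) * h y i j := by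
      have h4 : (C * C).transpose = C * C := by
        rw [Matrix.transpose_mul, hCs]
      have h5 : ∀ i j, (C * C) i j = ∑ l, cB u ρ i l y * cB u ρ l j y := fun i j => by
        rw [Matrix.mul_apply]; rfl
      simp only [Matrix.trace, Matrix.diag_apply]
      rw [Finset.sum_comm]
      refine Finset.sum_congr rfl fun j _ => ?_
      rw [Matrix.mul_apply]
      refine Finset.sum_congr rfl fun i _ => ?_
      rw [← h5 i j, ← h4, Matrix.transpose_apply, h4]
    have h6 : (PP n * k (Φ y)).trace = xp d k (Φ y) := by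
      unfold xp
      simp only [hgrad]
      unfold PP
      rw [Matrix.sub_mul, Matrix.one_mul, Matrix.trace_sub]
      congr 1
      simp only [Matrix.trace, Matrix.diag_apply, Matrix.mul_apply, Matrix.vecMulVec_apply]
      rw [Finset.sum_comm]
      refine Finset.sum_congr rfl fun i _ => Finset.sum_congr rfl fun j _ => ?_
      ring
    rw [← h6, ← h1, h3]
    rfl
  have tphi : xphi d M k (Φ y) = phic u ρ N h y := by
    unfold xphi phic Hc
    rw [tp, tH, hlapse]
    have h1 : tB u ρ y / dB u ρ y ≠ 0 := (div_pos aT aD).ne'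
    field_simp
  have ty : xy d M k (Φ y) = yc u ρ N h y := by
    unfold xy yc
    rw [tp, tH, hlapse]
    field_simp
  refine ⟨tH, tQ, tp, tphi, ty, ?_, ?_⟩
  · -- the gradient of `log M`
    set LM : E3 → ℝ := fun Y => Real.log (M Y) with hLM
    have hMpos : 0 < M (Φ y) := by
      rw [hlapse]
      exact div_pos hN hρ
    have hLMd : DifferentiableAt ℝ LM (Φ y) := hM.log hMpos.ne'
    have hNd : DifferentiableAt ℝ N y :=
      (hP.smooth_N.contDiffAt ((isOpen_lt continuous_const continuous_norm).mem_nhds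
        hy)).differentiableAt (by simp)
    have hLNd : DifferentiableAt ℝ (fun z => Real.log (N z)) y := hNd.log hN.ne'
    have hρd : HasDerivAt (fun s => Real.log (deriv ρ s))
        (deriv (deriv ρ) ‖y‖ / deriv ρ ‖y‖) ‖y‖ :=
      (diff_deriv hP.smooth_rho hy).hasDerivAt.log hρ.ne'
    have hev : (fun z => LM (Φ z)) =ᶠ[𝓝 y]
        fun z => Real.log (N z) - Real.log (deriv ρ ‖z‖) := by
      have f1 : ∀ᶠ z in 𝓝 y, a < ‖z‖ := continuous_norm.continuousAt.eventually_const_lt hy
      have f2 : ∀ᶠ z in 𝓝 y, 0 < deriv ρ ‖z‖ := by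
        have h1 : ContinuousAt (fun y : E3 => deriv ρ ‖y‖) y :=
          ContinuousAt.comp (f := fun y : E3 => ‖y‖) (g := deriv ρ)
            (diff_deriv hP.smooth_rho hy).continuousAt continuous_norm.continuousAt
        exact h1.eventually_const_lt hρ
      filter_upwards [f1, f2, hlapse'] with z hz1 hz2 hz3
      show Real.log (M (Φ z)) = _
      rw [hz3, Real.log_div (hP.N_pos z hz1).ne' hz2.ne']
    have hw : J.transpose.mulVec (fun b => pd b LM (Φ y)) =
        (fun i => pd i (fun z => Real.log (N z)) y) +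
          (-(deriv (deriv ρ) ‖y‖ / deriv ρ ‖y‖)) • n := by
      ext i
      have h1 := chain hLMd hΦ i
      rw [pd_congr hev, pd_sub hLNd (differentiableAt_radial hy0 hρd), pd_radial hy0 hρd] at h1
      show ∑ b, J.transpose i b * pd b LM (Φ y) = _
      simp only [Matrix.transpose_apply, Pi.add_apply, Pi.smul_apply, smul_eq_mul]
      rw [← h1, hn]
      unfold nu
      ring
    have h1 := grad_part hr hJ hBs hCs hCn hBC hw
    intro i
    have h2 := congrFun h1 i
    rw [PP_mulVec] at h2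
    unfold xV Vc
    simp only [hgrad]
    exact h2
  · intro i
    have h1 := tensor_part (K := k (Φ y)) hr hJ hBs hCs hBn hCn hBC hn1
    have h2 : J.transpose * k (Φ y) * J = h y := hten.symm
    rw [h2] at h1
    have h3 := congrFun h1 i
    rw [Pi.smul_apply, Pi.smul_apply, PP_mulVec, smul_eq_mul, smul_eq_mul] at h3
    have h4 : xkm d k i (Φ y) = (k (Φ y)).mulVec n i - n i * ∑ j, n j * (k (Φ y)).mulVec n j := by
      unfold xkm
      simp only [hgrad]
      congr 1
      congr 1
      refine Finset.sum_congr rfl fun j _ => ?_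
      simp only [Matrix.mulVec, dotProduct, Finset.mul_sum]
      refine Finset.sum_congr rfl fun l _ => ?_
      ring
    have h5 : C.mulVec ((h y).mulVec n) i = ∑ j, ∑ l, cB u ρ i j y * h y j l * nu y l := by
      simp only [Matrix.mulVec, dotProduct, Finset.mul_sum]
      refine Finset.sum_congr rfl fun j _ => Finset.sum_congr rfl fun l _ => ?_
      rw [hC, Matrix.of_apply]
      ring
    unfold xW Wc
    rw [hlapse, ← h5, h4]
    have h6 : (k (Φ y)).mulVec n i - n i * ∑ j, n j * (k (Φ y)).mulVec n j =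
        ‖y‖ * C.mulVec ((h y).mulVec n) i / deriv ρ ‖y‖ := by
      rw [h3]
      field_simp
    rw [h6]
    field_simp

end Pool.Agent.PenroseConvex
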