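import Pool.Agent.PenroseConvex.Stmts

/-!
# Consequences of the eikonal equation
-/

open MeasureTheory Filter Topology
open scoped ContDiff

namespace Pool.Agent.PenroseConvex

open Pool.Agent.PenroseSph

namespace Xeik

lemma le3 : (3 : WithTop ℕ∞) ≤ ∞ :=
  (WithTop.coe_le_coe.2 (le_top : (3 : ℕ∞) ≤ ⊤) :
    ((3 : ℕ∞) : WithTop ℕ∞) ≤ ((⊤ : ℕ∞) : WithTop ℕ∞))

lemma le2 : (2 : WithTop ℕ∞) ≤ ∞ :=
  (WithTop.coe_le_coe.2 (le_top : (2 : ℕ∞) ≤ ⊤) :
    ((2 : ℕ∞) : WithTop ℕ∞) ≤ ((⊤ : ℕ∞) : WithTop ℕ∞))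

/-- `pd` of a smooth function is smooth. -/
lemma contDiffAt_pd {f : E3 → ℝ} {X : E3} (hf : ContDiffAt ℝ ∞ f X) (i : Fin 3) :
    ContDiffAt ℝ ∞ (pd i f) X := by
  have h1 : ContDiffAt ℝ ∞ (fderiv ℝ f) X := hf.fderiv_right (m := ∞) (by simp)
  exact h1.clm_apply contDiffAt_const

lemma diffAt {f : E3 → ℝ} {X : E3} (hf : ContDiffAt ℝ ∞ f X) : DifferentiableAt ℝ f X :=
  hf.differentiableAt (by simp)

/-- Smoothness near a point. -/
lemma eventually_smooth {f : E3 → ℝ} {X : E3} (hf : ContDiffAt ℝ ∞ f X) :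
    ∀ᶠ Y in 𝓝 X, ContDiffAt ℝ 3 f Y :=
  (hf.of_le le3).eventually (by simp)

lemma pd_eq_of_eventuallyEq {f g : E3 → ℝ} {X : E3} (h : f =ᶠ[𝓝 X] g) (i : Fin 3) :
    pd i f X = pd i g X := by
  unfold pd
  rw [h.fderiv_eq]

lemma pd_eventuallyEq {f g : E3 → ℝ} {X : E3} (h : f =ᶠ[𝓝 X] g) (i : Fin 3) :
    pd i f =ᶠ[𝓝 X] pd i g := by
  filter_upwards [h.eventuallyEq_nhds] with Y hY
  exact pd_eq_of_eventuallyEq hY i

/-- Symmetry of second derivatives. -/
lemma pd_comm_two {f : E3 → ℝ} {Y : E3} (hf : ContDiffAt ℝ 2 f Y) (i j : Fin 3) :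
    pd i (pd j f) Y = pd j (pd i f) Y := by
  have hsymm : IsSymmSndFDerivAt ℝ f Y := hf.isSymmSndFDerivAt (by simp)
  have hd : DifferentiableAt ℝ (fderiv ℝ f) Y :=
    (hf.fderiv_right (m := 1) (by norm_num)).differentiableAt (by simp)
  have key : ∀ a b : Fin 3, pd a (pd b f) Y
      = fderiv ℝ (fderiv ℝ f) Y (EuclideanSpace.single a 1) (EuclideanSpace.single b 1) := by
    intro a b
    have h1 : HasFDerivAt (fun Z => fderiv ℝ f Z (EuclideanSpace.single b (1 : ℝ)))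
        ((ContinuousLinearMap.apply ℝ ℝ (EuclideanSpace.single b (1 : ℝ))).comp
          (fderiv ℝ (fderiv ℝ f) Y)) Y :=
      (ContinuousLinearMap.apply ℝ ℝ (EuclideanSpace.single b (1 : ℝ))).hasFDerivAt.comp Y
        hd.hasFDerivAt
    show fderiv ℝ (fun Z => fderiv ℝ f Z (EuclideanSpace.single b (1 : ℝ))) Y
      (EuclideanSpace.single a 1) = _
    rw [h1.fderiv]
    rfl
  rw [key, key]
  exact hsymm _ _

lemma pd_sum {f : Fin 3 → E3 → ℝ} {X : E3} (hf : ∀ j, DifferentiableAt ℝ (f j) X) (i : Fin 3) :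
    pd i (fun Y => ∑ j, f j Y) X = ∑ j, pd i (f j) X := by
  unfold pd
  rw [fderiv_fun_sum (fun j _ => hf j)]
  simp

lemma pd_mul {f g : E3 → ℝ} {X : E3} (hf : DifferentiableAt ℝ f X) (hg : DifferentiableAt ℝ g X)
    (i : Fin 3) :
    pd i (fun Y => f Y * g Y) X = pd i f X * g X + f X * pd i g X := by
  unfold pd
  rw [fderiv_fun_mul hf hg]
  simp
  ring

lemma pd_const' (c : ℝ) (X : E3) (i : Fin 3) : pd i (fun _ => c) X = 0 := by
  unfold pd
  simp

end Xeik

open Xeik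

theorem XEIK : Stmt_XEIK := by
  intro d M k X hX
  have hd := hX.smooth_d
  have hA : ∀ i j, pd i (pd j d) X = pd j (pd i d) X := fun i j =>
    pd_comm_two (hd.of_le le2) i j
  -- symmetry near `X`
  have hAe : ∀ i j, pd i (pd j d) =ᶠ[𝓝 X] pd j (pd i d) := by
    intro i j
    filter_upwards [eventually_smooth hd] with Y hY
    exact pd_comm_two (hY.of_le (by norm_num)) i j
  have hp : ∀ i, ContDiffAt ℝ ∞ (pd i d) X := contDiffAt_pd hd
  have hpp : ∀ i j, ContDiffAt ℝ ∞ (pd i (pd j d)) X := fun i j => contDiffAt_pd (hp j) i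
  -- the differentiated eikonal equation near `X`
  have hB : ∀ᶠ Y in 𝓝 X, ∀ i, ∑ j, pd i (pd j d) Y * pd j d Y = 0 := by
    filter_upwards [hX.eikonal.eventually_nhds, eventually_smooth hd] with Y hY hYs
    intro i
    have hdj : ∀ j, DifferentiableAt ℝ (pd j d) Y := by
      intro j
      have h1 : ContDiffAt ℝ 2 (fderiv ℝ d) Y := hYs.fderiv_right (m := 2) (by norm_num)
      have h2 : ContDiffAt ℝ 2 (pd j d) Y := h1.clm_apply contDiffAt_const
      exact h2.differentiableAt (by norm_num)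
    have h1 : (fun Z => ∑ j, pd j d Z * pd j d Z) =ᶠ[𝓝 Y] (fun _ => (1 : ℝ)) := by
      filter_upwards [hY] with Z hZ
      rw [← hZ]
      exact Finset.sum_congr rfl fun j _ => by ring
    have h2 := pd_eq_of_eventuallyEq h1 i
    rw [pd_const', pd_sum (f := fun j Z => pd j d Z * pd j d Z)
      (fun j => (hdj j).mul (hdj j))] at h2
    have h3 : ∀ j, pd i (fun Z => pd j d Z * pd j d Z) Y = 2 * (pd i (pd j d) Y * pd j d Y) := by
      intro j
      rw [pd_mul (hdj j) (hdj j)]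
      ring
    simp only [h3] at h2
    rw [← Finset.mul_sum] at h2
    linarith
  have hC : ∀ i j, ∑ l, pd l (pd i (pd j d)) X * pd l d X
      = - ∑ l, pd i (pd l d) X * pd l (pd j d) X := by
    intro i j
    have h1 : (fun Z => ∑ l, pd j (pd l d) Z * pd l d Z) =ᶠ[𝓝 X] (fun _ => (0 : ℝ)) := by
      filter_upwards [hB] with Z hZ
      exact hZ j
    have h2 := pd_eq_of_eventuallyEq h1 i
    rw [pd_const', pd_sum (f := fun l Z => pd j (pd l d) Z * pd l d Z)
      (fun l => (diffAt (hpp j l)).mul (diffAt (hp l)))] at h2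
    have h3 : ∀ l, pd i (fun Z => pd j (pd l d) Z * pd l d Z) X
        = pd l (pd i (pd j d)) X * pd l d X + pd i (pd l d) X * pd l (pd j d) X := by
      intro l
      rw [pd_mul (diffAt (hpp j l)) (diffAt (hp l))]
      have e1 : pd i (pd j (pd l d)) X = pd l (pd i (pd j d)) X := by
        rw [pd_eq_of_eventuallyEq (hAe j l) i]
        exact pd_comm_two ((hp j).of_le le2) i l
      rw [e1, hA j l]
      ring
    simp only [h3, Finset.sum_add_distrib] at h2
    linarith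
  refine ⟨hA, fun i => hB.self_of_nhds i, hC, ?_⟩
  have h4 : ∀ l, pd l (xH d) X = ∑ i, pd l (pd i (pd i d)) X := by
    intro l
    exact pd_sum (fun i => diffAt (hpp i i)) l
  have h5 : ∑ l, pd l d X * pd l (xH d) X = ∑ i, ∑ l, pd l (pd i (pd i d)) X * pd l d X := by
    rw [Finset.sum_comm]
    refine Finset.sum_congr rfl fun l _ => ?_
    rw [h4, Finset.mul_sum]
    exact Finset.sum_congr rfl fun i _ => mul_comm _ _
  rw [h5]
  simp only [hC]
  rw [Finset.sum_neg_distrib]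
  unfold xQ
  congr 1
  refine Finset.sum_congr rfl fun i _ => Finset.sum_congr rfl fun l _ => ?_
  rw [hA l i]
  ring

end Pool.Agent.PenroseConvex
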