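import Pool.Agent.PenroseConvex.Stmts
import Pool.Agent.PenroseSph.Calc

open MeasureTheory Filter Topology
open scoped ContDiff

namespace Pool.Agent.PenroseConvex

open Pool.Agent.PenroseSph

namespace XJ3aux

theorem contDiffAt_pd {f : E3 → ℝ} {x : E3} (hf : ContDiffAt ℝ ∞ f x) (i : Fin 3) :
    ContDiffAt ℝ ∞ (pd i f) x := by
  have h1 : ContDiffAt ℝ ∞ (fderiv ℝ f) x := hf.fderiv_right (m := ∞) (by simp)
  exact h1.clm_apply contDiffAt_const

theorem diff_pd {f : E3 → ℝ} {x : E3} (hf : ContDiffAt ℝ ∞ f x) (i : Fin 3) :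
    DifferentiableAt ℝ (pd i f) x :=
  (contDiffAt_pd hf i).differentiableAt (by simp)

variable {d M : E3 → ℝ} {k : TensorField} {X : E3}

theorem inv_near (hD : XData d M k X) :
    ∀ᶠ Y in 𝓝 X, (xg d M Y)⁻¹ =
      Matrix.of fun i j => dk i j - (1 - 1 / M Y ^ 2) * (pd i d Y * pd j d Y) := by
  have hM : ∀ᶠ Y in 𝓝 X, 0 < M Y := hD.smooth_M.continuousAt.eventually (lt_mem_nhds hD.pos_M)
  filter_upwards [hD.eikonal, hM] with Y hY hMY
  apply Matrix.inv_eq_right_inv
  rw [Fin.sum_univ_three] at hY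
  have hM' : M Y ≠ 0 := hMY.ne'
  have key : (M Y ^ 2 - 1) - (1 - 1 / M Y ^ 2) - (M Y ^ 2 - 1) * (1 - 1 / M Y ^ 2) = 0 := by
    field_simp; ring
  ext i j
  simp only [Matrix.mul_apply, xg, Matrix.of_apply, Fin.sum_univ_three, Matrix.one_apply, dk]
  generalize 1 / M Y ^ 2 = q at key ⊢
  fin_cases i <;> fin_cases j <;> simp only [Fin.isValue, Fin.zero_eta, Fin.mk_one, Fin.reduceFinMk, ↓reduceIte, Fin.reduceEq, one_ne_zero, zero_ne_one]
  · linear_combination (-(M Y ^ 2 - 1) * (1 - q) * pd 0 d Y * pd 0 d Y) * hY + (pd 0 d Y * pd 0 d Y) * key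
  · linear_combination (-(M Y ^ 2 - 1) * (1 - q) * pd 0 d Y * pd 1 d Y) * hY + (pd 0 d Y * pd 1 d Y) * key
  · linear_combination (-(M Y ^ 2 - 1) * (1 - q) * pd 0 d Y * pd 2 d Y) * hY + (pd 0 d Y * pd 2 d Y) * key
  · linear_combination (-(M Y ^ 2 - 1) * (1 - q) * pd 1 d Y * pd 0 d Y) * hY + (pd 1 d Y * pd 0 d Y) * key
  · linear_combination (-(M Y ^ 2 - 1) * (1 - q) * pd 1 d Y * pd 1 d Y) * hY + (pd 1 d Y * pd 1 d Y) * key
  · linear_combination (-(M Y ^ 2 - 1) * (1 - q) * pd 1 d Y * pd 2 d Y) * hY + (pd 1 d Y * pd 2 d Y) * key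
  · linear_combination (-(M Y ^ 2 - 1) * (1 - q) * pd 2 d Y * pd 0 d Y) * hY + (pd 2 d Y * pd 0 d Y) * key
  · linear_combination (-(M Y ^ 2 - 1) * (1 - q) * pd 2 d Y * pd 1 d Y) * hY + (pd 2 d Y * pd 1 d Y) * key
  · linear_combination (-(M Y ^ 2 - 1) * (1 - q) * pd 2 d Y * pd 2 d Y) * hY + (pd 2 d Y * pd 2 d Y) * key

theorem dM (hD : XData d M k X) : DifferentiableAt ℝ M X := hD.smooth_M.differentiableAt (by simp)

theorem dd (hD : XData d M k X) (i : Fin 3) : DifferentiableAt ℝ (pd i d) X :=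
  diff_pd hD.smooth_d i

theorem dk' (hD : XData d M k X) (i j : Fin 3) : DifferentiableAt ℝ (fun y => k y i j) X :=
  (hD.smooth_k i j).differentiableAt (by simp)

theorem dmm (hD : XData d M k X) (i j : Fin 3) :
    DifferentiableAt ℝ (fun y => pd i d y * pd j d y) X := (dd hD i).fun_mul (dd hD j)

theorem pd_mm (hD : XData d M k X) (l i j : Fin 3) :
    pd l (fun y => pd i d y * pd j d y) X =
      pd i d X * pd l (pd j d) X + pd j d X * pd l (pd i d) X :=
  pd_mul (dd hD i) (dd hD j)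

theorem pd_sq (hD : XData d M k X) (l : Fin 3) :
    pd l (fun y => M y ^ 2 - 1) X = 2 * M X * pd l M X := by
  have h1 : (fun y => M y ^ 2 - 1) = fun y => M y * M y - (fun _ : E3 => (1 : ℝ)) y := by
    funext y; simp only []; ring
  rw [h1, pd_sub ((dM hD).fun_mul (dM hD)) (differentiableAt_const _), pd_mul (dM hD) (dM hD), pd_const]
  ring

theorem dsq (hD : XData d M k X) : DifferentiableAt ℝ (fun y => M y ^ 2 - 1) X :=
  ((dM hD).pow 2).sub_const 1

theorem pd_g (hD : XData d M k X) (l i j : Fin 3) :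
    pd l (fun y => xg d M y i j) X =
      (M X ^ 2 - 1) * (pd i d X * pd l (pd j d) X + pd j d X * pd l (pd i d) X)
        + (pd i d X * pd j d X) * (2 * M X * pd l M X) := by
  have h1 : (fun y => xg d M y i j) =
      fun y => (fun _ : E3 => dk i j) y + (fun y => (M y ^ 2 - 1) * (pd i d y * pd j d y)) y := by
    funext y; rfl
  rw [h1, pd_add (differentiableAt_const _) ((dsq hD).fun_mul (dmm hD i j)), pd_const,
    pd_mul (dsq hD) (dmm hD i j), pd_mm hD, pd_sq hD]
  ring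

theorem dg (hD : XData d M k X) (i j : Fin 3) : DifferentiableAt ℝ (fun y => xg d M y i j) X := by
  have h1 : (fun y => xg d M y i j) =
      fun y => (fun _ : E3 => dk i j) y + (fun y => (M y ^ 2 - 1) * (pd i d y * pd j d y)) y := by
    funext y; rfl
  rw [h1]
  exact (differentiableAt_const _).add ((dsq hD).fun_mul (dmm hD i j))

/-- `k(∇d, ∇d)`. -/
noncomputable def kmm (d : E3 → ℝ) (k : TensorField) (y : E3) : ℝ :=
  ∑ i, ∑ j, k y i j * pd i d y * pd j d y

theorem dkm1 (hD : XData d M k X) (i j l : Fin 3) :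
    DifferentiableAt ℝ (fun y => k y i j * pd l d y) X := (dk' hD i j).fun_mul (dd hD l)

theorem dkmm (hD : XData d M k X) : DifferentiableAt ℝ (kmm d k) X := by
  unfold kmm
  refine DifferentiableAt.fun_sum fun i _ => DifferentiableAt.fun_sum fun j _ => ?_
  exact (dkm1 hD i j i).fun_mul (dd hD j)

theorem pd_kmm (hD : XData d M k X) (l : Fin 3) :
    pd l (kmm d k) X = ∑ i, ∑ j, (pd l (fun y => k y i j) X * pd i d X * pd j d X
      + k X i j * (pd l (pd i d) X * pd j d X + pd i d X * pd l (pd j d) X)) := by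
  unfold kmm
  rw [pd_sum _ _ (fun i _ => DifferentiableAt.fun_sum fun j _ => (dkm1 hD i j i).fun_mul (dd hD j))]
  refine Finset.sum_congr rfl fun i _ => ?_
  rw [pd_sum _ _ (fun j _ => (dkm1 hD i j i).fun_mul (dd hD j))]
  refine Finset.sum_congr rfl fun j _ => ?_
  rw [pd_mul (dkm1 hD i j i) (dd hD j), pd_mul (dk' hD i j) (dd hD i)]
  ring

theorem dtr (hD : XData d M k X) : DifferentiableAt ℝ (fun y => ∑ i, k y i i) X :=
  DifferentiableAt.fun_sum fun i _ => dk' hD i i

theorem pd_tr (hD : XData d M k X) (l : Fin 3) :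
    pd l (fun y => ∑ i, k y i i) X = ∑ i, pd l (fun y => k y i i) X :=
  pd_sum _ _ fun i _ => dk' hD i i

theorem xp_eq : xp d k = fun y => (∑ i, k y i i) - kmm d k y := rfl

theorem pd_xp (hD : XData d M k X) (l : Fin 3) :
    pd l (xp d k) X = (∑ i, pd l (fun y => k y i i) X) - pd l (kmm d k) X := by
  rw [xp_eq, pd_sub (dtr hD) (dkmm hD), pd_tr hD]

theorem pd_xkm (hD : XData d M k X) (i : Fin 3) :
    pd i (xkm d k i) X = (∑ j, (k X i j * pd i (pd j d) X + pd j d X * pd i (fun y => k y i j) X))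
      - (pd i d X * pd i (kmm d k) X + kmm d k X * pd i (pd i d) X) := by
  have h1 : xkm d k i = fun y => (∑ j, k y i j * pd j d y) - (fun y => pd i d y * kmm d k y) y := by
    funext y; rfl
  rw [h1, pd_sub (DifferentiableAt.fun_sum fun j _ => dkm1 hD i j j) ((dd hD i).fun_mul (dkmm hD)),
    pd_mul (dd hD i) (dkmm hD), pd_sum _ _ (fun j _ => dkm1 hD i j j)]
  congr 1
  refine Finset.sum_congr rfl fun j _ => ?_
  rw [pd_mul (dk' hD i j) (dd hD j)]

theorem pd_log (hD : XData d M k X) (i : Fin 3) :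
    pd i (fun Y => Real.log (M Y)) X = pd i M X / M X := by
  unfold pd
  have h1 := ((dM hD).hasFDerivAt.log hD.pos_M.ne').fderiv
  rw [h1]
  simp only [_root_.smul_apply, smul_eq_mul]
  ring

theorem dq (hD : XData d M k X) : DifferentiableAt ℝ (fun y => 1 - 1 / M y ^ 2) X := by
  have h := hD.pos_M.ne'
  have h1 : DifferentiableAt ℝ (fun y => M y ^ 2) X := (dM hD).fun_pow 2
  have h2 : M X ^ 2 ≠ 0 := pow_ne_zero 2 h
  fun_prop (disch := exact h2)

theorem pd_q (hD : XData d M k X) (l : Fin 3) :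
    pd l (fun y => 1 - 1 / M y ^ 2) X = 2 * pd l M X / M X ^ 3 := by
  have h := hD.pos_M.ne'
  have h2 : HasDerivAt (fun t : ℝ => 1 - 1 / t ^ 2) (2 / M X ^ 3) (M X) := by
    have h3 := ((hasDerivAt_id (M X)).fun_pow 2).fun_inv (pow_ne_zero 2 h)
    have h4 := h3.const_sub 1
    refine (h4.congr_deriv ?_).congr_of_eventuallyEq ?_
    · simp only [id]; field_simp
      norm_num
      ring
    · filter_upwards with t
      simp [one_div]
  have h5 : HasFDerivAt (fun y => 1 - 1 / M y ^ 2) ((2 / M X ^ 3) • fderiv ℝ M X) X :=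
    h2.comp_hasFDerivAt X (dM hD).hasFDerivAt
  unfold pd
  rw [h5.fderiv]
  simp only [_root_.smul_apply, smul_eq_mul]
  ring

theorem trace_near (hD : XData d M k X) :
    ∀ᶠ Y in 𝓝 X, traceWith (xg d M) k Y =
      (∑ i, k Y i i) - (1 - 1 / M Y ^ 2) * kmm d k Y := by
  filter_upwards [inv_near hD] with Y hY
  unfold traceWith kmm
  rw [hY]
  simp only [Matrix.of_apply, dk, Fin.sum_univ_three, Fin.isValue, ↓reduceIte, Fin.reduceEq,
    one_ne_zero, zero_ne_one]
  ring

theorem dtau (hD : XData d M k X) : DifferentiableAt ℝ (traceWith (xg d M) k) X :=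
  (((dtr hD).sub ((dq hD).fun_mul (dkmm hD))).congr_of_eventuallyEq (trace_near hD))

theorem pd_tau (hD : XData d M k X) (l : Fin 3) :
    pd l (traceWith (xg d M) k) X = (∑ i, pd l (fun y => k y i i) X)
      - ((1 - 1 / M X ^ 2) * pd l (kmm d k) X + kmm d k X * (2 * pd l M X / M X ^ 3)) := by
  rw [pd_congr (trace_near hD), pd_sub (dtr hD) ((dq hD).fun_mul (dkmm hD)),
    pd_mul (dq hD) (dkmm hD), pd_tr hD, pd_q hD]

theorem pd_T (hD : XData d M k X) (l i j : Fin 3) :
    pd l (fun y => k y i j - traceWith (xg d M) k y * xg d M y i j) X =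
      pd l (fun y => k y i j) X - (traceWith (xg d M) k X * pd l (fun y => xg d M y i j) X
        + xg d M X i j * pd l (traceWith (xg d M) k) X) := by
  rw [pd_sub (dk' hD i j) ((dtau hD).fun_mul (dg hD i j)), pd_mul (dtau hD) (dg hD i j)]

end XJ3aux

open XJ3aux

theorem XJ3 (hXEIK : Stmt_XEIK) : Stmt_XJ3 := by
  intro d M k X hD h0 h1 h2
  obtain ⟨hsym, hBm, -, -⟩ := hXEIK d M k X hD
  have hM : M X ≠ 0 := hD.pos_M.ne'
  have hinv : (xg d M X)⁻¹ = Matrix.of fun i j => dk i j - (1 - 1 / M X ^ 2) *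
      (pd i d X * pd j d X) := (inv_near hD).self_of_nhds
  have htr : traceWith (xg d M) k X = (∑ i, k X i i) - (1 - 1 / M X ^ 2) * kmm d k X :=
    (trace_near hD).self_of_nhds
  have hks : (k X).IsSymm := hD.symm_k.self_of_nhds
  have k10 : k X 1 0 = k X 0 1 := hks.apply 0 1
  have k20 : k X 2 0 = k X 0 2 := hks.apply 0 2
  have k21 : k X 2 1 = k X 1 2 := hks.apply 1 2
  have H02 : pd 0 (pd 2 d) X = 0 := by
    have := hBm 0
    rw [Fin.sum_univ_three, h0, h1, h2] at this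
    linarith
  have H12 : pd 1 (pd 2 d) X = 0 := by
    have := hBm 1
    rw [Fin.sum_univ_three, h0, h1, h2] at this
    linarith
  have H22 : pd 2 (pd 2 d) X = 0 := by
    have := hBm 2
    rw [Fin.sum_univ_three, h0, h1, h2] at this
    linarith
  have H20 : pd 2 (pd 0 d) X = 0 := by rw [hsym, H02]
  have H21 : pd 2 (pd 1 d) X = 0 := by rw [hsym, H12]
  have H10 : pd 1 (pd 0 d) X = pd 0 (pd 1 d) X := hsym 1 0
  have hkmm : kmm d k X = k X 2 2 := by
    unfold kmm
    simp only [Fin.sum_univ_three, h0, h1, h2]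
    ring
  have hkm : ∀ i, xkm d k i X = k X i 2 - pd i d X * k X 2 2 := by
    intro i
    have : xkm d k i X = (∑ j, k X i j * pd j d X) - pd i d X * kmm d k X := rfl
    rw [this, hkmm, Fin.sum_univ_three, h0, h1, h2]
    ring
  have hxg : ∀ i j, xg d M X i j = dk i j + (M X ^ 2 - 1) * (pd i d X * pd j d X) := fun _ _ => rfl
  unfold momentumDensity divergence covDeriv christoffel
  simp only [hinv, pd_T hD, pd_g hD, pd_tau hD, pd_xp hD, pd_xkm hD, pd_kmm hD, pd_log hD, htr,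
    hkmm, hkm, hxg, xH, Matrix.of_apply, Matrix.sub_apply, Matrix.smul_apply, smul_eq_mul, dk,
    Fin.sum_univ_three, h0, h1, h2, H02, H12, H22, H20, H21, H10, k10, k20, k21, Fin.isValue,
    ↓reduceIte, Fin.reduceEq, one_ne_zero, zero_ne_one]
  field_simp
  ring

end Pool.Agent.PenroseConvex
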