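import Pool.Agent.PenroseConvex.Stmts
import Pool.Agent.PenroseSph.Calc

/-! # The master inequality in X-space -/

open MeasureTheory Filter Topology
open scoped ContDiff

namespace Pool.Agent.PenroseConvex

open Pool.Agent.PenroseSph

namespace XMI

variable {d M : E3 → ℝ} {k : TensorField} {X : E3} {f : E3 → ℝ}

theorem cd_pd (i : Fin 3) (hf : ContDiffAt ℝ ∞ f X) : ContDiffAt ℝ ∞ (pd i f) X := by
  have h1 : ContDiffAt ℝ ∞ (fun x => fderiv ℝ f x) X :=
    hf.fderiv_right (m := ∞) (by simp)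
  exact h1.clm_apply contDiffAt_const

theorem cd_xH (hd : ContDiffAt ℝ ∞ d X) : ContDiffAt ℝ ∞ (xH d) X := by
  unfold xH
  exact ContDiffAt.sum fun i _ => cd_pd i (cd_pd i hd)

theorem cd_kmm (hd : ContDiffAt ℝ ∞ d X) (hk : ∀ i j, ContDiffAt ℝ ∞ (fun Y => k Y i j) X) :
    ContDiffAt ℝ ∞ (fun Y => ∑ i, ∑ j, k Y i j * pd i d Y * pd j d Y) X :=
  ContDiffAt.sum fun i _ => ContDiffAt.sum fun j _ =>
    ((hk i j).mul (cd_pd i hd)).mul (cd_pd j hd)

theorem cd_xp (hd : ContDiffAt ℝ ∞ d X) (hk : ∀ i j, ContDiffAt ℝ ∞ (fun Y => k Y i j) X) :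
    ContDiffAt ℝ ∞ (xp d k) X := by
  unfold xp
  exact (ContDiffAt.sum fun i _ => hk i i).sub (cd_kmm hd hk)

theorem cd_xkm (hd : ContDiffAt ℝ ∞ d X) (hk : ∀ i j, ContDiffAt ℝ ∞ (fun Y => k Y i j) X)
    (i : Fin 3) : ContDiffAt ℝ ∞ (xkm d k i) X := by
  unfold xkm
  exact (ContDiffAt.sum fun j _ => (hk i j).mul (cd_pd j hd)).sub
    ((cd_pd i hd).mul (cd_kmm hd hk))

theorem ne_top : (∞ : WithTop ℕ∞) ≠ 0 := by simp

theorem dif (hf : ContDiffAt ℝ ∞ f X) : DifferentiableAt ℝ f X := hf.differentiableAt ne_top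

theorem pd_log {f : E3 → ℝ} (hf : DifferentiableAt ℝ f X) (h0 : f X ≠ 0) (i : Fin 3) :
    pd i (fun Y => Real.log (f Y)) X = pd i f X / f X := by
  unfold pd
  rw [fderiv.log hf h0]
  simp only [FunLike.coe_smul, Pi.smul_apply, smul_eq_mul]
  ring

theorem pd_inv {f : E3 → ℝ} (hf : DifferentiableAt ℝ f X) (h0 : f X ≠ 0) (i : Fin 3) :
    pd i (fun Y => (f Y)⁻¹) X = - pd i f X / f X ^ 2 := by
  unfold pd
  have h := (hasFDerivAt_inv h0).comp X hf.hasFDerivAt
  have h' : HasFDerivAt (fun Y => (f Y)⁻¹)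
      (((1 : ℝ →L[ℝ] ℝ).smulRight (-(f X ^ 2)⁻¹)).comp (fderiv ℝ f X)) X := h
  rw [h'.fderiv]
  simp only [ContinuousLinearMap.comp_apply, ContinuousLinearMap.smulRight_apply,
    one_apply_eq_self, smul_eq_mul]
  ring

theorem pd_div {f g : E3 → ℝ} (hf : DifferentiableAt ℝ f X) (hg : DifferentiableAt ℝ g X)
    (h0 : g X ≠ 0) (i : Fin 3) :
    pd i (fun Y => f Y / g Y) X = pd i f X / g X - f X * pd i g X / g X ^ 2 := by
  have h1 : (fun Y => f Y / g Y) = fun Y => f Y * (g Y)⁻¹ := by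
    funext Y; rw [div_eq_mul_inv]
  have h2 : DifferentiableAt ℝ (fun Y => (g Y)⁻¹) X := hg.inv h0
  rw [h1, pd_mul hf h2, pd_inv hg h0]
  field_simp
  ring

theorem pd_sq {f : E3 → ℝ} (hf : DifferentiableAt ℝ f X) (i : Fin 3) :
    pd i (fun Y => f Y ^ 2) X = 2 * f X * pd i f X := by
  have h1 : (fun Y => f Y ^ 2) = fun Y => f Y * f Y := by
    funext Y; ring
  rw [h1, pd_mul hf hf]
  ring

/-- second derivatives of the logarithm -/
theorem pd_pd_log (hM : ContDiffAt ℝ ∞ M X) (h0 : M X ≠ 0) (i j : Fin 3) :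
    pd i (pd j (fun Y => Real.log (M Y))) X
      = pd i (pd j M) X / M X - pd j M X * pd i M X / M X ^ 2 := by
  have h1 : pd j (fun Y => Real.log (M Y)) =ᶠ[𝓝 X] fun Y => pd j M Y / M Y := by
    have h2 : ∀ᶠ Y in 𝓝 X, M Y ≠ 0 := hM.continuousAt.eventually_ne h0
    have h3 : ∀ᶠ Y in 𝓝 X, DifferentiableAt ℝ M Y := by
      have h4 := (hM.of_le (m := 1) (by simp)).eventually (by simp)
      filter_upwards [h4] with Y hY
      exact hY.differentiableAt (by simp)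
    filter_upwards [h2, h3] with Y hY hY'
    exact pd_log hY' hY j
  rw [pd_congr h1, pd_div (dif (cd_pd j hM)) (dif hM) h0]

theorem eik (hD : XData d M k X) : ∑ i, pd i d X ^ 2 = 1 := hD.eikonal.self_of_nhds

/-- derivative of `xy` in the direction of `∇d` -/
theorem grad_xy (hD : XData d M k X) (hH : xH d X ≠ 0)
    (hQ : ∑ l, pd l d X * pd l (xH d) X = - xQ d X) :
    ∑ i, pd i d X * pd i (xy d M k) X
      = -2 * (∑ i, pd i d X * pd i M X) / M X ^ 3
        - 2 * (xp d k X / xH d X) * ((∑ i, pd i d X * pd i (xp d k) X) / xH d X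
          + xp d k X * xQ d X / xH d X ^ 2) := by
  have hM0 : M X ≠ 0 := hD.pos_M.ne'
  have hM := dif hD.smooth_M
  have hp := dif (cd_xp hD.smooth_d hD.smooth_k)
  have hh := dif (cd_xH hD.smooth_d)
  have h1 : ∀ i, pd i (xy d M k) X = -2 * pd i M X / M X ^ 3
      - 2 * (xp d k X / xH d X) * (pd i (xp d k) X / xH d X
        - xp d k X * pd i (xH d) X / xH d X ^ 2) := by
    intro i
    have e1 : xy d M k = fun Y => ((M Y)⁻¹) ^ 2 - (xp d k Y / xH d Y) ^ 2 := by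
      funext Y
      unfold xy
      rw [inv_pow, one_div]
    have hq : DifferentiableAt ℝ (fun Y => xp d k Y / xH d Y) X := by
      have h1 : (fun Y => xp d k Y / xH d Y) = fun Y => xp d k Y * (xH d Y)⁻¹ := by
        funext Y; rw [div_eq_mul_inv]
      rw [h1]
      exact hp.mul (hh.inv hH)
    have hi : DifferentiableAt ℝ (fun Y => (M Y)⁻¹) X := hM.inv hM0
    have hi2 : DifferentiableAt ℝ (fun Y => ((M Y)⁻¹) ^ 2) X := hi.pow 2
    have hq2 : DifferentiableAt ℝ (fun Y => (xp d k Y / xH d Y) ^ 2) X := hq.pow 2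
    rw [e1, pd_sub hi2 hq2, pd_sq hi, pd_sq hq, pd_inv hM hM0, pd_div hp hh hH]
    field_simp
  simp only [h1]
  rw [Fin.sum_univ_three] at hQ ⊢
  simp only [Fin.sum_univ_three]
  have h2 : xQ d X = - (pd 0 d X * pd 0 (xH d) X + pd 1 d X * pd 1 (xH d) X
      + pd 2 d X * pd 2 (xH d) X) := by linarith
  rw [h2]
  field_simp
  ring

/-- divergence of `xV` -/
theorem div_xV (hD : XData d M k X) (hsym : ∀ i j, pd i (pd j d) X = pd j (pd i d) X)
    (hB : ∀ i, ∑ j, pd i (pd j d) X * pd j d X = 0) :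
    ∑ i, pd i (xV d M i) X = (∑ i, pd i (pd i M) X) / M X - (∑ i, pd i M X ^ 2) / M X ^ 2
      - xH d X * (∑ i, pd i d X * pd i M X) / M X
      - (∑ i, ∑ j, pd i d X * pd j d X * pd i (pd j M) X) / M X
      + (∑ i, pd i d X * pd i M X) ^ 2 / M X ^ 2 := by
  have hM0 : M X ≠ 0 := hD.pos_M.ne'
  have hL : ContDiffAt ℝ ∞ (fun Y => Real.log (M Y)) X := hD.smooth_M.log hM0
  have hm : ∀ i, DifferentiableAt ℝ (pd i d) X := fun i => dif (cd_pd i hD.smooth_d)
  have hLi : ∀ i, DifferentiableAt ℝ (pd i (fun Y => Real.log (M Y))) X :=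
    fun i => dif (cd_pd i hL)
  have hpr : ∀ j, DifferentiableAt ℝ (fun Y => pd j d Y * pd j (fun Y => Real.log (M Y)) Y) X :=
    fun j => (hm j).mul (hLi j)
  have hsum : DifferentiableAt ℝ
      (fun Y => ∑ j, pd j d Y * pd j (fun Y => Real.log (M Y)) Y) X :=
    DifferentiableAt.fun_sum fun j _ => hpr j
  have h1 : ∀ i, pd i (xV d M i) X = (pd i (pd i M) X / M X - pd i M X * pd i M X / M X ^ 2)
      - (pd i d X * (∑ j, (pd j d X * (pd i (pd j M) X / M X - pd j M X * pd i M X / M X ^ 2)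
          + pd j M X / M X * pd i (pd j d) X))
        + (∑ j, pd j d X * (pd j M X / M X)) * pd i (pd i d) X) := by
    intro i
    have e1 : xV d M i = fun Y => pd i (fun Y => Real.log (M Y)) Y
        - pd i d Y * ∑ j, pd j d Y * pd j (fun Y => Real.log (M Y)) Y := rfl
    have h5 : DifferentiableAt ℝ (fun Y => pd i d Y
        * ∑ j, pd j d Y * pd j (fun Y => Real.log (M Y)) Y) X := (hm i).mul hsum
    have h6 : DifferentiableAt ℝ (fun Y => pd i (fun Y => Real.log (M Y)) Y) X := hLi i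
    rw [e1, pd_sub h6 h5, pd_mul (hm i) hsum, pd_sum _ _ (fun j _ => hpr j)]
    have e2 : ∀ j, pd i (fun Y => pd j d Y * pd j (fun Y => Real.log (M Y)) Y) X
        = pd j d X * (pd i (pd j M) X / M X - pd j M X * pd i M X / M X ^ 2)
          + pd j M X / M X * pd i (pd j d) X := by
      intro j
      rw [pd_mul (hm j) (hLi j), pd_pd_log hD.smooth_M hM0, pd_log (dif hD.smooth_M) hM0]
    simp only [e2, pd_pd_log hD.smooth_M hM0, pd_log (dif hD.smooth_M) hM0]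
  have hB0 := hB 0
  have hB1 := hB 1
  have hB2 := hB 2
  simp only [h1, xH, Fin.sum_univ_three] at *
  have s10 := hsym 1 0
  have s20 := hsym 2 0
  have s21 := hsym 2 1
  rw [s10] at hB1 ⊢
  rw [s20, s21] at hB2
  rw [s20, s21]
  field_simp
  linear_combination (-(M X) * pd 0 M X) * hB0 + (-(M X) * pd 1 M X) * hB1
    + (-(M X) * pd 2 M X) * hB2

/-- divergence of `xW` -/
theorem div_xW (hD : XData d M k X) :
    ∑ i, pd i (xW d M k i) X = (∑ i, pd i (xkm d k i) X) / M X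
      - (∑ i, xkm d k i X * pd i M X) / M X ^ 2 := by
  have hM0 : M X ≠ 0 := hD.pos_M.ne'
  have h1 : ∀ i, pd i (xW d M k i) X = pd i (xkm d k i) X / M X
      - xkm d k i X * pd i M X / M X ^ 2 := by
    intro i
    have e1 : xW d M k i = fun Y => xkm d k i Y / M Y := rfl
    rw [e1, pd_div (dif (cd_xkm hD.smooth_d hD.smooth_k i)) (dif hD.smooth_M) hM0]
  simp only [h1, Finset.sum_sub_distrib, Finset.sum_div]

/-- divergence of the sum -/
theorem div_sum (hD : XData d M k X) (hH : xH d X ≠ 0) :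
    ∑ i, pd i (fun Y => xV d M i Y + xphi d M k Y * xW d M k i Y) X
      = (∑ i, pd i (xV d M i) X) + xphi d M k X * (∑ i, pd i (xW d M k i) X)
        + ∑ i, xW d M k i X * pd i (xphi d M k) X := by
  have hM0 : M X ≠ 0 := hD.pos_M.ne'
  have hL : ContDiffAt ℝ ∞ (fun Y => Real.log (M Y)) X := hD.smooth_M.log hM0
  have hV : ∀ i, DifferentiableAt ℝ (xV d M i) X := by
    intro i
    have e1 : xV d M i = fun Y => pd i (fun Y => Real.log (M Y)) Y
        - pd i d Y * ∑ j, pd j d Y * pd j (fun Y => Real.log (M Y)) Y := rfl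
    rw [e1]
    exact (dif (cd_pd i hL)).sub ((dif (cd_pd i hD.smooth_d)).mul
      (DifferentiableAt.fun_sum fun j _ => (dif (cd_pd j hD.smooth_d)).mul (dif (cd_pd j hL))))
  have hW : ∀ i, DifferentiableAt ℝ (xW d M k i) X := by
    intro i
    have e1 : xW d M k i = fun Y => xkm d k i Y * (M Y)⁻¹ := by
      funext Y
      rw [← div_eq_mul_inv]
      rfl
    rw [e1]
    exact (dif (cd_xkm hD.smooth_d hD.smooth_k i)).mul ((dif hD.smooth_M).inv hM0)
  have hphi : DifferentiableAt ℝ (xphi d M k) X := by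
    have e1 : xphi d M k = fun Y => xp d k Y * M Y * (xH d Y)⁻¹ := by
      funext Y
      rw [← div_eq_mul_inv]
      rfl
    rw [e1]
    exact ((dif (cd_xp hD.smooth_d hD.smooth_k)).mul (dif hD.smooth_M)).mul
      ((dif (cd_xH hD.smooth_d)).inv hH)
  have h1 : ∀ i, pd i (fun Y => xV d M i Y + xphi d M k Y * xW d M k i Y) X
      = pd i (xV d M i) X + xphi d M k X * pd i (xW d M k i) X
        + xW d M k i X * pd i (xphi d M k) X := by
    intro i
    have h5 : DifferentiableAt ℝ (fun Y => xphi d M k Y * xW d M k i Y) X := hphi.mul (hW i)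
    rw [pd_add (hV i) h5, pd_mul hphi (hW i)]
    ring
  simp only [h1, Finset.sum_add_distrib, Finset.mul_sum]

theorem sum_V_sq (hD : XData d M k X) :
    ∑ i, xV d M i X ^ 2 = (∑ i, pd i M X ^ 2) / M X ^ 2
      - (∑ i, pd i d X * pd i M X) ^ 2 / M X ^ 2 := by
  have hM0 : M X ≠ 0 := hD.pos_M.ne'
  have h1 := eik hD
  unfold xV
  simp only [pd_log (dif hD.smooth_M) hM0, Fin.sum_univ_three] at *
  field_simp
  linear_combination (pd 0 d X * pd 0 M X + pd 1 d X * pd 1 M X + pd 2 d X * pd 2 M X) ^ 2 * h1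

theorem sum_V_W (hD : XData d M k X) :
    ∑ i, xV d M i X * xW d M k i X = (∑ i, xkm d k i X * pd i M X) / M X ^ 2 := by
  have hM0 : M X ≠ 0 := hD.pos_M.ne'
  have h1 := eik hD
  have h2 : ∑ i, pd i d X * xkm d k i X = 0 := by
    unfold xkm
    simp only [Fin.sum_univ_three] at *
    linear_combination (-(k X 0 0 * pd 0 d X * pd 0 d X + k X 0 1 * pd 0 d X * pd 1 d X
      + k X 0 2 * pd 0 d X * pd 2 d X + (k X 1 0 * pd 1 d X * pd 0 d X
      + k X 1 1 * pd 1 d X * pd 1 d X + k X 1 2 * pd 1 d X * pd 2 d X)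
      + (k X 2 0 * pd 2 d X * pd 0 d X + k X 2 1 * pd 2 d X * pd 1 d X
      + k X 2 2 * pd 2 d X * pd 2 d X))) * h1
  unfold xV xW
  simp only [pd_log (dif hD.smooth_M) hM0, Fin.sum_univ_three] at *
  field_simp
  linear_combination (-(pd 0 d X * pd 0 M X + pd 1 d X * pd 1 M X + pd 2 d X * pd 2 M X)) * h2

/-- the square -/
theorem square (hsym : ∀ i j, pd i (pd j d) X = pd j (pd i d) X)
    (hB : ∀ i, ∑ j, pd i (pd j d) X * pd j d X = 0) (c : ℝ) :
    0 ≤ (∑ i, ∑ j, (k X i j - pd i d X * xkm d k j X - pd j d X * xkm d k i X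
        - pd i d X * pd j d X * ∑ a, ∑ b, k X a b * pd a d X * pd b d X) ^ 2)
      - 2 * c * (∑ i, ∑ j, pd i (pd j d) X * k X i j) + c ^ 2 * xQ d X := by
  have h1 : (∑ i, ∑ j, (k X i j - pd i d X * xkm d k j X - pd j d X * xkm d k i X
        - pd i d X * pd j d X * ∑ a, ∑ b, k X a b * pd a d X * pd b d X) ^ 2)
      - 2 * c * (∑ i, ∑ j, pd i (pd j d) X * k X i j) + c ^ 2 * xQ d X
      = ∑ i, ∑ j, ((k X i j - pd i d X * xkm d k j X - pd j d X * xkm d k i X
        - pd i d X * pd j d X * ∑ a, ∑ b, k X a b * pd a d X * pd b d X)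
        - c * pd i (pd j d) X) ^ 2 := by
    have hB0 := hB 0
    have hB1 := hB 1
    have hB2 := hB 2
    unfold xQ
    generalize (∑ a, ∑ b, k X a b * pd a d X * pd b d X) = z
    simp only [Fin.sum_univ_three] at *
    have s10 := hsym 1 0
    have s20 := hsym 2 0
    have s21 := hsym 2 1
    rw [s10] at hB1 ⊢
    rw [s20, s21] at hB2
    rw [s20, s21]
    linear_combination (-2 * c * (2 * xkm d k 0 X + z * pd 0 d X)) * hB0
      + (-2 * c * (2 * xkm d k 1 X + z * pd 1 d X)) * hB1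
      + (-2 * c * (2 * xkm d k 2 X + z * pd 2 d X)) * hB2
  rw [h1]
  exact Finset.sum_nonneg fun i _ => Finset.sum_nonneg fun j _ => sq_nonneg _

theorem final_alg (H Q M Mm p pm kmm Bk dk kM LM Mmm g2 W2 kT2 Wphi : ℝ)
    (hH : H ≠ 0) (hM : M ≠ 0) (hsq : 0 ≤ kT2 - 2 * (p / H) * Bk + (p / H) ^ 2 * Q) :
    H * (-2 * Mm / M ^ 3 - 2 * (p / H) * (pm / H + p * Q / H ^ 2))
        + (H ^ 2 - Q) * (1 / M ^ 2 - (p / H) ^ 2)
      ≤ (H ^ 2 - Q)
        - 2 * ((LM / M - g2 / M ^ 2 - H * Mm / M - Mmm / M + Mm ^ 2 / M ^ 2)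
          + p * M / H * (dk / M - kM / M ^ 2) + Wphi)
        - 2 * ((g2 / M ^ 2 - Mm ^ 2 / M ^ 2) + W2 + 2 * (p * M / H) * (kM / M ^ 2) - Wphi)
        - 2 * (1 / 2 * (((H ^ 2 - Q) * (1 - 1 / M ^ 2) + 2 * H * Mm / M ^ 3
              - 2 * (LM - Mmm - H * Mm) / M)
            - ((kmm / M ^ 2) ^ 2 + 2 * W2 + kT2) + (kmm / M ^ 2 + p) ^ 2)
          - p * M / H * ((-pm + H * kmm / M ^ 2 - Bk + dk + kM / M) / M)) := by
  have key : ((H ^ 2 - Q)
        - 2 * ((LM / M - g2 / M ^ 2 - H * Mm / M - Mmm / M + Mm ^ 2 / M ^ 2)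
          + p * M / H * (dk / M - kM / M ^ 2) + Wphi)
        - 2 * ((g2 / M ^ 2 - Mm ^ 2 / M ^ 2) + W2 + 2 * (p * M / H) * (kM / M ^ 2) - Wphi)
        - 2 * (1 / 2 * (((H ^ 2 - Q) * (1 - 1 / M ^ 2) + 2 * H * Mm / M ^ 3
              - 2 * (LM - Mmm - H * Mm) / M)
            - ((kmm / M ^ 2) ^ 2 + 2 * W2 + kT2) + (kmm / M ^ 2 + p) ^ 2)
          - p * M / H * ((-pm + H * kmm / M ^ 2 - Bk + dk + kM / M) / M)))
      - (H * (-2 * Mm / M ^ 3 - 2 * (p / H) * (pm / H + p * Q / H ^ 2))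
        + (H ^ 2 - Q) * (1 / M ^ 2 - (p / H) ^ 2))
      = kT2 - 2 * (p / H) * Bk + (p / H) ^ 2 * Q := by
    field_simp
    ring
  linarith

end XMI

open XMI in
theorem XMI (hXEIK : Stmt_XEIK) (hXR : Stmt_XR) (hXJ : Stmt_XJ) (hXN : Stmt_XN) : Stmt_XMI := by
  intro d M k X hD hH
  have hM0 : M X ≠ 0 := hD.pos_M.ne'
  obtain ⟨hsym, hB, -, hQ⟩ := hXEIK d M k X hD
  have hR := hXR d M k X hD
  have hJ := hXJ d M k X hD
  obtain ⟨hT, hN⟩ := hXN d M k X hD
  have hJ2 : ∑ i, pd i d X / M X * momentumDensity (xg d M) k i X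
      = (- (∑ i, pd i d X * pd i (xp d k) X)
    + xH d X * (∑ i, ∑ j, k X i j * pd i d X * pd j d X) / M X ^ 2
    - (∑ i, ∑ j, pd i (pd j d) X * k X i j) + (∑ i, pd i (xkm d k i) X)
    + (∑ i, xkm d k i X * pd i M X) / M X) / M X := by
    have e1 : (∑ i, xkm d k i X * pd i M X) / M X
        = ∑ i, xkm d k i X * pd i (fun Y => Real.log (M Y)) X := by
      rw [Finset.sum_div]
      refine Finset.sum_congr rfl fun i _ => ?_
      rw [pd_log (dif hD.smooth_M) hM0]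
      ring
    rw [e1, ← hJ, Finset.sum_div]
    refine Finset.sum_congr rfl fun i _ => ?_
    ring
  rw [grad_xy hD hH hQ, div_sum hD hH, div_xV hD hsym hB, div_xW hD, sum_V_sq hD, sum_V_W hD]
  rw [hJ2]
  have hE : energyDensity (xg d M) k X = 1 / 2 * (scalarCurvature (xg d M) X
    - normSqWith (xg d M) k X + traceWith (xg d M) k X ^ 2) := rfl
  rw [hE, hR, hN, hT]
  exact final_alg _ _ _ _ _ _ _ _ _ _ _ _ _ _ _ _ hH hM0 (square hsym hB _)

end Pool.Agent.PenroseConvex
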