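import Pool.Agent.PenroseConvex.Stmts

/-!
# The trace and the square length of a symmetric tensor for the metric `δ + (M² - 1) m m`
-/

open MeasureTheory Filter Topology
open scoped ContDiff

namespace Pool.Agent.PenroseConvex

open Pool.Agent.PenroseSph

namespace XNaux

/-- The inverse of `δ + (M² - 1) m m`, `m` a unit vector. -/
theorem inv_eq (m : Fin 3 → ℝ) (M : ℝ) (hM : M ≠ 0) (hm : ∑ i, m i ^ 2 = 1) :
    (Matrix.of fun i j => dk i j + (M ^ 2 - 1) * (m i * m j))⁻¹ =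
      Matrix.of fun i j => dk i j + (1 / M ^ 2 - 1) * (m i * m j) := by
  apply Matrix.inv_eq_right_inv
  have h1 : (M ^ 2 - 1) + (1 / M ^ 2 - 1) + (M ^ 2 - 1) * (1 / M ^ 2 - 1) = 0 := by
    field_simp
    ring
  ext i j
  rw [Matrix.mul_apply]
  simp only [Matrix.of_apply]
  have h2 : ∀ k, (dk i k + (M ^ 2 - 1) * (m i * m k)) * (dk k j + (1 / M ^ 2 - 1) * (m k * m j)) =
      dk i k * dk k j + (1 / M ^ 2 - 1) * (m j * (dk i k * m k)) +
      (M ^ 2 - 1) * (m i * (dk k j * m k)) +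
      (M ^ 2 - 1) * (1 / M ^ 2 - 1) * (m i * m j) * (m k ^ 2) := by
    intro k
    ring
  simp only [h2, Finset.sum_add_distrib]
  rw [← Finset.mul_sum, ← Finset.mul_sum, ← Finset.mul_sum, ← Finset.mul_sum, ← Finset.mul_sum, hm]
  have h3 : ∑ k, dk i k * dk k j = (1 : Matrix (Fin 3) (Fin 3) ℝ) i j := by
    simp [dk, Matrix.one_apply]
  have h4 : ∑ k, dk i k * m k = m i := by simp [dk]
  have h5 : ∑ k, dk k j * m k = m j := by simp [dk]
  rw [h3, h4, h5]
  linear_combination (m i * m j) * h1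

/-- The trace. -/
theorem trace_alg (m : Fin 3 → ℝ) (k : Fin 3 → Fin 3 → ℝ) (w : ℝ) :
    ∑ i, ∑ j, (dk i j + (w - 1) * (m i * m j)) * k i j =
      (∑ i, ∑ j, k i j * m i * m j) * w + ((∑ i, k i i) - ∑ i, ∑ j, k i j * m i * m j) := by
  simp only [Fin.sum_univ_three, dk]
  simp
  ring

/-- The square length in terms of the contractions. -/
theorem norm_alg1 (m : Fin 3 → ℝ) (k : Fin 3 → Fin 3 → ℝ) (hk : ∀ i j, k i j = k j i) (w : ℝ) :
    ∑ i, ∑ j, ∑ a, ∑ b, (dk i a + (w - 1) * (m i * m a)) * (dk j b + (w - 1) * (m j * m b)) *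
        k i j * k a b =
      (∑ i, ∑ j, k i j ^ 2) + 2 * (w - 1) * (∑ i, (∑ j, k i j * m j) ^ 2) +
        (w - 1) ^ 2 * (∑ i, ∑ j, k i j * m i * m j) ^ 2 := by
  have h10 := hk 1 0
  have h20 := hk 2 0
  have h21 := hk 2 1
  simp only [Fin.sum_univ_three, dk]
  simp
  rw [h10, h20, h21]
  ring

/-- The square length of the tangential part of `k m`. -/
theorem norm_alg2 (m : Fin 3 → ℝ) (v : Fin 3 → ℝ) (C : ℝ) (hC : ∑ i, v i * m i = C)
    (hm : ∑ i, m i ^ 2 = 1) :
    ∑ i, (v i - m i * C) ^ 2 = (∑ i, v i ^ 2) - C ^ 2 := by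
  have h1 : ∑ i, (v i - m i * C) ^ 2 =
      (∑ i, v i ^ 2) - 2 * C * (∑ i, v i * m i) + C ^ 2 * ∑ i, m i ^ 2 := by
    rw [Finset.mul_sum, Finset.mul_sum, ← Finset.sum_sub_distrib, ← Finset.sum_add_distrib]
    apply Finset.sum_congr rfl
    intro i _
    ring
  rw [h1, hC, hm]
  ring

/-- The square length of the tangential part of `k`. -/
theorem norm_alg3 (m z : Fin 3 → ℝ) (k : Fin 3 → Fin 3 → ℝ) (hk : ∀ i j, k i j = k j i) (C : ℝ) :
    ∑ i, ∑ j, (k i j - m i * z j - m j * z i - m i * m j * C) ^ 2 =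
      (∑ i, ∑ j, k i j ^ 2) + 2 * (∑ i, m i ^ 2) * (∑ i, z i ^ 2) + 2 * (∑ i, z i * m i) ^ 2 +
      (∑ i, m i ^ 2) ^ 2 * C ^ 2 - 4 * (∑ i, z i * ∑ j, k i j * m j) -
      2 * C * (∑ i, ∑ j, k i j * m i * m j) + 4 * C * (∑ i, z i * m i) * (∑ i, m i ^ 2) := by
  have h10 := hk 1 0
  have h20 := hk 2 0
  have h21 := hk 2 1
  simp only [Fin.sum_univ_three]
  rw [h10, h20, h21]
  ring

end XNaux

open XNaux in
/-- XN: the trace and the square length of `k`. -/
theorem XN : Stmt_XN := by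
  intro d M k X hX
  have hM : M X ≠ 0 := hX.pos_M.ne'
  have hm : ∑ i, pd i d X ^ 2 = 1 := hX.eikonal.self_of_nhds
  have hs : ∀ i j, k X i j = k X j i := by
    intro i j
    have h1 := hX.symm_k.self_of_nhds
    exact h1.apply j i
  have hinv : ∀ i j, (xg d M X)⁻¹ i j = dk i j + (1 / M X ^ 2 - 1) * (pd i d X * pd j d X) := by
    intro i j
    have h1 := inv_eq (fun i => pd i d X) (M X) hM hm
    have h2 : (xg d M X)⁻¹ = Matrix.of fun i j =>
        dk i j + (1 / M X ^ 2 - 1) * (pd i d X * pd j d X) := h1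
    rw [h2]
    rfl
  set m : Fin 3 → ℝ := fun i => pd i d X with hmdef
  set C : ℝ := ∑ i, ∑ j, k X i j * pd i d X * pd j d X with hC
  refine ⟨?_, ?_⟩
  · have h1 := trace_alg m (fun i j => k X i j) (1 / M X ^ 2)
    rw [traceWith]
    simp only [hinv]
    rw [h1, xp]
    change C * (1 / M X ^ 2) + ((∑ i, k X i i) - C) = C / M X ^ 2 + ((∑ i, k X i i) - C)
    ring
  · have h1 := norm_alg1 m (fun i j => k X i j) hs (1 / M X ^ 2)
    rw [normSqWith]
    simp only [hinv]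
    rw [h1]
    have hv : ∑ i, (∑ j, k X i j * m j) * m i = C := by
      rw [hC]
      apply Finset.sum_congr rfl
      intro i _
      rw [Finset.sum_mul]
      apply Finset.sum_congr rfl
      intro j _
      change k X i j * pd j d X * pd i d X = k X i j * pd i d X * pd j d X
      ring
    have h2 := norm_alg2 m (fun i => ∑ j, k X i j * m j) C hv hm
    have hz : ∀ i, xkm d k i X = (∑ j, k X i j * m j) - m i * C := by
      intro i
      rw [xkm, hC]
    have hzm : ∑ i, xkm d k i X * m i = 0 := by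
      have h4 : ∑ i, xkm d k i X * m i =
          (∑ i, (∑ j, k X i j * m j) * m i) - C * ∑ i, m i ^ 2 := by
        rw [Finset.mul_sum, ← Finset.sum_sub_distrib]
        apply Finset.sum_congr rfl
        intro i _
        rw [hz]
        ring
      rw [h4, hv, hm]
      ring
    have hz2 : ∑ i, xkm d k i X ^ 2 = (∑ i, (∑ j, k X i j * m j) ^ 2) - C ^ 2 := by
      rw [← h2]
      apply Finset.sum_congr rfl
      intro i _
      rw [hz]
    have hzk : ∑ i, xkm d k i X * (∑ j, k X i j * m j) =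
        (∑ i, (∑ j, k X i j * m j) ^ 2) - C ^ 2 := by
      have h4 : ∑ i, xkm d k i X * (∑ j, k X i j * m j) =
          (∑ i, (∑ j, k X i j * m j) ^ 2) - C * (∑ i, (∑ j, k X i j * m j) * m i) := by
        rw [Finset.mul_sum, ← Finset.sum_sub_distrib]
        apply Finset.sum_congr rfl
        intro i _
        rw [hz]
        ring
      rw [h4, hv]
      ring
    have h3 := norm_alg3 m (fun i => xkm d k i X) (fun i j => k X i j) hs C
    have h5 : ∑ i, ∑ j, (k X i j - pd i d X * xkm d k j X - pd j d X * xkm d k i X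
        - pd i d X * pd j d X * C) ^ 2 =
        (∑ i, ∑ j, k X i j ^ 2) + 2 * (∑ i, m i ^ 2) * (∑ i, xkm d k i X ^ 2) +
        2 * (∑ i, xkm d k i X * m i) ^ 2 +
        (∑ i, m i ^ 2) ^ 2 * C ^ 2 - 4 * (∑ i, xkm d k i X * ∑ j, k X i j * m j) -
        2 * C * C + 4 * C * (∑ i, xkm d k i X * m i) * (∑ i, m i ^ 2) := h3
    have h6 : ∑ i, xW d M k i X ^ 2 = (1 / M X ^ 2) * ∑ i, xkm d k i X ^ 2 := by
      rw [Finset.mul_sum]
      apply Finset.sum_congr rfl
      intro i _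
      rw [xW, div_pow]
      ring
    rw [h5, h6, hz2, hzm, hzk, hm]
    change (∑ i, ∑ j, k X i j ^ 2) + 2 * (1 / M X ^ 2 - 1) * (∑ i, (∑ j, k X i j * m j) ^ 2) +
        (1 / M X ^ 2 - 1) ^ 2 * C ^ 2 = _
    ring

end Pool.Agent.PenroseConvex
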