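import Pool.Agent.PenroseConvex.Stmts
import Pool.Agent.PenroseSph.Calc

/-! # XR: the scalar curvature in X-space, by rotation -/

open MeasureTheory Filter Topology
open scoped ContDiff

namespace Pool.Agent.PenroseConvex

open Pool.Agent.PenroseSph

namespace XRaux

theorem contDiffAt_pd {f : E3 → ℝ} {x : E3} (i : Fin 3) (hf : ContDiffAt ℝ ∞ f x) :
    ContDiffAt ℝ ∞ (pd i f) x := by
  have h1 : ContDiffAt ℝ ∞ (fderiv ℝ f) x := hf.fderiv_right (by simp)
  exact h1.clm_apply contDiffAt_const

theorem diffAt {f : E3 → ℝ} {x : E3} (hf : ContDiffAt ℝ ∞ f x) : DifferentiableAt ℝ f x :=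
  hf.differentiableAt (by simp)

theorem diffAt_ev {f : E3 → ℝ} {x : E3} (hf : ContDiffAt ℝ ∞ f x) :
    ∀ᶠ y in 𝓝 x, DifferentiableAt ℝ f y := by
  have h1 : ContDiffAt ℝ 1 f x := hf.of_le (by simp)
  filter_upwards [h1.eventually (by simp)] with y hy
  exact hy.differentiableAt (by simp)

/-- The matrix with the columns `b i`. -/
noncomputable def mat (L : E3 →L[ℝ] E3) : Matrix (Fin 3) (Fin 3) ℝ :=
  Matrix.of fun a i => L (EuclideanSpace.single i 1) a

theorem vec_eq (v : E3) : v = ∑ a, v a • (EuclideanSpace.single a (1 : ℝ) : E3) := by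
  ext i
  simp [Fin.sum_univ_three, EuclideanSpace.single_apply]
  fin_cases i <;> simp

theorem fderiv_apply_eq {f : E3 → ℝ} {x : E3} (v : E3) :
    fderiv ℝ f x v = ∑ a, v a * pd a f x := by
  conv_lhs => rw [vec_eq v]
  rw [map_sum]
  simp [pd]

theorem pd_comp (L : E3 →L[ℝ] E3) (X : E3) {f : E3 → ℝ} {y : E3}
    (hf : DifferentiableAt ℝ f (X + L y)) (i : Fin 3) :
    pd i (fun z => f (X + L z)) y = ∑ a, mat L a i * pd a f (X + L y) := by
  have h1 : HasFDerivAt (fun z => X + L z) L y := by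
    simpa using (L.hasFDerivAt (x := y)).const_add X
  have h2 : HasFDerivAt (fun z => f (X + L z)) ((fderiv ℝ f (X + L y)).comp L) y :=
    HasFDerivAt.comp y hf.hasFDerivAt h1
  unfold pd
  rw [h2.fderiv, ContinuousLinearMap.comp_apply, fderiv_apply_eq]
  rfl

theorem pd_pd_comp (L : E3 →L[ℝ] E3) (X : E3) {f : E3 → ℝ}
    (hf : ContDiffAt ℝ ∞ f X) (i j : Fin 3) :
    pd i (pd j (fun z => f (X + L z))) 0
      = ∑ a, ∑ b, mat L a i * mat L b j * pd a (pd b f) X := by
  have hX : X + L 0 = X := by simp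
  have hcont : Tendsto (fun z => X + L z) (𝓝 0) (𝓝 X) := by
    have : Continuous (fun z => X + L z) := by fun_prop
    have h := this.tendsto 0
    rwa [hX] at h
  have h1 : (pd j (fun z => f (X + L z))) =ᶠ[𝓝 0]
      fun z => ∑ b, mat L b j * pd b f (X + L z) := by
    filter_upwards [hcont.eventually (diffAt_ev hf)] with z hz
    exact pd_comp L X hz j
  rw [pd_congr h1]
  have hd : ∀ b, DifferentiableAt ℝ (pd b f) (X + L 0) := fun b => by
    rw [hX]
    exact diffAt (contDiffAt_pd b hf)
  have hd' : ∀ b, DifferentiableAt ℝ (fun z => pd b f (X + L z)) 0 := fun b => by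
    have h1 : DifferentiableAt ℝ (fun z => X + L z) 0 := by fun_prop
    exact (hd b).comp 0 h1
  rw [pd_sum _ _ (fun b _ => (hd' b).const_mul _)]
  simp only [pd_const_mul _ (hd' _)]
  simp only [pd_comp L X (hd _), hX, Finset.mul_sum]
  rw [Finset.sum_comm]
  refine Finset.sum_congr rfl fun a _ => Finset.sum_congr rfl fun b _ => ?_
  ring

/-- The gradient as a vector. -/
noncomputable def gv (f : E3 → ℝ) (Y : E3) : Fin 3 → ℝ := fun i => pd i f Y

/-- The Hessian as a matrix. -/
noncomputable def hm (f : E3 → ℝ) (Y : E3) : Matrix (Fin 3) (Fin 3) ℝ :=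
  Matrix.of fun i j => pd i (pd j f) Y

theorem gv_comp (L : E3 →L[ℝ] E3) (X : E3) {f : E3 → ℝ} {y : E3}
    (hf : DifferentiableAt ℝ f (X + L y)) :
    gv (fun z => f (X + L z)) y = (mat L).transpose.mulVec (gv f (X + L y)) := by
  funext i
  simp only [gv, pd_comp L X hf, Matrix.mulVec, dotProduct, Matrix.transpose_apply]

theorem hm_comp (L : E3 →L[ℝ] E3) (X : E3) {f : E3 → ℝ} (hf : ContDiffAt ℝ ∞ f X) :
    hm (fun z => f (X + L z)) 0 = (mat L).transpose * hm f X * mat L := by
  ext i j
  simp only [hm, Matrix.of_apply, pd_pd_comp L X hf, Matrix.mul_apply, Matrix.transpose_apply,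
    Finset.sum_mul]
  rw [Finset.sum_comm]
  refine Finset.sum_congr rfl fun a _ => Finset.sum_congr rfl fun b _ => ?_
  ring

theorem xg_eq (d M : E3 → ℝ) (Y : E3) :
    xg d M Y = 1 + (M Y ^ 2 - 1) • Matrix.vecMulVec (gv d Y) (gv d Y) := by
  ext i j
  simp [xg, dk, gv, Matrix.vecMulVec_apply, Matrix.one_apply]

theorem xg_symm (d M : E3 → ℝ) (Y : E3) : (xg d M Y).IsSymm := by
  ext i j
  simp only [Matrix.transpose_apply, xg, Matrix.of_apply, dk]
  by_cases h : i = j
  · subst h; rfl
  · rw [if_neg h, if_neg (fun h' => h h'.symm)]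
    ring

theorem xg_det (d M : E3 → ℝ) (Y : E3) (h : ∑ i, pd i d Y ^ 2 = 1) :
    (xg d M Y).det = M Y ^ 2 := by
  rw [Fin.sum_univ_three] at h
  have h1 : (xg d M Y).det
      = 1 + (M Y ^ 2 - 1) * (pd 0 d Y ^ 2 + pd 1 d Y ^ 2 + pd 2 d Y ^ 2) := by
    rw [Matrix.det_fin_three]
    simp only [xg, Matrix.of_apply, dk]
    norm_num [Fin.ext_iff]
    ring
  rw [h1, h]
  ring

theorem jac_affine (L : E3 →L[ℝ] E3) (X y : E3) : jac (fun z => X + L z) y = mat L := by
  ext a i
  simp only [jac, Matrix.of_apply]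
  have h := pd_comp L X (f := fun z : E3 => z a) (y := y) (differentiableAt_coord a) i
  rw [h]
  simp only [pd_coord]
  simp

theorem xg_pullback (L : E3 →L[ℝ] E3) (X : E3) {d M : E3 → ℝ}
    (hO : (mat L).transpose * mat L = 1) {y : E3}
    (hd : DifferentiableAt ℝ d (X + L y)) :
    xg (fun z => d (X + L z)) (fun z => M (X + L z)) y
      = pullback (fun z => X + L z) (xg d M) y := by
  rw [xg_eq, gv_comp L X hd]
  simp only [pullback]
  rw [jac_affine, xg_eq, Matrix.mul_add, Matrix.add_mul, Matrix.mul_one, hO, Matrix.mul_smul,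
    Matrix.smul_mul, Matrix.mul_vecMulVec, Matrix.vecMulVec_mul, Matrix.mulVec_transpose]

theorem exists_rot (m : Fin 3 → ℝ) (hm : ∑ i, m i ^ 2 = 1) : ∃ L : E3 →L[ℝ] E3,
    (mat L).transpose * mat L = 1 ∧ mat L * (mat L).transpose = 1 ∧
      ∀ a, mat L a 2 = m a := by
  obtain ⟨v, hv⟩ : ∃ v : E3, ∀ i, v i = m i := ⟨WithLp.toLp 2 m, fun i => rfl⟩
  have hv1 : ‖v‖ = 1 := by
    have h1 : ‖v‖ ^ 2 = 1 := by
      rw [EuclideanSpace.norm_sq_eq]
      simp only [hv, Real.norm_eq_abs, sq_abs]
      exact hm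
    have h2 : 0 ≤ ‖v‖ := norm_nonneg v
    nlinarith
  have horth : Orthonormal ℝ (({2} : Set (Fin 3)).restrict (fun _ : Fin 3 => v)) := by
    constructor
    · intro i
      exact hv1
    · intro i j hij
      exact absurd (Subsingleton.elim i j) hij
  obtain ⟨b, hb⟩ := horth.exists_orthonormalBasis_extension_of_card_eq
    (by simp : Module.finrank ℝ E3 = Fintype.card (Fin 3))
  have hb2 : b 2 = v := hb 2 (by simp)
  obtain ⟨L, hL⟩ : ∃ L : E3 →L[ℝ] E3, L = (b.repr.symm.toContinuousLinearEquiv : E3 →L[ℝ] E3) :=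
    ⟨_, rfl⟩
  have hcol : ∀ a i, mat L a i = b i a := by
    intro a i
    simp [mat, hL]
  have h1 : (mat L).transpose * mat L = 1 := by
    ext i j
    rw [Matrix.mul_apply]
    simp only [Matrix.transpose_apply, hcol]
    have h := (orthonormal_iff_ite.1 b.orthonormal) i j
    rw [PiLp.inner_apply] at h
    simp only [RCLike.inner_apply, conj_trivial] at h
    rw [Matrix.one_apply, ← h]
    refine Finset.sum_congr rfl fun a _ => ?_
    ring
  refine ⟨L, h1, mul_eq_one_comm.1 h1, fun a => ?_⟩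
  rw [hcol, hb2, hv]

end XRaux

open XRaux

theorem XR (hCOVR : Stmt_COVR) (hXR3 : Stmt_XR3) (_hXEIK : Stmt_XEIK) : Stmt_XR := by
  intro d M k X hX
  have heik := hX.eikonal.self_of_nhds
  obtain ⟨L, hO1, hO2, hO3⟩ := exists_rot (fun i => pd i d X) heik
  have hX0 : X + L 0 = X := by simp
  have hcont : Tendsto (fun z => X + L z) (𝓝 0) (𝓝 X) := by
    have : Continuous (fun z => X + L z) := by fun_prop
    have h := this.tendsto 0
    rwa [hX0] at h
  have hsm : ContDiff ℝ ∞ (fun z => X + L z) := by fun_prop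
  have hcomp : ∀ f : E3 → ℝ, ContDiffAt ℝ ∞ f X → ContDiffAt ℝ ∞ (fun z => f (X + L z)) 0 := by
    intro f hf
    refine ContDiffAt.comp 0 ?_ hsm.contDiffAt
    rw [hX0]
    exact hf
  have hdiff := diffAt_ev hX.smooth_d
  -- the gradient at the origin
  have hg0 : gv (fun z => d (X + L z)) 0 = (mat L).transpose.mulVec (gv d X) := by
    have := gv_comp L X (f := d) (y := 0) (by rw [hX0]; exact diffAt hX.smooth_d)
    rwa [hX0] at this
  have hcolm : gv d X = fun a => mat L a 2 := by
    funext a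
    exact (hO3 a).symm
  have hg0' : ∀ i, pd i (fun z => d (X + L z)) 0 = (1 : Matrix (Fin 3) (Fin 3) ℝ) i 2 := by
    intro i
    have h1 := congrFun hg0 i
    rw [hcolm] at h1
    rw [← hO1, Matrix.mul_apply]
    exact h1
  have hXD : XData (fun z => d (X + L z)) (fun z => M (X + L z)) (fun _ => 0) 0 := by
    refine ⟨hcomp d hX.smooth_d, hcomp M hX.smooth_M, fun i j => contDiffAt_const, ?_, ?_, ?_⟩
    · exact Filter.Eventually.of_forall fun _ => Matrix.isSymm_zero
    · show 0 < M (X + L 0)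
      rw [hX0]
      exact hX.pos_M
    · filter_upwards [hcont.eventually hX.eikonal, hcont.eventually hdiff] with y h1 h2
      have h3 := gv_comp L X h2
      have h4 : ∑ i, pd i (fun z => d (X + L z)) y ^ 2
          = dotProduct (gv (fun z => d (X + L z)) y) (gv (fun z => d (X + L z)) y) := by
        simp [dotProduct, gv, sq]
      rw [h4, h3, Matrix.dotProduct_mulVec, Matrix.vecMul_transpose, Matrix.mulVec_mulVec, hO2,
        Matrix.one_mulVec]
      rw [← h1]
      simp [dotProduct, gv, sq]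
  have hchange : ChangeAt (fun z => X + L z) (xg d M)
      (xg (fun z => d (X + L z)) (fun z => M (X + L z))) 0 := by
    refine ⟨hsm.contDiffAt, ?_, ?_, ?_, ?_, ?_⟩
    · intro i j
      rw [hX0]
      simp only [xg, Matrix.of_apply]
      exact contDiffAt_const.add (((hX.smooth_M.pow 2).sub contDiffAt_const).mul
        ((contDiffAt_pd i hX.smooth_d).mul (contDiffAt_pd j hX.smooth_d)))
    · exact Filter.Eventually.of_forall fun y => xg_symm d M y
    · rw [hX0, xg_det d M X heik]
      have := hX.pos_M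
      positivity
    · rw [jac_affine]
      intro h0
      have h1 := congrArg Matrix.det hO1
      rw [Matrix.det_mul, h0, mul_zero, Matrix.det_one] at h1
      exact zero_ne_one h1
    · filter_upwards [hcont.eventually hdiff] with y hy
      exact xg_pullback L X hO1 hy
  have h1 := hCOVR _ _ _ _ hchange
  rw [hX0] at h1
  rw [← h1]
  have h2 := hXR3 _ _ _ _ hXD (by rw [hg0']; simp) (by rw [hg0']; simp) (by rw [hg0']; simp)
  rw [h2]
  -- comparison of the terms
  have hH := hm_comp L X hX.smooth_d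
  have hHM := hm_comp L X hX.smooth_M
  have hgM : gv (fun z => M (X + L z)) 0 = (mat L).transpose.mulVec (gv M X) := by
    have := gv_comp L X (f := M) (y := 0) (by rw [hX0]; exact diffAt hX.smooth_M)
    rwa [hX0] at this
  have htr : ∀ A : Matrix (Fin 3) (Fin 3) ℝ,
      ((mat L).transpose * A * mat L).trace = A.trace := by
    intro A
    rw [Matrix.trace_mul_comm, ← Matrix.mul_assoc, hO2, Matrix.one_mul]
  have e1 : xH (fun z => d (X + L z)) 0 = xH d X := by
    have h3 : ∀ (f : E3 → ℝ) (Y : E3), xH f Y = (hm f Y).trace := by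
      intro f Y
      simp [xH, hm, Matrix.trace]
    rw [h3, h3, hH, htr]
  have e2 : xQ (fun z => d (X + L z)) 0 = xQ d X := by
    have h3 : ∀ (f : E3 → ℝ) (Y : E3), xQ f Y = ((hm f Y).transpose * hm f Y).trace := by
      intro f Y
      simp only [xQ, hm, Matrix.trace, Matrix.diag_apply, Matrix.mul_apply,
        Matrix.transpose_apply, Matrix.of_apply]
      rw [Finset.sum_comm]
      refine Finset.sum_congr rfl fun a _ => Finset.sum_congr rfl fun b _ => ?_
      ring
    rw [h3, h3, hH]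
    rw [Matrix.transpose_mul, Matrix.transpose_mul, Matrix.transpose_transpose]
    have h4 : (mat L).transpose * ((hm d X).transpose * mat L)
        * ((mat L).transpose * hm d X * mat L)
        = (mat L).transpose * ((hm d X).transpose * hm d X) * mat L := by
      have h5 : (mat L).transpose * ((hm d X).transpose * mat L)
        * ((mat L).transpose * hm d X * mat L)
        = (mat L).transpose * (hm d X).transpose * (mat L * (mat L).transpose)
          * hm d X * mat L := by
        simp only [Matrix.mul_assoc]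
      rw [h5, hO2, Matrix.mul_one]
      simp only [Matrix.mul_assoc]
    rw [h4, htr]
  have e3 : pd 2 (fun z => M (X + L z)) 0 = ∑ i, pd i d X * pd i M X := by
    have h3 := congrFun hgM 2
    refine h3.trans ?_
    simp only [Matrix.mulVec, dotProduct, Matrix.transpose_apply, hO3, gv]
  have e4 : (∑ i, pd i (pd i (fun z => M (X + L z))) 0) = ∑ i, pd i (pd i M) X := by
    have h3 : ∀ (f : E3 → ℝ) (Y : E3), (∑ i, pd i (pd i f) Y) = (hm f Y).trace := by
      intro f Y
      simp [hm, Matrix.trace]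
    rw [h3, h3, hHM, htr]
  have e5 : pd 2 (pd 2 (fun z => M (X + L z))) 0
      = ∑ i, ∑ j, pd i d X * pd j d X * pd i (pd j M) X := by
    rw [pd_pd_comp L X hX.smooth_M]
    simp only [hO3]
  have e6 : M (X + L 0) = M X := by rw [hX0]
  rw [Fin.sum_univ_three] at e4
  rw [e1, e2, e3, e6]
  rw [← e4, ← e5]
  ring

end Pool.Agent.PenroseConvex
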