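import Pool.Agent.PenroseConvex.ALG
import Pool.Agent.PenroseConvex.SMO
import Pool.Agent.PenroseConvex.RAY
import Pool.Agent.PenroseConvex.GEO
import Pool.Agent.PenroseConvex.FLUX
import Pool.Agent.PenroseConvex.DEC
import Pool.Agent.PenroseConvex.COVC
import Pool.Agent.PenroseConvex.COVR
import Pool.Agent.PenroseConvex.COVJ
import Pool.Agent.PenroseConvex.XEIK
import Pool.Agent.PenroseConvex.XR3
import Pool.Agent.PenroseConvex.XJ3
import Pool.Agent.PenroseConvex.XR
import Pool.Agent.PenroseConvex.XJ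
import Pool.Agent.PenroseConvex.XN
import Pool.Agent.PenroseConvex.XMI
import Pool.Agent.PenroseConvex.LOC
import Pool.Agent.PenroseConvex.TRX
import Pool.Agent.PenroseConvex.CHN
import Pool.Agent.PenroseConvex.PIO
import Pool.Agent.PenroseConvex.MI
import Pool.Agent.PenroseConvex.DIF
import Pool.Agent.PenroseConvex.MONO
import Pool.Agent.PenroseConvex.MINK
import Pool.Agent.PenroseConvex.DCY
import Pool.Agent.PenroseConvex.MASS
import Pool.Agent.PenroseConvex.LIM
import Pool.Agent.PenroseConvex.FAR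
import Pool.Agent.PenroseConvex.OUT
import Pool.Agent.PenroseConvex.FINAL

/-! # Assembly of the modules -/

namespace Pool.Agent.PenroseConvex

theorem covr : Stmt_COVR := COVR COVC

theorem covj : Stmt_COVJ := COVJ COVC

theorem smo : Stmt_SMO := SMO ALG

theorem geo : Stmt_GEO := GEO ALG smo RAY

theorem xmi : Stmt_XMI :=
  XMI XEIK (XR covr (XR3 XEIK) XEIK) (XJ covj (XJ3 XEIK) XEIK) XN

theorem mi : Stmt_MI :=
  MI ALG smo RAY covr covj xmi (LOC ALG smo) (TRX ALG) (CHN ALG) (PIO ALG smo)

theorem mono : Stmt_MONO := MONO ALG smo RAY geo (FLUX ALG geo) (DEC ALG) mi DIF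

theorem dcy : Stmt_DCY := DCY ALG RAY smo

theorem lim : Stmt_LIM := LIM ALG smo RAY dcy (MASS ALG RAY)

theorem out : Stmt_OUT := OUT ALG smo RAY geo (FAR ALG geo dcy) DIF

/-- The final theorem. -/
theorem final : Stmt_FINAL := FINAL ALG smo RAY geo mono (MINK ALG RAY) lim out

end Pool.Agent.PenroseConvex
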