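import Pool.Agent.PenroseSph.Defs

/-!
# Initial data foliated by parallel surfaces of a convex body

Coordinate definitions. The coordinate sphere `|x| = s` carries the metric of the convex surface
of three-space with support function `u + ρ(s)`; these surfaces, for all `s`, are parallel.
-/

open MeasureTheory Filter Topology
open scoped ContDiff

namespace Pool.Agent.PenroseConvex

open Pool.Agent.PenroseSph

/-- The covector `d|x|`, with components `x_i / |x|`. -/
noncomputable def nu (x : E3) (i : Fin 3) : ℝ := x i / ‖x‖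

/-- The matrix of the radii of curvature: `|x| ∂_i∂_j u + ρ(|x|) (δ_ij - x_i x_j / |x|²)`. For a
support function `u` it is tangential to the coordinate spheres and, on the coordinate sphere of
radius `s`, it is the differential of the inverse Gauss map of the convex surface with support
function `u + ρ(s)`. -/
noncomputable def radii (u : E3 → ℝ) (ρ : ℝ → ℝ) : TensorField := fun x =>
  Matrix.of fun i j =>
    ‖x‖ * pd i (pd j u) x + ρ ‖x‖ * ((if i = j then 1 else 0) - nu x i * nu x j)

/-- The metric `N² d|x|² + γ`, where `γ` restricted to the coordinate sphere of radius `s` is the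
metric of the convex surface of three-space with support function `u + ρ(s)`, parametrised by its
unit normal `x / |x|`. -/
noncomputable def parallelMetric (u : E3 → ℝ) (ρ : ℝ → ℝ) (N : E3 → ℝ) : TensorField := fun x =>
  Matrix.of fun i j =>
    N x ^ 2 * (nu x i * nu x j) + (radii u ρ x * radii u ρ x) i j / ‖x‖ ^ 2

/-- Initial data `(g, h)` on the region `|x| > a` of three-space: the metric is
`N² d|x|² + γ` with `γ` as in `parallelMetric` and `N > 0` an arbitrary smooth function, `h` is
an arbitrary smooth symmetric tensor, and the data are asymptotically flat. -/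
structure ParallelData (a : ℝ) (u : E3 → ℝ) (ρ : ℝ → ℝ) (N : E3 → ℝ) (g h : TensorField) :
    Prop where
  radius_nonneg : 0 ≤ a
  smooth_u : ContDiffOn ℝ ∞ u {0}ᶜ
  homogeneous_u : ∀ x : E3, x ≠ 0 → ∀ t : ℝ, 0 < t → u (t • x) = t * u x
  smooth_rho : ContDiffOn ℝ ∞ ρ (Set.Ioi a)
  smooth_N : ContDiffOn ℝ ∞ N {x : E3 | a < ‖x‖}
  N_pos : ∀ x : E3, a < ‖x‖ → 0 < N x
  convex : ∀ x : E3, a < ‖x‖ → ∀ v : Fin 3 → ℝ, ∑ i, v i * x i = 0 → v ≠ 0 →
    0 < ∑ i, ∑ j, radii u ρ x i j * v i * v j
  metric_eq : ∀ x : E3, a < ‖x‖ → g x = parallelMetric u ρ N x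
  smooth_h : ∀ i j, ContDiffOn ℝ ∞ (fun x => h x i j) {x : E3 | a < ‖x‖}
  symm_h : ∀ x : E3, a < ‖x‖ → (h x).IsSymm
  decay : ∃ C R : ℝ, ∀ x : E3, R ≤ ‖x‖ → ∀ i j,
    |g x i j - (1 : Matrix (Fin 3) (Fin 3) ℝ) i j| ≤ C / ‖x‖ ∧
    (∀ k, |pd k (fun y => g y i j) x| ≤ C / ‖x‖ ^ 2) ∧ |h x i j| ≤ C / ‖x‖ ^ 2

/-- The unit normal vector field `n` of the coordinate spheres with respect to `g`. -/
noncomputable def unitNormal (g : TensorField) (i : Fin 3) (x : E3) : ℝ :=
  (∑ j, (g x)⁻¹ i j * nu x j) / Real.sqrt (∑ k, ∑ l, (g x)⁻¹ k l * nu x k * nu x l)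

/-- The mean curvature of the coordinate spheres with respect to `g`: the divergence `∇_i n^i`
of their unit normal. -/
noncomputable def meanCurvature (g : TensorField) (x : E3) : ℝ :=
  ∑ i, (pd i (unitNormal g i) x + ∑ k, christoffel g i i k x * unitNormal g k x)

/-- The trace of `h` over the tangent plane of the coordinate sphere: `tr_g h - h(n, n)`. -/
noncomputable def sphereTrace (g h : TensorField) (x : E3) : ℝ :=
  traceWith g h x - ∑ i, ∑ j, h x i j * unitNormal g i x * unitNormal g j x

/-- The area element of the coordinate spheres with respect to `g`, relative to that of the unit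
sphere. -/
noncomputable def areaDensity (g : TensorField) (x : E3) : ℝ :=
  Real.sqrt ((g x).det * ∑ i, ∑ j, (g x)⁻¹ i j * nu x i * nu x j) * ‖x‖ ^ 2

/-- The `g`-area of the coordinate sphere of radius `s`. -/
noncomputable def sphereArea (g : TensorField) (s : ℝ) : ℝ :=
  ∫ θ : Metric.sphere (0 : E3) 1, areaDensity g (s • (θ : E3)) ∂((volume : Measure E3).toSphere)

/-- The coordinate sphere of radius `s` is weakly trapped (to the future or to the past) at each
of its points: `H ≤ |tr_S h|`. -/
def WeaklyTrapped (g h : TensorField) (s : ℝ) : Prop :=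
  ∀ x : E3, ‖x‖ = s → meanCurvature g x ≤ |sphereTrace g h x|

/-- The coordinate sphere of radius `s` is untrapped at each of its points: `|tr_S h| < H`. -/
def Untrapped (g h : TensorField) (s : ℝ) : Prop :=
  ∀ x : E3, ‖x‖ = s → |sphereTrace g h x| < meanCurvature g x

/-- The ratio `φ = tr_S h / H`. -/
noncomputable def expansionRatio (g h : TensorField) (x : E3) : ℝ :=
  sphereTrace g h x / meanCurvature g x

/-- The integral `∫ h(n, ∇_S φ) dA` over the coordinate sphere of radius `s`, where `∇_S φ` is the
tangential gradient of `φ = tr_S h / H`; it equals `-∫ φ div_S (h(n, ·)) dA`. -/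
noncomputable def fluxIntegral (g h : TensorField) (s : ℝ) : ℝ :=
  ∫ θ : Metric.sphere (0 : E3) 1,
    ((∑ i, ∑ j, h (s • (θ : E3)) i j * unitNormal g i (s • (θ : E3))
        * ∑ k, (g (s • (θ : E3)))⁻¹ j k * pd k (expansionRatio g h) (s • (θ : E3)))
      - (∑ i, ∑ j, h (s • (θ : E3)) i j * unitNormal g i (s • (θ : E3))
          * unitNormal g j (s • (θ : E3)))
        * ∑ k, unitNormal g k (s • (θ : E3)) * pd k (expansionRatio g h) (s • (θ : E3)))
      * areaDensity g (s • (θ : E3)) ∂((volume : Measure E3).toSphere)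

/-- The condition on the foliation: each coordinate sphere is weakly trapped at all of its
points, or it is untrapped at all of its points and `∫ h(n, ∇_S φ) dA ≤ 0`, `φ = tr_S h / H`. The
flux condition holds in particular if `tr_S h / H` is constant on the sphere, if `h(n, ·)` vanishes
on vectors tangent to the sphere, and if the tangential part of `h(n, ·)` is divergence-free on the
sphere. -/
def FoliationCondition (a : ℝ) (g h : TensorField) : Prop :=
  ∀ s : ℝ, a < s → WeaklyTrapped g h s ∨ (Untrapped g h s ∧ fluxIntegral g h s ≤ 0)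

/-- The inner boundary condition: the data are two-ended (`a = 0` and the areas of the coordinate
spheres tend to infinity at the origin), or some coordinate sphere is weakly trapped. -/
def InnerCondition (a : ℝ) (g h : TensorField) : Prop :=
  (a = 0 ∧ Tendsto (sphereArea g) (𝓝[>] 0) atTop) ∨ ∃ s : ℝ, a < s ∧ WeaklyTrapped g h s

end Pool.Agent.PenroseConvex
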