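import Pool.Agent.PenroseConvex.Stmts

/-! # Far out the coordinate spheres are untrapped -/

open MeasureTheory Filter Topology
open scoped ContDiff

namespace Pool.Agent.PenroseConvex

open Pool.Agent.PenroseSph

theorem FAR (hALG : Stmt_ALG) (hGEO : Stmt_GEO) (hDCY : Stmt_DCY) : Stmt_FAR := by
  intro a u ρ N g h hd
  obtain ⟨C, R, haR, hR1, hC⟩ := hDCY a u ρ N g h hd
  refine ⟨max R (8 * |C| + 1), lt_of_lt_of_le haR (le_max_left _ _), fun s hs x hx => ?_⟩
  have hsR : R ≤ s := le_trans (le_max_left _ _) hs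
  have hs8 : 8 * |C| + 1 ≤ s := le_trans (le_max_right _ _) hs
  have hCa : C ≤ |C| := le_abs_self C
  have hs0 : 0 < s := by linarith
  have hax : a < ‖x‖ := by
    rw [hx]
    linarith
  obtain ⟨θ, hθ⟩ : ∃ θ : S2, s • (θ : E3) = x := by
    refine ⟨⟨s⁻¹ • x, ?_⟩, ?_⟩
    · rw [mem_sphere_zero_iff_norm, norm_smul, hx, Real.norm_eq_abs, abs_of_pos (inv_pos.2 hs0),
        inv_mul_cancel₀ hs0.ne']
    · simp [smul_smul, mul_inv_cancel₀ hs0.ne']
  obtain ⟨-, h2, h3⟩ := hC s hsR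
  obtain ⟨h4, h5, h6, h7⟩ := h3 θ
  rw [hθ] at h4 h5 h6 h7
  obtain ⟨-, hH, hp, -⟩ := hGEO a u ρ N g h hd x hax
  obtain ⟨-, -, hdB, -⟩ := hALG a u ρ N g h hd x hax
  have hN := hd.N_pos x hax
  rw [hH, hp]
  unfold Hc
  rw [hx]
  have hCs : C / s ≤ 1 / 8 := by
    rw [div_le_div_iff₀ hs0 (by norm_num)]
    linarith
  have hρ : 1 / 2 ≤ deriv ρ s := by
    have := (abs_le.1 h2).1
    linarith
  have hN2 : N x ≤ 2 := by
    have h8 := (abs_le.1 h4).2
    nlinarith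
  have htB : s ≤ tB u ρ x := by
    have h8 := (abs_le.1 h6).1
    have h9 := abs_nonneg C
    linarith
  have hdB2 : dB u ρ x ≤ 2 * s ^ 2 := by
    have h8 := (abs_le.1 h7).2
    nlinarith [abs_nonneg C]
  have hq : 1 / (2 * s) ≤ tB u ρ x / dB u ρ x := by
    rw [div_le_div_iff₀ (by linarith) hdB]
    nlinarith
  have hr : 1 / 4 ≤ deriv ρ s / N x := by
    rw [div_le_div_iff₀ (by norm_num) hN]
    linarith
  have hm : 1 / 4 * (1 / (2 * s)) ≤ deriv ρ s / N x * (tB u ρ x / dB u ρ x) :=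
    mul_le_mul hr hq (by positivity) (by linarith)
  have hpc : |pc u ρ h x| < 1 / 4 * (1 / (2 * s)) := by
    refine lt_of_le_of_lt h5 ?_
    have e : 1 / 4 * (1 / (2 * s)) = (s / 8) / s ^ 2 := by
      field_simp
      norm_num
    rw [e]
    refine div_lt_div_of_pos_right ?_ (by positivity)
    linarith
  exact lt_of_lt_of_le hpc hm

end Pool.Agent.PenroseConvex
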