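import Pool.Agent.PenroseConvex.Stmts
import Pool.Agent.PenroseSph.Calc

/-!
# The momentum density in X-space: rotation to a general direction
-/

open MeasureTheory Filter Topology
open scoped ContDiff

namespace Pool.Agent.PenroseConvex

open Pool.Agent.PenroseSph

namespace XJaux

/-! ### Sums -/

theorem sum_dk (f : Fin 3 → ℝ) (a : Fin 3) : ∑ b, dk a b * f b = f a := by
  simp [dk]

variable {O : Fin 3 → Fin 3 → ℝ}

theorem dotA (hR : ∀ a b, ∑ i, O a i * O b i = dk a b) (u v : Fin 3 → ℝ) :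
    ∑ i, (∑ a, O a i * u a) * (∑ a, O a i * v a) = ∑ a, u a * v a := by
  have h1 : ∑ i, (∑ a, O a i * u a) * (∑ a, O a i * v a) =
      ∑ a, u a * ∑ b, (∑ i, O a i * O b i) * v b := by
    simp only [Fin.sum_univ_three]
    ring
  rw [h1]
  simp only [hR, sum_dk]

theorem dotB (hR : ∀ a b, ∑ i, O a i * O b i = dk a b) (T S : Fin 3 → Fin 3 → ℝ) :
    ∑ i, ∑ j, (∑ b, O b i * ∑ a, O a j * T b a) * (∑ b, O b i * ∑ a, O a j * S b a) =
      ∑ b, ∑ a, T b a * S b a := by
  rw [Finset.sum_comm]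
  simp only [dotA hR (fun b => ∑ a, O a _ * T b a) (fun b => ∑ a, O a _ * S b a)]
  rw [Finset.sum_comm]
  simp only [dotA hR (T _) (S _)]

theorem trC (hR : ∀ a b, ∑ i, O a i * O b i = dk a b) (T : Fin 3 → Fin 3 → ℝ) :
    ∑ i, ∑ b, O b i * ∑ a, O a i * T b a = ∑ a, T a a := by
  have h1 : ∑ i, ∑ b, O b i * ∑ a, O a i * T b a =
      ∑ b, ∑ a, (∑ i, O b i * O a i) * T b a := by
    simp only [Fin.sum_univ_three]
    ring
  rw [h1]
  simp only [hR, sum_dk]

/-- `(Oᵀ T O) (Oᵀ u) = Oᵀ (T u)`. -/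
theorem mulD (hR : ∀ a b, ∑ i, O a i * O b i = dk a b) (T : Fin 3 → Fin 3 → ℝ)
    (u : Fin 3 → ℝ) (i : Fin 3) :
    ∑ j, (∑ b, O b i * ∑ a, O a j * T b a) * (∑ a, O a j * u a) =
      ∑ b, O b i * ∑ a, T b a * u a := by
  have h1 : ∑ j, (∑ b, O b i * ∑ a, O a j * T b a) * (∑ a, O a j * u a) =
      ∑ b, O b i * ∑ j, (∑ a, O a j * T b a) * (∑ a, O a j * u a) := by
    simp only [Fin.sum_univ_three]
    ring
  rw [h1]
  simp only [dotA hR (T _) u]

/-! ### The change of coordinates -/

section Rot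

variable (b : OrthonormalBasis (Fin 3) ℝ E3) (X : E3)

/-- The matrix with columns `b i`. -/
noncomputable def Om (a i : Fin 3) : ℝ := b i a

theorem hC (i j : Fin 3) : ∑ a, Om b a i * Om b a j = dk i j := by
  have h := (orthonormal_iff_ite.mp b.orthonormal) i j
  rw [PiLp.inner_apply] at h
  rw [dk, ← h]
  refine Finset.sum_congr rfl fun a _ => ?_
  simp only [Om, RCLike.inner_apply, conj_trivial]
  ring

theorem hR (a c : Fin 3) : ∑ i, Om b a i * Om b c i = dk a c := by
  let A : Matrix (Fin 3) (Fin 3) ℝ := Matrix.of fun a i => Om b a i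
  have h1 : A.transpose * A = 1 := by
    ext i j
    rw [Matrix.mul_apply, Matrix.one_apply]
    exact hC b i j
  have h2 : A * A.transpose = 1 := mul_eq_one_comm.mp h1
  have h3 := congrFun (congrFun h2 a) c
  rw [Matrix.mul_apply, Matrix.one_apply] at h3
  exact h3

/-- The isometry `y ↦ X + O y`. -/
noncomputable def Ph (y : E3) : E3 := X + b.repr.symm y

theorem Ph_zero : Ph b X 0 = X := by simp [Ph]

theorem Ph_smooth (y : E3) : ContDiffAt ℝ ∞ (Ph b X) y := by
  have h : ContDiff ℝ ∞ (fun y : E3 => X + b.repr.symm y) :=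
    contDiff_const.add b.repr.symm.contDiff
  exact h.contDiffAt

theorem pd_Ph (f : E3 → ℝ) (i : Fin 3) (y : E3) :
    pd i (fun z => f (Ph b X z)) y = ∑ a, Om b a i * pd a f (Ph b X y) := by
  have h1 : fderiv ℝ (fun z => f (Ph b X z)) y =
      (fderiv ℝ f (Ph b X y)).comp
        (b.repr.symm.toContinuousLinearEquiv : E3 →L[ℝ] E3) := by
    have h2 := ContinuousLinearEquiv.comp_right_fderiv
      (iso := b.repr.symm.toContinuousLinearEquiv) (f := fun z => f (X + z)) (x := y)
    rw [fderiv_comp_add_left] at h2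
    exact h2
  have h3 : (b.repr.symm (EuclideanSpace.single i 1) : E3) = b i :=
    b.repr_symm_single i
  have h4 : (b i : E3) = ∑ a, Om b a i • EuclideanSpace.single a (1 : ℝ) := by
    ext c
    simp [Om, Finset.sum_apply, Pi.single_apply]
  rw [pd, h1]
  change fderiv ℝ f (Ph b X y) (b.repr.symm (EuclideanSpace.single i 1)) = _
  rw [h3, h4, map_sum]
  refine Finset.sum_congr rfl fun a _ => ?_
  rw [map_smul, smul_eq_mul, pd]

theorem jac_Ph (y : E3) (a i : Fin 3) : jac (Ph b X) y a i = Om b a i := by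
  have h := pd_Ph b X (fun z => z a) i y
  simp only [jac, Matrix.of_apply]
  rw [h]
  simp only [pd_coord]
  simp

theorem pull_Ph (T : TensorField) (y : E3) (i j : Fin 3) :
    pullback (Ph b X) T y i j = ∑ c, Om b c i * ∑ a, Om b a j * T (Ph b X y) c a := by
  simp only [pullback, Matrix.mul_apply, Matrix.transpose_apply, jac_Ph, Fin.sum_univ_three]
  ring

theorem diff_comp {f : E3 → ℝ} (hf : DifferentiableAt ℝ f X) :
    DifferentiableAt ℝ (fun y => f (Ph b X y)) 0 := by
  have h : DifferentiableAt ℝ (Ph b X) 0 := (Ph_smooth b X 0).differentiableAt (by simp)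
  have hf' : DifferentiableAt ℝ f (Ph b X 0) := by rwa [Ph_zero]
  exact hf'.comp (0 : E3) h

theorem pd_lin (F : Fin 3 → E3 → ℝ) (hF : ∀ a, DifferentiableAt ℝ (F a) X) (i j : Fin 3) :
    pd i (fun y => ∑ a, Om b a j * F a (Ph b X y)) 0 =
      ∑ c, Om b c i * ∑ a, Om b a j * pd c (F a) X := by
  rw [pd_sum Finset.univ (fun a y => Om b a j * F a (Ph b X y))
    (fun a _ => (diff_comp b X (hF a)).const_mul _)]
  have h : ∀ a, pd i (fun y => Om b a j * F a (Ph b X y)) 0 =
      Om b a j * ∑ c, Om b c i * pd c (F a) X := by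
    intro a
    rw [pd_const_mul _ (diff_comp b X (hF a)), pd_Ph, Ph_zero]
  simp only [h, Fin.sum_univ_three]
  ring

theorem smooth_comp {f : E3 → ℝ} (hf : ContDiffAt ℝ ∞ f X) :
    ContDiffAt ℝ ∞ (fun y => f (Ph b X y)) 0 := by
  have hf' : ContDiffAt ℝ ∞ f (Ph b X 0) := by rwa [Ph_zero]
  exact hf'.comp (0 : E3) (Ph_smooth b X 0)

theorem smooth_pd {f : E3 → ℝ} {x : E3} (hf : ContDiffAt ℝ ∞ f x) (i : Fin 3) :
    ContDiffAt ℝ ∞ (pd i f) x := by
  have h : ContDiffAt ℝ ∞ (fderiv ℝ f) x := hf.fderiv_right (by simp)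
  exact h.clm_apply contDiffAt_const

theorem tendsto_Ph : Tendsto (Ph b X) (𝓝 0) (𝓝 X) := by
  have h := (Ph_smooth b X 0).continuousAt.tendsto
  rwa [Ph_zero] at h

end Rot

/-! ### The rotated data -/

theorem quad {O : Fin 3 → Fin 3 → ℝ} (hR : ∀ a b, ∑ i, O a i * O b i = dk a b)
    (T : Fin 3 → Fin 3 → ℝ) (u : Fin 3 → ℝ) :
    ∑ i, ∑ j, (∑ c, O c i * ∑ a, O a j * T c a) * (∑ a, O a i * u a) * (∑ a, O a j * u a) =
      ∑ i, ∑ j, T i j * u i * u j := by
  have h1 : ∀ i, ∑ j, (∑ c, O c i * ∑ a, O a j * T c a) * (∑ a, O a i * u a) *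
      (∑ a, O a j * u a) = (∑ a, O a i * u a) * ∑ c, O c i * ∑ a, T c a * u a := by
    intro i
    rw [← mulD hR T u i]
    rw [Finset.mul_sum]
    refine Finset.sum_congr rfl fun j _ => ?_
    ring
  simp only [h1]
  rw [dotA hR u (fun c => ∑ a, T c a * u a)]
  refine Finset.sum_congr rfl fun i _ => ?_
  rw [Finset.mul_sum]
  refine Finset.sum_congr rfl fun j _ => ?_
  ring

section Main

variable (b : OrthonormalBasis (Fin 3) ℝ E3) (X : E3) (d M : E3 → ℝ) (k : TensorField)

theorem xg_eq (y : E3) : xg (fun z => d (Ph b X z)) (fun z => M (Ph b X z)) y =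
    pullback (Ph b X) (xg d M) y := by
  ext i j
  rw [pull_Ph]
  simp only [xg, Matrix.of_apply, pd_Ph]
  have h1 : ∀ c, ∑ a, Om b a j * (dk c a + (M (Ph b X y) ^ 2 - 1) *
      (pd c d (Ph b X y) * pd a d (Ph b X y))) = Om b c j + (M (Ph b X y) ^ 2 - 1) *
      (pd c d (Ph b X y) * ∑ a, Om b a j * pd a d (Ph b X y)) := by
    intro c
    have h2 := sum_dk (fun a => Om b a j) c
    simp only [Fin.sum_univ_three] at h2 ⊢
    linear_combination h2
  simp only [h1]
  have h3 := hC b i j
  simp only [Fin.sum_univ_three] at h3 ⊢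
  linear_combination -h3

theorem xp_eq (y : E3) : xp (fun z => d (Ph b X z)) (pullback (Ph b X) k) y =
    xp d k (Ph b X y) := by
  simp only [xp, pd_Ph, pull_Ph]
  rw [trC (hR b) (k (Ph b X y)), quad (hR b) (k (Ph b X y)) (fun a => pd a d (Ph b X y))]

theorem xkm_eq (i : Fin 3) (y : E3) :
    xkm (fun z => d (Ph b X z)) (pullback (Ph b X) k) i y =
      ∑ a, Om b a i * xkm d k a (Ph b X y) := by
  simp only [xkm, pd_Ph, pull_Ph]
  rw [quad (hR b) (k (Ph b X y)) (fun a => pd a d (Ph b X y)),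
    mulD (hR b) (k (Ph b X y)) (fun a => pd a d (Ph b X y))]
  simp only [mul_sub, Finset.sum_sub_distrib, Finset.sum_mul, mul_assoc]

theorem xdata (h : XData d M k X) :
    XData (fun z => d (Ph b X z)) (fun z => M (Ph b X z)) (pullback (Ph b X) k) 0 where
  smooth_d := smooth_comp b X h.smooth_d
  smooth_M := smooth_comp b X h.smooth_M
  smooth_k := by
    intro i j
    simp only [pull_Ph]
    exact ContDiffAt.sum fun c _ => contDiffAt_const.mul
      (ContDiffAt.sum fun a _ => contDiffAt_const.mul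
        (smooth_comp b X (f := fun Y => k Y c a) (h.smooth_k c a)))
  symm_k := by
    filter_upwards [(tendsto_Ph b X).eventually h.symm_k] with y hy
    rw [Matrix.IsSymm, pullback, Matrix.transpose_mul, Matrix.transpose_mul,
      Matrix.transpose_transpose, hy.eq, Matrix.mul_assoc]
  pos_M := by
    rw [Ph_zero]
    exact h.pos_M
  eikonal := by
    filter_upwards [(tendsto_Ph b X).eventually h.eikonal] with y hy
    rw [← hy]
    simp only [pd_Ph, sq]
    exact dotA (hR b) (fun a => pd a d (Ph b X y)) (fun a => pd a d (Ph b X y))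

theorem changeAt (h : XData d M k X) :
    ChangeAt (Ph b X) (xg d M) (xg (fun z => d (Ph b X z)) (fun z => M (Ph b X z))) 0 where
  smooth := Ph_smooth b X 0
  smooth_G := by
    intro i j
    rw [Ph_zero]
    simp only [xg, Matrix.of_apply]
    exact contDiffAt_const.add (((h.smooth_M.pow 2).sub contDiffAt_const).mul
      ((smooth_pd h.smooth_d i).mul (smooth_pd h.smooth_d j)))
  symm_G := by
    filter_upwards with y
    ext i j
    simp only [xg, Matrix.transpose_apply, Matrix.of_apply, dk]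
    rw [mul_comm (pd j d y)]
    congr 1
    simp only [eq_comm]
  det_G := by
    rw [Ph_zero]
    have h1 := h.eikonal.self_of_nhds
    have h2 : (xg d M X).det = M X ^ 2 := by
      rw [Matrix.det_fin_three]
      simp only [xg, Matrix.of_apply, dk, Fin.sum_univ_three] at h1 ⊢
      simp
      linear_combination (M X ^ 2 - 1) * h1
    rw [h2]
    exact pow_ne_zero 2 h.pos_M.ne'
  det_jac := by
    have h1 : (jac (Ph b X) 0).transpose * jac (Ph b X) 0 = 1 := by
      ext i j
      rw [Matrix.mul_apply, Matrix.one_apply]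
      simp only [Matrix.transpose_apply, jac_Ph]
      exact hC b i j
    have h2 := congrArg Matrix.det h1
    rw [Matrix.det_mul, Matrix.det_one] at h2
    intro h3
    rw [h3, mul_zero] at h2
    exact zero_ne_one h2
  eq := by
    filter_upwards with y
    exact xg_eq b X d M y

end Main

/-- An orthonormal basis with a given third vector. -/
theorem exists_basis (m : Fin 3 → ℝ) (hm : ∑ i, m i ^ 2 = 1) :
    ∃ b : OrthonormalBasis (Fin 3) ℝ E3, ∀ a, Om b a 2 = m a := by
  let v : Fin 3 → E3 := fun _ => WithLp.toLp 2 m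
  have hv : Orthonormal ℝ (({2} : Set (Fin 3)).restrict v) := by
    constructor
    · intro i
      change ‖(WithLp.toLp 2 m : E3)‖ = 1
      rw [EuclideanSpace.norm_eq]
      simp only [Real.norm_eq_abs, sq_abs]
      rw [hm, Real.sqrt_one]
    · intro i j hij
      exact absurd (Subtype.ext (by rw [i.2, j.2])) hij
  obtain ⟨b, hb⟩ := Orthonormal.exists_orthonormalBasis_extension_of_card_eq
    (𝕜 := ℝ) (E := E3) (ι := Fin 3) (by simp) hv
  refine ⟨b, fun a => ?_⟩
  rw [Om, hb 2 rfl]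

end XJaux

open XJaux in
/-- The momentum density. -/
theorem XJ (hCOVJ : Stmt_COVJ) (hXJ3 : Stmt_XJ3) (hXEIK : Stmt_XEIK) : Stmt_XJ := by
  intro d M k X hX
  obtain ⟨b, hb⟩ := exists_basis (fun i => pd i d X) hX.eikonal.self_of_nhds
  have hX' := xdata b X d M k hX
  have hCh := changeAt b X d M k hX
  have hJ := (hCOVJ (Ph b X) (xg d M) _ k (pullback (Ph b X) k) 0 hCh
    (by
      intro i j
      rw [Ph_zero]
      exact hX.smooth_k i j) (Filter.Eventually.of_forall fun _ => rfl)).2.2 2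
  simp only [jac_Ph, hb, Ph_zero] at hJ
  have hg : ∀ i, pd i (fun z => d (Ph b X z)) 0 = dk i 2 := by
    intro i
    rw [pd_Ph, Ph_zero]
    have h1 := hC b i 2
    simp only [hb] at h1
    exact h1
  have h3 := hXJ3 _ _ _ 0 hX' (by rw [hg]; simp [dk]) (by rw [hg]; simp [dk])
    (by rw [hg]; simp [dk])
  rw [hJ] at h3
  rw [h3]
  have hd : ∀ a, DifferentiableAt ℝ (pd a d) X := fun a =>
    (smooth_pd hX.smooth_d a).differentiableAt (by simp)
  have hk : ∀ i j, DifferentiableAt ℝ (fun Y => k Y i j) X := fun i j =>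
    (hX.smooth_k i j).differentiableAt (by simp)
  have hkm : ∀ a, DifferentiableAt ℝ (xkm d k a) X := by
    intro a
    have e : xkm d k a = fun Y => (∑ j, k Y a j * pd j d Y) - pd a d Y *
        ∑ j, ∑ l, k Y j l * pd j d Y * pd l d Y := rfl
    rw [e]
    exact (DifferentiableAt.fun_sum fun j _ => (hk a j).mul (hd j)).sub
      ((hd a).mul (DifferentiableAt.fun_sum fun j _ => DifferentiableAt.fun_sum fun l _ =>
        ((hk j l).mul (hd j)).mul (hd l)))
  have e1 : pd 2 (xp (fun z => d (Ph b X z)) (pullback (Ph b X) k)) 0 =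
      ∑ i, pd i d X * pd i (xp d k) X := by
    have : xp (fun z => d (Ph b X z)) (pullback (Ph b X) k) = fun y => xp d k (Ph b X y) :=
      funext (xp_eq b X d k)
    rw [this, pd_Ph, Ph_zero]
    simp only [hb]
  have hpd : ∀ j, pd j (fun z => d (Ph b X z)) = fun y => ∑ a, Om b a j * pd a d (Ph b X y) :=
    fun j => funext fun y => pd_Ph b X d j y
  have e2 : ∀ i j, pd i (pd j (fun z => d (Ph b X z))) 0 =
      ∑ c, Om b c i * ∑ a, Om b a j * pd c (pd a d) X := by
    intro i j
    rw [hpd]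
    exact pd_lin b X (fun a => pd a d) hd i j
  have e3 : xH (fun z => d (Ph b X z)) 0 = xH d X := by
    simp only [xH, e2]
    exact trC (hR b) (fun c a => pd c (pd a d) X)
  have e4 : pullback (Ph b X) k 0 2 2 = ∑ i, ∑ j, k X i j * pd i d X * pd j d X := by
    rw [pull_Ph, Ph_zero]
    simp only [hb, Finset.mul_sum]
    refine Finset.sum_congr rfl fun i _ => Finset.sum_congr rfl fun j _ => ?_
    ring
  have e5 : ∑ i, ∑ j, pd i (pd j (fun z => d (Ph b X z))) 0 * pullback (Ph b X) k 0 i j =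
      ∑ i, ∑ j, pd i (pd j d) X * k X i j := by
    simp only [e2, pull_Ph, Ph_zero]
    exact dotB (hR b) (fun c a => pd c (pd a d) X) (fun c a => k X c a)
  have hx : ∀ i, xkm (fun z => d (Ph b X z)) (pullback (Ph b X) k) i =
      fun y => ∑ a, Om b a i * xkm d k a (Ph b X y) := fun i => funext (xkm_eq b X d k i)
  have e6 : ∑ i, pd i (xkm (fun z => d (Ph b X z)) (pullback (Ph b X) k) i) 0 =
      ∑ i, pd i (xkm d k i) X := by
    simp only [hx]
    simp only [pd_lin b X (fun a => xkm d k a) hkm]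
    exact trC (hR b) (fun c a => pd c (xkm d k a) X)
  have e7 : ∑ i, xkm (fun z => d (Ph b X z)) (pullback (Ph b X) k) i 0 *
      pd i (fun Y => Real.log (M (Ph b X Y))) 0 =
      ∑ i, xkm d k i X * pd i (fun Y => Real.log (M Y)) X := by
    have h5 : ∀ i, pd i (fun Y => Real.log (M (Ph b X Y))) 0 =
        ∑ a, Om b a i * pd a (fun Y => Real.log (M Y)) X := by
      intro i
      rw [pd_Ph b X (fun Y => Real.log (M Y)), Ph_zero]
    simp only [hx, h5, Ph_zero]
    exact dotA (hR b) (fun a => xkm d k a X) (fun a => pd a (fun Y => Real.log (M Y)) X)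
  rw [e1, e3, e4, e5, e6, e7, Ph_zero]

end Pool.Agent.PenroseConvex
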